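import Pool.Agent.W_3f3beb_h76.CohA

/-! # Lower bound for the first cohomology with constant coefficients -/

set_option autoImplicit false

open scoped Classical

namespace PDG

variable (p : ℕ) [Fact p.Prime] (H : Type) [Group H]
variable {ι₀ ι₁ ι₂ : Type} [Fintype ι₀] [Fintype ι₁] [Fintype ι₂]
variable (D0 : Matrix ι₁ ι₀ (MonoidAlgebra ℤ H)) (D1 : Matrix ι₂ ι₁ (MonoidAlgebra ℤ H))
variable (e : ι₀ → ℤ)

/-- the function given by a homomorphism to `F_p` -/
def CohD_fn (θ : Additive H →+ ZMod p) : H → ZMod p := fun x => θ (Additive.ofMul x)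

theorem CohD_fn_mem (θ : Additive H →+ ZMod p) : CohD_fn p H θ ∈ Nn p H 2 := by
  rw [mem_Nn_succ]
  intro g
  refine (mem_Nn_one p H _).2 ⟨CohD_fn p H θ g, ?_⟩
  funext x
  have h1 : tr p H g (CohD_fn p H θ) x = CohD_fn p H θ (x * g) := rfl
  have h2 : CohD_fn p H θ (x * g) = CohD_fn p H θ x + CohD_fn p H θ g := by
    unfold CohD_fn
    rw [ofMul_mul, map_add]
  rw [Pi.sub_apply, h1, h2]
  ring

/-- the vector of functions `e j • θ` -/
noncomputable def CohD_psi : (Additive H →+ ZMod p) →ₗ[ZMod p] (ι₀ → H → ZMod p) where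
  toFun θ := fun j => ((e j : ℤ) : ZMod p) • CohD_fn p H θ
  map_add' θ θ' := by
    funext j x
    simp only [CohD_fn, AddMonoidHom.add_apply, Pi.smul_apply, smul_eq_mul, Pi.add_apply]
    ring
  map_smul' r θ := by
    funext j x
    simp only [CohD_fn, Pi.smul_apply, smul_eq_mul, RingHom.id_apply]
    have : (r • θ) (Additive.ofMul x) = r * θ (Additive.ofMul x) := rfl
    rw [this]
    ring

theorem CohD_hm_psi (θ : Additive H →+ ZMod p) (x : ι₀ → MonoidAlgebra ℤ H) :
    hm p H (CohD_psi p H e θ) x - ((eps e x : ℤ) : ZMod p) • CohD_fn p H θ ∈ Nn p H 1 := by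
  have h1 : hm p H (CohD_psi p H e θ) x - ((eps e x : ℤ) : ZMod p) • CohD_fn p H θ =
      ∑ j, ((e j : ℤ) : ZMod p) • (act p H (x j) (CohD_fn p H θ) -
        ((aug H (x j) : ℤ) : ZMod p) • CohD_fn p H θ) := by
    have h2 : ((eps e x : ℤ) : ZMod p) • CohD_fn p H θ =
        ∑ j, ((e j : ℤ) : ZMod p) • ((aug H (x j) : ℤ) : ZMod p) • CohD_fn p H θ := by
      unfold eps
      push_cast
      rw [Finset.sum_smul]
      refine Finset.sum_congr rfl fun j _ => ?_
      rw [smul_smul, mul_comm]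
    rw [h2]
    unfold hm
    rw [← Finset.sum_sub_distrib]
    refine Finset.sum_congr rfl fun j _ => ?_
    have h3 : CohD_psi p H e θ j = ((e j : ℤ) : ZMod p) • CohD_fn p H θ := rfl
    rw [h3, map_smul, smul_sub]
  rw [h1]
  refine Submodule.sum_mem _ fun j _ => Submodule.smul_mem _ _ ?_
  exact act_sub_mem p H 1 (x j) _ (CohD_fn_mem p H θ)

theorem CohD_hm_sub_left {ι : Type} [Fintype ι] (u v : ι → H → ZMod p)
    (x : ι → MonoidAlgebra ℤ H) : hm p H (u - v) x = hm p H u x - hm p H v x := by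
  unfold hm
  rw [← Finset.sum_sub_distrib]
  refine Finset.sum_congr rfl fun j _ => ?_
  rw [Pi.sub_apply, map_sub]

theorem CohD_hm_mem {ι : Type} [Fintype ι] (m : ℕ) (u : ι → H → ZMod p)
    (hu : u ∈ Xm p H ι m) (x : ι → MonoidAlgebra ℤ H) : hm p H u x ∈ Nn p H m := by
  unfold Xm at hu
  rw [Submodule.mem_pi] at hu
  exact Submodule.sum_mem _ fun j _ => act_mem p H m (x j) _ (hu j (Set.mem_univ j))

theorem CohD_mul_zero (h : PRes D0 D1 e) : D1 * D0 = 0 := by
  ext1 k j
  have h1 : Matrix.vecMul (D1 k) D0 = 0 := by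
    rw [h.ex1]
    refine ⟨Pi.single k 1, ?_⟩
    rw [Matrix.single_one_vecMul]
    rfl
  exact congrFun h1 j

theorem CohD_eps_row (h : PRes D0 D1 e) (k : ι₁) : eps e (D0 k) = 0 := by
  rw [h.ex0]
  refine ⟨Pi.single k 1, ?_⟩
  rw [Matrix.single_one_vecMul]
  rfl

theorem CohD_Xm_one_finite (β : Type) [Fintype β] :
    Module.Finite (ZMod p) (Xm p H β 1) := by
  let T : (β → ZMod p) →ₗ[ZMod p] (β → H → ZMod p) :=
    { toFun := fun c j _ => c j
      map_add' := fun _ _ => rfl
      map_smul' := fun _ _ => rfl }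
  have h1 : Xm p H β 1 ≤ LinearMap.range T := by
    intro u hu
    unfold Xm at hu
    rw [Submodule.mem_pi] at hu
    choose c hc using fun j => (mem_Nn_one p H (u j)).1 (hu j (Set.mem_univ j))
    exact ⟨c, funext fun j => (hc j).symm⟩
  exact Submodule.finiteDimensional_of_le h1

/-- PROOF. For a homomorphism `θ : H → F_p` (a function in `N_2`) let `u j = e j • θ`, `v = del D0 u`: `v l = hm u (D0 l)` with `eps e (D0 l) = 0`; `hm u x = eps e x • θ + constant`, so `v` is a vector of constants, `del D1 v = 0` (`D1 D0 = 0`).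
The map `θ ↦ v` is linear and `v ∈ del D0 (Xm 1)` only if `θ = 0`: if `v = del D0 c`, `hm (u - c)` is zero on `K`, so it is `eps e x • f` with `f` constant (as in `h0_eq`); at `x₀`: `θ = constant`, so `θ = 0`. Hence `dp + dim del D0 (Xm 1) ≤ dim (ker (del D1) ⊓ Xm 1)`. -/
theorem h1_ge (hH : Group.FG H) (h : PRes D0 D1 e) :
    dp p H + Module.finrank (ZMod p) ((Xm p H ι₀ 1).map (del p H D0)) ≤
      Module.finrank (ZMod p) (LinearMap.ker (del p H D1) ⊓ Xm p H ι₁ 1 :
        Submodule (ZMod p) (ι₁ → H → ZMod p)) := by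
  set V : Submodule (ZMod p) (ι₁ → H → ZMod p) :=
    LinearMap.ker (del p H D1) ⊓ Xm p H ι₁ 1 with hV
  set M : Submodule (ZMod p) (ι₁ → H → ZMod p) := (Xm p H ι₀ 1).map (del p H D0) with hM
  set T : (Additive H →+ ZMod p) →ₗ[ZMod p] (ι₁ → H → ZMod p) :=
    (del p H D0).comp (CohD_psi p H e) with hT
  have hz := CohD_mul_zero H D0 D1 e h
  have hker : ∀ u, del p H D1 (del p H D0 u) = 0 := by
    intro u
    rw [← del_mul, hz]
    funext k
    rw [CohA_del_apply]
    refine Finset.sum_eq_zero fun j _ => ?_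
    rw [Matrix.zero_apply, map_zero, LinearMap.zero_apply]
  have hrow : ∀ (u : ι₀ → H → ZMod p) (k : ι₁), del p H D0 u k = hm p H u (D0 k) := by
    intro u k
    rw [CohA_del_apply]
    rfl
  have finX : Module.Finite (ZMod p) (Xm p H ι₁ 1) := CohD_Xm_one_finite p H ι₁
  have finX0 : Module.Finite (ZMod p) (Xm p H ι₀ 1) := CohD_Xm_one_finite p H ι₀
  have finV : Module.Finite (ZMod p) V := Submodule.finiteDimensional_of_le inf_le_right
  have hTV : LinearMap.range T ≤ V := by
    rintro _ ⟨θ, rfl⟩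
    refine ⟨?_, ?_⟩
    · rw [SetLike.mem_coe, LinearMap.mem_ker]
      exact hker _
    · rw [SetLike.mem_coe]
      unfold Xm
      rw [Submodule.mem_pi]
      intro k _
      have h1 : T θ k = hm p H (CohD_psi p H e θ) (D0 k) := hrow _ k
      have h2 := CohD_hm_psi p H e θ (D0 k)
      rw [CohD_eps_row H D0 D1 e h k, Int.cast_zero, zero_smul, sub_zero] at h2
      rw [h1]
      exact h2
  have hMV : M ≤ V := by
    rintro _ ⟨u, hu, rfl⟩
    refine ⟨?_, ?_⟩
    · rw [SetLike.mem_coe, LinearMap.mem_ker]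
      exact hker _
    · exact del_mem p H D0 1 u hu
  have hdis : ∀ θ, T θ ∈ M → θ = 0 := by
    intro θ hθ
    obtain ⟨c, hc, hc2⟩ := hθ
    have hc2' : del p H D0 c = T θ := hc2
    have hw : del p H D0 (CohD_psi p H e θ - c) = 0 := by
      rw [map_sub, hc2', sub_eq_zero]
      rfl
    obtain ⟨x₀, hx₀⟩ := h.surj
    have hk : ∀ x, eps e x = 0 → hm p H (CohD_psi p H e θ - c) x = 0 := by
      intro x hx
      obtain ⟨y, rfl⟩ := (h.ex0 x).1 hx
      rw [hm_vecMul, hw, CohA_hm_zero]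
    obtain ⟨f, hf⟩ := CohA_factor p H e x₀ hx₀ _ hk
    have h1 := hf x₀
    have h2 := CohD_hm_psi p H e θ x₀
    rw [hx₀, Int.cast_one, one_smul] at h2
    have h3 := CohD_hm_mem p H 1 c hc x₀
    obtain ⟨c2, e2⟩ := (mem_Nn_one p H _).1 h2
    obtain ⟨c3, e3⟩ := (mem_Nn_one p H _).1 h3
    rw [CohD_hm_sub_left] at h1
    have h4 : ∀ x, CohD_fn p H θ x = CohD_fn p H θ 1 := by
      intro x
      have a1 := congrFun e2 x
      have a2 := congrFun e2 1
      have b1 := congrFun e3 x
      have b2 := congrFun e3 1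
      have d1 := congrFun h1 x
      have d2 := congrFun h1 1
      simp only [Pi.sub_apply] at a1 a2 d1 d2
      linear_combination d1 - d2 - a1 + a2 + b1 - b2
    have h5 : CohD_fn p H θ 1 = 0 := by
      unfold CohD_fn
      rw [ofMul_one, map_zero]
    ext x
    have := h4 (Additive.toMul x)
    rw [h5] at this
    exact this
  have hinj : Function.Injective T := by
    rw [← LinearMap.ker_eq_bot, LinearMap.ker_eq_bot']
    intro θ hθ
    refine hdis θ ?_
    rw [hθ]
    exact Submodule.zero_mem _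
  have finR : Module.Finite (ZMod p) (LinearMap.range T) :=
    Submodule.finiteDimensional_of_le hTV
  have finM : Module.Finite (ZMod p) M := Submodule.finiteDimensional_of_le hMV
  have hinf : LinearMap.range T ⊓ M = ⊥ := by
    rw [Submodule.eq_bot_iff]
    rintro x ⟨⟨θ, rfl⟩, hx⟩
    rw [hdis θ hx, map_zero]
  have h1 := Submodule.finrank_sup_add_finrank_inf_eq (LinearMap.range T) M
  rw [hinf, finrank_bot, add_zero, LinearMap.finrank_range_of_inj hinj] at h1
  have h2 : Module.finrank (ZMod p) (LinearMap.range T ⊔ M : Submodule (ZMod p)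
      (ι₁ → H → ZMod p)) ≤ Module.finrank (ZMod p) V :=
    Submodule.finrank_mono (sup_le hTV hMV)
  rw [h1] at h2
  exact h2

end PDG
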