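import Pool.Agent.W_3f3beb_h76.Defs

/-! # The numbers `dp`, and the properties `FAb`, `RK` -/

set_option autoImplicit false

open scoped Classical

namespace PDG

variable {L : Type} [Group L]

/-- PROOF. a homomorphism is determined by its values on a finite generating set. -/
theorem hom_finite (p : ℕ) [Fact p.Prime] (hL : Group.FG L) :
    Module.Finite (ZMod p) (Additive L →+ ZMod p) := by
  obtain ⟨S, hS, hfin⟩ := Group.fg_iff.1 hL
  have : Finite S := hfin
  let φ : (Additive L →+ ZMod p) →ₗ[ZMod p] (S → ZMod p) :=
    { toFun := fun f s => f (Additive.ofMul (s : L))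
      map_add' := fun f g => rfl
      map_smul' := fun c f => rfl }
  refine Module.Finite.of_injective φ fun f g hfg => ?_
  have h1 : (AddMonoidHom.toMultiplicativeRight f : L →* Multiplicative (ZMod p)) =
      AddMonoidHom.toMultiplicativeRight g := by
    refine MonoidHom.eq_of_eqOn_dense hS fun s hs => ?_
    exact congrArg Multiplicative.ofAdd (congrFun hfg ⟨s, hs⟩)
  exact AddMonoidHom.toMultiplicativeRight.injective h1

/-- composition with a homomorphism -/
def DpA_comp (p : ℕ) [Fact p.Prime] {L' : Type} [Group L'] (f : L →* L') :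
    (Additive L' →+ ZMod p) →ₗ[ZMod p] (Additive L →+ ZMod p) where
  toFun g := g.comp (MonoidHom.toAdditive f)
  map_add' _ _ := rfl
  map_smul' _ _ := rfl

theorem DpA_inj (p : ℕ) [Fact p.Prime] {L' : Type} [Group L'] (f : L →* L')
    (hf : Function.Surjective f) : Function.Injective (DpA_comp p f) := by
  intro g h hgh
  refine AddMonoidHom.ext fun x => ?_
  obtain ⟨y, hy⟩ := hf x.toMul
  have h1 := DFunLike.congr_fun hgh (Additive.ofMul y)
  have h2 : g (Additive.ofMul (f y)) = h (Additive.ofMul (f y)) := h1
  rw [hy] at h2
  exact h2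

theorem dp_congr (p : ℕ) [Fact p.Prime] {L' : Type} [Group L'] (e : L ≃* L') :
    dp p L = dp p L' := by
  refine LinearEquiv.finrank_eq (LinearEquiv.ofLinearMap (DpA_comp p e.symm.toMonoidHom)
    (DpA_comp p e.toMonoidHom) ?_ ?_)
  · refine LinearMap.ext fun g => AddMonoidHom.ext fun x => ?_
    exact congrArg (fun y : L' => g (Additive.ofMul y)) (e.apply_symm_apply x.toMul)
  · refine LinearMap.ext fun g => AddMonoidHom.ext fun x => ?_
    exact congrArg (fun y : L => g (Additive.ofMul y)) (e.symm_apply_apply x.toMul)

/-- PROOF. composition with `f` is injective and linear -/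
theorem dp_le_of_surjective (p : ℕ) [Fact p.Prime] (hL : Group.FG L) {L' : Type} [Group L']
    (f : L →* L') (hf : Function.Surjective f) : dp p L' ≤ dp p L := by
  have := hom_finite p hL
  exact LinearMap.finrank_le_finrank_of_injective (DpA_inj p f hf)

theorem DpA_fin {H : Subgroup L} (hH : H.FiniteIndex) (K : Subgroup H)
    (hK : K.FiniteIndex) : (K.map H.subtype).FiniteIndex :=
  ⟨by
    rw [Subgroup.index_map_subtype]
    exact mul_ne_zero hK.index_ne_zero hH.index_ne_zero⟩

/-- PROOF. a subgroup `K` of `H` of finite index is (isomorphic to) a subgroup of `L` of finite index -/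
theorem FAb.subgroup (h : FAb L) (H : Subgroup L) (hH : H.FiniteIndex) : FAb H := by
  intro K hK
  have h1 := h _ (DpA_fin hH K hK)
  exact Finite.of_equiv _
    (K.equivMapOfInjective H.subtype H.subtype_injective).symm.abelianizationCongr.toEquiv

theorem RK.subgroup {D : ℕ} (h : RK L D) (H : Subgroup L) (hH : H.FiniteIndex) : RK H D := by
  intro p _ K hK
  rw [dp_congr p (K.equivMapOfInjective H.subtype H.subtype_injective)]
  exact h p _ (DpA_fin hH K hK)

/-- PROOF. `|Hom(L, F_p)| = p ^ dp`, a finite vector space -/
theorem card_hom (p : ℕ) [Fact p.Prime] (hL : Group.FG L) :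
    Nat.card (Additive L →+ ZMod p) = p ^ dp p L := by
  have := hom_finite p hL
  have h1 := Module.natCard_eq_pow_finrank (K := ZMod p) (V := Additive L →+ ZMod p)
  rw [Nat.card_zmod] at h1
  exact h1

/-- PROOF. `V` is a vector space over `F_p` (as `x ^ p = 1`), `|V| = |Hom(V, F_p)| ≤ |Hom(L, F_p)| = p ^ dp p L`
(composition with the surjection is injective). -/
theorem card_elementary_le (p : ℕ) [Fact p.Prime] (hL : Group.FG L) {V : Type} [CommGroup V]
    (f : L →* V) (hf : Function.Surjective f) (hV : ∀ x : V, x ^ p = 1) :
    Nat.card V ≤ p ^ dp p L ∧ Finite V := by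
  let inst : Module (ZMod p) (Additive V) := AddCommGroup.zmodModule (n := p) fun x => hV x.toMul
  have hfin := hom_finite p hL
  have hV1 : Group.FG V := by
    have := hL
    exact Group.fg_of_surjective hf
  obtain ⟨S, hS, hSfin⟩ := Group.fg_iff.1 hV1
  have hV2 : Module.Finite (ZMod p) (Additive V) := by
    refine ⟨⟨(hSfin.toFinset.image Additive.ofMul), ?_⟩⟩
    rw [eq_top_iff]
    intro x _
    have hx : x.toMul ∈ Subgroup.closure S := by rw [hS]; trivial
    have key : ∀ y ∈ Subgroup.closure S, Additive.ofMul y ∈
        Submodule.span (ZMod p) ((hSfin.toFinset.image Additive.ofMul : Finset (Additive V)) :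
          Set (Additive V)) := by
      intro y hy
      induction hy using Subgroup.closure_induction with
      | mem z hz =>
        refine Submodule.subset_span ?_
        rw [Finset.coe_image]
        exact ⟨z, by simpa using hz, rfl⟩
      | one => exact zero_mem _
      | mul a b _ _ ha hb => exact add_mem ha hb
      | inv a _ ha => exact neg_mem ha
    exact key _ hx
  let φ : Module.Dual (ZMod p) (Additive V) →ₗ[ZMod p] (Additive L →+ ZMod p) :=
    { toFun := fun g => g.toAddMonoidHom.comp (MonoidHom.toAdditive f)
      map_add' := fun _ _ => rfl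
      map_smul' := fun _ _ => rfl }
  have hφ : Function.Injective φ := by
    intro g h hgh
    refine LinearMap.ext fun x => ?_
    obtain ⟨y, hy⟩ := hf x.toMul
    have h1 := DFunLike.congr_fun hgh (Additive.ofMul y)
    have h2 : g (Additive.ofMul (f y)) = h (Additive.ofMul (f y)) := h1
    rw [hy] at h2
    exact h2
  have h1 := LinearMap.finrank_le_finrank_of_injective hφ
  rw [Subspace.dual_finrank_eq] at h1
  have h2 := Module.natCard_eq_pow_finrank (K := ZMod p) (V := Additive V)
  rw [Nat.card_zmod] at h2
  refine ⟨?_, ?_⟩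
  · have h3 : Nat.card V = Nat.card (Additive V) := rfl
    rw [h3, h2]
    exact Nat.pow_le_pow_right (Fact.out : p.Prime).pos h1
  · have : Finite (Additive V) := Module.finite_of_finite (ZMod p)
    exact this

end PDG
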