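import Pool.Agent.W_3f3beb_h76.PnC

/-! # The subgroup T -/

set_option autoImplicit false

open scoped Classical

namespace PDG

variable {L : Type} [Group L] (p : ℕ) [Fact p.Prime]

theorem PnD_sInf (F : Set (Subgroup L)) (hF : F.Finite) (h : ∀ M ∈ F, PN p M) :
    PN p (sInf F) := by
  induction F, hF using Set.Finite.induction_on with
  | empty =>
    rw [sInf_empty]
    exact ⟨inferInstance, 0, by rw [Subgroup.index_top, pow_zero]⟩
  | insert _ _ ih =>
    rw [sInf_insert]
    exact PN.inf p (h _ (Set.mem_insert _ _)) (ih fun M hM => h M (Set.mem_insert_of_mem _ hM))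

/-- the ranks of the subgroups of a quotient -/
theorem PnD_dp (hL : Group.FG L) (r : ℕ) (hr : ∀ H : Subgroup L, H.FiniteIndex → dp p H ≤ r)
    (M : Subgroup L) [M.Normal] (hM : M.FiniteIndex) (Q : Subgroup (L ⧸ M)) : dp p Q ≤ r := by
  have hle : M ≤ Q.comap (QuotientGroup.mk' M) := by
    intro x hx
    rw [Subgroup.mem_comap, QuotientGroup.mk'_apply, (QuotientGroup.eq_one_iff x).2 hx]
    exact one_mem Q
  have hfin : (Q.comap (QuotientGroup.mk' M)).FiniteIndex := Subgroup.finiteIndex_of_le hle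
  have hfg : Group.FG (Q.comap (QuotientGroup.mk' M)) := by
    have := hL
    exact Subgroup.fg_of_index_ne_zero _
  exact (dp_le_of_surjective p hfg ((QuotientGroup.mk' M).subgroupComap Q)
    ((QuotientGroup.mk' M).subgroupComap_surjective_of_surjective Q
      (QuotientGroup.mk'_surjective M))).trans (hr _ hfin)

/-- PROOF. `c` from `card_le_of_rank`, `T` = intersection of the finitely many (`finite_index_le`) normal subgroups of `p`-power index `≤ c!`. For `N' ≤ N` (`PN`), `N'' = pw (p^2) N ⊔ N'` is normal, `PN`. `P = N/N''` is a finite `p`-group of exponent dividing `p^2`; its subgroups are quotients of finite index subgroups of `L`, so have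
`dp ≤ r` (`dp_le_of_surjective`): `|P| ≤ c`. `L` acts on `P` by conjugation; the image is a `p`-group (a quotient of `L/N''`) of order `≤ c!`; so the kernel is normal of `p`-power index `≤ c!` and contains `T`: `⁅N, T⁆ ≤ N''`. -/
theorem exists_T (hL : Group.FG L) (r : ℕ)
    (hr : ∀ H : Subgroup L, H.FiniteIndex → dp p H ≤ r) :
    ∃ T : Subgroup L, PN p T ∧ ∀ N N' : Subgroup L, PN p N → PN p N' → N' ≤ N →
      ⁅N, T⁆ ≤ pw (p ^ 2) N ⊔ N' := by
  obtain ⟨c, hc⟩ := card_le_of_rank p r
  set F : Set (Subgroup L) := {M | PN p M ∧ M.index ≤ c.factorial} with hF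
  have hFfin : F.Finite := (finite_index_le hL c.factorial).subset fun M hM =>
    ⟨(PN.finiteIndex p hM.1).index_ne_zero, hM.2⟩
  refine ⟨sInf F, PnD_sInf p F hFfin fun M hM => hM.1, fun N N' hN hN' hle => ?_⟩
  set M : Subgroup L := pw (p ^ 2) N ⊔ N' with hMdef
  have hN'n : N'.Normal := hN'.1
  have hNn : N.Normal := hN.1
  have hpwn : (pw (p ^ 2) N).Normal := pw_normal _ _ hN.1
  have hMn : M.Normal := Subgroup.sup_normal _ _
  have hMP : PN p M := PN.of_le p hN' hMn le_sup_right
  have hMf : M.FiniteIndex := PN.finiteIndex p hMP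
  set P : Subgroup (L ⧸ M) := N.map (QuotientGroup.mk' M) with hP
  have hPn : P.Normal := hNn.map _ (QuotientGroup.mk'_surjective M)
  have hfinQ : Finite (L ⧸ M) := inferInstance
  have hPp : IsPGroup p P := (PN.isPGroup p hMP hMn).to_subgroup P
  have hPe : ∀ x : P, x ^ (p ^ 2) = 1 := by
    rintro ⟨x, hx⟩
    have h1 : x ^ (p ^ 2) = 1 := by
      obtain ⟨n, hn, rfl⟩ := hx
      rw [← map_pow, QuotientGroup.mk'_apply, QuotientGroup.eq_one_iff]
      exact (le_sup_left : pw (p ^ 2) N ≤ M) (Subgroup.subset_closure ⟨n, hn, rfl⟩)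
    exact Subtype.ext h1
  have hPr : ∀ Q : Subgroup P, dp p Q ≤ r := by
    intro Q
    rw [dp_congr p (Q.equivMapOfInjective P.subtype P.subtype_injective)]
    exact PnD_dp p hL r hr M hMf _
  have hcard : Nat.card P ≤ c := hc P hPp hPe hPr
  set φ : L →* MulAut P := MulAut.conjNormal.comp (QuotientGroup.mk' M) with hφ
  have hMφ : M ≤ φ.ker := by
    intro x hx
    rw [MonoidHom.mem_ker, hφ, MonoidHom.comp_apply, QuotientGroup.mk'_apply,
      (QuotientGroup.eq_one_iff x).2 hx, map_one]
  have hφF : φ.ker ∈ F := by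
    refine ⟨PN.of_le p hMP inferInstance hMφ, ?_⟩
    rw [Subgroup.index_ker]
    refine le_trans ?_ (Nat.factorial_le hcard)
    rw [← Nat.card_perm]
    refine Nat.card_le_card_of_injective
      (fun f : φ.range => (f : MulAut P).toEquiv) fun f g hfg => ?_
    exact Subtype.ext (MulEquiv.toEquiv_injective hfg)
  rw [Subgroup.commutator_le]
  intro n hn t ht
  have ht' : t ∈ φ.ker := (sInf_le hφF : sInf F ≤ φ.ker) ht
  rw [MonoidHom.mem_ker] at ht'
  have h1 := congrArg (fun f : MulAut P => ((f ⟨QuotientGroup.mk' M n, ⟨n, hn, rfl⟩⟩ : P) : L ⧸ M))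
    ht'
  simp only [hφ, MonoidHom.comp_apply, MulAut.conjNormal_apply, MulAut.one_apply] at h1
  rw [← QuotientGroup.eq_one_iff (N := M), commutatorElement_def]
  have h2 : ((n * t * n⁻¹ * t⁻¹ : L) : L ⧸ M) = QuotientGroup.mk' M n * (QuotientGroup.mk' M t *
      (QuotientGroup.mk' M n)⁻¹ * (QuotientGroup.mk' M t)⁻¹) := by
    simp only [QuotientGroup.mk'_apply, QuotientGroup.mk_mul, QuotientGroup.mk_inv, mul_assoc]
  have h3 : QuotientGroup.mk' M t * (QuotientGroup.mk' M n)⁻¹ * (QuotientGroup.mk' M t)⁻¹ =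
      (QuotientGroup.mk' M t * QuotientGroup.mk' M n * (QuotientGroup.mk' M t)⁻¹)⁻¹ := by
    group
  rw [h2, h3, h1, mul_inv_cancel]

end PDG
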