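import Pool.Agent.W_3f3beb_h76.GrB
import Pool.Agent.W_3f3beb_h76.DpA

/-! # Milnor's lemma -/

set_option autoImplicit false

open scoped Classical

namespace PDG

variable {L : Type} [Group L]

theorem MilA_wd_append (g h : L) (u v : List Bool) : wd g h (u ++ v) = wd g h u * wd g h v := by
  simp [wd]

/-- `wd (t s) t w = q t^n`, `n` the length of `w`, with `q` in the group generated by
`s_1, ..., s_n` -/
theorem MilA_word (t s : L) (w : List Bool) :
    wd (t * s) t w * (t ^ w.length)⁻¹ ∈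
      Subgroup.closure {x : L | ∃ j : ℕ, 1 ≤ j ∧ j < w.length + 1 ∧ x = t ^ j * s * (t ^ j)⁻¹} := by
  induction w using List.reverseRecOn with
  | nil =>
    have h1 : wd (t * s) t [] * (t ^ ([] : List Bool).length)⁻¹ = 1 := by simp [wd]
    rw [h1]
    exact Subgroup.one_mem _
  | append_singleton w b ih =>
    have hmono : Subgroup.closure {x : L | ∃ j : ℕ, 1 ≤ j ∧ j < w.length + 1 ∧
        x = t ^ j * s * (t ^ j)⁻¹} ≤ Subgroup.closure {x : L | ∃ j : ℕ, 1 ≤ j ∧
        j < (w ++ [b]).length + 1 ∧ x = t ^ j * s * (t ^ j)⁻¹} := by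
      refine Subgroup.closure_mono ?_
      rintro x ⟨j, h1, h2, h3⟩
      refine ⟨j, h1, ?_, h3⟩
      rw [List.length_append, List.length_singleton]
      omega
    have h1 : wd (t * s) t (w ++ [b]) * (t ^ (w ++ [b]).length)⁻¹ =
        (wd (t * s) t w * (t ^ w.length)⁻¹) *
          (t ^ w.length * (if b then t * s else t) * (t ^ (w.length + 1))⁻¹) := by
      rw [MilA_wd_append, List.length_append, List.length_singleton]
      simp only [wd, List.map_cons, List.map_nil, List.prod_cons, List.prod_nil, mul_one]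
      group
    rw [h1]
    refine Subgroup.mul_mem _ (hmono ih) ?_
    cases b with
    | false =>
      have h2 : t ^ w.length * (if false = true then t * s else t) * (t ^ (w.length + 1))⁻¹ =
          1 := by
        rw [if_neg (by simp), pow_succ]
        exact mul_inv_cancel _
      rw [h2]
      exact Subgroup.one_mem _
    | true =>
      refine Subgroup.subset_closure ⟨w.length + 1, by omega, ?_, ?_⟩
      · rw [List.length_append, List.length_singleton]
        omega
      · rw [if_pos rfl, pow_succ]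
        simp only [mul_assoc]

theorem MilA_key (t s : L) (u u' : List Bool) (hl : u.length = u'.length)
    (h : wd (t * s) t u * (t * s) = wd (t * s) t u' * t) :
    t ^ (u.length + 1) * s * (t ^ (u.length + 1))⁻¹ ∈
      Subgroup.closure {x : L | ∃ j : ℕ, 1 ≤ j ∧ j < u.length + 1 ∧
        x = t ^ j * s * (t ^ j)⁻¹} := by
  have h1 := MilA_word t s u
  have h2 := MilA_word t s u'
  rw [← hl] at h2
  have h3 : t ^ (u.length + 1) * s * (t ^ (u.length + 1))⁻¹ =
      (wd (t * s) t u * (t ^ u.length)⁻¹)⁻¹ * (wd (t * s) t u' * (t ^ u.length)⁻¹) := by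
    have h4 : wd (t * s) t u' = wd (t * s) t u * (t * s) * t⁻¹ := by
      rw [h]
      group
    rw [h4]
    group
  rw [h3]
  exact Subgroup.mul_mem _ (Subgroup.inv_mem _ h1) h2

theorem MilA_strip (t s : L) (w : List Bool) : ∀ w' : List Bool, w.length = w'.length →
    wd (t * s) t w = wd (t * s) t w' → w ≠ w' →
    ∃ k : ℕ, 1 ≤ k ∧ t ^ k * s * (t ^ k)⁻¹ ∈
      Subgroup.closure {x : L | ∃ j : ℕ, 1 ≤ j ∧ j < k ∧ x = t ^ j * s * (t ^ j)⁻¹} := by
  induction w using List.reverseRecOn with
  | nil =>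
    intro w' hl _ hne
    exact absurd (List.length_eq_zero_iff.1 hl.symm).symm hne
  | append_singleton u b ih =>
    intro w' hl hw hne
    rcases List.eq_nil_or_concat w' with h0 | ⟨u', b', h0⟩
    · rw [h0] at hl
      simp at hl
    · rw [List.concat_eq_append] at h0
      subst h0
      have hl' : u.length = u'.length := by
        simpa using hl
      rw [MilA_wd_append, MilA_wd_append] at hw
      have e1 : ∀ c : Bool, wd (t * s) t [c] = if c then t * s else t := by
        intro c
        simp [wd]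
      rw [e1, e1] at hw
      cases b with
      | false =>
        cases b' with
        | false =>
          have h2 := mul_right_cancel hw
          exact ih u' hl' h2 fun h => hne (by rw [h])
        | true =>
          rw [if_neg (by simp), if_pos rfl] at hw
          refine ⟨u'.length + 1, by omega, ?_⟩
          exact MilA_key t s u' u hl'.symm hw.symm
      | true =>
        cases b' with
        | false =>
          rw [if_pos rfl, if_neg (by simp)] at hw
          exact ⟨u.length + 1, by omega, MilA_key t s u u' hl' hw⟩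
        | true =>
          have h2 := mul_right_cancel hw
          exact ih u' hl' h2 fun h => hne (by rw [h])

theorem MilA_up (t s : L) (k : ℕ) (h : t ^ k * s * (t ^ k)⁻¹ ∈
      Subgroup.closure {x : L | ∃ j : ℕ, 1 ≤ j ∧ j < k ∧ x = t ^ j * s * (t ^ j)⁻¹})
    (C : Subgroup L) (hC : ∀ j < k, t ^ j * s * (t ^ j)⁻¹ ∈ C) (j : ℕ) :
    t ^ j * s * (t ^ j)⁻¹ ∈ C := by
  induction j using Nat.strong_induction_on with
  | _ j ih =>
    rcases Nat.lt_or_ge j k with hjk | hjk
    · exact hC j hjk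
    · have hle : Subgroup.closure {x : L | ∃ i : ℕ, 1 ≤ i ∧ i < k ∧
          x = t ^ i * s * (t ^ i)⁻¹} ≤
          C.comap (MulAut.conj (t ^ (j - k))).toMonoidHom := by
        rw [Subgroup.closure_le]
        rintro x ⟨i, hi1, hi2, rfl⟩
        have h1 := ih (i + (j - k)) (by omega)
        change t ^ (j - k) * (t ^ i * s * (t ^ i)⁻¹) * (t ^ (j - k))⁻¹ ∈ C
        convert h1 using 1
        rw [Nat.add_comm i, pow_add]
        group
      have h2 : t ^ (j - k) * (t ^ k * s * (t ^ k)⁻¹) * (t ^ (j - k))⁻¹ ∈ C := hle h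
      have h3 : t ^ (j - k) * (t ^ k * s * (t ^ k)⁻¹) * (t ^ (j - k))⁻¹ =
          t ^ j * s * (t ^ j)⁻¹ := by
        have h4 : t ^ j = t ^ (j - k) * t ^ k := by
          rw [← pow_add]
          congr 1
          omega
        rw [h4, mul_inv_rev]
        simp only [mul_assoc]
      rwa [h3] at h2

/-- PROOF. Since `SubEx L`, by `not_sub_of_words` there are words `w ≠ w'` of the same length `m` with `wd (t s) t w = wd (t s) t w'` (letters `t s` for `true`, `t` for `false`). Remove the common end of the words (the largest index where they differ becomes the last letter; cancel on the right), so the last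
letters differ. With `s_j = t^j s t^{-j}`: `wd (t s) t w = s_1^{e_1} s_2^{e_2} ⋯ s_k^{e_k} t^k` (`e_j ∈ {0,1}`). So `s_1^{e_1} ⋯ s_k^{e_k} = s_1^{e'_1} ⋯ s_k^{e'_k}` with `e_k ≠ e'_k`: `s_k` is in the subgroup generated by `s_1, ..., s_{k-1}`. -/
theorem milnor_step (h : SubEx L) (t s : L) :
    ∃ k : ℕ, 1 ≤ k ∧ t ^ k * s * (t ^ k)⁻¹ ∈
      Subgroup.closure {x : L | ∃ j : ℕ, 1 ≤ j ∧ j < k ∧ x = t ^ j * s * (t ^ j)⁻¹} := by
  by_contra hcon
  refine not_sub_of_words (t * s) t ?_ h
  intro w w' hl hw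
  by_contra hne
  exact hcon (MilA_strip t s w w' hl hw hne)

/-- PROOF. From `milnor_step` (conjugate by powers of `t`): `s_j`, `j ≥ 1`, lie in the subgroup generated by `s_1, ..., s_{k-1}`: induction on `j`: `s_{j+1} = t s_j t⁻¹` is in the subgroup generated by `s_2, ..., s_k`. The same for `t⁻¹`. So all
`t^j s t^{-j}`, `j ∈ ℤ`, lie in the subgroup generated by those with `|j| < k`. -/
theorem milnor_conj (h : SubEx L) (t s : L) :
    ∃ k : ℕ, ∀ j : ℤ, t ^ j * s * (t ^ j)⁻¹ ∈
      Subgroup.closure {x : L | ∃ i : ℤ, |i| < k ∧ x = t ^ i * s * (t ^ i)⁻¹} := by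
  obtain ⟨k1, -, h1⟩ := milnor_step h t s
  obtain ⟨k2, -, h2⟩ := milnor_step h t⁻¹ s
  refine ⟨k1 + k2, fun j => ?_⟩
  obtain ⟨n, hn | hn⟩ := j.eq_nat_or_neg
  · rw [hn, zpow_natCast]
    refine MilA_up t s k1 h1 _ ?_ n
    intro i hi
    refine Subgroup.subset_closure ⟨(i : ℤ), ?_, by rw [zpow_natCast]⟩
    rw [Nat.abs_cast]
    push_cast
    omega
  · have e1 : ∀ i : ℕ, t ^ (-(i : ℤ)) = t⁻¹ ^ i := by
      intro i
      rw [zpow_neg, zpow_natCast, inv_pow]
    rw [hn, e1]
    refine MilA_up t⁻¹ s k2 h2 _ ?_ n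
    intro i hi
    refine Subgroup.subset_closure ⟨-(i : ℤ), ?_, by rw [e1]⟩
    rw [abs_neg, Nat.abs_cast]
    push_cast
    omega

/-- PROOF. Choose `t` with `φ t = 1` (the generator) and finitely many generators `x_i` of `L`; `s_i = x_i t^{-φ(x_i)} ∈ ker φ`; `L` is generated by `t` and the `s_i`, so `ker φ` is generated by the elements `t^j s_i t^{-j}`, `j ∈ ℤ`
(the subgroup `N` they generate is normalized by `t` and the `s_i`, so normal, and `L = N ⟨t⟩`, `N ≤ ker φ`, `⟨t⟩ ∩ ker φ = 1`, so `N = ker φ`). By `milnor_conj` finitely many suffice. -/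
theorem milnor (hL : Group.FG L) (h : SubEx L) (φ : L →* Multiplicative ℤ)
    (hφ : Function.Surjective φ) : Group.FG φ.ker := by
  obtain ⟨t, ht⟩ := hφ (Multiplicative.ofAdd 1)
  obtain ⟨S, hS, hSf⟩ := Group.fg_iff.1 hL
  have htz : ∀ m : ℤ, φ (t ^ m) = Multiplicative.ofAdd m := by
    intro m
    rw [map_zpow, ht, ← ofAdd_zsmul, smul_eq_mul, mul_one]
  set r : L → L := fun x => x * t ^ (-(Multiplicative.toAdd (φ x))) with hr
  have hrker : ∀ x, φ (r x) = 1 := by
    intro x
    rw [hr, map_mul, htz]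
    change Multiplicative.ofAdd (Multiplicative.toAdd (φ x) + -(Multiplicative.toAdd (φ x))) = 1
    rw [add_neg_cancel]
    rfl
  choose k hk using fun x => milnor_conj h t (r x)
  set N : Subgroup L := Subgroup.closure {y : L | ∃ x ∈ S, ∃ i : ℤ, |i| < (k x : ℤ) ∧
    y = t ^ i * r x * (t ^ i)⁻¹} with hN
  have hfin : {y : L | ∃ x ∈ S, ∃ i : ℤ, |i| < (k x : ℤ) ∧
      y = t ^ i * r x * (t ^ i)⁻¹}.Finite := by
    have h1 : {y : L | ∃ x ∈ S, ∃ i : ℤ, |i| < (k x : ℤ) ∧ y = t ^ i * r x * (t ^ i)⁻¹} ⊆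
        ⋃ x ∈ S, (fun i : ℤ => t ^ i * r x * (t ^ i)⁻¹) '' (Set.Ioo (-(k x : ℤ)) (k x)) := by
      rintro y ⟨x, hx, i, hi, rfl⟩
      refine Set.mem_biUnion hx ⟨i, ?_, rfl⟩
      exact Set.mem_Ioo.2 (abs_lt.1 hi)
    exact (hSf.biUnion fun x _ => (Set.finite_Ioo _ _).image _).subset h1
  have hall : ∀ x ∈ S, ∀ j : ℤ, t ^ j * r x * (t ^ j)⁻¹ ∈ N := by
    intro x hx j
    refine Subgroup.closure_mono ?_ (hk x j)
    rintro y ⟨i, hi, rfl⟩
    exact ⟨x, hx, i, hi, rfl⟩
  have hconj : ∀ m : ℤ, ∀ n ∈ N, t ^ m * n * (t ^ m)⁻¹ ∈ N := by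
    intro m n hn
    have hle : N ≤ N.comap (MulAut.conj (t ^ m)).toMonoidHom := by
      rw [hN, Subgroup.closure_le]
      rintro y ⟨x, hx, i, -, rfl⟩
      have h1 := hall x hx (m + i)
      change t ^ m * (t ^ i * r x * (t ^ i)⁻¹) * (t ^ m)⁻¹ ∈ N
      convert h1 using 1
      rw [zpow_add]
      group
    exact hle hn
  have hdec : ∀ g : L, ∃ n ∈ N, ∃ m : ℤ, g = n * t ^ m := by
    intro g
    have hg : g ∈ Subgroup.closure S := by
      rw [hS]
      trivial
    induction hg using Subgroup.closure_induction with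
    | mem x hx =>
      refine ⟨r x, ?_, Multiplicative.toAdd (φ x), ?_⟩
      · have h1 := hall x hx 0
        simpa using h1
      · rw [hr]
        simp
    | one => exact ⟨1, N.one_mem, 0, by simp⟩
    | mul x y _ _ hx hy =>
      obtain ⟨n, hn, m, rfl⟩ := hx
      obtain ⟨n', hn', m', rfl⟩ := hy
      refine ⟨n * (t ^ m * n' * (t ^ m)⁻¹), N.mul_mem hn (hconj m n' hn'), m + m', ?_⟩
      rw [zpow_add]
      group
    | inv x _ hx =>
      obtain ⟨n, hn, m, rfl⟩ := hx
      refine ⟨t ^ (-m) * n⁻¹ * (t ^ (-m))⁻¹, hconj (-m) _ (N.inv_mem hn), -m, ?_⟩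
      rw [zpow_neg]
      group
  rw [Group.fg_iff_subgroup_fg, Subgroup.fg_iff]
  refine ⟨_, ?_, hfin⟩
  rw [← hN]
  apply le_antisymm
  · rw [hN, Subgroup.closure_le]
    rintro y ⟨x, -, i, -, rfl⟩
    change φ _ = 1
    rw [map_mul, map_mul, hrker, mul_one, map_inv, mul_inv_cancel]
  · intro g hg
    obtain ⟨n, hn, m, rfl⟩ := hdec g
    have hnk : φ n = 1 := by
      have hle : N ≤ φ.ker := by
        rw [hN, Subgroup.closure_le]
        rintro y ⟨x, -, i, -, rfl⟩
        change φ _ = 1
        rw [map_mul, map_mul, hrker, mul_one, map_inv, mul_inv_cancel]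
      exact hle hn
    have h1 : φ (n * t ^ m) = 1 := hg
    rw [map_mul, hnk, one_mul, htz] at h1
    have h2 : m = 0 := by
      have := congrArg Multiplicative.toAdd h1
      simpa using this
    rw [h2, zpow_zero, mul_one]
    exact hn

end PDG
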