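import Pool.Agent.W_3f3beb_h76.HallA

/-! # P. Hall criterion -/

set_option autoImplicit false

open scoped Classical

namespace PDG

variable {H : Type} [Group H]

theorem HallB_add (X : Subgroup H) (a b : ℕ) : itc (itc X a) b = itc X (a + b) := by
  induction b with
  | zero => rfl
  | succ b ih =>
    change ⁅itc (itc X a) b, (⊤ : Subgroup H)⁆ = ⁅itc X (a + b), (⊤ : Subgroup H)⁆
    rw [ih]

theorem HallB_anti (X : Subgroup H) (hX : X.Normal) {a b : ℕ} (h : a ≤ b) :
    itc X b ≤ itc X a := by
  induction b, h using Nat.le_induction with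
  | base => exact le_rfl
  | succ b _ ih =>
    have := itc_normal X hX b
    exact (Subgroup.commutator_le_left (itc X b) ⊤).trans ih

theorem HallB_normal (K : Subgroup H) (hK : K.Normal) (i : ℕ) :
    (K.lowerCentralSeries i).Normal := by
  induction i with
  | zero => exact hK
  | succ i ih =>
    rw [Subgroup.lowerCentralSeries_succ]
    infer_instance

theorem HallB_step (K : Subgroup H) (hK : K.Normal) (c : ℕ) (hc : itc K c ≤ ⁅K, K⁆) (i : ℕ) :
    ∃ n, itc (K.lowerCentralSeries i) n ≤ K.lowerCentralSeries (i + 1) := by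
  induction i with
  | zero => exact ⟨c, hc⟩
  | succ i ih =>
    obtain ⟨d, hd⟩ := ih
    refine ⟨d + c, ?_⟩
    have hNi := HallB_normal K hK i
    have hNi1 := HallB_normal K hK (i + 1)
    have hN2 := HallB_normal K hK (i + 1 + 1)
    have e1 : K.lowerCentralSeries (i + 1) = ⁅K.lowerCentralSeries i, K⁆ :=
      Subgroup.lowerCentralSeries_succ K i
    have e2 : K.lowerCentralSeries (i + 1 + 1) = ⁅⁅K.lowerCentralSeries i, K⁆, K⁆ := by
      rw [Subgroup.lowerCentralSeries_succ, e1]
    have hbase : itc ⁅K.lowerCentralSeries i, K⁆ (d + c) ≤ K.lowerCentralSeries (i + 1 + 1) := by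
      refine (itc_commutator _ _ hNi hK (d + c)).trans (iSup₂_le fun a ha => ?_)
      rw [Finset.mem_range] at ha
      rcases Nat.lt_or_ge a d with had | had
      · have h1 : itc (K.lowerCentralSeries i) a ≤ K.lowerCentralSeries i :=
          HallB_anti _ hNi (Nat.zero_le a)
        have h2 : itc K (d + c - a) ≤ ⁅K, K⁆ := (HallB_anti K hK (by omega)).trans hc
        refine (Subgroup.commutator_mono h1 h2).trans ?_
        rw [Subgroup.commutator_comm]
        refine HallA_three K K (K.lowerCentralSeries i) _ ?_ ?_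
        · rw [Subgroup.commutator_comm K (K.lowerCentralSeries i), e2]
        · rw [e2]
      · have h1 : itc (K.lowerCentralSeries i) a ≤ ⁅K.lowerCentralSeries i, K⁆ := by
          rw [← e1]
          exact (HallB_anti _ hNi had).trans hd
        have h2 : itc K (d + c - a) ≤ K := HallB_anti K hK (Nat.zero_le _)
        rw [e2]
        exact Subgroup.commutator_mono h1 h2
    rwa [← e1] at hbase

/-- PROOF. Let `γ_i` be the `i`-th term of the lower central series of `K`, mapped into `H` (`γ_0 = K`, `γ_{i+1} = ⁅γ_i, K⁆`, normal in `H`). Hypothesis: `itc K c ≤ γ_1`. By induction on `i` there is `c_i` with `itc γ_i c_i ≤ γ_{i+1}`: for `n = c_i + c`, `itc ⁅γ_i, K⁆ n` is contained in the product of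
the `⁅itc γ_i a, itc K b⁆`, `a + b = n`; if `a ≥ c_i` this is in `⁅γ_{i+1}, K⁆ = γ_{i+2}`, otherwise `b ≥ c` and it is in `⁅γ_i, ⁅K, K⁆⁆ ≤ γ_{i+2}` (three subgroups). `itc` is monotone decreasing in `n` for normal subgroups. As `K` is nilpotent some `γ_i` is trivial: `itc K N = ⊥` for some `N`; and
`⁅⊤, ⊤⁆ ≤ K` (or `itc ⊤ 1 ≤ K`), so the lower central series of `H` reaches `⊥`. -/
theorem hall (K : Subgroup H) (hK : K.Normal) (hn : Group.IsNilpotent K)
    (hq : ⁅(⊤ : Subgroup H), ⊤⁆ ≤ K) (c : ℕ) (hc : itc K c ≤ ⁅K, K⁆) :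
    Group.IsNilpotent H := by
  obtain ⟨m, hm⟩ := (Subgroup.isNilpotent_iff_lowerCentralSeries K).1 hn
  have hall' : ∀ i, ∃ n, itc K n ≤ K.lowerCentralSeries i := by
    intro i
    induction i with
    | zero => exact ⟨0, le_rfl⟩
    | succ i ih =>
      obtain ⟨n, hn'⟩ := ih
      obtain ⟨d, hd⟩ := HallB_step K hK c hc i
      refine ⟨n + d, ?_⟩
      rw [← HallB_add]
      exact (itc_mono hn' d).trans hd
  obtain ⟨n, hn'⟩ := hall' m
  rw [hm] at hn'
  have hit : ∀ k, (⊤ : Subgroup H).lowerCentralSeries k = itc ⊤ k := by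
    intro k
    induction k with
    | zero => rfl
    | succ k ih =>
      rw [Subgroup.lowerCentralSeries_succ, ih]
      rfl
  rw [Subgroup.nilpotent_iff_lowerCentralSeries]
  refine ⟨1 + n, ?_⟩
  rw [hit, ← HallB_add]
  have h1 : itc (⊤ : Subgroup H) 1 ≤ K := hq
  exact le_bot_iff.1 ((itc_mono h1 n).trans hn')

end PDG
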