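import Pool.Agent.W_3f3beb_h76.Defs

/-! # Subgroups of bounded index of a finitely generated group -/

set_option autoImplicit false

open scoped Classical

namespace PDG

variable {L : Type} [Group L]

theorem SgA_aux_hom (hL : Group.FG L) (P : Type) [Group P] [Finite P] : Finite (L →* P) := by
  obtain ⟨T, hT⟩ := hL.out
  refine Finite.of_injective (fun (f : L →* P) (t : T) => f t) ?_
  intro f g hfg
  refine MonoidHom.eq_of_eqOn_dense hT ?_
  intro t ht
  exact congrFun hfg ⟨t, ht⟩

/-- PROOF. A subgroup `H` of index `k ≤ n` gives an action of `L` on the `k` cosets, so on `Fin k` with `H` the stabilizer of a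
point: `H` is determined by a homomorphism `L →* Equiv.Perm (Fin k)` and a point; there are finitely many homomorphisms from a
finitely generated group to a finite group. -/
theorem finite_index_le (hL : Group.FG L) (n : ℕ) :
    {H : Subgroup L | H.index ≠ 0 ∧ H.index ≤ n}.Finite := by
  have h1 : ∀ k : ℕ, (Set.range fun q : (L →* Equiv.Perm (Fin k)) × Fin k =>
      (MulAction.stabilizer (Equiv.Perm (Fin k)) q.2).comap q.1).Finite := by
    intro k
    have := SgA_aux_hom hL (Equiv.Perm (Fin k))
    exact Set.finite_range _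
  refine ((Finset.range (n + 1)).finite_toSet.biUnion fun k _ => h1 k).subset ?_
  rintro H ⟨h0, hn⟩
  rw [Set.mem_iUnion₂]
  refine ⟨H.index, by simpa using Nat.lt_succ_of_le hn, ?_⟩
  have hfin : Finite (L ⧸ H) := Nat.finite_of_card_ne_zero h0
  set E : (L ⧸ H) ≃ Fin H.index := Finite.equivFinOfCardEq rfl with hE
  refine ⟨((E.permCongrHom).toMonoidHom.comp (MulAction.toPermHom L (L ⧸ H)),
    E ((1 : L) : L ⧸ H)), ?_⟩
  ext g
  rw [Subgroup.mem_comap, MulAction.mem_stabilizer_iff]
  have h2 : ((E.permCongrHom).toMonoidHom.comp (MulAction.toPermHom L (L ⧸ H))) g •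
      E ((1 : L) : L ⧸ H) = E (g • ((1 : L) : L ⧸ H)) := by
    simp [Equiv.permCongrHom, Equiv.Perm.smul_def]
  rw [h2, E.apply_eq_iff_eq, ← MulAction.mem_stabilizer_iff, MulAction.stabilizer_quotient]

/-- the intersection of all subgroups of index `≤ n` -/
def cap (L : Type) [Group L] (n : ℕ) : Subgroup L :=
  ⨅ H : {H : Subgroup L // H.index ≠ 0 ∧ H.index ≤ n}, H.1

theorem cap_le (n : ℕ) (H : Subgroup L) (h0 : H.index ≠ 0) (hn : H.index ≤ n) : cap L n ≤ H :=
  iInf_le (fun H : {H : Subgroup L // H.index ≠ 0 ∧ H.index ≤ n} => H.1) ⟨H, h0, hn⟩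

theorem cap_finiteIndex (hL : Group.FG L) (n : ℕ) : (cap L n).FiniteIndex := by
  have : Finite {H : Subgroup L // H.index ≠ 0 ∧ H.index ≤ n} := (finite_index_le hL n).to_subtype
  exact Subgroup.finiteIndex_iInf fun H => ⟨H.2.1⟩

/-- automorphisms permute the subgroups of index `≤ n` -/
theorem cap_characteristic (n : ℕ) : (cap L n).Characteristic := by
  rw [Subgroup.characteristic_iff_le_comap]
  intro φ x hx
  rw [Subgroup.mem_comap]
  unfold cap
  rw [Subgroup.mem_iInf]
  rintro ⟨H, h0, hn⟩
  have h1 : (H.comap φ.toMonoidHom).index = H.index :=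
    Subgroup.index_comap_of_surjective H φ.surjective
  exact cap_le n (H.comap φ.toMonoidHom) (h1 ▸ h0) (h1 ▸ hn) hx

theorem cap_anti {m n : ℕ} (h : m ≤ n) : cap L n ≤ cap L m :=
  le_iInf fun H => cap_le n H.1 H.2.1 (H.2.2.trans h)

/-- PROOF. `cap L n` with `n` the index. -/
theorem exists_cap_le (H : Subgroup L) (hH : H.FiniteIndex) : ∃ n, cap L n ≤ H :=
  ⟨H.index, cap_le _ H hH.index_ne_zero le_rfl⟩

/-- a homomorphism to a finite group of order at most `n` is trivial on `cap L n` (the kernel has index at most `n`) -/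
theorem cap_le_ker {P : Type} [Group P] [Finite P] (f : L →* P) (n : ℕ) (h : Nat.card P ≤ n) :
    cap L n ≤ f.ker := by
  have h1 : f.ker.index = Nat.card f.range := Subgroup.index_ker f
  refine cap_le n _ ?_ ?_
  · rw [h1]
    exact Nat.card_pos.ne'
  · rw [h1]
    exact (Nat.le_of_dvd Nat.card_pos (Subgroup.card_subgroup_dvd_card f.range)).trans h

end PDG
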