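import Pool.Agent.W_3f3beb_h76.UniA
import Pool.Agent.W_3f3beb_h76.HallB
import Pool.Agent.W_3f3beb_h76.SgA
import Pool.Agent.W_3f3beb_h76.DpA

/-! # Cyclic extensions of virtually nilpotent groups -/

set_option autoImplicit false

open scoped Classical

namespace PDG

variable {H : Type} [Group H]

theorem NilA_pow {G : Type} [Group G] (K : Subgroup G) (hK : K.Normal) (T : G)
    {A : Type} [AddCommGroup A] (α : K →* Multiplicative A) (σ : A ≃+ A)
    (hσ : ∀ k : K, Multiplicative.toAdd (α ⟨T * k * T⁻¹, hK.conj_mem k k.2 T⟩) =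
      σ (Multiplicative.toAdd (α k))) (i : ℤ) :
    ∃ S : AddMonoid.End A, Commute (endo σ - 1) S ∧ ∀ k : K,
      Multiplicative.toAdd (α ⟨T ^ i * k * (T ^ i)⁻¹, hK.conj_mem k k.2 (T ^ i)⟩) =
        Multiplicative.toAdd (α k) + ((endo σ - 1) * S) (Multiplicative.toAdd (α k)) := by
  have hσ' : ∀ k : K, Multiplicative.toAdd (α ⟨T⁻¹ * k * T⁻¹⁻¹, hK.conj_mem k k.2 T⁻¹⟩) =
      σ.symm (Multiplicative.toAdd (α k)) := by
    intro k
    rw [AddEquiv.eq_symm_apply, ← hσ]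
    congr 2
    apply Subtype.ext
    simp [mul_assoc]
  have hc1 : Commute (endo σ - 1) (endo σ) := (Commute.refl _).sub_left (Commute.one_left _)
  have hinv1 : endo σ * endo σ.symm = 1 := by
    ext x; exact σ.apply_symm_apply x
  have hinv2 : endo σ.symm * endo σ = 1 := by
    ext x; exact σ.symm_apply_apply x
  have hc2 : Commute (endo σ - 1) (endo σ.symm) := by
    unfold Commute SemiconjBy
    rw [sub_mul, mul_sub, hinv1, hinv2, one_mul, mul_one]
  induction i using Int.induction_on with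
  | zero =>
    refine ⟨0, Commute.zero_right _, ?_⟩
    intro k
    have : (⟨T ^ (0 : ℤ) * k * (T ^ (0 : ℤ))⁻¹, hK.conj_mem k k.2 (T ^ (0 : ℤ))⟩ : K) = k := by
      apply Subtype.ext; simp
    rw [this]
    simp
  | succ i ih =>
    obtain ⟨S, hS, hk⟩ := ih
    refine ⟨1 + endo σ * S, (Commute.one_right _).add_right (hc1.mul_right hS), ?_⟩
    intro k
    have e : (⟨T ^ ((i : ℤ) + 1) * k * (T ^ ((i : ℤ) + 1))⁻¹, hK.conj_mem k k.2 (T ^ ((i : ℤ) + 1))⟩ : K) =
        ⟨T * (⟨T ^ (i : ℤ) * k * (T ^ (i : ℤ))⁻¹, hK.conj_mem k k.2 (T ^ (i : ℤ))⟩ : K) * T⁻¹,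
          hK.conj_mem _ (⟨T ^ (i : ℤ) * k * (T ^ (i : ℤ))⁻¹, hK.conj_mem k k.2 (T ^ (i : ℤ))⟩ : K).2 T⟩ := by
      apply Subtype.ext
      show T ^ ((i : ℤ) + 1) * k * (T ^ ((i : ℤ) + 1))⁻¹ = T * (T ^ (i : ℤ) * k * (T ^ (i : ℤ))⁻¹) * T⁻¹
      rw [add_comm, zpow_add, zpow_one]
      simp only [mul_inv_rev, mul_assoc]
    rw [e, hσ, hk]
    generalize Multiplicative.toAdd (α k) = x
    have h1 : σ (x + ((endo σ - 1) * S) x) = (endo σ * (1 + (endo σ - 1) * S)) x := rfl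
    have h2 : x + ((endo σ - 1) * (1 + endo σ * S)) x = (1 + (endo σ - 1) * (1 + endo σ * S)) x := rfl
    rw [h1, h2]
    congr 1
    rw [mul_add, mul_add, mul_one, mul_one, ← mul_assoc, ← mul_assoc, hc1.eq]
    abel
  | pred i ih =>
    obtain ⟨S, hS, hk⟩ := ih
    refine ⟨endo σ.symm * (S - 1), hc2.mul_right (hS.sub_right (Commute.one_right _)), ?_⟩
    intro k
    have e : (⟨T ^ (-(i : ℤ) - 1) * k * (T ^ (-(i : ℤ) - 1))⁻¹, hK.conj_mem k k.2 (T ^ (-(i : ℤ) - 1))⟩ : K) =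
        ⟨T⁻¹ * (⟨T ^ (-(i : ℤ)) * k * (T ^ (-(i : ℤ)))⁻¹, hK.conj_mem k k.2 (T ^ (-(i : ℤ)))⟩ : K) * T⁻¹⁻¹,
          hK.conj_mem _ (⟨T ^ (-(i : ℤ)) * k * (T ^ (-(i : ℤ)))⁻¹, hK.conj_mem k k.2 (T ^ (-(i : ℤ)))⟩ : K).2 T⁻¹⟩ := by
      apply Subtype.ext
      show T ^ (-(i : ℤ) - 1) * k * (T ^ (-(i : ℤ) - 1))⁻¹ = T⁻¹ * (T ^ (-(i : ℤ)) * k * (T ^ (-(i : ℤ)))⁻¹) * T⁻¹⁻¹
      rw [show (-(i : ℤ) - 1) = -1 + -(i : ℤ) by ring, zpow_add, zpow_neg_one]
      simp only [mul_inv_rev, mul_assoc]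
    rw [e, hσ', hk]
    generalize Multiplicative.toAdd (α k) = x
    have h1 : σ.symm (x + ((endo σ - 1) * S) x) = (endo σ.symm * (1 + (endo σ - 1) * S)) x := rfl
    have h2 : x + ((endo σ - 1) * (endo σ.symm * (S - 1))) x =
      (1 + (endo σ - 1) * (endo σ.symm * (S - 1))) x := rfl
    rw [h1, h2]
    congr 1
    have hvu : (endo σ - 1) * endo σ.symm = 1 - endo σ.symm := by
      rw [sub_mul, hinv1, one_mul]
    rw [mul_add, mul_one, ← mul_assoc, ← hc2.eq, ← mul_assoc, mul_sub, mul_one, hvu]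
    abel

theorem NilA_crit {G : Type} [Group G] (K : Subgroup G) (hK : K.Normal)
    (hn : Group.IsNilpotent K) (T : G) (hT : ∀ g : G, ∃ k ∈ K, ∃ i : ℤ, g = k * T ^ i)
    {A : Type} [AddCommGroup A] (α : K →* Multiplicative A)
    (hα : ∀ k : K, α k = 1 → (k : G) ∈ ⁅K, K⁆) (σ : A ≃+ A)
    (hσ : ∀ k : K, Multiplicative.toAdd (α ⟨T * k * T⁻¹, hK.conj_mem k k.2 T⟩) =
      σ (Multiplicative.toAdd (α k)))
    (c : ℕ) (hc : ∀ x : A, ((endo σ - 1) ^ c) x = 0) : Group.IsNilpotent G := by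
  have hq : ⁅(⊤ : Subgroup G), ⊤⁆ ≤ K := by
    rw [Subgroup.commutator_le]
    intro g₁ _ g₂ _
    obtain ⟨k₁, hk₁, i, rfl⟩ := hT g₁
    obtain ⟨k₂, hk₂, j, rfl⟩ := hT g₂
    rw [← QuotientGroup.eq_one_iff]
    have h1 : ((k₁ : G) : G ⧸ K) = 1 := (QuotientGroup.eq_one_iff k₁).2 hk₁
    have h2 : ((k₂ : G) : G ⧸ K) = 1 := (QuotientGroup.eq_one_iff k₂).2 hk₂
    rw [commutatorElement_def]
    simp only [QuotientGroup.mk_mul, QuotientGroup.mk_inv, QuotientGroup.mk_zpow, h1, h2, one_mul]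
    rw [← zpow_add, ← zpow_neg, ← zpow_neg, ← zpow_add, ← zpow_add]
    simp
  refine hall K hK hn hq c ?_
  have key : ∀ m : ℕ, ∀ g ∈ itc K m, ∃ k : K, (k : G) = g ∧ ∃ y : A,
      Multiplicative.toAdd (α k) = ((endo σ - 1) ^ m) y := by
    intro m
    induction m with
    | zero =>
      intro g hg
      exact ⟨⟨g, hg⟩, rfl, Multiplicative.toAdd (α ⟨g, hg⟩), by simp⟩
    | succ m ih =>
      have hle : itc K (m + 1) ≤ ((AddSubgroup.toSubgroup
          (AddMonoidHom.range ((endo σ - 1) ^ (m + 1) : AddMonoid.End A))).comap α).map K.subtype := by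
        show ⁅itc K m, (⊤ : Subgroup G)⁆ ≤ _
        rw [Subgroup.commutator_le]
        intro x hx g _
        obtain ⟨k, rfl, y, hy⟩ := ih x hx
        obtain ⟨k₂, hk₂, i, rfl⟩ := hT g
        obtain ⟨S, hS, hk⟩ := NilA_pow K hK T α σ hσ i
        refine ⟨k * ((⟨k₂, hk₂⟩ : K) * ⟨T ^ i * (k⁻¹ : K) * (T ^ i)⁻¹,
          hK.conj_mem (k⁻¹ : K) (k⁻¹ : K).2 (T ^ i)⟩ * (⟨k₂, hk₂⟩ : K)⁻¹), ?_, ?_⟩
        · have h1 : Multiplicative.toAdd (α (k * ((⟨k₂, hk₂⟩ : K) * ⟨T ^ i * (k⁻¹ : K) * (T ^ i)⁻¹,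
              hK.conj_mem (k⁻¹ : K) (k⁻¹ : K).2 (T ^ i)⟩ * (⟨k₂, hk₂⟩ : K)⁻¹))) =
              - (((endo σ - 1) * S) (Multiplicative.toAdd (α k))) := by
            have e1 : ∀ a b : K, α (k * (a * b * a⁻¹)) = α k * α b := by
              intro a b
              rw [map_mul, map_mul, map_mul, map_inv, mul_inv_cancel_comm]
            rw [e1, toAdd_mul, hk, map_inv α k, toAdd_inv, map_neg]
            abel
          show _ ∈ AddMonoidHom.range ((endo σ - 1) ^ (m + 1) : AddMonoid.End A)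
          refine ⟨-(S y), ?_⟩
          refine Eq.trans ?_ h1.symm
          rw [hy]
          show ((endo σ - 1) ^ (m + 1) : AddMonoid.End A) (-(S y)) = _
          rw [map_neg]
          congr 1
          show (((endo σ - 1) ^ (m + 1)) * S) y = ((endo σ - 1) * S * (endo σ - 1) ^ m) y
          congr 1
          rw [pow_succ', mul_assoc, mul_assoc, (hS.pow_left m).eq]
        · rw [commutatorElement_def]
          show (k : G) * (k₂ * (T ^ i * (k : G)⁻¹ * (T ^ i)⁻¹) * k₂⁻¹) = _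
          simp only [mul_inv_rev, mul_assoc]
      intro g hg
      obtain ⟨k, ⟨y, hy⟩, rfl⟩ := hle hg
      exact ⟨k, rfl, y, hy.symm⟩
  intro g hg
  obtain ⟨k, rfl, y, hy⟩ := key c g hg
  apply hα
  rw [hc y] at hy
  exact hy

/-- conjugation on the abelianization of a normal subgroup -/
noncomputable def NilA_cj (K : Subgroup H) [K.Normal] (h : H) :
    Additive (Abelianization K) ≃+ Additive (Abelianization K) :=
  MulEquiv.toAdditive (MulAut.conjNormal h : MulAut K).abelianizationCongr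

theorem NilA_cj_of (K : Subgroup H) [K.Normal] (h : H) (k : K) :
    NilA_cj K h (Additive.ofMul (Abelianization.of k)) =
      Additive.ofMul (Abelianization.of (MulAut.conjNormal h k)) := rfl

theorem NilA_rep (K : Subgroup H) (x : Additive (Abelianization K)) :
    ∃ k : K, x = Additive.ofMul (Abelianization.of k) := by
  obtain ⟨k, hk⟩ := QuotientGroup.mk_surjective (Additive.toMul x)
  exact ⟨k, hk.symm⟩

theorem NilA_cj_mul (K : Subgroup H) [K.Normal] (g h : H) (x : Additive (Abelianization K)) :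
    NilA_cj K (g * h) x = NilA_cj K g (NilA_cj K h x) := by
  obtain ⟨k, rfl⟩ := NilA_rep K x
  rw [NilA_cj_of, NilA_cj_of, NilA_cj_of, map_mul]
  rfl

theorem NilA_cj_pow (K : Subgroup H) [K.Normal] (t : H) (n : ℕ) :
    endo (NilA_cj K (t ^ n)) = endo (NilA_cj K t) ^ n := by
  induction n with
  | zero =>
    ext x
    obtain ⟨k, rfl⟩ := NilA_rep K x
    show NilA_cj K (t ^ 0) _ = _
    rw [NilA_cj_of, pow_zero, map_one]
    rfl
  | succ n ih =>
    ext x
    rw [pow_succ', pow_succ', ← ih]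
    exact NilA_cj_mul K t (t ^ n) x

theorem NilA_nil_of_le {G : Type} [Group G] {A B : Subgroup G} (h : A ≤ B)
    (hB : Group.IsNilpotent B) : Group.IsNilpotent A := by
  have := hB
  exact Group.nilpotent_of_mulEquiv (Subgroup.subgroupOfEquivOfLe h)

theorem NilA_index (φ : H →* Multiplicative ℤ) (t : H) (ht : φ t = Multiplicative.ofAdd 1)
    (C : Subgroup φ.ker) (hC : C.FiniteIndex) (K : Subgroup H) (hK : K.Normal)
    (hCK : ∀ x ∈ C, (x : H) ∈ K) (N : ℕ) (hN : 1 ≤ N) (H' : Subgroup H) (hKH : K ≤ H')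
    (hT : t ^ N ∈ H') : H'.FiniteIndex := by
  have hfin : Finite (φ.ker ⧸ C) := Subgroup.finite_quotient_of_finiteIndex
  have hsur : Function.Surjective (fun q : (φ.ker ⧸ C) × Fin N =>
      (((q.1.out : φ.ker) : H) * t ^ (q.2 : ℕ) : H ⧸ H')) := by
    intro x
    obtain ⟨h, rfl⟩ := QuotientGroup.mk_surjective x
    obtain ⟨m, hm⟩ : ∃ m : ℤ, φ h = Multiplicative.ofAdd m := ⟨Multiplicative.toAdd (φ h), rfl⟩
    have hN0 : (0 : ℤ) < N := by exact_mod_cast hN
    obtain ⟨r, hr⟩ : ∃ r : ℕ, (r : ℤ) = m % N := ⟨(m % N).toNat, Int.toNat_of_nonneg (Int.emod_nonneg m hN0.ne')⟩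
    have hrN : r < N := by
      have := Int.emod_lt_of_pos m hN0
      rw [← hr] at this
      exact_mod_cast this
    have hm2 : m = r + N * (m / N) := by rw [hr]; exact (Int.emod_add_mul_ediv m N).symm
    have hk : h * (t ^ m)⁻¹ ∈ φ.ker := by
      rw [MonoidHom.mem_ker, map_mul, map_inv, map_zpow, ht, hm, ← ofAdd_zsmul]
      simp
    obtain ⟨q, hq⟩ : ∃ q : φ.ker ⧸ C, q = QuotientGroup.mk ⟨h * (t ^ m)⁻¹, hk⟩ := ⟨_, rfl⟩
    have hc : (q.out)⁻¹ * ⟨h * (t ^ m)⁻¹, hk⟩ ∈ C := by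
      rw [← QuotientGroup.eq, QuotientGroup.out_eq', hq]
    refine ⟨(q, ⟨r, hrN⟩), ?_⟩
    show ((((q.out : φ.ker) : H) * t ^ r : H) : H ⧸ H') = (h : H ⧸ H')
    rw [QuotientGroup.eq]
    have h1 := hCK _ hc
    have h2 := hK.conj_mem _ h1 (t ^ r)⁻¹
    have h3 : (((q.out : φ.ker) : H) * t ^ r)⁻¹ * h =
        ((t ^ r)⁻¹ * (((q.out)⁻¹ * ⟨h * (t ^ m)⁻¹, hk⟩ : φ.ker) : H) * (t ^ r)⁻¹⁻¹) *
          (t ^ N) ^ (m / N) := by
      have h4 : t ^ m = t ^ r * (t ^ N) ^ (m / N) := by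
        conv_lhs => rw [hm2]
        rw [zpow_add, zpow_natCast, zpow_mul, zpow_natCast]
      have h5 : h = h * (t ^ m)⁻¹ * t ^ m := by group
      show _ = ((t ^ r)⁻¹ * (((q.out : φ.ker) : H)⁻¹ * (h * (t ^ m)⁻¹)) * (t ^ r)⁻¹⁻¹) *
          (t ^ N) ^ (m / N)
      rw [inv_inv, mul_assoc ((t ^ r)⁻¹ * (((q.out : φ.ker) : H)⁻¹ * (h * (t ^ m)⁻¹))), ← h4,
        mul_inv_rev]
      simp only [mul_assoc, inv_mul_cancel, mul_one]
    rw [h3]
    exact H'.mul_mem (hKH h2) (H'.zpow_mem hT _)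
  have : Finite (H ⧸ H') := Finite.of_surjective _ hsur
  exact Subgroup.finiteIndex_of_finite_quotient

/-- PROOF. `K = ker φ` has a nilpotent subgroup of finite index; `cap K n ≤` it (`exists_cap_le`) is characteristic in `K`, of finite index, nilpotent, finitely generated; let `K₁ ≤ H` be its image, normal in `H`. Let `φ t` be the generator. `A = K₁^{ab}` (additive), `σ` = conjugation by `t`. By
`eig_bound` (with `l` composed with `K₁ → A`) the hypothesis of `unipotent_aut` holds: `N, c` with `(σ^N - 1)^c A = 0`. `H' = K₁ ⟨t^N⟩` has finite index in `H` (index `[K : K₁] N`). Every `h ∈ H'`, `h = k t^{N i}`, acts on `A` as `σ^{N i}`, and `(σ^{N i} - 1) A ⊆ (σ^N - 1) A`; so `itc K₁ c ≤ ⁅K₁, K₁⁆` in `H'`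
and `H'/K₁` is abelian: `hall`. -/
theorem nilp_ext (hH : Group.FG H) (h : SubEx H) (φ : H →* Multiplicative ℤ)
    (hφ : Function.Surjective φ) (hK : Group.FG φ.ker)
    (hn : Group.IsVirtuallyNilpotent φ.ker) : Group.IsVirtuallyNilpotent H := by
  obtain ⟨N₀, hN₀, hN₀f⟩ := hn
  obtain ⟨n, hCN⟩ := exists_cap_le N₀ hN₀f
  have hchar := cap_characteristic (L := φ.ker) n
  have hCf := cap_finiteIndex (L := φ.ker) hK n
  obtain ⟨C, hC⟩ : ∃ C : Subgroup φ.ker, C = cap φ.ker n := ⟨_, rfl⟩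
  rw [← hC] at hCN hchar hCf
  have hCn : Group.IsNilpotent C := NilA_nil_of_le hCN hN₀
  have hCfg : Group.FG C := Subgroup.fg_of_index_ne_zero C
  obtain ⟨K₁, hK₁⟩ : ∃ K₁ : Subgroup H, K₁ = C.map φ.ker.subtype := ⟨_, rfl⟩
  have hnorm : K₁.Normal := hK₁ ▸ ConjAct.normal_of_characteristic_of_normal
  have e : C ≃* K₁ := (C.equivMapOfInjective φ.ker.subtype φ.ker.subtype_injective).trans
    (MulEquiv.subgroupCongr hK₁.symm)
  have hK₁n : Group.IsNilpotent K₁ := Group.nilpotent_of_mulEquiv e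
  have hK₁fg : Group.FG K₁ := Group.fg_of_surjective (f := e.toMonoidHom) e.surjective
  obtain ⟨t, ht⟩ := hφ (Multiplicative.ofAdd 1)
  have hAfg : AddGroup.FG (Additive (Abelianization K₁)) := by
    have : Group.FG (Abelianization K₁) := inferInstanceAs (Group.FG (K₁ ⧸ commutator K₁))
    infer_instance
  have hun : ∀ (l : Additive (Abelianization K₁) →+ ℂ) (μ : ℂ), l ≠ 0 →
      (∀ x, l (NilA_cj K₁ t x) = μ * l x) → ‖μ‖ ≤ 1 := by
    intro l μ hl hx
    obtain ⟨x, hx0⟩ : ∃ x, l x ≠ 0 := by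
      by_contra hcon
      push Not at hcon
      exact hl (AddMonoidHom.ext hcon)
    obtain ⟨k, rfl⟩ := NilA_rep K₁ x
    refine eig_bound h K₁ hnorm t
      ((AddMonoidHom.toMultiplicativeRight l).comp Abelianization.of) μ ?_ k hx0
    intro y
    have h1 := hx (Additive.ofMul (Abelianization.of y))
    rw [NilA_cj_of] at h1
    refine Eq.trans ?_ h1
    show l (Additive.ofMul (Abelianization.of _)) = _
    congr 3
  obtain ⟨N, c, hN, hc⟩ := unipotent_aut (NilA_cj K₁ t) hun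
  obtain ⟨H', hH'⟩ : ∃ H' : Subgroup H, H' = K₁ ⊔ Subgroup.zpowers (t ^ N) := ⟨_, rfl⟩
  have hKH' : K₁ ≤ H' := hH' ▸ le_sup_left
  have hTH' : t ^ N ∈ H' := hH' ▸ Subgroup.mem_sup_right (Subgroup.mem_zpowers _)
  refine ⟨H', ?_, ?_⟩
  · obtain ⟨f, hf⟩ : ∃ f : K₁.subgroupOf H' ≃* K₁, f = Subgroup.subgroupOfEquivOfLe hKH' :=
      ⟨_, rfl⟩
    have hfv : ∀ k : K₁.subgroupOf H', ((f k : K₁) : H) = ((k : H') : H) := by
      intro k
      rw [hf]
      rfl
    refine NilA_crit (K₁.subgroupOf H') inferInstance (Group.nilpotent_of_mulEquiv f.symm)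
      ⟨t ^ N, hTH'⟩ ?_ ((AddMonoidHom.toMultiplicativeRight (AddMonoidHom.id _)).comp
        (Abelianization.of.comp f.toMonoidHom)) ?_ (NilA_cj K₁ (t ^ N)) ?_ c ?_
    · rintro ⟨g, hg⟩
      rw [hH', Subgroup.mem_sup_of_normal_left] at hg
      obtain ⟨k, hk, z, hz, rfl⟩ := hg
      obtain ⟨i, rfl⟩ := Subgroup.mem_zpowers_iff.1 hz
      exact ⟨⟨k, hKH' hk⟩, hk, i, rfl⟩
    · intro k hk
      have h1 : Abelianization.of (f k) = 1 := hk
      have h2 : f k ∈ commutator K₁ := by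
        rw [← Abelianization.ker_of]
        exact h1
      have h3 : k ∈ commutator (K₁.subgroupOf H') := by
        have h4 : f.symm.toMonoidHom (f k) ∈ (commutator K₁).map f.symm.toMonoidHom :=
          Subgroup.mem_map_of_mem _ h2
        have h5 : f.symm.toMonoidHom (f k) = k := f.symm_apply_apply k
        rw [h5, commutator_def, Subgroup.map_commutator] at h4
        exact Subgroup.commutator_mono le_top le_top h4
      rw [← Subgroup.map_subtype_commutator]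
      exact Subgroup.mem_map_of_mem _ h3
    · intro k
      show Additive.ofMul (Abelianization.of (f _)) = NilA_cj K₁ (t ^ N)
        (Additive.ofMul (Abelianization.of (f k)))
      rw [NilA_cj_of]
      congr 2
      apply Subtype.ext
      rw [hfv, MulAut.conjNormal_apply, hfv]
      rfl
    · rw [NilA_cj_pow]
      exact hc
  · refine NilA_index φ t ht C hCf K₁ hnorm ?_ N hN H' hKH' hTH'
    intro x hx
    rw [hK₁]
    exact Subgroup.mem_map_of_mem _ hx

theorem virt_of_finiteIndex {L : Type} [Group L] (H : Subgroup L) (hH : H.FiniteIndex)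
    (h : Group.IsVirtuallyNilpotent H) : Group.IsVirtuallyNilpotent L := by
  obtain ⟨N, hN, hNf⟩ := h
  refine ⟨N.map H.subtype, ?_, ?_⟩
  · exact Group.nilpotent_of_mulEquiv (N.equivMapOfInjective H.subtype H.subtype_injective)
  · constructor
    rw [Subgroup.index_map_subtype]
    exact mul_ne_zero hNf.index_ne_zero hH.index_ne_zero

end PDG
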