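import Pool.Agent.W_3f3beb_h76.Defs

/-! # Ultraproducts of representations -/

set_option autoImplicit false

open scoped Classical

namespace PDG

variable {L : Type} [Group L]

/-- the general construction -/
theorem UltA_key {m : ℕ} (hF : LinFin L) {R : ℕ → Type} [∀ i, CommRing (R i)]
    (J : Ideal (∀ i, R i)) (hJ : J.IsPrime)
    (hchar : ∀ n : ℕ, ((n : ℕ) : ∀ i, R i) ∈ J → n = 0) (ρ : ∀ i, L →* GL (Fin m) (R i)) :
    ∃ N : Subgroup L, N.FiniteIndex ∧ ∀ y ∈ N, ∀ a b,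
      (fun i => (ρ i y).val a b - (1 : Matrix (Fin m) (Fin m) (R i)) a b) ∈ J := by
  have hJ' : J.IsPrime := hJ
  let K := FractionRing ((∀ i, R i) ⧸ J)
  let φ : (∀ i, R i) →+* K := (algebraMap ((∀ i, R i) ⧸ J) K).comp (Ideal.Quotient.mk J)
  have hφ : ∀ x, φ x = 0 → x ∈ J := by
    intro x hx
    have h1 : algebraMap ((∀ i, R i) ⧸ J) K (Ideal.Quotient.mk J x) = 0 := hx
    rw [map_eq_zero_iff _ (IsFractionRing.injective ((∀ i, R i) ⧸ J) K)] at h1
    exact Ideal.Quotient.eq_zero_iff_mem.1 h1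
  have hK : CharZero K := by
    apply charZero_of_inj_zero
    intro n hn
    apply hchar
    apply hφ
    rw [map_natCast]
    exact hn
  let ρ0 : L →* Matrix (Fin m) (Fin m) (∀ i, R i) :=
    { toFun := fun y => Matrix.of fun a b i => (ρ i y).val a b
      map_one' := by
        ext a b i
        rw [Matrix.of_apply, map_one]
        by_cases hab : a = b
        · subst hab
          simp
        · simp [Matrix.one_apply_ne hab]
      map_mul' := by
        intro y z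
        ext a b i
        rw [Matrix.of_apply, map_mul]
        simp [Matrix.mul_apply] }
  let ρ1 : L →* Matrix (Fin m) (Fin m) K := (RingHom.toMonoidHom (φ.mapMatrix (m := Fin m))).comp ρ0
  let ρ' : L →* GL (Fin m) K := ρ1.toHomUnits
  have hfin : Finite ρ'.range := hF m K inferInstance hK ρ'
  refine ⟨ρ'.ker, Subgroup.finiteIndex_ker ρ', ?_⟩
  intro y hy a b
  rw [MonoidHom.mem_ker] at hy
  have h1 : ρ1 y = 1 := congrArg (fun u : GL (Fin m) K => (u : Matrix (Fin m) (Fin m) K)) hy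
  have h2 : φ (fun i => (ρ i y).val a b) = (1 : Matrix (Fin m) (Fin m) K) a b := by
    rw [← h1]
    rfl
  apply hφ
  have h3 : (fun i => (ρ i y).val a b - (1 : Matrix (Fin m) (Fin m) (R i)) a b) =
      (fun i => (ρ i y).val a b) - (fun i => (1 : Matrix (Fin m) (Fin m) (R i)) a b) := rfl
  have h4 : (fun i => (1 : Matrix (Fin m) (Fin m) (R i)) a b) =
      (if a = b then (1 : ∀ i, R i) else 0) := by
    funext i
    by_cases hab : a = b
    · subst hab
      simp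
    · simp [Matrix.one_apply_ne hab, hab]
  rw [h3, map_sub, h2, h4]
  by_cases hab : a = b
  · subst hab
    simp
  · simp [Matrix.one_apply_ne hab, hab]

theorem UltA_dvd (p : ℕ) [Fact p.Prime] {s n : ℕ} (hs : s ≤ n) (N : ℕ) :
    ((p ^ s : ℕ) : ZMod (p ^ n)) ∣ ((N : ℕ) : ZMod (p ^ n)) ↔ p ^ s ∣ N := by
  have hne : NeZero (p ^ n) := ⟨pow_ne_zero _ (Fact.out : p.Prime).ne_zero⟩
  constructor
  · rintro ⟨c, hc⟩
    have h1 : ((N : ℕ) : ZMod (p ^ n)) = ((p ^ s * c.val : ℕ) : ZMod (p ^ n)) := by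
      rw [hc, Nat.cast_mul, ZMod.natCast_zmod_val]
    rw [ZMod.natCast_eq_natCast_iff] at h1
    have h2 : N ≡ p ^ s * c.val [MOD p ^ s] := h1.of_dvd (pow_dvd_pow p hs)
    have h3 : p ^ s * c.val ≡ 0 [MOD p ^ s] := (Nat.modEq_zero_iff_dvd).2 (dvd_mul_right _ _)
    exact (Nat.modEq_zero_iff_dvd).1 (h2.trans h3)
  · rintro ⟨c, hc⟩
    exact ⟨(c : ZMod (p ^ n)), by rw [hc, Nat.cast_mul]⟩

theorem UltA_mul (p : ℕ) [Fact p.Prime] {s t n : ℕ} (hs : s + t ≤ n) (x y : ZMod (p ^ n))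
    (h : ((p ^ (s + t) : ℕ) : ZMod (p ^ n)) ∣ x * y) :
    ((p ^ s : ℕ) : ZMod (p ^ n)) ∣ x ∨ ((p ^ t : ℕ) : ZMod (p ^ n)) ∣ y := by
  have hne : NeZero (p ^ n) := ⟨pow_ne_zero _ (Fact.out : p.Prime).ne_zero⟩
  have hx : x = ((x.val : ℕ) : ZMod (p ^ n)) := (ZMod.natCast_zmod_val x).symm
  have hy : y = ((y.val : ℕ) : ZMod (p ^ n)) := (ZMod.natCast_zmod_val y).symm
  rw [hx, hy, ← Nat.cast_mul, UltA_dvd p hs] at h
  rw [hx, hy, UltA_dvd p (by omega), UltA_dvd p (by omega)]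
  by_cases hx0 : x.val = 0
  · left
    rw [hx0]
    exact dvd_zero _
  by_cases hy0 : y.val = 0
  · right
    rw [hy0]
    exact dvd_zero _
  rw [padicValNat_dvd_iff_le (mul_ne_zero hx0 hy0), padicValNat.mul hx0 hy0] at h
  rw [padicValNat_dvd_iff_le hx0, padicValNat_dvd_iff_le hy0]
  omega

/-- PROOF. `R = ∀ i, ZMod (p^(i+2))`, `𝒰 = Filter.hyperfilter ℕ`, `q = {x | ∀ s, ∀ᶠ i in 𝒰, p^s ∣ x i}`: an ideal; prime: if `x, y ∉ q` there are `s, t` with `p^s ∤ x i`, `p^t ∤ y i` for `𝒰`-many `i`, and for `i + 2 ≥ s + t` this gives `p^(s+t) ∤ x i * y i` (lift to integers). `R ⧸ q` is a domain of characteristic zero (for an integer `n ≠ 0`, `p^s ∤ n`: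
`p^s ∤ (n : ZMod (p^(i+2)))` for `i + 2 ≥ s`). Let `K` be its fraction field and `ρ' : L →* GL (Fin m) K` the product of the `ρ i` followed by `R → R ⧸ q → K`. `hF`: finite range, so `N = ρ'.ker` has finite index. For `y ∈ N` the entries of `(ρ i y - 1)_i` are in `q`: for every `s` the finitely many conditions hold for `𝒰`-many `i`, and a set in the hyperfilter is infinite. -/
theorem ultra_pow (hF : LinFin L) (p : ℕ) [Fact p.Prime] (m : ℕ)
    (ρ : ∀ i : ℕ, L →* GL (Fin m) (ZMod (p ^ (i + 2)))) :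
    ∃ N : Subgroup L, N.FiniteIndex ∧ ∀ y ∈ N, ∀ s n₀ : ℕ, ∃ i, n₀ ≤ i ∧
      ∀ a b, ((p ^ s : ℕ) : ZMod (p ^ (i + 2))) ∣
        (ρ i y).val a b - (1 : Matrix (Fin m) (Fin m) (ZMod (p ^ (i + 2)))) a b := by
  have hge : ∀ n₀ : ℕ, ∀ᶠ i in (Filter.hyperfilter ℕ : Filter ℕ), n₀ ≤ i := fun n₀ =>
    Nat.hyperfilter_le_atTop (Filter.eventually_ge_atTop n₀)
  let J : Ideal (∀ i : ℕ, ZMod (p ^ (i + 2))) :=
    { carrier := {x | ∀ s : ℕ, ∀ᶠ i in (Filter.hyperfilter ℕ : Filter ℕ),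
        ((p ^ s : ℕ) : ZMod (p ^ (i + 2))) ∣ x i}
      add_mem' := by
        intro x y hx hy s
        filter_upwards [hx s, hy s] with i h1 h2
        exact dvd_add h1 h2
      zero_mem' := by
        intro s
        exact Filter.Eventually.of_forall fun i => dvd_zero _
      smul_mem' := by
        intro c x hx s
        filter_upwards [hx s] with i h1
        exact Dvd.dvd.mul_left h1 _ }
  have hJm : ∀ x, x ∈ J ↔ ∀ s : ℕ, ∀ᶠ i in (Filter.hyperfilter ℕ : Filter ℕ),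
      ((p ^ s : ℕ) : ZMod (p ^ (i + 2))) ∣ x i := fun x => Iff.rfl
  have hchar : ∀ n : ℕ, ((n : ℕ) : ∀ i : ℕ, ZMod (p ^ (i + 2))) ∈ J → n = 0 := by
    intro n hn
    by_contra hn0
    obtain ⟨i, h1, h2⟩ := (((hJm _).1 hn n).and (hge n)).exists
    have h3 : ((n : ℕ) : ∀ i : ℕ, ZMod (p ^ (i + 2))) i = ((n : ℕ) : ZMod (p ^ (i + 2))) := rfl
    rw [h3, UltA_dvd p (by omega)] at h1
    have h4 := Nat.le_of_dvd (Nat.pos_of_ne_zero hn0) h1
    have h5 : n < p ^ n := Nat.lt_pow_self (Fact.out : p.Prime).one_lt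
    omega
  have hJ : J.IsPrime := by
    refine ⟨?_, ?_⟩
    · intro htop
      have h1 : ((1 : ℕ) : ∀ i : ℕ, ZMod (p ^ (i + 2))) ∈ J := by
        rw [htop]
        trivial
      exact one_ne_zero (hchar 1 h1)
    · intro x y hxy
      by_contra hcon
      push Not at hcon
      obtain ⟨hx, hy⟩ := hcon
      rw [hJm] at hx hy
      push Not at hx hy
      obtain ⟨s, hs⟩ := hx
      obtain ⟨t, ht⟩ := hy
      obtain ⟨i, ⟨⟨h1, h2⟩, h3⟩, h4⟩ := (((hs.and ht).and ((hJm _).1 hxy (s + t))).and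
        (hge (s + t))).exists
      rcases UltA_mul p (n := i + 2) (by omega) (x i) (y i) h3 with h5 | h5
      · exact h1 h5
      · exact h2 h5
  obtain ⟨N, hN, h⟩ := UltA_key hF J hJ hchar ρ
  refine ⟨N, hN, fun y hy s n₀ => ?_⟩
  have h1 : ∀ᶠ i in (Filter.hyperfilter ℕ : Filter ℕ), ∀ a b, ((p ^ s : ℕ) : ZMod (p ^ (i + 2))) ∣
        (ρ i y).val a b - (1 : Matrix (Fin m) (Fin m) (ZMod (p ^ (i + 2)))) a b := by
    rw [Filter.eventually_all]
    intro a
    rw [Filter.eventually_all]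
    intro b
    exact (hJm _).1 (h y hy a b) s
  obtain ⟨i, h2, h3⟩ := (h1.and (hge n₀)).exists
  exact ⟨i, h3, h2⟩

/-- PROOF. `R = ∀ k, ZMod (pr k)`, `q = {x | ∀ᶠ k in 𝒰, x k = 0}` (`𝒰` the hyperfilter): a prime (maximal) ideal, as each `ZMod (pr k)` is a field; `R ⧸ q` has characteristic zero by `hinf`: `(n : ZMod (pr k)) = 0` only for the finitely many `k` with `pr k ∣ n`. `K = FractionRing (R ⧸ q)`, `ρ'` as before, `N = ρ'.ker`. For `y ∈ F` the set of `k` with `ρ k y = 1` is in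
`𝒰` (finitely many entries); the intersection over the finite set `F` is in `𝒰`, so infinite. -/
theorem ultra_field (hF : LinFin L) (D : ℕ) (pr : ℕ → ℕ) (hpr : ∀ k, (pr k).Prime)
    (hinf : ∀ q : ℕ, {k | pr k = q}.Finite) (ρ : ∀ k : ℕ, L →* GL (Fin D) (ZMod (pr k))) :
    ∃ N : Subgroup L, N.FiniteIndex ∧ ∀ F : Finset L, (∀ y ∈ F, y ∈ N) → ∀ n₀ : ℕ,
      ∃ k, n₀ ≤ k ∧ ∀ y ∈ F, ρ k y = 1 := by
  have hge : ∀ n₀ : ℕ, ∀ᶠ i in (Filter.hyperfilter ℕ : Filter ℕ), n₀ ≤ i := fun n₀ =>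
    Nat.hyperfilter_le_atTop (Filter.eventually_ge_atTop n₀)
  have hprf : ∀ k, Fact (pr k).Prime := fun k => ⟨hpr k⟩
  let J : Ideal (∀ k : ℕ, ZMod (pr k)) :=
    { carrier := {x | ∀ᶠ k in (Filter.hyperfilter ℕ : Filter ℕ), x k = 0}
      add_mem' := by
        intro x y hx hy
        filter_upwards [hx, hy] with i h1 h2
        change x i + y i = 0
        rw [h1, h2, add_zero]
      zero_mem' := Filter.Eventually.of_forall fun i => rfl
      smul_mem' := by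
        intro c x hx
        filter_upwards [hx] with i h1
        change c i * x i = 0
        rw [h1, mul_zero] }
  have hJm : ∀ x, x ∈ J ↔ ∀ᶠ k in (Filter.hyperfilter ℕ : Filter ℕ), x k = 0 := fun x => Iff.rfl
  have hchar : ∀ n : ℕ, ((n : ℕ) : ∀ k : ℕ, ZMod (pr k)) ∈ J → n = 0 := by
    intro n hn
    by_contra hn0
    have h1 : {k | pr k ∣ n}.Finite := by
      have h2 : {k | pr k ∣ n} ⊆ ⋃ q ∈ n.divisors, {k | pr k = q} := by
        intro k hk
        simp only [Set.mem_iUnion]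
        exact ⟨pr k, Nat.mem_divisors.2 ⟨hk, hn0⟩, rfl⟩
      refine Set.Finite.subset ?_ h2
      exact Set.Finite.biUnion (Finset.finite_toSet _) fun q _ => hinf q
    obtain ⟨K, hK⟩ := h1.bddAbove
    obtain ⟨k, h3, h4⟩ := (((hJm _).1 hn).and (hge (K + 1))).exists
    have h5 : ((n : ℕ) : ∀ k : ℕ, ZMod (pr k)) k = ((n : ℕ) : ZMod (pr k)) := rfl
    rw [h5, ZMod.natCast_eq_zero_iff] at h3
    have h6 := hK h3
    omega
  have hJ : J.IsPrime := by
    refine ⟨?_, ?_⟩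
    · intro htop
      have h1 : ((1 : ℕ) : ∀ k : ℕ, ZMod (pr k)) ∈ J := by
        rw [htop]
        trivial
      exact one_ne_zero (hchar 1 h1)
    · intro x y hxy
      rw [hJm] at hxy
      have h1 : ∀ᶠ k in (Filter.hyperfilter ℕ : Filter ℕ), x k = 0 ∨ y k = 0 := by
        filter_upwards [hxy] with k hk
        exact mul_eq_zero.1 hk
      exact Ultrafilter.eventually_or.1 h1
  obtain ⟨N, hN, h⟩ := UltA_key hF J hJ hchar ρ
  refine ⟨N, hN, fun F hFN n₀ => ?_⟩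
  have h1 : ∀ᶠ k in (Filter.hyperfilter ℕ : Filter ℕ), ∀ y ∈ F, ∀ a b,
      (ρ k y).val a b - (1 : Matrix (Fin D) (Fin D) (ZMod (pr k))) a b = 0 := by
    rw [Filter.eventually_all_finset]
    intro y hy
    rw [Filter.eventually_all]
    intro a
    rw [Filter.eventually_all]
    intro b
    exact (hJm _).1 (h y (hFN y hy) a b)
  obtain ⟨k, h2, h3⟩ := (h1.and (hge n₀)).exists
  refine ⟨k, h3, fun y hy => ?_⟩
  ext a b
  exact sub_eq_zero.1 (h2 y hy a b)

end PDG
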