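import Pool.Agent.W_3f3beb_h76.UuA

/-! # The series is strictly decreasing -/

set_option autoImplicit false

open scoped Classical

namespace PDG

variable {L : Type} [Group L] {p : ℕ} [Fact p.Prime] {r : ℕ} {T : Subgroup L}

/-- a subgroup of a finite `p`-group which is generated by the `p`-th powers of its elements is trivial -/
theorem UuD_pgroup {Q : Type} [Group Q] [Finite Q] (hQ : IsPGroup p Q) (P : Subgroup Q)
    (h : P ≤ pw p P) : P = ⊥ := by
  have hp : p.Prime := Fact.out
  by_contra hne
  obtain ⟨k, hk⟩ := IsPGroup.iff_card.1 (hQ.to_subgroup P)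
  have hk0 : k ≠ 0 := by
    rintro rfl
    rw [pow_zero] at hk
    exact hne (Subgroup.card_eq_one.1 hk)
  obtain ⟨k, rfl⟩ : ∃ l, k = l + 1 := ⟨k - 1, by omega⟩
  obtain ⟨M, hM⟩ := Sylow.exists_subgroup_card_pow_prime (G := P) p (n := k) (by
    rw [hk, pow_succ]; exact Dvd.intro _ rfl)
  have hidx : M.index = p := by
    have h1 := M.card_mul_index
    rw [hM, hk, pow_succ] at h1
    exact Nat.eq_of_mul_eq_mul_left (pow_pos hp.pos k) h1
  have hn : M.Normal := by
    apply Subgroup.normal_of_index_eq_minFac_card
    rw [hk, hidx, Nat.pow_minFac (by omega), hp.minFac_eq]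
  have hle : pw p P ≤ M.map P.subtype := by
    rw [pw, Subgroup.closure_le]
    rintro _ ⟨x, hx, rfl⟩
    refine ⟨(⟨x, hx⟩ : P) ^ p, ?_, rfl⟩
    have := M.pow_index_mem (⟨x, hx⟩ : P)
    rw [hidx] at this
    exact this
  have hMtop : M = ⊤ := by
    rw [eq_top_iff]
    intro x _
    obtain ⟨y, hy, hxy⟩ := hle (h x.2)
    have : y = x := Subtype.ext hxy
    rw [← this]; exact hy
  rw [hMtop, Subgroup.index_top] at hidx
  exact hp.one_lt.ne hidx

/-- PROOF. If `U_{i+1} = U_i` for some `i` then `U_j = U_i` for all `j ≥ i` (by definition `U_{i+2}` depends only on `U_{i+1}`). Let `N` be `PN`; in the finite `p`-group `Q = L/N` the image of `U_{j+1}` is generated by the `p`-th powers of the image of `U_j` (`Uu_le`), so it is contained in the Frattini subgroup of the image of `U_j` (the `p`-th powers lie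
in every maximal subgroup): if `U_{j+1}` and `U_j` have the same image, the image is trivial (a nontrivial finite `p`-group has a proper (normal, index `p`) maximal subgroup, which contains all `p`-th powers). So `U_i ≤ N` for all `PN` subgroups `N`: only finitely many (they contain the finite index subgroup `U_i`). -/
theorem Uu_ne (h : TT p r T) (hinf : {N : Subgroup L | PN p N}.Infinite) (i : ℕ) :
    Uu p T (i + 1) ≠ Uu p T i := by
  intro heq
  have key : ∀ N : Subgroup L, PN p N → Uu p T i ≤ N := by
    intro N hN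
    haveI := hN.1
    haveI := PN.finiteIndex p hN
    have h1 := Uu_le h i N hN
    rw [heq] at h1
    have h2 : (Uu p T i).map (QuotientGroup.mk' N) ≤ pw p ((Uu p T i).map (QuotientGroup.mk' N)) := by
      refine (Subgroup.map_mono h1).trans ?_
      rw [Subgroup.map_sup]
      apply sup_le
      · rw [pw, MonoidHom.map_closure, Subgroup.closure_le]
        rintro _ ⟨_, ⟨x, hx, rfl⟩, rfl⟩
        exact Subgroup.subset_closure ⟨QuotientGroup.mk' N x, ⟨x, hx, rfl⟩, map_pow _ _ _⟩
      · rw [QuotientGroup.map_mk'_self]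
        exact bot_le
    have h3 := UuD_pgroup (PN.isPGroup p hN hN.1) _ h2
    rw [Subgroup.map_eq_bot_iff, QuotientGroup.ker_mk'] at h3
    exact h3
  have hUfin := PN.finiteIndex p (Uu_pn h i)
  apply hinf
  apply (finite_index_le h.fg (Uu p T i).index).subset
  intro N hN
  have hNfin := PN.finiteIndex p hN
  exact ⟨hNfin.index_ne_zero, Subgroup.index_antitone (key N hN)⟩

end PDG
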