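import Pool.Agent.W_3f3beb_h76.LamA
import Pool.Agent.W_3f3beb_h76.UltA
import Pool.Agent.W_3f3beb_h76.PnD
import Pool.Agent.W_3f3beb_h76.UuD

/-! # Theorem E1 -/

set_option autoImplicit false

open scoped Classical commutatorElement

namespace PDG

variable {L : Type} [Group L] {p : ℕ} [Fact p.Prime] {r : ℕ} {T : Subgroup L}

/-- PROOF. `m, i₀` from `Uu_stable`; `ρ i` from `exists_section_rep` for `i ≥ i₀`, trivial for `i < i₀`; `N` from `ultra_pow`. Let `x ∈ U_{i₀}`, `y ∈ N`, `y ∈ U_{i₀}`, and suppose `⁅x, y⁆ ∈ U_l`, `∉ U_{l+1}`. `⁅x, y⁆ ∈ U_{2 i₀ + 2}` so `l ≥ i₀`. For `i ≥ i₀`, `k = i - i₀`: `x' = x^(p^k) ∈ U_i`, `⁅x', y⁆ ∉ U_{l+k+1}` (`com_pow_iter`).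
With `s = l + 1` and `i ≥ max i₀ (l+1)` from `ultra_pow` (`s ≤ i + 2`): `⁅x', y⁆ ∈ U_{i+s} ≤ U_{l+k+1}` since `i + s ≥ l + k + 1`. Contradiction. So `⁅x, y⁆` is in all `U_l` (it is in `U_0`; induction). -/
theorem com_mem_all (h : TT p r T) (hF : LinFin L)
    (hinf : {N : Subgroup L | PN p N}.Infinite) :
    ∃ M : Subgroup L, M.FiniteIndex ∧ ∀ x ∈ M, ∀ y ∈ M, ∀ l, ⁅x, y⁆ ∈ Uu p T l := by
  obtain ⟨m, i₀, -, hst⟩ := Uu_stable h hinf
  have hex : ∀ i : ℕ, ∃ ρ : L →* GL (Fin m) (ZMod (p ^ (i + 2))), i₀ ≤ i → ∀ (y : L) (s : ℕ),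
      s ≤ i + 2 → (∀ a b, ((p ^ s : ℕ) : ZMod (p ^ (i + 2))) ∣
        (ρ y).val a b - (1 : Matrix (Fin m) (Fin m) (ZMod (p ^ (i + 2)))) a b) →
      ∀ x ∈ Uu p T i, ⁅x, y⁆ ∈ Uu p T (i + s) := by
    intro i
    by_cases hi : i₀ ≤ i
    · obtain ⟨ρ, hρ⟩ := exists_section_rep h m i (fun k hk => (hst k (hi.trans hk)).1)
      exact ⟨ρ, fun _ => hρ⟩
    · exact ⟨1, fun hi' => absurd hi' hi⟩
  choose ρ hρ using hex
  obtain ⟨N, hN, hNρ⟩ := ultra_pow hF p m ρ
  have hU : (Uu p T i₀).FiniteIndex := PN.finiteIndex p (Uu_pn h i₀)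
  refine ⟨N ⊓ Uu p T i₀, inferInstance, fun x hx y hy => ?_⟩
  have hbase : ⁅x, y⁆ ∈ Uu p T i₀ := by
    rw [commutatorElement_def]
    exact mul_mem (mul_mem (mul_mem hx.2 hy.2) (inv_mem hx.2)) (inv_mem hy.2)
  intro l
  induction l with
  | zero => exact Uu_anti' h (Nat.zero_le _) hbase
  | succ l ih =>
    by_cases hl : i₀ ≤ l
    · by_contra hcon
      obtain ⟨i, hi, hdvd⟩ := hNρ y hy.1 (l + 1) (max i₀ (l + 1))
      have hi0 : i₀ ≤ i := le_trans (le_max_left _ _) hi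
      have hil : l + 1 ≤ i := le_trans (le_max_right _ _) hi
      obtain ⟨h1, -, h3⟩ := com_pow_iter h i₀ (fun i hi => (hst i hi).2) i₀ l hl x y hx.2 ih hcon
        (i - i₀)
      rw [Nat.add_sub_cancel' hi0] at h1
      have h4 := hρ i hi0 y (l + 1) (by omega) hdvd _ h1
      exact h3 (Uu_anti' h (by omega) h4)
    · exact Uu_anti' h (by omega) hbase

/-- PROOF. Suppose infinite. `exists_T` gives `TT`. `M` from `com_mem_all`, `U_∞ = ⨅ l, U_l`, normal. `M/(M ⊓ U_∞)` is abelian, so it is a quotient of the abelianization of `M`, finite by `FAb`; so `U_∞` has finite index in `L` (`M` has finite index), but `U_∞ ≤ U_l` and the `U_l` are strictly decreasing (`Uu_ne`, `Uu_anti`): infinitely many different subgroups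
containing `U_∞`: contradiction. -/
theorem pn_finite (hL : Group.FG L) (hF : LinFin L) (hf : FAb L)
    (hr : ∀ H : Subgroup L, H.FiniteIndex → dp p H ≤ r) : {N : Subgroup L | PN p N}.Finite := by
  by_contra hfin
  have hinf : {N : Subgroup L | PN p N}.Infinite := hfin
  obtain ⟨T, hT, hcom⟩ := exists_T p hL r hr
  have h : TT p r T := ⟨hL, hr, hT, hcom⟩
  obtain ⟨M, hM, hMc⟩ := com_mem_all h hF hinf
  have hab : Finite (Abelianization M) := hf M hM
  have hcf : (commutator M).FiniteIndex := by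
    have : Finite (M ⧸ commutator M) := hab
    exact Subgroup.finiteIndex_of_finite_quotient
  have hle : commutator M ≤ (⨅ l, Uu p T l).subgroupOf M := by
    rw [commutator_def, Subgroup.commutator_le]
    intro a _ b _
    rw [Subgroup.mem_subgroupOf, Subgroup.mem_iInf]
    intro l
    exact hMc a a.2 b b.2 l
  have h1 : ((⨅ l, Uu p T l).subgroupOf M).FiniteIndex := Subgroup.finiteIndex_of_le hle
  have h2 : (⨅ l, Uu p T l).index ≠ 0 := by
    have h3 : ((⨅ l, Uu p T l) ⊓ M).index ≠ 0 := by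
      rw [← Subgroup.relIndex_mul_index (inf_le_right : (⨅ l, Uu p T l) ⊓ M ≤ M),
        Subgroup.inf_relIndex_right]
      exact mul_ne_zero h1.index_ne_zero hM.index_ne_zero
    intro h0
    apply h3
    have := Subgroup.index_dvd_of_le (inf_le_left : (⨅ l, Uu p T l) ⊓ M ≤ (⨅ l, Uu p T l))
    rw [h0] at this
    exact Nat.eq_zero_of_zero_dvd this
  have hidx : ∀ i, i + 1 ≤ (Uu p T i).index := by
    intro i
    induction i with
    | zero =>
      have := (PN.finiteIndex p (Uu_pn h 0)).index_ne_zero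
      omega
    | succ i ih =>
      have hfi : (Uu p T (i + 1)).FiniteIndex := PN.finiteIndex p (Uu_pn h (i + 1))
      have hlt : Uu p T (i + 1) < Uu p T i := lt_of_le_of_ne (Uu_anti h i) (Uu_ne h hinf i)
      have := Subgroup.index_strictAnti hlt
      omega
  have h3 := hidx (⨅ l, Uu p T l).index
  have h4 : (Uu p T (⨅ l, Uu p T l).index).index ∣ (⨅ l, Uu p T l).index :=
    Subgroup.index_dvd_of_le (iInf_le _ _)
  have h5 := Nat.le_of_dvd (Nat.pos_of_ne_zero h2) h4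
  omega

end PDG
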