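import Pool.Agent.W_3f3beb_h76.PolA

/-! # Polynomial growth of cyclic extensions, second part -/

set_option autoImplicit false

open scoped Classical

namespace PDG

variable {H : Type} [Group H]

theorem PolB_mono {L : Type} [Group L] {S S' : Finset L} (h : S ⊆ S') (n : ℕ) :
    ball S n ⊆ ball S' n := by
  rintro g ⟨l, hl, hm, rfl⟩
  exact ⟨l, hl, fun s hs => (hm s hs).imp (fun h' => h h') (fun h' => h h'), rfl⟩

/-- `conj_length` for finitely many elements and all integers -/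
theorem PolB_conj (hn : Group.IsNilpotent H) (K : Subgroup H) (hK : K.Normal) (T : H)
    (SK : Finset K) : ∃ (F : Finset K) (c : ℕ), ∀ s ∈ SK, ∀ j : ℤ,
      (⟨T ^ j * s * (T ^ j)⁻¹, hK.conj_mem s s.2 (T ^ j)⟩ : K) ∈ ball F ((j.natAbs + 1) ^ c) := by
  induction SK using Finset.induction_on with
  | empty => exact ⟨∅, 0, by simp⟩
  | insert a SK _ ih =>
    obtain ⟨F₃, c₃, h₃⟩ := ih
    obtain ⟨F₁, c₁, h₁⟩ := conj_length hn K hK T a
    obtain ⟨F₂, c₂, h₂⟩ := conj_length hn K hK T⁻¹ a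
    have hpow : ∀ (m c c' : ℕ), c ≤ c' → (m + 1) ^ c ≤ (m + 1) ^ c' := fun m c c' h =>
      Nat.pow_le_pow_right (by omega) h
    refine ⟨F₁ ∪ F₂ ∪ F₃, c₁ + c₂ + c₃, fun s hs j => ?_⟩
    rcases Finset.mem_insert.1 hs with h | h
    · subst h
      obtain ⟨m, hm | hm⟩ := Int.eq_nat_or_neg j
      · subst hm
        have h4 := ball_mono F₁ (hpow m c₁ (c₁ + c₂ + c₃) (by omega)) (h₁ m)
        have h5 := PolB_mono (S' := F₁ ∪ F₂ ∪ F₃)
          (Finset.subset_union_left.trans Finset.subset_union_left) _ h4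
        have h6 : (⟨T ^ (m : ℤ) * s * (T ^ (m : ℤ))⁻¹, hK.conj_mem s s.2 (T ^ (m : ℤ))⟩ : K) =
            ⟨T ^ m * s * (T ^ m)⁻¹, hK.conj_mem s s.2 (T ^ m)⟩ := by
          refine Subtype.ext ?_
          simp
        rw [h6, Int.natAbs_natCast]
        exact h5
      · subst hm
        have h4 := ball_mono F₂ (hpow m c₂ (c₁ + c₂ + c₃) (by omega)) (h₂ m)
        have h5 := PolB_mono (S' := F₁ ∪ F₂ ∪ F₃)
          (Finset.subset_union_right.trans Finset.subset_union_left) _ h4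
        have h6 : (⟨T ^ (-(m : ℤ)) * s * (T ^ (-(m : ℤ)))⁻¹,
            hK.conj_mem s s.2 (T ^ (-(m : ℤ)))⟩ : K) =
            ⟨T⁻¹ ^ m * s * (T⁻¹ ^ m)⁻¹, hK.conj_mem s s.2 (T⁻¹ ^ m)⟩ := by
          refine Subtype.ext ?_
          simp
        rw [h6, Int.natAbs_neg, Int.natAbs_natCast]
        exact h5
    · have h4 := ball_mono F₃ (hpow j.natAbs c₃ (c₁ + c₂ + c₃) (by omega)) (h₃ s h j)
      exact PolB_mono (S' := F₁ ∪ F₂ ∪ F₃) Finset.subset_union_right _ h4

/-- normal form of words in `T` and finitely many elements of `K` -/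
theorem PolB_word (K : Subgroup H) (hK : K.Normal) (T : H) (SK F : Finset K) (c : ℕ)
    (hF : ∀ s ∈ SK, ∀ j : ℤ,
      (⟨T ^ j * s * (T ^ j)⁻¹, hK.conj_mem s s.2 (T ^ j)⟩ : K) ∈ ball F ((j.natAbs + 1) ^ c))
    (l : List H) (hl : ∀ a ∈ l, a ∈ insert T (SK.image (fun k : K => (k : H))) ∨
      a⁻¹ ∈ insert T (SK.image (fun k : K => (k : H)))) :
    ∃ (j : ℤ) (k : K), j.natAbs ≤ l.length ∧ k ∈ ball F (l.length * (l.length + 1) ^ c) ∧
      l.prod = k * T ^ j := by
  induction l using List.reverseRecOn with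
  | nil => exact ⟨0, 1, by simp, one_mem_ball _ _, by simp⟩
  | append_singleton l a ih =>
    obtain ⟨j, k, hj, hk, hp⟩ := ih fun b hb => hl b (List.mem_append_left _ hb)
    have hlen : (l ++ [a]).length = l.length + 1 := by simp
    have hprod : (l ++ [a]).prod = l.prod * a := by simp
    have hle : l.length * (l.length + 1) ^ c + (l.length + 1) ^ c ≤
        (l.length + 1) * (l.length + 1 + 1) ^ c := by
      calc l.length * (l.length + 1) ^ c + (l.length + 1) ^ c =
            (l.length + 1) * (l.length + 1) ^ c := by ring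
        _ ≤ _ := Nat.mul_le_mul_left _ (Nat.pow_le_pow_left (by omega) c)
    have hjle : (j.natAbs + 1) ^ c ≤ (l.length + 1) ^ c := Nat.pow_le_pow_left (by omega) c
    have hkk : k ∈ ball F ((l.length + 1) * (l.length + 1 + 1) ^ c) :=
      ball_mono F (by omega) hk
    rw [hlen, hprod, hp]
    rcases hl a (by simp) with h | h
    · rcases Finset.mem_insert.1 h with h | h
      · subst h
        refine ⟨j + 1, k, by omega, hkk, ?_⟩
        rw [mul_assoc, zpow_add_one]
      · obtain ⟨s, hs, rfl⟩ := Finset.mem_image.1 h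
        refine ⟨j, k * ⟨T ^ j * s * (T ^ j)⁻¹, hK.conj_mem s s.2 (T ^ j)⟩, by omega, ?_, ?_⟩
        · exact ball_mono F (by omega) (ball_mul F hk (hF s hs j))
        · rw [Subgroup.coe_mul]
          group
    · rcases Finset.mem_insert.1 h with h | h
      · have ha : a = T⁻¹ := by rw [← h, inv_inv]
        subst ha
        refine ⟨j - 1, k, by omega, hkk, ?_⟩
        rw [mul_assoc, zpow_sub_one]
      · obtain ⟨s, hs, hsa⟩ := Finset.mem_image.1 h
        have ha : a = (s : H)⁻¹ := by rw [hsa, inv_inv]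
        subst ha
        refine ⟨j, k * (⟨T ^ j * s * (T ^ j)⁻¹, hK.conj_mem s s.2 (T ^ j)⟩)⁻¹, by omega, ?_, ?_⟩
        · exact ball_mono F (by omega) (ball_mul F hk (ball_inv F (hF s hs j)))
        · rw [Subgroup.coe_mul, Subgroup.coe_inv]
          group

/-- PROOF. `H` nilpotent, `K` normal, `H = K ⟨T⟩`. Let `S ⊆ H` be finite, `s = k_s T^{a_s}`. It is enough to bound the growth of the finite set `S₁ = {T} ∪ {k_s}` (every element of `S` is a word of bounded length in `S₁`: `ball_sub`). By `conj_length` for `T` and `T⁻¹` and the finitely many `k_s` there are a finite `F ⊆ K` and `c` with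
`T^j k_s T^{-j} ∈ ball F ((|j| + 1)^c)` for all `j ∈ ℤ`. An element of `ball S₁ n` is `k T^j` with `|j| ≤ n` and `k` a product of at most `n` elements `(T^i k_s T^{-i})^{±1}`, `|i| ≤ n`: `k ∈ ball F (n (n+1)^c)`. So `growth S₁ n ≤ (2 n + 1) growth F (n (n+1)^c)`, polynomial by `h`. -/
theorem poly_cyclic (hn : Group.IsNilpotent H) (K : Subgroup H) (hK : K.Normal) (h : Poly K)
    (T : H) (hT : K ⊔ Subgroup.zpowers T = ⊤) : Poly H := by
  intro S
  have hdec : ∀ x : H, ∃ (k : K) (j : ℤ), x = k * T ^ j := by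
    intro x
    have hx : x ∈ K ⊔ Subgroup.zpowers T := by rw [hT]; trivial
    rw [← SetLike.mem_coe, Subgroup.normal_mul] at hx
    obtain ⟨k, hk, t, ht, rfl⟩ := hx
    obtain ⟨j, rfl⟩ := Subgroup.mem_zpowers_iff.1 ht
    exact ⟨⟨k, hk⟩, j, rfl⟩
  choose kf jf hkj using hdec
  set SK : Finset K := S.image kf with hSK
  set S₁ : Finset H := insert T (SK.image (fun k : K => (k : H))) with hS₁
  obtain ⟨r, hr⟩ : ∃ r : ℕ, ∀ s ∈ S, s ∈ ball S₁ r := by
    have hTb : ∀ m : ℕ, T ^ m ∈ ball S₁ m := by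
      intro m
      refine ⟨List.replicate m T, by simp, fun s hs => ?_, by simp⟩
      rw [List.eq_of_mem_replicate hs]
      exact Or.inl (Finset.mem_insert_self _ _)
    have hTz : ∀ j : ℤ, T ^ j ∈ ball S₁ j.natAbs := by
      intro j
      obtain ⟨m, hm | hm⟩ := Int.eq_nat_or_neg j
      · subst hm
        rw [Int.natAbs_natCast, zpow_natCast]
        exact hTb m
      · subst hm
        rw [Int.natAbs_neg, Int.natAbs_natCast, zpow_neg, zpow_natCast]
        exact ball_inv _ (hTb m)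
    refine ⟨1 + S.sup (fun s => (jf s).natAbs), fun s hs => ?_⟩
    rw [hkj s]
    refine ball_mul S₁ ?_ (ball_mono S₁ (Finset.le_sup (f := fun s => (jf s).natAbs) hs)
      (hTz (jf s)))
    refine ⟨[(kf s : H)], by simp, fun x hx => ?_, by simp⟩
    rw [List.mem_singleton.1 hx]
    exact Or.inl (Finset.mem_insert_of_mem (Finset.mem_image_of_mem _
      (Finset.mem_image_of_mem _ hs)))
  obtain ⟨F, c, hF⟩ := PolB_conj hn K hK T SK
  obtain ⟨d, C, hC⟩ := h F
  have hC0 : 0 ≤ C := by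
    have h1 := hC 0
    have h2 : (1 : ℝ) ≤ growth F 0 := by exact_mod_cast growth_pos F 0
    simp only [Nat.cast_zero, zero_add, one_pow, mul_one] at h1
    linarith
  have hb1 : ∀ n : ℕ, growth S₁ n ≤ (2 * n + 1) * growth F (n * (n + 1) ^ c) := by
    intro n
    have hsub : ball S₁ n ⊆ (fun q : ℤ × K => (q.2 : H) * T ^ q.1) ''
        (((Finset.Icc (-(n : ℤ)) n : Finset ℤ) : Set ℤ) ×ˢ ball F (n * (n + 1) ^ c)) := by
      rintro x ⟨l, hl, hm, rfl⟩
      obtain ⟨j, k, hj, hk, hp⟩ := PolB_word K hK T SK F c hF l hm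
      refine ⟨(j, k), ⟨?_, ?_⟩, hp.symm⟩
      · rw [Finset.coe_Icc, Set.mem_Icc]
        constructor <;> omega
      · refine ball_mono F ?_ hk
        exact Nat.mul_le_mul hl (Nat.pow_le_pow_left (by omega) c)
    have hfin : (((Finset.Icc (-(n : ℤ)) n : Finset ℤ) : Set ℤ) ×ˢ
        ball F (n * (n + 1) ^ c)).Finite := (Finset.finite_toSet _).prod (ball_finite F _)
    calc growth S₁ n ≤ _ := Set.ncard_le_ncard hsub (hfin.image _)
      _ ≤ _ := Set.ncard_image_le hfin
      _ = (2 * n + 1) * growth F (n * (n + 1) ^ c) := by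
        rw [Set.ncard_prod, Set.ncard_coe_finset, Int.card_Icc]
        have : ((n : ℤ) + 1 - -(n : ℤ)).toNat = 2 * n + 1 := by omega
        rw [this]
        rfl
  refine ⟨(c + 1) * d + 1, 2 * C * ((r : ℝ) + 1) ^ ((c + 1) * d + 1), fun n => ?_⟩
  have h1 : (growth S n : ℝ) ≤ growth S₁ (r * n) := by
    exact_mod_cast growth_le_of_ball S₁ S r hr n
  have h2 : (growth S₁ (r * n) : ℝ) ≤
      (2 * ((r * n : ℕ) : ℝ) + 1) * growth F ((r * n) * (r * n + 1) ^ c) := by
    exact_mod_cast hb1 (r * n)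
  have h3 := hC ((r * n) * (r * n + 1) ^ c)
  set y : ℝ := ((r * n : ℕ) : ℝ) with hy
  have hy0 : 0 ≤ y := Nat.cast_nonneg _
  have h4 : (((r * n) * (r * n + 1) ^ c : ℕ) : ℝ) + 1 ≤ (y + 1) ^ (c + 1) := by
    have h5 : (((r * n) * (r * n + 1) ^ c : ℕ) : ℝ) = y * (y + 1) ^ c := by
      rw [hy]; push_cast; ring
    have h6 : (1 : ℝ) ≤ (y + 1) ^ c := one_le_pow₀ (by linarith)
    rw [h5, pow_succ]
    nlinarith
  have h5 : y + 1 ≤ ((r : ℝ) + 1) * ((n : ℝ) + 1) := by
    rw [hy]; push_cast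
    have : (0 : ℝ) ≤ r := Nat.cast_nonneg _
    have : (0 : ℝ) ≤ n := Nat.cast_nonneg _
    nlinarith
  have h6 : ((((r * n) * (r * n + 1) ^ c : ℕ) : ℝ) + 1) ^ d ≤ (y + 1) ^ ((c + 1) * d) := by
    rw [pow_mul]
    exact pow_le_pow_left₀ (by positivity) h4 d
  calc (growth S n : ℝ) ≤ (2 * y + 1) * growth F ((r * n) * (r * n + 1) ^ c) := h1.trans h2
    _ ≤ (2 * y + 1) * (C * (y + 1) ^ ((c + 1) * d)) := by
      refine mul_le_mul_of_nonneg_left (h3.trans ?_) (by positivity)
      exact mul_le_mul_of_nonneg_left h6 hC0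
    _ ≤ (2 * (y + 1)) * (C * (y + 1) ^ ((c + 1) * d)) := by
      refine mul_le_mul_of_nonneg_right (by linarith) ?_
      exact mul_nonneg hC0 (by positivity)
    _ = 2 * C * (y + 1) ^ ((c + 1) * d + 1) := by ring
    _ ≤ 2 * C * (((r : ℝ) + 1) * ((n : ℝ) + 1)) ^ ((c + 1) * d + 1) := by
      refine mul_le_mul_of_nonneg_left (pow_le_pow_left₀ (by positivity) h5 _) (by positivity)
    _ = _ := by rw [mul_pow]; ring

/-- PROOF. `N` nilpotent of finite index in `H`; `K' = ker φ ⊓ N`. `N` contains `K'` as a normal subgroup, `N / K'` embeds in `ℤ`, so `N = K' ⟨T⟩` for some `T` (a subgroup of `ℤ` is cyclic). `Poly` for `K'` (subgroup of `ker φ`; `Poly` depends on the isomorphism class only), `poly_cyclic`, `Poly.of_finiteIndex`. -/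
theorem poly_ext (φ : H →* Multiplicative ℤ) (hn : Group.IsVirtuallyNilpotent H)
    (h : Poly φ.ker) : Poly H := by
  obtain ⟨N, hN, hNfin⟩ := hn
  refine Poly.of_finiteIndex N hNfin ?_
  let ψ : N →* Multiplicative ℤ := φ.comp N.subtype
  have hker : Poly ψ.ker := by
    let f : ψ.ker →* φ.ker :=
      { toFun := fun x => ⟨((x : N) : H), x.2⟩
        map_one' := rfl
        map_mul' := fun _ _ => rfl }
    refine h.of_injective f fun x y hxy => ?_
    have h1 : (((x : N) : H)) = ((y : N) : H) := congrArg (fun z : φ.ker => (z : H)) hxy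
    exact Subtype.ext (Subtype.ext h1)
  have hcyc : IsCyclic ψ.range := inferInstance
  obtain ⟨⟨_, T, rfl⟩, hg⟩ := hcyc.exists_generator
  refine poly_cyclic hN ψ.ker inferInstance hker T ?_
  rw [eq_top_iff]
  intro x _
  obtain ⟨i, hi⟩ := Subgroup.mem_zpowers_iff.1 (hg ⟨ψ x, x, rfl⟩)
  have h1 : ψ T ^ i = ψ x := congrArg Subtype.val hi
  have h2 : x * (T ^ i)⁻¹ ∈ ψ.ker := by
    rw [MonoidHom.mem_ker, map_mul, map_inv, map_zpow, h1, mul_inv_cancel]
  have h3 : x = (x * (T ^ i)⁻¹) * T ^ i := by group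
  rw [h3]
  exact Subgroup.mul_mem_sup h2 (Subgroup.mem_zpowers_iff.2 ⟨i, rfl⟩)

theorem poly_of_finite {L : Type} [Group L] [Finite L] : Poly L := by
  intro S
  refine ⟨0, Nat.card L, fun n => ?_⟩
  rw [pow_zero, mul_one]
  have h1 : growth S n ≤ Nat.card L := by
    rw [← Set.ncard_univ]
    exact Set.ncard_le_ncard (Set.subset_univ _) (Set.toFinite _)
  exact_mod_cast h1

end PDG
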