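import Pool.Agent.W_3f3beb_h76.DpA
import Pool.Agent.W_3f3beb_h76.SgA

/-! # Raising `dp` -/

set_option autoImplicit false

open scoped Classical

namespace PDG

variable {H : Type} [Group H]

/-- the automorphisms which act trivially on `Hom(Q, F_p)` -/
def RaiseA_stab (p : ℕ) [Fact p.Prime] (Q : Type) [Group Q] : Subgroup (MulAut Q) where
  carrier := {s | ∀ (θ : Additive Q →+ ZMod p) (q : Q),
    θ (Additive.ofMul (s q)) = θ (Additive.ofMul q)}
  mul_mem' := by
    intro a b ha hb θ q
    exact (ha θ (b q)).trans (hb θ q)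
  one_mem' := fun θ q => rfl
  inv_mem' := by
    intro a ha θ q
    have h1 := ha θ (a⁻¹ q)
    rw [MulAut.apply_inv_self] at h1
    exact h1.symm

/-- some power of an automorphism acts trivially on the finite set `Hom(Q, F_p)` -/
theorem RaiseA_pow (p : ℕ) [Fact p.Prime] {Q : Type} [Group Q] (hQ : Group.FG Q) (τ : MulAut Q) :
    ∃ b : ℕ, 1 ≤ b ∧ τ ^ b ∈ RaiseA_stab p Q := by
  have hfd := hom_finite p hQ
  have hfin : Finite (Additive Q →+ ZMod p) := Module.finite_of_finite (ZMod p)
  obtain ⟨x, y, hxy, h⟩ := Finite.exists_ne_map_eq_of_infinite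
    (fun (i : ℕ) (θ : Additive Q →+ ZMod p) =>
      θ.comp (MonoidHom.toAdditive ((τ ^ i : MulAut Q) : Q ≃* Q).toMonoidHom))
  have key : ∀ x y : ℕ, x < y → (fun (θ : Additive Q →+ ZMod p) =>
      θ.comp (MonoidHom.toAdditive ((τ ^ x : MulAut Q) : Q ≃* Q).toMonoidHom)) =
      (fun (θ : Additive Q →+ ZMod p) =>
      θ.comp (MonoidHom.toAdditive ((τ ^ y : MulAut Q) : Q ≃* Q).toMonoidHom)) →
      ∃ b : ℕ, 1 ≤ b ∧ τ ^ b ∈ RaiseA_stab p Q := by
    intro x y hxy h
    refine ⟨y - x, by omega, fun θ q => ?_⟩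
    have h1 := DFunLike.congr_fun (congrFun h θ) (Additive.ofMul (((τ ^ x)⁻¹ : MulAut Q) q))
    have h2 : θ (Additive.ofMul ((τ ^ x : MulAut Q) (((τ ^ x)⁻¹ : MulAut Q) q))) =
        θ (Additive.ofMul ((τ ^ y : MulAut Q) (((τ ^ x)⁻¹ : MulAut Q) q))) := h1
    rw [MulAut.apply_inv_self, ← MulAut.mul_apply] at h2
    have h3 : τ ^ y * (τ ^ x)⁻¹ = τ ^ (y - x) := by
      rw [← pow_sub τ hxy.le]
    rw [h3] at h2
    exact h2.symm
  rcases lt_or_gt_of_ne hxy with h' | h'
  · exact key x y h' h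
  · exact key y x h' h.symm

/-- the semidirect product with `ℤ` has one more homomorphism -/
theorem RaiseA_sd (p : ℕ) [Fact p.Prime] {Q : Type} [Group Q]
    (α : Multiplicative ℤ →* MulAut Q) (hα : ∀ i, α i ∈ RaiseA_stab p Q)
    (hQ : Group.FG Q) (hS : Group.FG (Q ⋊[α] Multiplicative ℤ)) :
    dp p Q + 1 ≤ dp p (Q ⋊[α] Multiplicative ℤ) := by
  have hfd := hom_finite p hQ
  have hfd2 := hom_finite p hS
  let φ : ((Additive Q →+ ZMod p) × ZMod p) →ₗ[ZMod p]
      (Additive (Q ⋊[α] Multiplicative ℤ) →+ ZMod p) :=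
    { toFun := fun a =>
        { toFun := fun x => a.1 (Additive.ofMul x.toMul.left) +
            ((x.toMul.right.toAdd : ℤ) : ZMod p) * a.2
          map_zero' := by
            have h1 : ((0 : Additive (Q ⋊[α] Multiplicative ℤ)).toMul).left = 1 := rfl
            have h2 : ((0 : Additive (Q ⋊[α] Multiplicative ℤ)).toMul).right = 1 := rfl
            rw [h1, h2, ofMul_one, map_zero, toAdd_one, Int.cast_zero, zero_mul, add_zero]
          map_add' := fun x y => by
            have h1 : (x + y).toMul.left = x.toMul.left * α x.toMul.right y.toMul.left := rfl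
            have h2 : (x + y).toMul.right = x.toMul.right * y.toMul.right := rfl
            rw [h1, h2, ofMul_mul, map_add, hα x.toMul.right a.1 y.toMul.left, toAdd_mul,
              Int.cast_add]
            ring }
      map_add' := fun a b => by
        refine AddMonoidHom.ext fun x => ?_
        change (a.1 + b.1) (Additive.ofMul x.toMul.left) +
            ((x.toMul.right.toAdd : ℤ) : ZMod p) * (a.2 + b.2) =
          (a.1 (Additive.ofMul x.toMul.left) + ((x.toMul.right.toAdd : ℤ) : ZMod p) * a.2) +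
          (b.1 (Additive.ofMul x.toMul.left) + ((x.toMul.right.toAdd : ℤ) : ZMod p) * b.2)
        rw [AddMonoidHom.add_apply]
        ring
      map_smul' := fun c a => by
        refine AddMonoidHom.ext fun x => ?_
        change c * a.1 (Additive.ofMul x.toMul.left) +
            ((x.toMul.right.toAdd : ℤ) : ZMod p) * (c * a.2) =
          c * (a.1 (Additive.ofMul x.toMul.left) + ((x.toMul.right.toAdd : ℤ) : ZMod p) * a.2)
        ring }
  have hφ : Function.Injective φ := by
    intro a b hab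
    have h1 : ∀ (q : Q) (i : ℤ), a.1 (Additive.ofMul q) + ((i : ℤ) : ZMod p) * a.2 =
        b.1 (Additive.ofMul q) + ((i : ℤ) : ZMod p) * b.2 := fun q i =>
      DFunLike.congr_fun hab (Additive.ofMul (⟨q, Multiplicative.ofAdd i⟩ :
        Q ⋊[α] Multiplicative ℤ))
    refine Prod.ext (AddMonoidHom.ext fun x => ?_) ?_
    · have := h1 x.toMul 0
      simpa using this
    · have := h1 1 1
      simpa using this
  have h1 := LinearMap.finrank_le_finrank_of_injective hφ
  rw [Module.finrank_prod, Module.finrank_self] at h1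
  exact h1

/-- a power of `t` normalizes a subgroup of finite index of a finitely generated normal subgroup -/
theorem RaiseA_norm {N : Subgroup H} (hN : N.Normal) (hfg : Group.FG N) (K₁ : Subgroup N)
    (h1 : K₁.FiniteIndex) (t : H) :
    ∃ a : ℕ, 1 ≤ a ∧ t ^ a ∈ Subgroup.normalizer ((K₁.map N.subtype : Subgroup H) : Set H) := by
  have hfin : Finite {K' : Subgroup N | K'.index ≠ 0 ∧ K'.index ≤ K₁.index} :=
    (finite_index_le hfg K₁.index).to_subtype
  let F : ℕ → {K' : Subgroup N | K'.index ≠ 0 ∧ K'.index ≤ K₁.index} := fun i =>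
    ⟨K₁.map ((MulAut.conjNormal (t ^ i) : MulAut N) : N ≃* N).toMonoidHom, by
      have h2 : (K₁.map ((MulAut.conjNormal (t ^ i) : MulAut N) : N ≃* N).toMonoidHom).index =
        K₁.index := Subgroup.index_map_of_bijective
          (MulEquiv.bijective ((MulAut.conjNormal (t ^ i) : MulAut N) : N ≃* N)) K₁
      exact ⟨by rw [h2]; exact h1.index_ne_zero, h2.le⟩⟩
  obtain ⟨x, y, hxy, h⟩ := Finite.exists_ne_map_eq_of_infinite F
  have hF : ∀ i, (F i).1.map N.subtype =
      (K₁.map N.subtype).map (MulAut.conj (t ^ i)).toMonoidHom := by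
    intro i
    change (K₁.map _).map N.subtype = _
    rw [Subgroup.map_map, Subgroup.map_map]
    congr 1
  have key : ∀ x y : ℕ, x < y → F x = F y →
      ∃ a : ℕ, 1 ≤ a ∧ t ^ a ∈ Subgroup.normalizer ((K₁.map N.subtype : Subgroup H) : Set H) := by
    intro x y hxy h
    refine ⟨y - x, by omega, ?_⟩
    rw [Subgroup.mem_normalizer_iff_map_conj_eq]
    have h2 := hF x
    rw [h, hF y] at h2
    have h3 : (MulAut.conj (t ^ y)).toMonoidHom =
        (MulAut.conj (t ^ x)).toMonoidHom.comp (MulAut.conj (t ^ (y - x))).toMonoidHom := by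
      refine MonoidHom.ext fun z => ?_
      change MulAut.conj (t ^ y) z = MulAut.conj (t ^ x) (MulAut.conj (t ^ (y - x)) z)
      rw [← MulAut.mul_apply, ← map_mul, ← pow_add, Nat.add_sub_cancel' hxy.le]
    rw [h3, ← Subgroup.map_map] at h2
    exact Subgroup.map_injective (MulAut.conj (t ^ x)).injective h2
  rcases lt_or_gt_of_ne hxy with h' | h'
  · exact key x y h' h
  · exact key y x h' h.symm

/-- PROOF. `K = ker φ`, `t` with `φ t` the generator; view `K₁` as a subgroup of `H` (`K₁.map φ.ker.subtype`). `K` has finitely many subgroups of index `K₁.index` (`finite_index_le`), conjugation by `t` permutes them, so `t^a` normalizes `K₁` for some `a ≥ 1`. `t^a` acts by conjugation on the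
finite set `Hom(K₁, F_p)` (`K₁` is finitely generated, finite index in `K`), so `T = t^{a b}` acts trivially for some `b ≥ 1`. `H₂ = K₁ ⟨T⟩` (a subgroup as `T` normalizes `K₁`; every element is uniquely `k T^i`) has finite index in `H` (`[H : H₂] = [K : K₁] a b`). Every `θ ∈ Hom(K₁, F_p)` extends to `H₂` by
`k T^i ↦ θ k`, and `k T^i ↦ i` is a homomorphism which is zero on `K₁`: `dp p H₂ ≥ dp p K₁ + 1` (linear injection of `Hom(K₁) × F_p`; `Hom(H₂, F_p)` is finite dimensional, `H₂` is finitely generated). -/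
theorem raise (p : ℕ) [Fact p.Prime] (hH : Group.FG H) (φ : H →* Multiplicative ℤ)
    (hφ : Function.Surjective φ) (hK : Group.FG φ.ker) (K₁ : Subgroup φ.ker)
    (h1 : K₁.FiniteIndex) : ∃ H₂ : Subgroup H, H₂.FiniteIndex ∧ dp p K₁ + 1 ≤ dp p H₂ := by
  obtain ⟨t, ht⟩ := hφ (Multiplicative.ofAdd 1)
  obtain ⟨a, ha, hta⟩ := RaiseA_norm (N := φ.ker) inferInstance hK K₁ h1 t
  set Q : Subgroup H := K₁.map φ.ker.subtype with hQdef
  let eQ : K₁ ≃* Q := K₁.equivMapOfInjective φ.ker.subtype φ.ker.subtype_injective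
  have hK₁fg : Group.FG K₁ := by
    have := hK
    infer_instance
  have hQfg : Group.FG Q := by
    have := hK₁fg
    exact Group.fg_of_surjective (f := eQ.toMonoidHom) eQ.surjective
  let T₁ : Subgroup.normalizer (Q : Set H) := ⟨t ^ a, hta⟩
  obtain ⟨b, hb, hτ⟩ := RaiseA_pow p hQfg (Q.normalizerMonoidHom T₁)
  let α : Multiplicative ℤ →* MulAut Q :=
    Q.normalizerMonoidHom.comp (zpowersHom _ (T₁ ^ b))
  have hα : ∀ i, α i ∈ RaiseA_stab p Q := by
    intro i
    have h2 : α i = (Q.normalizerMonoidHom T₁ ^ b) ^ (i.toAdd : ℤ) := by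
      change Q.normalizerMonoidHom ((T₁ ^ b) ^ (i.toAdd : ℤ)) = _
      rw [map_zpow, map_pow]
    rw [h2]
    exact Subgroup.zpow_mem _ hτ _
  let E : (Q ⋊[α] Multiplicative ℤ) →* H :=
    SemidirectProduct.lift Q.subtype (zpowersHom H (t ^ (a * b))) (by
      intro i
      refine MonoidHom.ext fun q => ?_
      change (((T₁ ^ b) ^ (i.toAdd : ℤ) : Subgroup.normalizer (Q : Set H)) : H) * (q : H) *
        ((((T₁ ^ b) ^ (i.toAdd : ℤ) : Subgroup.normalizer (Q : Set H)) : H))⁻¹ =
        (t ^ (a * b)) ^ (i.toAdd : ℤ) * (q : H) * ((t ^ (a * b)) ^ (i.toAdd : ℤ))⁻¹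
      have h2 : (((T₁ ^ b) ^ (i.toAdd : ℤ) : Subgroup.normalizer (Q : Set H)) : H) =
          (t ^ (a * b)) ^ (i.toAdd : ℤ) := by
        rw [Subgroup.coe_zpow, Subgroup.coe_pow, pow_mul]
      rw [h2])
  have hEapp : ∀ x, E x = (x.left : H) * (t ^ (a * b)) ^ (x.right.toAdd : ℤ) := fun x => rfl
  have hQφ : ∀ q : Q, φ q = 1 := by
    rintro ⟨_, k, hk, rfl⟩
    exact k.2
  have hφE : ∀ x, (φ (E x)).toAdd = (a * b : ℕ) * x.right.toAdd := by
    intro x
    rw [hEapp, map_mul, hQφ, one_mul, map_zpow, map_pow, ht, toAdd_zpow, toAdd_pow, toAdd_ofAdd]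
    simp only [smul_eq_mul, nsmul_eq_mul, mul_one]
    ring
  have hab : 0 < a * b := Nat.mul_pos ha hb
  have hEinj : Function.Injective E := by
    rw [injective_iff_map_eq_one]
    intro x hx
    have h2 := hφE x
    rw [hx, map_one, toAdd_one] at h2
    have h3 : x.right.toAdd = 0 := by
      rcases mul_eq_zero.1 h2.symm with h4 | h4
      · exact absurd h4 (by positivity)
      · exact h4
    have h4 := hEapp x
    rw [hx, h3, zpow_zero, mul_one] at h4
    refine SemidirectProduct.ext (Subtype.ext h4.symm) ?_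
    exact h3
  let eE : (Q ⋊[α] Multiplicative ℤ) ≃* E.range := MonoidHom.ofInjective hEinj
  have hfin : E.range.FiniteIndex := by
    have hfinK : Finite (φ.ker ⧸ K₁) := inferInstance
    have hsurj : Function.Surjective (fun x : Fin (a * b) × (φ.ker ⧸ K₁) =>
        (((t ^ (x.1 : ℕ) * (x.2.out : φ.ker) : H)) : H ⧸ E.range)) := by
      intro z
      obtain ⟨x, rfl⟩ := QuotientGroup.mk_surjective z
      set n : ℤ := (φ x).toAdd with hn
      have hab' : (0 : ℤ) < ((a * b : ℕ) : ℤ) := by exact_mod_cast hab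
      obtain ⟨r, hr⟩ : ∃ r : ℕ, (r : ℤ) = n % ((a * b : ℕ) : ℤ) :=
        ⟨(n % ((a * b : ℕ) : ℤ)).toNat, Int.toNat_of_nonneg (Int.emod_nonneg _ hab'.ne')⟩
      have hr' : r < a * b := by
        have := Int.emod_lt_of_pos n hab'
        rw [← hr] at this
        exact_mod_cast this
      set i : ℤ := n / ((a * b : ℕ) : ℤ) with hi
      have hdiv : n = ((a * b : ℕ) : ℤ) * i + r := by
        rw [hr]
        exact (Int.mul_ediv_add_emod n _).symm
      have hk : (t ^ r)⁻¹ * x * ((t ^ (a * b)) ^ i)⁻¹ ∈ φ.ker := by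
        rw [MonoidHom.mem_ker]
        refine Multiplicative.toAdd.injective ?_
        simp only [φ.map_mul, φ.map_inv, map_zpow, map_pow, ht, toAdd_mul, toAdd_inv, toAdd_zpow,
          toAdd_pow, toAdd_ofAdd, ← hn, toAdd_one, smul_eq_mul, nsmul_eq_mul, mul_one]
        rw [hdiv]
        ring
      set k : φ.ker := ⟨_, hk⟩ with hkdef
      refine ⟨(⟨r, hr'⟩, (k : φ.ker ⧸ K₁)), ?_⟩
      have hq : ((k : φ.ker ⧸ K₁).out)⁻¹ * k ∈ K₁ := by
        rw [← QuotientGroup.eq]
        exact Quotient.out_eq _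
      rw [QuotientGroup.eq]
      refine ⟨⟨⟨_, _, hq, rfl⟩, Multiplicative.ofAdd i⟩, ?_⟩
      rw [hEapp]
      change (((((k : φ.ker ⧸ K₁).out)⁻¹ * k : φ.ker)) : H) * (t ^ (a * b)) ^ i = _
      rw [Subgroup.coe_mul, Subgroup.coe_inv, hkdef]
      change ((((k : φ.ker ⧸ K₁).out : φ.ker) : H))⁻¹ *
        ((t ^ r)⁻¹ * x * ((t ^ (a * b)) ^ i)⁻¹) * (t ^ (a * b)) ^ i =
        (t ^ r * ((((k : φ.ker ⧸ K₁).out : φ.ker) : H)))⁻¹ * x
      group
    have : Finite (H ⧸ E.range) := Finite.of_surjective _ hsurj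
    exact Subgroup.finiteIndex_of_finite_quotient
  have hRfg : Group.FG E.range := by
    have := hH
    infer_instance
  have hSfg : Group.FG (Q ⋊[α] Multiplicative ℤ) := by
    have := hRfg
    exact Group.fg_of_surjective (f := eE.symm.toMonoidHom) eE.symm.surjective
  refine ⟨E.range, hfin, ?_⟩
  rw [dp_congr p eQ, ← dp_congr p eE]
  exact RaiseA_sd p α hα hQfg hSfg

/-- PROOF. An infinite finitely generated abelian group maps onto `ℤ` (structure theorem, `AddCommGroup` version: free part). Negation of `FAb`. -/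
theorem exists_surj_of_not_fab {L : Type} [Group L] (hL : Group.FG L) (h : ¬ FAb L) :
    ∃ H : Subgroup L, H.FiniteIndex ∧ ∃ φ : H →* Multiplicative ℤ, Function.Surjective φ := by
  unfold FAb at h
  push Not at h
  obtain ⟨H, hH, hinf⟩ := h
  have hHfg : Group.FG H := by
    have := hL
    infer_instance
  have hAfg : Group.FG (Abelianization H) := by
    have := hHfg
    exact Group.fg_of_surjective (f := (Abelianization.of : H →* Abelianization H))
      (fun x => QuotientGroup.mk_surjective x)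
  obtain ⟨ι, j, _, _, q, hq, e, ⟨E⟩⟩ :=
    CommGroup.equiv_free_prod_prod_multiplicative_zmod (Abelianization H)
  have hj : Nonempty j := by
    by_contra hj
    rw [not_nonempty_iff] at hj
    have hz : ∀ i, Finite (Multiplicative (ZMod (q i ^ e i))) := by
      intro i
      have : NeZero (q i ^ e i) := ⟨pow_ne_zero _ (hq i).ne_zero⟩
      exact inferInstanceAs (Finite (ZMod (q i ^ e i)))
    have hfin : Finite ((j → Multiplicative ℤ) × ((i : ι) → Multiplicative (ZMod (q i ^ e i)))) :=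
      inferInstance
    exact not_finite_iff_infinite.2 hinf (Finite.of_equiv _ E.symm.toEquiv)
  obtain ⟨j₀⟩ := hj
  refine ⟨H, hH, ((Pi.evalMonoidHom (fun _ : j => Multiplicative ℤ) j₀).comp
    ((MonoidHom.fst _ _).comp E.toMonoidHom)).comp Abelianization.of, fun x => ?_⟩
  obtain ⟨y, hy⟩ := E.surjective ((fun _ => x), 1)
  obtain ⟨z, rfl⟩ := QuotientGroup.mk_surjective y
  refine ⟨z, ?_⟩
  have h1 := congrArg (fun w => w.1 j₀) hy
  exact h1

end PDG
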