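import Mathlib

/-! # Actions trivial modulo all primes are nilpotent -/

set_option autoImplicit false

open scoped Classical

namespace PDG

theorem SolD_mem {A : Type} [AddCommGroup A] (s : Finset ℕ) (hs : ∀ p ∈ s, p.Prime) (x : A)
    (h : ∀ p ∈ s, ∃ y : A, x = p • y) : ∃ y : A, x = (∏ p ∈ s, p) • y := by
  induction s using Finset.induction_on with
  | empty => exact ⟨x, by simp⟩
  | insert p s hp ih =>
    obtain ⟨z, hz⟩ := ih (fun q hq => hs q (Finset.mem_insert_of_mem hq))
      (fun q hq => h q (Finset.mem_insert_of_mem hq))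
    obtain ⟨y, hy⟩ := h p (Finset.mem_insert_self p s)
    have hpp : p.Prime := hs p (Finset.mem_insert_self p s)
    have hcop : Nat.Coprime p (∏ q ∈ s, q) := by
      apply Nat.Coprime.prod_right
      intro q hq
      rw [Nat.coprime_primes hpp (hs q (Finset.mem_insert_of_mem hq))]
      intro e
      subst e
      exact hp hq
    have hb : (1 : ℤ) = p * Nat.gcdA p (∏ q ∈ s, q) + ((∏ q ∈ s, q : ℕ) : ℤ) * Nat.gcdB p (∏ q ∈ s, q) := by
      have := Nat.gcd_eq_gcd_ab p (∏ q ∈ s, q)
      rw [hcop.gcd_eq_one] at this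
      exact_mod_cast this
    set P : ℕ := ∏ q ∈ s, q with hP
    set u := Nat.gcdA p P
    set v := Nat.gcdB p P
    refine ⟨u • z + v • y, ?_⟩
    rw [Finset.prod_insert hp]
    have h1 : x = (1 : ℤ) • x := by simp
    rw [h1, hb, add_smul]
    have e1 : ((p : ℤ) * u) • x = ((p * P : ℕ)) • (u • z) := by
      rw [hz]
      simp only [← natCast_zsmul, smul_smul]
      congr 1
      push_cast
      ring
    have e2 : ((P : ℤ) * v) • x = ((p * P : ℕ)) • (v • y) := by
      rw [hy]
      simp only [← natCast_zsmul, smul_smul]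
      congr 1
      push_cast
      ring
    rw [e1, e2, smul_add]

theorem SolD_fold {A : Type} [AddCommGroup A] (e : ℕ) (Sg : Set (A →+ A))
    (h : ∀ τ ∈ Sg, ∀ x : A, ∃ y : A, τ x - x = e • y) (l : List (A →+ A))
    (hl : ∀ τ ∈ l, τ ∈ Sg) (x : A) :
    ∃ y : A, l.foldr (fun τ z => τ z - z) x = e ^ l.length • y := by
  induction l with
  | nil => exact ⟨x, by simp⟩
  | cons τ l ih =>
    obtain ⟨y, hy⟩ := ih (fun σ hσ => hl σ (List.mem_cons_of_mem τ hσ))
    obtain ⟨z, hz⟩ := h τ (hl τ List.mem_cons_self) y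
    refine ⟨z, ?_⟩
    simp only [List.foldr_cons, List.length_cons]
    rw [hy, map_nsmul, ← smul_sub, hz, smul_smul, pow_succ]

/-- PROOF. `e` = product of the primes dividing `|A|`. Claim: if `x ∈ pA` for every prime `p` dividing `|A|` then `x ∈ eA`: for coprime `a, b`, `aA ∩ bA = abA` (`x = a y = b z`, `1 = u a + v b`, `x = u a x + v b x = u a b z + v b a y`); induction on the primes. For `c = |A|`, `|A|` divides `e^c`, so `e^c A = 0`.
Each `τ - 1` (`τ ∈ Sg`) maps `A` into `eA`, and commutes with multiplication by `e`: maps `e^t A` into `e^(t+1) A`. (If a prime `p` does not divide `|A|` then `pA = A`.) -/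
theorem nilpotent_action {A : Type} [AddCommGroup A] [Finite A] (Sg : Set (A →+ A))
    (h : ∀ τ ∈ Sg, ∀ p : ℕ, p.Prime → ∀ x : A, ∃ y : A, τ x - x = p • y) :
    ∃ c : ℕ, ∀ l : List (A →+ A), l.length = c → (∀ τ ∈ l, τ ∈ Sg) → ∀ x : A,
      l.foldr (fun τ z => τ z - z) x = 0 := by
  set n := Nat.card A with hn
  have hn0 : n ≠ 0 := Nat.card_pos.ne'
  set e := ∏ p ∈ n.primeFactors, p with he
  have hdvd : ∃ c, n ∣ e ^ c := by
    refine ⟨n, ?_⟩
    rw [← Nat.factorization_le_iff_dvd hn0 (pow_ne_zero _ (Finset.prod_ne_zero_iff.2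
      (fun p hp => (Nat.prime_of_mem_primeFactors hp).ne_zero)))]
    intro p
    rw [Nat.factorization_pow]
    by_cases hp : p ∈ n.primeFactors
    · have h1 : n.factorization p ≤ n := (Nat.factorization_lt p hn0).le
      have h2 : 1 ≤ e.factorization p := by
        rw [Nat.one_le_iff_ne_zero]
        have hpp := Nat.prime_of_mem_primeFactors hp
        have he0 : e ≠ 0 := Finset.prod_ne_zero_iff.2
          (fun p hp => (Nat.prime_of_mem_primeFactors hp).ne_zero)
        have : p ∣ e := Finset.dvd_prod_of_mem _ hp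
        exact (hpp.dvd_iff_one_le_factorization he0).1 this |> Nat.one_le_iff_ne_zero.1
      simp only [Finsupp.smul_apply, smul_eq_mul]
      calc n.factorization p ≤ n * 1 := by omega
        _ ≤ n * e.factorization p := Nat.mul_le_mul_left _ h2
    · have : n.factorization p = 0 := by
        rw [← Finsupp.notMem_support_iff]
        simpa using hp
      omega
  obtain ⟨c, hc⟩ := hdvd
  refine ⟨c, fun l hl hS x => ?_⟩
  obtain ⟨y, hy⟩ := SolD_fold e Sg (fun τ hτ x =>
    SolD_mem n.primeFactors (fun p hp => Nat.prime_of_mem_primeFactors hp) _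
      (fun p hp => h τ hτ p (Nat.prime_of_mem_primeFactors hp) x)) l hS x
  rw [hy, hl]
  obtain ⟨k, hk⟩ := hc
  rw [hk, mul_comm, mul_smul, hn]
  have : Nat.card A • y = 0 := card_nsmul_eq_zero'
  rw [this, smul_zero]

end PDG
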