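import Pool.Agent.W_3f3beb_h76.SolA
import Pool.Agent.W_3f3beb_h76.SolD

/-! # Finite nilpotent quotients of bounded order -/

set_option autoImplicit false

open scoped Classical

namespace PDG

/-- a finite intersection of finite index subgroups -/
noncomputable def SolE_B (N : Type) [Group N] (q : ℕ) : Subgroup N :=
  ⨅ M : {M : Subgroup N // PN q M}, M.1

theorem SolE_B_le {N : Type} [Group N] {q : ℕ} {M : Subgroup N} (h : PN q M) : SolE_B N q ≤ M :=
  iInf_le (fun M : {M : Subgroup N // PN q M} => M.1) ⟨M, h⟩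

theorem SolE_B_index {N : Type} [Group N] {q : ℕ} (hq : q.Prime)
    (hfin : {M : Subgroup N | PN q M}.Finite) : (SolE_B N q).FiniteIndex := by
  have : Finite {M : Subgroup N // PN q M} := hfin
  refine Subgroup.finiteIndex_iInf ?_
  rintro ⟨M, hM, k, hk⟩
  exact ⟨by rw [hk]; exact pow_ne_zero _ hq.ne_zero⟩

/-- a proper normal subgroup of `q`-power index shows `q ∣ |N^ab|` -/
theorem SolE_dvd {N : Type} [Group N] {q : ℕ} [Fact q.Prime] [Finite (Abelianization N)]
    {M : Subgroup N} (hM : PN q M) (hne : M ≠ ⊤) : q ∣ Nat.card (Abelianization N) := by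
  obtain ⟨hn, k, hk⟩ := hM
  have hfi : M.FiniteIndex := ⟨by rw [hk]; exact pow_ne_zero _ (Fact.out : q.Prime).ne_zero⟩
  have hfin : Finite (N ⧸ M) := inferInstance
  have hp : IsPGroup q (N ⧸ M) := IsPGroup.of_card (n := k) (by rw [← hk]; rfl)
  have hnt : Nontrivial (N ⧸ M) := by
    rw [← not_subsingleton_iff_nontrivial]
    intro hs
    exact hne (QuotientGroup.subgroup_eq_top_of_subsingleton M hs)
  have hnil : Group.IsNilpotent (N ⧸ M) := hp.isNilpotent
  have hlt := Group.IsSolvable.commutator_lt_top_of_nontrivial (N ⧸ M)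
  have hnt2 : Nontrivial (Abelianization (N ⧸ M)) := by
    rw [← not_subsingleton_iff_nontrivial]
    intro hs
    exact hlt.ne (QuotientGroup.subgroup_eq_top_of_subsingleton (commutator (N ⧸ M)) hs)
  have hp2 : IsPGroup q (Abelianization (N ⧸ M)) := hp.to_quotient _
  have hd : q ∣ Nat.card (Abelianization (N ⧸ M)) := by
    obtain ⟨n, hn0, hn⟩ := hp2.nontrivial_iff_card.1 hnt2
    rw [hn]
    exact dvd_pow_self q (by omega)
  refine hd.trans (Subgroup.card_dvd_of_surjective (Abelianization.map (QuotientGroup.mk' M)) ?_)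
  intro x
  obtain ⟨y, rfl⟩ := QuotientGroup.mk_surjective x
  obtain ⟨z, rfl⟩ := QuotientGroup.mk'_surjective M y
  exact ⟨Abelianization.of z, rfl⟩

/-- PROOF. Let `π` be the finite set of primes dividing `|Abelianization N|` (finite by `FAb`), `b_q` the maximal order of `N/M`, `M` one of the finitely many normal subgroups of `q`-power index. A finite nilpotent quotient `P` of `N` is the product of its Sylow subgroups `P_q`; each `P_q` is a quotient of `N` of `q`-power order `≤ b_q`, trivial unless `q ∈ π` (`P_q ≠ 1` has a quotient of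
order `q`, which is a quotient of the abelianization of `N`). So `|P| ≤ ∏_{q ∈ π} b_q`. -/
theorem nilp_bound {N : Type} [Group N] (hN : Group.FG N) (hf : FAb N)
    (hq : ∀ (q : ℕ) [Fact q.Prime], {M : Subgroup N | PN q M}.Finite) :
    ∃ b : ℕ, ∀ M : Subgroup N, ∀ _ : M.Normal, M.index ≠ 0 → Group.IsNilpotent (N ⧸ M) →
      M.index ≤ b := by
  have hab : Finite (Abelianization N) := by
    have h1 := hf ⊤ inferInstance
    exact Finite.of_equiv (Abelianization (⊤ : Subgroup N))
      (MulEquiv.abelianizationCongr (Subgroup.topEquiv (G := N))).toEquiv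
  let K : Subgroup N := ⨅ q ∈ (Nat.card (Abelianization N)).primeFactors, SolE_B N q
  have hK : K.FiniteIndex := by
    refine Subgroup.finiteIndex_iInf' (fun q => SolE_B N q) ?_
    intro q hqm
    have hpr := Nat.prime_of_mem_primeFactors hqm
    have : Fact q.Prime := ⟨hpr⟩
    exact SolE_B_index hpr (hq q)
  refine ⟨K.index, ?_⟩
  intro M hM hM0 hnil
  have hfi : M.FiniteIndex := ⟨hM0⟩
  have hfin : Finite (N ⧸ M) := inferInstance
  obtain ⟨e⟩ := (Group.isNilpotent_of_finite_tfae (G := N ⧸ M)).out 0 4 |>.1 hnil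
  refine Nat.le_of_dvd (Nat.pos_of_ne_zero hK.index_ne_zero) (Subgroup.index_dvd_of_le ?_)
  intro x hx
  rw [← QuotientGroup.eq_one_iff]
  apply e.symm.injective
  rw [map_one]
  funext p
  have hpr := Nat.prime_of_mem_primeFactors p.2
  have hpf : Fact (p : ℕ).Prime := ⟨hpr⟩
  -- the projection
  let φ : N →* (∀ P : Sylow p (N ⧸ M), (↑P : Subgroup (N ⧸ M))) :=
    (Pi.evalMonoidHom (fun p : (Nat.card (N ⧸ M)).primeFactors =>
      ∀ P : Sylow p (N ⧸ M), (↑P : Subgroup (N ⧸ M))) p).comp
      (e.symm.toMonoidHom.comp (QuotientGroup.mk' M))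
  have hφ : PN p φ.ker := by
    refine ⟨inferInstance, ?_⟩
    have hpg : IsPGroup p (∀ P : Sylow p (N ⧸ M), (↑P : Subgroup (N ⧸ M))) := by
      have : Fintype (Sylow p (N ⧸ M)) := Fintype.ofFinite _
      choose n hn using fun P : Sylow p (N ⧸ M) => IsPGroup.iff_card.1 P.isPGroup'
      refine IsPGroup.of_card (n := ∑ P : Sylow p (N ⧸ M), n P) ?_
      rw [Nat.card_pi, ← Finset.prod_pow_eq_pow_sum]
      exact Finset.prod_congr rfl (fun P _ => hn P)
    have h2 : IsPGroup p φ.range := hpg.to_subgroup _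
    obtain ⟨k, hk⟩ := IsPGroup.iff_card.1 h2
    exact ⟨k, by rw [Subgroup.index_ker]; exact hk⟩
  have hxk : x ∈ φ.ker := by
    by_cases htop : φ.ker = ⊤
    · rw [htop]; trivial
    · have hd := SolE_dvd hφ htop
      have hmem : (p : ℕ) ∈ (Nat.card (Abelianization N)).primeFactors :=
        Nat.mem_primeFactors.2 ⟨hpr, hd, Nat.card_pos.ne'⟩
      exact SolE_B_le hφ ((iInf₂_le (p : ℕ) hmem : K ≤ _) hx)
  exact hxk

end PDG
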