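import Pool.Agent.W_3f3beb_h76.SolB
import Pool.Agent.W_3f3beb_h76.SolE

/-! # Finite nilpotent quotients of bounded order; Theorem EF -/

set_option autoImplicit false

open scoped Classical commutatorElement

namespace PDG

variable {L : Type} [Group L]

/-- a bounded chain of indices in the derived series stabilizes -/
theorem SolC_stable (B : ℕ) (hfin : ∀ j, (derivedSeries L j).FiniteIndex)
    (hB : ∀ j, (derivedSeries L j).index ≤ B) :
    ∃ j, ∀ i, j ≤ i → derivedSeries L i = derivedSeries L j := by
  have hbdd : BddAbove (Set.range fun j => (derivedSeries L j).index) :=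
    ⟨B, by rintro _ ⟨j, rfl⟩; exact hB j⟩
  obtain ⟨j, hj⟩ := Nat.sSup_mem (Set.range_nonempty _) hbdd
  refine ⟨j, fun i hi => ?_⟩
  have h1 : derivedSeries L i ≤ derivedSeries L j := derivedSeries_antitone L hi
  rcases h1.lt_or_eq with h | h
  · exfalso
    have h2 := Subgroup.index_strictAnti h
    have h3 : (derivedSeries L i).index ≤ (derivedSeries L j).index := by
      rw [show (derivedSeries L j).index = _ from hj]
      exact le_csSup hbdd ⟨i, rfl⟩
    omega
  · exact h

/-- PROOF. `N` from `exists_trv`; `nilp_quot`: `N/(N ⊓ L^(j))` is nilpotent for all `j`, of order `≤ b` (`nilp_bound`, hypothesis `hq` for the finite index subgroup `N`). So `[L : L^(j)] ≤ [L : N] b` is bounded; the indices are multiplicative in the chain, so `L^(j) = L^(j+1)` for some `j`. A normal subgroup `M` with `L/M` soluble: `L^(i) ≤ M` for some `i ≥ j`, so `L^(j) = L^(i) ≤ M`.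
Only finitely many subgroups contain `L^(j)` (finite index). -/
theorem soluble_finite (hL : Group.FG L) (hF : LinFin L) (hf : FAb L) (D : ℕ) (hr : RK L D)
    (hq : ∀ (N : Subgroup L), N.FiniteIndex → ∀ (q : ℕ) [Fact q.Prime],
      {M : Subgroup N | PN q M}.Finite) :
    {M : Subgroup L | ∃ _ : M.Normal, M.FiniteIndex ∧ Group.IsSolvable (L ⧸ M)}.Finite := by
  obtain ⟨N, hNf, hNn, htrv⟩ := exists_trv hL hF hf D hr
  have hNfg : Group.FG N := Subgroup.fg_of_index_ne_zero N
  obtain ⟨b, hb⟩ := nilp_bound hNfg (hf.subgroup N hNf) (hq N hNf)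
  have hfin : ∀ j, (derivedSeries L j).FiniteIndex := fun j => derived_finiteIndex hf j
  have hB : ∀ j, (derivedSeries L j).index ≤ b * N.index := by
    intro j
    have hD : (derivedSeries L j).Normal := derivedSeries_normal L j
    have hnil := nilp_quot hf N hNn htrv j
    have hfj := hfin j
    have h0 : ((derivedSeries L j).subgroupOf N).index ≠ 0 := Subgroup.FiniteIndex.index_ne_zero
    have h1 : ((derivedSeries L j).subgroupOf N).index ≤ b :=
      hb _ (hD.subgroupOf N) h0 hnil
    have h2 : (derivedSeries L j ⊓ N).relIndex N * N.index = (derivedSeries L j ⊓ N).index :=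
      Subgroup.relIndex_mul_index inf_le_right
    rw [Subgroup.inf_relIndex_right] at h2
    have h3 : (derivedSeries L j).index ≤ (derivedSeries L j ⊓ N).index :=
      Subgroup.index_antitone inf_le_left
    calc (derivedSeries L j).index ≤ (derivedSeries L j ⊓ N).index := h3
      _ = (derivedSeries L j).relIndex N * N.index := h2.symm
      _ ≤ b * N.index := Nat.mul_le_mul_right _ h1
  obtain ⟨j, hj⟩ := SolC_stable _ hfin hB
  refine (finite_index_le hL (derivedSeries L j).index).subset ?_
  rintro M ⟨hM, hMf, hs⟩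
  obtain ⟨n, hn⟩ := hs.solvable
  have h1 : derivedSeries L n ≤ M := by
    have h2 := map_derivedSeries_le_derivedSeries (QuotientGroup.mk' M) n
    rw [hn] at h2
    intro x hx
    have h3 : QuotientGroup.mk' M x ∈ (⊥ : Subgroup (L ⧸ M)) := h2 ⟨x, hx, rfl⟩
    rw [Subgroup.mem_bot] at h3
    exact (QuotientGroup.eq_one_iff x).1 h3
  have h2 : derivedSeries L j ≤ M := by
    rw [← hj (max j n) (le_max_left _ _)]
    exact (derivedSeries_antitone L (le_max_right j n)).trans h1
  have hfj := hfin j
  exact ⟨hMf.index_ne_zero, Subgroup.index_antitone h2⟩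

end PDG
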