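import Pool.Agent.W_3f3beb_h76.DpA

/-! # Hypothesis (*) for subgroups -/

set_option autoImplicit false

open scoped Classical

namespace PDG

theorem StarA_quot_inj {G G' : Type} [Group G] [Group G'] (f : G →* G') (N : Subgroup G')
    [N.Normal] : Function.Injective (QuotientGroup.map (N.comap f) N f le_rfl) := by
  rw [injective_iff_map_eq_one]
  intro x
  induction x using QuotientGroup.induction_on with
  | H x =>
    intro hx
    rw [QuotientGroup.map_mk, QuotientGroup.eq_one_iff] at hx
    exact (QuotientGroup.eq_one_iff x).2 hx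

/-- finite soluble quotients pull back -/
theorem StarA_comap {G G' : Type} [Group G] [Group G'] (f : G →* G') (N : Subgroup G')
    (h : ∃ _ : N.Normal, N.FiniteIndex ∧ Group.IsSolvable (G' ⧸ N)) :
    ∃ _ : (N.comap f).Normal, (N.comap f).FiniteIndex ∧
      Group.IsSolvable (G ⧸ (N.comap f)) := by
  obtain ⟨hN, hfi, hs⟩ := h
  have hn : (N.comap f).Normal := hN.comap f
  refine ⟨hn, ?_, ?_⟩
  · have : Finite (G' ⧸ N) := Subgroup.finite_quotient_of_finiteIndex
    have : Finite (G ⧸ (N.comap f)) := Finite.of_injective _ (StarA_quot_inj f N)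
    exact Subgroup.finiteIndex_of_finite_quotient
  · exact Group.isSolvable_of_isSolvable_injective (StarA_quot_inj f N)

theorem StarA_infinite {G G' : Type} [Group G] [Group G'] (f : G →* G')
    (hf : Function.Surjective f)
    (h : {N : Subgroup G' | ∃ _ : N.Normal, N.FiniteIndex ∧ Group.IsSolvable (G' ⧸ N)}.Infinite) :
    {N : Subgroup G | ∃ _ : N.Normal, N.FiniteIndex ∧ Group.IsSolvable (G ⧸ N)}.Infinite := by
  refine Set.infinite_of_injOn_mapsTo (f := fun N : Subgroup G' => N.comap f) ?_ ?_ h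
  · exact (Subgroup.comap_injective hf).injOn
  · intro N hN
    exact StarA_comap f N hN

/-- PROOF. A finitely generated infinite subgroup `M` of `L'` is mapped isomorphically to one of `L`; transport `ManySoluble`. -/
theorem SolHyp.of_injective {L L' : Type} [Group L] [Group L'] (h : SolHyp L) (f : L' →* L)
    (hf : Function.Injective f) : SolHyp L' := by
  intro M hM hinf
  have hinf' : Infinite (M.map f) :=
    Infinite.of_injective _ (M.equivMapOfInjective f hf).injective
  have hfg : (M.map f).FG := by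
    obtain ⟨S, hS⟩ := hM
    refine ⟨S.image f, ?_⟩
    rw [Finset.coe_image, ← MonoidHom.map_closure, hS]
  obtain ⟨M1, hM1, hrel, hmany⟩ := h (M.map f) hfg hinf'
  refine ⟨M1.comap f, ?_, ?_, ?_⟩
  · intro x hx
    obtain ⟨m, hm, hfm⟩ := hM1 hx
    rw [← hf hfm]
    exact hm
  · rw [Subgroup.relIndex_comap]
    exact hrel
  · refine StarA_infinite (f.subgroupComap M1) ?_ hmany
    rintro ⟨y, hy⟩
    obtain ⟨m, hm, hfm⟩ := hM1 hy
    exact ⟨⟨m, by rw [Subgroup.mem_comap, hfm]; exact hy⟩, Subtype.ext hfm⟩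

/-- PROOF. `M = ⊤`. -/
theorem SolHyp.top {L : Type} [Group L] (h : SolHyp L) (hL : Group.FG L) (hinf : Infinite L) :
    ∃ L' : Subgroup L, L'.FiniteIndex ∧
      {N : Subgroup L' | ∃ _ : N.Normal, N.FiniteIndex ∧ Group.IsSolvable (L' ⧸ N)}.Infinite := by
  have h1 : Infinite (⊤ : Subgroup L) := Infinite.of_injective _ Subgroup.topEquiv.symm.injective
  obtain ⟨M', -, hrel, hmany⟩ := h ⊤ (Group.fg_def.1 hL) h1
  rw [Subgroup.relIndex_top_right] at hrel
  exact ⟨M', ⟨hrel⟩, hmany⟩

end PDG
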