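import Pool.Agent.W_3f3beb_h76.LinA
import Pool.Agent.W_3f3beb_h76.PnB
import Pool.Agent.W_3f3beb_h76.SolC
import Pool.Agent.W_3f3beb_h76.StarA
import Pool.Agent.W_3f3beb_h76.MilA
import Pool.Agent.W_3f3beb_h76.RaiseA
import Pool.Agent.W_3f3beb_h76.NilA
import Pool.Agent.W_3f3beb_h76.PolB

/-! # Proposition D -/

set_option autoImplicit false

open scoped Classical

namespace PDG

theorem fg_subgroup {L : Type} [Group L] (hL : Group.FG L) (H : Subgroup L)
    (hH : H.FiniteIndex) : Group.FG H := by
  have := hL; have := hH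
  infer_instance

theorem finite_of_fab {L : Type} [Group L] (hL : Group.FG L) (hs : SubEx L) (hf : FAb L)
    (hst : SolHyp L) (D : ℕ) (hr : RK L D) : Finite L := by
  by_contra hfin
  have hinf : Infinite L := not_finite_iff_infinite.1 hfin
  obtain ⟨L', hL', hbig⟩ := hst.top hL hinf
  have fg' := fg_subgroup hL L' hL'
  have s' := hs.subgroup L'
  have f' := hf.subgroup L' hL'
  have r' := hr.subgroup L' hL'
  have lf' : LinFin L' := linFin fg' s' f'
  refine hbig (soluble_finite fg' lf' f' D r' ?_)
  intro N hN q _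
  have fgN := fg_subgroup fg' N hN
  have sN := s'.subgroup N
  have fN := f'.subgroup N hN
  have rN := r'.subgroup N hN
  exact pn_finite (r := D) fgN (linFin fgN sN fN) fN (fun H hH => rN q H hH)

theorem main_ind (D : ℕ) : ∀ (L : Type) [Group L], Group.FG L → SubEx L → SolHyp L → RK L D →
    Group.IsVirtuallyNilpotent L ∧ Poly L := by
  induction D using Nat.strong_induction_on with
  | _ D ih =>
  intro L _ hL hs hst hr
  by_cases hf : FAb L
  · have := finite_of_fab hL hs hf hst D hr
    refine ⟨⟨⊥, ?_, ?_⟩, poly_of_finite⟩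
    · infer_instance
    · infer_instance
  · obtain ⟨H, hH, φ, hφ⟩ := exists_surj_of_not_fab hL hf
    have fgH := fg_subgroup hL H hH
    have sH := hs.subgroup H
    have fgK : Group.FG φ.ker := milnor fgH sH φ hφ
    have sK : SubEx φ.ker := sH.subgroup φ.ker
    have stH : SolHyp H := hst.of_injective H.subtype H.subtype_injective
    have stK : SolHyp φ.ker := stH.of_injective φ.ker.subtype φ.ker.subtype_injective
    have rH := hr.subgroup H hH
    have rK : ∀ (p : ℕ) [Fact p.Prime] (K₁ : Subgroup φ.ker), K₁.FiniteIndex →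
        dp p K₁ + 1 ≤ D := by
      intro p _ K₁ hK₁
      obtain ⟨H₂, h2, h2'⟩ := raise p fgH φ hφ fgK K₁ hK₁
      exact h2'.trans (rH p H₂ h2)
    have hD : 1 ≤ D := by
      have : Fact (Nat.Prime 2) := ⟨Nat.prime_two⟩
      have := rK 2 ⊤ inferInstance
      omega
    have rK' : RK φ.ker (D - 1) := by
      intro p _ K₁ hK₁
      have := rK p K₁ hK₁
      omega
    obtain ⟨nK, pK⟩ := ih (D - 1) (by omega) φ.ker fgK sK stK rK'
    have nH := nilp_ext fgH sH φ hφ fgK nK
    have pH := poly_ext φ nH pK
    exact ⟨virt_of_finiteIndex H hH nH, pH.of_finiteIndex H hH⟩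

end PDG
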