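import Pool.Agent.W_3f3beb_h76.MatA

/-! # From resolutions and duality to partial resolutions by matrices -/

set_option autoImplicit false

open scoped Classical

namespace PDG

variable {G : Type} [Group G]

/-- the matrix of the differential: row `l` is `d (e_l)` -/
noncomputable def mt {n : ℕ} (C : FinRes G n) (i : ℕ) :
    Matrix (Fin (C.r (i + 1))) (Fin (C.r i)) (MonoidAlgebra ℤ G) :=
  fun l j => C.d i (Pi.single l 1) j

/-- `x = ∑ x_l e_l` -/
theorem d_eq {n : ℕ} (C : FinRes G n) (i : ℕ) (x : Fin (C.r (i + 1)) → MonoidAlgebra ℤ G) :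
    C.d i x = Matrix.vecMul x (mt C i) := by
  have hx : x = ∑ l, x l • (Pi.single l 1 : Fin (C.r (i + 1)) → MonoidAlgebra ℤ G) := by
    conv_lhs => rw [← Finset.univ_sum_single x]
    refine Finset.sum_congr rfl fun l _ => ?_
    rw [← Pi.single_smul, smul_eq_mul, mul_one]
  conv_lhs => rw [hx]
  rw [map_sum]
  funext j
  rw [Finset.sum_apply]
  simp only [Matrix.vecMul, dotProduct, mt]
  refine Finset.sum_congr rfl fun l _ => ?_
  rw [map_smul, Pi.smul_apply, smul_eq_mul]

theorem mt_mul {n : ℕ} (C : FinRes G n) (i : ℕ) : mt C (i + 1) * mt C i = 0 := by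
  funext l j
  have h1 : (mt C (i + 1) * mt C i) l j = Matrix.vecMul (mt C (i + 1) l) (mt C i) j := rfl
  rw [h1, ← d_eq]
  have h2 : C.d i (mt C (i + 1) l) = 0 :=
    (C.exact_succ i _).2 ⟨Pi.single l 1, rfl⟩
  rw [h2]
  rfl

/-- PROOF. `d_eq`, `exists_eps`, `exact_zero`, `exact_succ 0`, `ε_surjective`. -/
theorem pres_of_res {n : ℕ} (C : FinRes G n) : ∃ e, PRes (mt C 0) (mt C 1) e := by
  obtain ⟨e, hE⟩ : ∃ e, ∀ x, C.ε x = eps e x := ⟨_, exists_eps C.ε C.ε_trivial⟩
  refine ⟨e, ?_, ?_, ?_⟩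
  · obtain ⟨x, hx⟩ := C.ε_surjective 1
    exact ⟨x, by rw [← hE]; exact hx⟩
  · intro x
    rw [← hE, C.exact_zero]
    constructor
    · rintro ⟨y, hy⟩
      exact ⟨y, by rw [← d_eq]; exact hy⟩
    · rintro ⟨y, hy⟩
      exact ⟨y, by rw [d_eq]; exact hy⟩
  · intro x
    rw [← d_eq, C.exact_succ 0]
    constructor
    · rintro ⟨y, hy⟩
      exact ⟨y, by rw [← d_eq]; exact hy⟩
    · rintro ⟨y, hy⟩
      exact ⟨y, by rw [d_eq]; exact hy⟩

/-- the homomorphism given by a column -/
noncomputable def DualA_hom {m : ℕ} (u : Fin m → MonoidAlgebra ℤ G) :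
    (Fin m → MonoidAlgebra ℤ G) →ₗ[MonoidAlgebra ℤ G] MonoidAlgebra ℤ G where
  toFun x := x ⬝ᵥ u
  map_add' x y := add_dotProduct x y u
  map_smul' a x := smul_dotProduct a x u

theorem DualA_hom_apply {m : ℕ} (u x : Fin m → MonoidAlgebra ℤ G) :
    DualA_hom u x = x ⬝ᵥ u := rfl

/-- the column of a homomorphism -/
theorem DualA_hom_col {m : ℕ}
    (f : (Fin m → MonoidAlgebra ℤ G) →ₗ[MonoidAlgebra ℤ G] MonoidAlgebra ℤ G) :
    DualA_hom (fun j => f (Pi.single j 1)) = f := by
  refine LinearMap.ext fun x => ?_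
  rw [DualA_hom_apply]
  have hx : x = ∑ l, x l • (Pi.single l 1 : Fin m → MonoidAlgebra ℤ G) := by
    conv_lhs => rw [← Finset.univ_sum_single x]
    refine Finset.sum_congr rfl fun l _ => ?_
    rw [← Pi.single_smul, smul_eq_mul, mul_one]
  conv_rhs => rw [hx]
  rw [map_sum]
  simp only [dotProduct, map_smul, smul_eq_mul]

theorem DualA_hom_inj {m : ℕ} {u v : Fin m → MonoidAlgebra ℤ G}
    (h : DualA_hom u = DualA_hom v) : u = v := by
  funext j
  have h1 := LinearMap.congr_fun h (Pi.single j 1)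
  rw [DualA_hom_apply, DualA_hom_apply] at h1
  simpa using h1

theorem DualA_hom_add {m : ℕ} (u v : Fin m → MonoidAlgebra ℤ G) :
    DualA_hom (u + v) = DualA_hom u + DualA_hom v := by
  refine LinearMap.ext fun x => ?_
  rw [LinearMap.add_apply, DualA_hom_apply, DualA_hom_apply, DualA_hom_apply, dotProduct_add]

theorem DualA_hom_zero {m : ℕ} :
    DualA_hom (0 : Fin m → MonoidAlgebra ℤ G) = 0 := by
  refine LinearMap.ext fun x => ?_
  rw [LinearMap.zero_apply, DualA_hom_apply, dotProduct_zero]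

theorem DualA_delta {n : ℕ} (C : FinRes G n) (i : ℕ) (u : Fin (C.r i) → MonoidAlgebra ℤ G) :
    C.δ i (DualA_hom u) = DualA_hom (Matrix.mulVec (mt C i) u) := by
  refine LinearMap.ext fun x => ?_
  have h1 : C.δ i (DualA_hom u) x = C.d i x ⬝ᵥ u := rfl
  rw [h1, DualA_hom_apply, d_eq, Matrix.dotProduct_mulVec]

/-- right multiplication -/
noncomputable def DualA_rm {m : ℕ} (u : Fin m → MonoidAlgebra ℤ G) (g : G) :
    Fin m → MonoidAlgebra ℤ G := fun j => u j * MonoidAlgebra.single g 1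

theorem DualA_rm_mulVec {m l : ℕ} (D : Matrix (Fin l) (Fin m) (MonoidAlgebra ℤ G))
    (u : Fin m → MonoidAlgebra ℤ G) (g : G) :
    Matrix.mulVec D (DualA_rm u g) = DualA_rm (Matrix.mulVec D u) g := by
  funext j
  simp only [Matrix.mulVec, dotProduct, DualA_rm, Finset.sum_mul, mul_assoc]

/-- the conjugate of a vector -/
noncomputable def DualA_bv {m : ℕ} (w : G →* ℤˣ) (u : Fin m → MonoidAlgebra ℤ G) :
    Fin m → MonoidAlgebra ℤ G := fun j => bar w (u j)

theorem DualA_bv_bv {m : ℕ} (w : G →* ℤˣ) (u : Fin m → MonoidAlgebra ℤ G) :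
    DualA_bv w (DualA_bv w u) = u := by
  funext j
  exact bar_bar w (u j)

theorem DualA_vecMul {m l : ℕ} (w : G →* ℤˣ) (D : Matrix (Fin l) (Fin m) (MonoidAlgebra ℤ G))
    (x : Fin m → MonoidAlgebra ℤ G) :
    Matrix.vecMul x (cst w D) = DualA_bv w (Matrix.mulVec D (DualA_bv w x)) := by
  have h := vecMul_star w D (DualA_bv w x)
  have h2 : (fun b => bar w (DualA_bv w x b)) = x := DualA_bv_bv w x
  rw [h2] at h
  exact h

theorem DualA_bv_inj {m : ℕ} (w : G →* ℤˣ) {u v : Fin m → MonoidAlgebra ℤ G}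
    (h : DualA_bv w u = DualA_bv w v) : u = v := by
  rw [← DualA_bv_bv w u, h, DualA_bv_bv]

theorem DualA_bv_zero {m : ℕ} (w : G →* ℤˣ) :
    DualA_bv w (0 : Fin m → MonoidAlgebra ℤ G) = 0 := by
  funext j
  exact MatA_bar_zero w

theorem DualA_bv_add {m : ℕ} (w : G →* ℤˣ) (u v : Fin m → MonoidAlgebra ℤ G) :
    DualA_bv w (u + v) = DualA_bv w u + DualA_bv w v := by
  funext j
  exact bar_add w (u j) (v j)

/-- PROOF. A homomorphism `f : C_i → ℤG` is a column vector `u = (f (e_j))`, and `C.δ i f` corresponds to `D_i u` (`Matrix.mulVec (mt C i) u`): `(f ∘ d)(e_l) = ∑_j D_{lj} f (e_j)`. So `h.succ k` says: for a column `u` over `Fin (r (k+1))`,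
`D_{k+1} u = 0` iff `u = D_k v` for some `v` (the reverse direction by `mt_mul`); `h.top` gives an additive surjection `η` from the columns over `Fin (r (k+2))` to `ℤ` with kernel `{D_{k+1} u}`.
Right multiplication by `g` preserves this kernel; let `η f₁ = 1`, `w g = η (f₁ g)`; then `η (f g) = w g * η f` for all `f` (`f - (η f) f₁` is in the kernel, stable under right multiplication), so `w (g g') = w g * w g'`,
`w g * w g⁻¹ = 1`: `w : G →* ℤˣ`. Now pass to rows `y = (bar w (u_j))` (bijection between columns and rows, `bar_bar`): by `vecMul_star` exactness at `u` becomes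
exactness of the row sequence of `cst w D_{k+1}` and `cst w D_k`, and `η' y = η (bar y)` satisfies `η' (g y) = η (bar y * (w g) g⁻¹) = η' y`, so `η' = eps e'` by `exists_eps`. -/
theorem pres_of_dual {k : ℕ} (C : FinRes G (k + 2)) (h : C.IsPD) :
    ∃ (w : G →* ℤˣ) (e' : Fin (C.r (k + 2)) → ℤ),
      PRes (cst w (mt C (k + 1))) (cst w (mt C k)) e' := by
  obtain ⟨φ⟩ := h.top
  -- the functional on columns
  let η : (Fin (C.r (k + 2)) → MonoidAlgebra ℤ G) →+ ℤ :=
    { toFun := fun u => φ (QuotientAddGroup.mk (DualA_hom u))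
      map_zero' := by
        rw [DualA_hom_zero]
        exact map_zero φ
      map_add' := by
        intro u v
        rw [DualA_hom_add, QuotientAddGroup.mk_add, map_add] }
  have hηdef : ∀ u, η u = φ (QuotientAddGroup.mk (DualA_hom u)) := fun u => rfl
  have hker : ∀ u, η u = 0 ↔ ∃ v, Matrix.mulVec (mt C (k + 1)) v = u := by
    intro u
    rw [hηdef, map_eq_zero_iff φ φ.injective, QuotientAddGroup.eq_zero_iff]
    constructor
    · rintro ⟨f, hf⟩
      refine ⟨fun j => f (Pi.single j 1), ?_⟩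
      apply DualA_hom_inj
      rw [← DualA_delta, DualA_hom_col]
      exact hf
    · rintro ⟨v, hv⟩
      refine ⟨DualA_hom v, ?_⟩
      rw [← hv, ← DualA_delta]
  have hsurj : ∃ u, η u = 1 := by
    obtain ⟨q, hq⟩ := φ.surjective 1
    obtain ⟨f, rfl⟩ := QuotientAddGroup.mk_surjective q
    refine ⟨fun j => f (Pi.single j 1), ?_⟩
    rw [hηdef, DualA_hom_col]
    exact hq
  obtain ⟨f₁, hf₁⟩ := hsurj
  have hrm : ∀ (u : Fin (C.r (k + 2)) → MonoidAlgebra ℤ G) (g : G),
      η (DualA_rm u g) = η (DualA_rm f₁ g) * η u := by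
    intro u g
    have h0 : η (u - η u • f₁) = 0 := by
      rw [map_sub, map_zsmul, hf₁, smul_eq_mul, mul_one, sub_self]
    obtain ⟨v, hv⟩ := (hker _).1 h0
    have h1 : η (DualA_rm (u - η u • f₁) g) = 0 := by
      rw [hker]
      exact ⟨DualA_rm v g, by rw [DualA_rm_mulVec, hv]⟩
    have h2 : DualA_rm (u - η u • f₁) g = DualA_rm u g - η u • DualA_rm f₁ g := by
      funext j
      simp only [DualA_rm, Pi.sub_apply, Pi.smul_apply, sub_mul, smul_mul_assoc]
    rw [h2, map_sub, map_zsmul, smul_eq_mul, sub_eq_zero] at h1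
    rw [h1, mul_comm]
  let W : G →* ℤ :=
    { toFun := fun g => η (DualA_rm f₁ g)
      map_one' := by
        have h1 : DualA_rm f₁ (1 : G) = f₁ := by
          funext j
          simp only [DualA_rm]
          rw [← MonoidAlgebra.one_def, mul_one]
        rw [h1]
        exact hf₁
      map_mul' := by
        intro g g'
        have h1 : DualA_rm f₁ (g * g') = DualA_rm (DualA_rm f₁ g) g' := by
          funext j
          simp only [DualA_rm]
          rw [mul_assoc, MonoidAlgebra.single_mul_single, mul_one]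
        rw [h1, hrm, mul_comm] }
  let w : G →* ℤˣ := W.toHomUnits
  have hw : ∀ g, ((w g : ℤˣ) : ℤ) = η (DualA_rm f₁ g) := fun g => rfl
  -- the functional on rows
  let η' : (Fin (C.r (k + 2)) → MonoidAlgebra ℤ G) →+ ℤ :=
    { toFun := fun y => η (DualA_bv w y)
      map_zero' := by rw [DualA_bv_zero, map_zero]
      map_add' := by
        intro u v
        rw [DualA_bv_add, map_add] }
  have hη' : ∀ y, η' y = η (DualA_bv w y) := fun y => rfl
  have hinv : ∀ (g : G) (x : Fin (C.r (k + 2)) → MonoidAlgebra ℤ G),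
      η' (MonoidAlgebra.of ℤ G g • x) = η' x := by
    intro g x
    rw [hη', hη']
    have h1 : DualA_bv w (MonoidAlgebra.of ℤ G g • x) =
        (w g : ℤ) • DualA_rm (DualA_bv w x) g⁻¹ := by
      funext j
      simp only [DualA_bv, DualA_rm, Pi.smul_apply, smul_eq_mul]
      rw [bar_mul, MonoidAlgebra.of_apply, bar_single, mul_one, ← mul_smul_comm]
      congr 1
      rw [MonoidAlgebra.smul_single, smul_eq_mul, mul_one]
    rw [h1, map_zsmul, hrm, ← hw, smul_eq_mul, ← mul_assoc, ← Units.val_mul, ← map_mul,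
      mul_inv_cancel, map_one, Units.val_one, one_mul]
  obtain ⟨e', hE⟩ : ∃ e', ∀ x, η' x = eps e' x := ⟨_, exists_eps η' hinv⟩
  refine ⟨w, e', ?_, ?_, ?_⟩
  · refine ⟨DualA_bv w f₁, ?_⟩
    rw [← hE, hη', DualA_bv_bv]
    exact hf₁
  · intro x
    rw [← hE, hη', hker]
    constructor
    · rintro ⟨v, hv⟩
      refine ⟨DualA_bv w v, ?_⟩
      rw [DualA_vecMul, DualA_bv_bv, hv, DualA_bv_bv]
    · rintro ⟨y, hy⟩
      refine ⟨DualA_bv w y, ?_⟩
      apply DualA_bv_inj w
      rw [← DualA_vecMul, hy, DualA_bv_bv]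
  · intro x
    rw [DualA_vecMul]
    constructor
    · intro hx
      have h1 : Matrix.mulVec (mt C (k + 1)) (DualA_bv w x) = 0 := by
        apply DualA_bv_inj w
        rw [hx, DualA_bv_zero]
      have h2 : C.δ (k + 1) (DualA_hom (DualA_bv w x)) = 0 := by
        rw [DualA_delta, h1, DualA_hom_zero]
      obtain ⟨f, hf⟩ := h.succ k le_rfl _ h2
      refine ⟨DualA_bv w (fun j => f (Pi.single j 1)), ?_⟩
      rw [DualA_vecMul, DualA_bv_bv]
      have h3 : Matrix.mulVec (mt C k) (fun j => f (Pi.single j 1)) = DualA_bv w x := by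
        apply DualA_hom_inj
        rw [← DualA_delta, DualA_hom_col]
        exact hf
      rw [h3, DualA_bv_bv]
    · rintro ⟨y, hy⟩
      rw [← hy, DualA_vecMul, DualA_bv_bv, Matrix.mulVec_mulVec, mt_mul, Matrix.zero_mulVec,
        DualA_bv_zero]

end PDG
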