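import Pool.Agent.W_3f3beb_h76.CohB

/-! # The Golod-Shafarevich inequality -/

set_option autoImplicit false

open scoped Classical

namespace PDG

variable (p : ℕ) [Fact p.Prime] (H : Type) [Group H]
variable {ι₀ ι₁ ι₂ ι₃ : Type} [Fintype ι₀] [Fintype ι₁] [Fintype ι₂] [Fintype ι₃]
variable (D0 : Matrix ι₁ ι₀ (MonoidAlgebra ℤ H)) (D1 : Matrix ι₂ ι₁ (MonoidAlgebra ℤ H))
variable (D2 : Matrix ι₃ ι₂ (MonoidAlgebra ℤ H)) (e : ι₀ → ℤ)

theorem GsA_rank_nullity {α β : Type} [Fintype β] (D : Matrix α β (MonoidAlgebra ℤ H)) (m : ℕ)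
    [Module.Finite (ZMod p) (Xm p H β m)] :
    Module.finrank (ZMod p) ((Xm p H β m).map (del p H D)) +
      Module.finrank (ZMod p) (LinearMap.ker (del p H D) ⊓ Xm p H β m :
        Submodule (ZMod p) (β → H → ZMod p)) = Module.finrank (ZMod p) (Xm p H β m) := by
  have h := LinearMap.finrank_range_add_finrank_ker ((del p H D).domRestrict (Xm p H β m))
  have h1 : LinearMap.range ((del p H D).domRestrict (Xm p H β m)) =
      (Xm p H β m).map (del p H D) := by
    ext y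
    simp [Submodule.mem_map]
  have h2 : Module.finrank (ZMod p) (LinearMap.ker ((del p H D).domRestrict (Xm p H β m))) =
      Module.finrank (ZMod p) (LinearMap.ker (del p H D) ⊓ Xm p H β m :
        Submodule (ZMod p) (β → H → ZMod p)) := by
    have e1 : (LinearMap.ker ((del p H D).domRestrict (Xm p H β m))).map
        (Xm p H β m).subtype = LinearMap.ker (del p H D) ⊓ Xm p H β m := by
      ext u
      constructor
      · rintro ⟨⟨v, hv⟩, hv2, rfl⟩
        refine ⟨?_, hv⟩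
        simpa [LinearMap.mem_ker] using hv2
      · rintro ⟨hu, hv⟩
        refine ⟨⟨u, hv⟩, ?_, rfl⟩
        simpa [LinearMap.mem_ker] using hu
    rw [← e1]
    exact (LinearEquiv.finrank_eq (Submodule.equivMapOfInjective _
      (Submodule.subtype_injective _) _))
  rw [h1, h2] at h
  exact h

/-- PROOF. `a = an (m+1)`, `a' = an m`, `a'' = an (m+2)`, `s_i = |ι_i|`, `ρ_i = rank E_i`. Rank-nullity on `Xm (m+1)` (`Xm_finrank`): `dim im (del D0) = s_0 a - 1` (`h0_eq`), `dim ker (del D1) = s_1 a - dim im (del D1)`. `h1_le`: `dim ker (del D1) ≤ dim im (del D0) + a'' - a`;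
`im_le`: `dim im (del D1) ≤ ρ_1 (a - a') + s_2 a' - ρ_2 a'`. `rank_E0`, `rank_E1`: `s_0 = ρ_0 + 1`, `s_1 = ρ_1 + ρ_0 + d`. So
`a'' ≥ a + s_1 a - s_0 a + 1 - ρ_1 a + ρ_1 a' - (s_2 - ρ_2) a' = d a - (s_2 - ρ_1 - ρ_2) a' + 1` and `s_2 - ρ_1 - ρ_2 ≤ 2 d` by `hr`. -/
theorem gs_rec (hH : Group.FG H) (h : PRes D0 D1 e) (h21 : D2 * D1 = 0)
    (hr : Fintype.card ι₂ ≤ (Emod p D1).rank + (Emod p D2).rank + 2 * dp p H) (m : ℕ) :
    dp p H * an p H (m + 1) + 1 ≤ an p H (m + 2) + 2 * dp p H * an p H m := by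
  have := Xm_finite p H hH ι₀ (m + 1)
  have := Xm_finite p H hH ι₁ (m + 1)
  have f0 := GsA_rank_nullity p H D0 (m + 1)
  have f1 := GsA_rank_nullity p H D1 (m + 1)
  rw [h0_eq p H D0 D1 e h m, Xm_finrank p H hH] at f0
  rw [Xm_finrank p H hH] at f1
  have f2 := h1_le p H D0 D1 e hH h m
  have f3 := im_le p H hH D1 D2 h21 m
  have f4 := rank_E0 p H D0 D1 e hH h
  have f5 := rank_E1 p H D0 D1 e hH h
  have f6 := an_mono p H hH m
  have f7 := an_mono p H hH (m + 1)
  generalize Module.finrank (ZMod p) ((Xm p H ι₀ (m + 1)).map (del p H D0)) = i0 at *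
  generalize Module.finrank (ZMod p) ((Xm p H ι₁ (m + 1)).map (del p H D1)) = i1 at *
  generalize Module.finrank (ZMod p) (LinearMap.ker (del p H D1) ⊓ Xm p H ι₁ (m + 1) :
      Submodule (ZMod p) (ι₁ → H → ZMod p)) = k1 at *
  generalize an p H (m + 1) = a at *
  generalize an p H m = a' at *
  generalize an p H (m + 2) = a'' at *
  generalize (Emod p D0).rank = r0 at *
  generalize (Emod p D1).rank = r1 at *
  generalize (Emod p D2).rank = r2 at *
  generalize dp p H = d at *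
  generalize Fintype.card ι₀ = s0 at *
  generalize Fintype.card ι₁ = s1 at *
  generalize Fintype.card ι₂ = s2 at *
  subst f4 f5
  obtain ⟨x, rfl⟩ := Nat.exists_eq_add_of_le f6
  obtain ⟨y, rfl⟩ := Nat.exists_eq_add_of_le f7
  simp only [Nat.add_sub_cancel_left] at f2 f3
  have f8 : s2 * a' ≤ (r1 + r2 + 2 * d) * a' := Nat.mul_le_mul_right _ hr
  nlinarith [f0, f1, f2, f3, f8]

/-- PROOF. `a_0 = 0`, `a_1 = 1`, `d ≥ 9`: by induction `a_{m+2} ≥ 3 a_{m+1}` (`a_{m+2} ≥ d a_{m+1} - 2 d a_m ≥ d a_{m+1} - (2 d / 3) a_{m+1} ≥ 3 a_{m+1}`, using `3 a_m ≤ a_{m+1}`, true for `m = 0`). So `a_{m+1} ≥ 3^m`, and with a finite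
generating set `T` of `H`: `growth T m ≥ 3^m` (`an_le`), against `SubEx` with `c = 2`. -/
theorem gs_growth (hH : Group.FG H) (h : PRes D0 D1 e) (h21 : D2 * D1 = 0)
    (hr : Fintype.card ι₂ ≤ (Emod p D1).rank + (Emod p D2).rank + 2 * dp p H)
    (hs : SubEx H) : dp p H ≤ 8 := by
  by_contra hd
  have hd9 : 9 ≤ dp p H := by omega
  have key : ∀ m, 3 * an p H m ≤ an p H (m + 1) := by
    intro m
    induction m with
    | zero => rw [an_zero]; omega
    | succ m ih =>
      have h1 := gs_rec p H D0 D1 D2 e hH h h21 hr m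
      have h2 : dp p H * (3 * an p H m) ≤ dp p H * an p H (m + 1) := Nat.mul_le_mul_left _ ih
      have h3 : 9 * an p H (m + 1) ≤ dp p H * an p H (m + 1) := Nat.mul_le_mul_right _ hd9
      nlinarith [h1, h2, h3]
  have h3 : ∀ m, 3 ^ m ≤ an p H (m + 1) := by
    intro m
    induction m with
    | zero => rw [an_one, pow_zero]
    | succ m ih =>
      have := key (m + 1)
      rw [pow_succ]
      omega
  obtain ⟨T, hT⟩ := hH.out
  obtain ⟨m, hm, hlt⟩ := hs T 2 (by norm_num)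
  have h4 : (3 : ℝ) ^ m ≤ (growth T m : ℝ) := by
    have := (h3 m).trans (an_le p H T hT m)
    exact_mod_cast this
  have h5 : (2 : ℝ) ^ m ≤ 3 ^ m := pow_le_pow_left₀ (by norm_num) (by norm_num) m
  linarith

end PDG
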