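import Pool.Agent.W_3f3beb_h76.ResC

/-! # Restriction of the dual sequence -/

set_option autoImplicit false

open scoped Classical

namespace PDG

variable {G : Type} [Group G]

/-- coefficients of `bar w a` -/
theorem ResB_aux_bar {H : Type} [Group H] (w : H →* ℤˣ) (a : MonoidAlgebra ℤ H) (y : H) :
    (bar w a).coeff y = ((w y⁻¹ : ℤˣ) : ℤ) * a.coeff y⁻¹ := by
  induction a using MonoidAlgebra.induction_linear with
  | zero => simp [bar]
  | add a b ha hb =>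
    rw [bar_add, MonoidAlgebra.coeff_add, Finsupp.add_apply, ha, hb, MonoidAlgebra.coeff_add,
      Finsupp.add_apply]
    ring
  | single m r =>
    rw [bar_single, MonoidAlgebra.coeff_single_apply, MonoidAlgebra.coeff_single_apply]
    by_cases h : m = y⁻¹
    · subst h
      simp
    · have h' : ¬ m⁻¹ = y := fun h2 => h (by rw [← h2, inv_inv])
      rw [if_neg h, if_neg h', mul_zero]

/-- coefficients of `cut` -/
theorem ResB_aux_cut (H : Subgroup G) (x : MonoidAlgebra ℤ G) (g : G) (h : H) :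
    (cut H x g).coeff h = x.coeff ((h : G) * g) := rfl

/-- coefficients of `blk` -/
theorem ResB_aux_blk (H : Subgroup G) {α β : Type} (D : Matrix α β (MonoidAlgebra ℤ G))
    (l : α × Qt H) (j : β × Qt H) (h : H) :
    (blk H D l j).coeff h = (D l.1 j.1).coeff
      ((Quotient.out l.2)⁻¹ * ((h : G) * Quotient.out j.2)) := by
  unfold blk
  rw [ResB_aux_cut, MonoidAlgebra.coeff_single_mul_apply, one_mul]

/-- PROOF. The coefficient of the left side at `h` is `D_{lj}(t_a⁻¹ h⁻¹ t_b)` (`l, a` the column, `j, b` the row); on the right `cst w D` has the entry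
`bar w (D l j)` with coefficient `w(t_b⁻¹ h t_a) D_{lj}(t_a⁻¹ h⁻¹ t_b)` (`w x = w x⁻¹`, `w h = 1`). -/
theorem star_blk (H : Subgroup G) (w : G →* ℤˣ) (hw : ∀ h ∈ H, w h = 1) {α β : Type}
    (D : Matrix α β (MonoidAlgebra ℤ G)) (x : β × Qt H) (y : α × Qt H) :
    cst 1 (blk H D) x y =
      ((w (Quotient.out x.2) * w (Quotient.out y.2) : ℤˣ) : ℤ) • blk H (cst w D) x y := by
  apply MonoidAlgebra.coeff_injective
  ext h
  rw [MonoidAlgebra.coeff_smul_apply, ResB_aux_blk]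
  unfold cst
  rw [ResB_aux_bar, ResB_aux_bar, ResB_aux_blk, smul_eq_mul]
  have h1 : ((Quotient.out x.2 : G)⁻¹ * ((h : G) * Quotient.out y.2))⁻¹ =
      (Quotient.out y.2)⁻¹ * (((h⁻¹ : H) : G) * Quotient.out x.2) := by
    rw [Subgroup.coe_inv]
    group
  rw [h1]
  have h2 : w ((Quotient.out y.2)⁻¹ * (((h⁻¹ : H) : G) * Quotient.out x.2)) =
      (w (Quotient.out y.2))⁻¹ * w (Quotient.out x.2) := by
    rw [map_mul, map_mul, hw _ (h⁻¹ : H).2, one_mul, map_inv]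
  rw [h2]
  have h3 : ∀ u : ℤˣ, ((u : ℤˣ) : ℤ) * (u : ℤ) = 1 := by
    intro u
    rcases Int.units_eq_one_or u with h | h <;> simp [h]
  have h4 : ∀ u : ℤˣ, (u⁻¹ : ℤˣ) = u := by
    intro u
    rcases Int.units_eq_one_or u with h | h <;> simp [h]
  rw [h4]
  simp only [MonoidHom.one_apply, Units.val_one, one_mul, Units.val_mul]
  have e1 := h3 (w (Quotient.out x.2))
  have e2 := h3 (w (Quotient.out y.2))
  set a : ℤ := ((w (Quotient.out x.2) : ℤˣ) : ℤ)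
  set b : ℤ := ((w (Quotient.out y.2) : ℤˣ) : ℤ)
  set c := (D y.1 x.1).coeff ((Quotient.out y.2)⁻¹ * (((h⁻¹ : H) : G) * Quotient.out x.2))
  calc c = (a * a) * (b * b) * c := by rw [e1, e2]; ring
    _ = a * b * (b * a * c) := by ring

/-- multiplication of the coordinates of a vector by signs -/
noncomputable def ResB_aux_sg {K : Type} [Group K] {κ : Type} (s : κ → ℤˣ)
    (x : κ → MonoidAlgebra ℤ K) : κ → MonoidAlgebra ℤ K := fun i => ((s i : ℤˣ) : ℤ) • x i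

theorem ResB_aux_sg_sg {K : Type} [Group K] {κ : Type} (s : κ → ℤˣ)
    (x : κ → MonoidAlgebra ℤ K) : ResB_aux_sg s (ResB_aux_sg s x) = x := by
  funext i
  unfold ResB_aux_sg
  rw [smul_smul]
  rcases Int.units_eq_one_or (s i) with h | h <;> simp [h]

theorem ResB_aux_vecMul {K : Type} [Group K] {κ κ' : Type} [Fintype κ] (s : κ → ℤˣ)
    (t : κ' → ℤˣ) (B B' : Matrix κ κ' (MonoidAlgebra ℤ K))
    (hB : ∀ i j, B' i j = ((s i * t j : ℤˣ) : ℤ) • B i j) (x : κ → MonoidAlgebra ℤ K) :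
    Matrix.vecMul x B' = ResB_aux_sg t (Matrix.vecMul (ResB_aux_sg s x) B) := by
  funext j
  simp only [Matrix.vecMul, dotProduct, ResB_aux_sg, hB, Finset.smul_sum, Units.val_mul]
  refine Finset.sum_congr rfl fun i _ => ?_
  rw [mul_smul_comm, smul_mul_assoc, smul_smul, mul_comm]

theorem ResB_aux_eps {K : Type} [Group K] {κ : Type} [Fintype κ] (s : κ → ℤˣ) (e : κ → ℤ)
    (x : κ → MonoidAlgebra ℤ K) :
    eps (fun j => ((s j : ℤˣ) : ℤ) * e j) x = eps e (ResB_aux_sg s x) := by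
  unfold eps ResB_aux_sg
  refine Finset.sum_congr rfl fun j _ => ?_
  rw [map_smul, smul_eq_mul]
  ring

/-- conjugation of an exact sequence by sign matrices -/
theorem ResB_aux_pres {K : Type} [Group K] {κ₀ κ₁ κ₂ : Type} [Fintype κ₀] [Fintype κ₁]
    [Fintype κ₂] (s₀ : κ₀ → ℤˣ) (s₁ : κ₁ → ℤˣ) (s₂ : κ₂ → ℤˣ)
    (B0 B0' : Matrix κ₁ κ₀ (MonoidAlgebra ℤ K)) (B1 B1' : Matrix κ₂ κ₁ (MonoidAlgebra ℤ K))
    (e : κ₀ → ℤ) (h0 : ∀ i j, B0' i j = ((s₁ i * s₀ j : ℤˣ) : ℤ) • B0 i j)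
    (h1 : ∀ i j, B1' i j = ((s₂ i * s₁ j : ℤˣ) : ℤ) • B1 i j) (h : PRes B0 B1 e) :
    PRes B0' B1' (fun j => ((s₀ j : ℤˣ) : ℤ) * e j) where
  surj := by
    obtain ⟨x, hx⟩ := h.surj
    refine ⟨ResB_aux_sg s₀ x, ?_⟩
    rw [ResB_aux_eps, ResB_aux_sg_sg, hx]
  ex0 x := by
    rw [ResB_aux_eps, h.ex0]
    constructor
    · rintro ⟨y, hy⟩
      refine ⟨ResB_aux_sg s₁ y, ?_⟩
      rw [ResB_aux_vecMul s₁ s₀ B0 B0' h0, ResB_aux_sg_sg, hy, ResB_aux_sg_sg]
    · rintro ⟨y, hy⟩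
      refine ⟨ResB_aux_sg s₁ y, ?_⟩
      rw [← hy, ResB_aux_vecMul s₁ s₀ B0 B0' h0, ResB_aux_sg_sg]
  ex1 x := by
    have h2 : Matrix.vecMul x B0' = 0 ↔ Matrix.vecMul (ResB_aux_sg s₁ x) B0 = 0 := by
      rw [ResB_aux_vecMul s₁ s₀ B0 B0' h0]
      constructor
      · intro h3
        rw [← ResB_aux_sg_sg s₀ (Matrix.vecMul (ResB_aux_sg s₁ x) B0), h3]
        funext i
        simp [ResB_aux_sg]
      · intro h3
        rw [h3]
        funext i
        simp [ResB_aux_sg]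
    rw [h2, h.ex1]
    constructor
    · rintro ⟨y, hy⟩
      refine ⟨ResB_aux_sg s₂ y, ?_⟩
      rw [ResB_aux_vecMul s₂ s₁ B1 B1' h1, ResB_aux_sg_sg, hy, ResB_aux_sg_sg]
    · rintro ⟨y, hy⟩
      refine ⟨ResB_aux_sg s₂ y, ?_⟩
      rw [← hy, ResB_aux_vecMul s₂ s₁ B1 B1' h1, ResB_aux_sg_sg]

/-- PROOF. Apply `pres_blk` to `cst w D0`, `cst w D1`; multiply the coordinates of the vectors by the signs `w (t_q)` (bijections): by `star_blk` this gives the sequence for `cst 1 (blk H D0)`, `cst 1 (blk H D1)`, and the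
augmentation gets the signs too. Note `D0 : Matrix ι₀ ι₁`, so `cst w D0 : Matrix ι₁ ι₀`. -/
theorem pres_star_blk (H : Subgroup G) [H.FiniteIndex] (w : G →* ℤˣ) (hw : ∀ h ∈ H, w h = 1)
    {ι₀ ι₁ ι₂ : Type} [Fintype ι₀] [Fintype ι₁] [Fintype ι₂]
    (D0 : Matrix ι₀ ι₁ (MonoidAlgebra ℤ G)) (D1 : Matrix ι₁ ι₂ (MonoidAlgebra ℤ G))
    (e : ι₀ → ℤ) (h : PRes (cst w D0) (cst w D1) e) :
    ∃ e' : ι₀ × Qt H → ℤ, PRes (cst 1 (blk H D0)) (cst 1 (blk H D1)) e' :=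
  ⟨_, ResB_aux_pres (fun j : ι₀ × Qt H => w (Quotient.out j.2))
    (fun j : ι₁ × Qt H => w (Quotient.out j.2)) (fun j : ι₂ × Qt H => w (Quotient.out j.2))
    (blk H (cst w D0)) (cst 1 (blk H D0)) (blk H (cst w D1)) (cst 1 (blk H D1))
    (fun j : ι₀ × Qt H => e j.1) (star_blk H w hw D0) (star_blk H w hw D1)
    (pres_blk H (cst w D0) (cst w D1) e h)⟩

theorem card_Qt (H : Subgroup G) [H.FiniteIndex] : Fintype.card (Qt H) = H.index := by
  rw [Fintype.card_eq_nat_card, Subgroup.index]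
  exact Nat.card_congr (QuotientGroup.quotientRightRelEquivQuotientLeftRel H)

end PDG
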