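import Pool.Agent.W_3f3beb_h76.ChiB
import Pool.Agent.W_3f3beb_h76.DualA
import Pool.Agent.W_3f3beb_h76.ResB
import Pool.Agent.W_3f3beb_h76.GsA
import Pool.Agent.W_3f3beb_h76.DpA

/-! # First Betti numbers of finite index subgroups -/

set_option autoImplicit false

open scoped Classical

namespace PDG

variable {G : Type} [Group G]

/-- the sequence of the matrices restricted to `H` -/
theorem dp_le_eight_four (C : FinRes G 4) (hPD : FinRes.IsPD (n := 3) C) (hG : Group.FG G)
    (hinf : Infinite G) (hs : SubEx G) (w : G →* ℤˣ) (e' : Fin (C.r 4) → ℤ)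
    (hw : PRes (cst w (mt C 3)) (cst w (mt C 2)) e')
    (H : Subgroup G) (hH : H.FiniteIndex) (hHw : ∀ h ∈ H, w h = 1) (p : ℕ) [Fact p.Prime] :
    dp p H ≤ 8 := by
  have fgH : Group.FG H := by
    have := hG
    infer_instance
  obtain ⟨e, he⟩ := pres_of_res C
  have hP := pres_blk H (mt C 0) (mt C 1) e he
  obtain ⟨e'', hQ⟩ := pres_star_blk H w hHw (mt C 3) (mt C 2) e' hw
  have h21 : blk H (mt C 2) * blk H (mt C 1) = 0 := by
    rw [← blk_mul, mt_mul]
    have h0 := blk_mul H (0 : Matrix (Fin (C.r 3)) (Fin (C.r 2)) (MonoidAlgebra ℤ G))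
      (0 : Matrix (Fin (C.r 2)) (Fin (C.r 1)) (MonoidAlgebra ℤ G))
    ext l j
    simp [blk, cut]
  have hchi := chi_zero C hs hinf
  have r0 := rank_E0 p H _ _ _ fgH hP
  have r1 := rank_E1 p H _ _ _ fgH hP
  have q0 := rank_E0 p H _ _ _ fgH hQ
  have q1 := rank_E1 p H _ _ _ fgH hQ
  rw [Emod_star, Matrix.rank_transpose] at q0
  rw [Emod_star, Emod_star, Matrix.rank_transpose, Matrix.rank_transpose] at q1
  refine gs_growth p H _ _ (blk H (mt C 2)) _ fgH hP h21 ?_ (hs.subgroup H)
  simp only [Fintype.card_prod, Fintype.card_fin] at *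
  have hm : (Fintype.card (Qt H) : ℤ) * ((C.r 0 : ℤ) - C.r 1 + C.r 2 - C.r 3 + C.r 4) = 0 := by
    have : ((C.r 0 : ℤ) - C.r 1 + C.r 2 - C.r 3 + C.r 4) = 0 := by
      rw [← hchi]
      simp [Finset.sum_range_succ]
      ring
    rw [this, mul_zero]
  have r0' : (C.r 0 : ℤ) * Fintype.card (Qt H) = (Emod p (blk H (mt C 0))).rank + 1 := by
    exact_mod_cast r0
  have r1' : (C.r 1 : ℤ) * Fintype.card (Qt H) = (Emod p (blk H (mt C 1))).rank +
      (Emod p (blk H (mt C 0))).rank + dp p H := by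
    exact_mod_cast r1
  have q0' : (C.r 4 : ℤ) * Fintype.card (Qt H) = (Emod p (blk H (mt C 3))).rank + 1 := by
    exact_mod_cast q0
  have q1' : (C.r 3 : ℤ) * Fintype.card (Qt H) = (Emod p (blk H (mt C 2))).rank +
      (Emod p (blk H (mt C 3))).rank + dp p H := by
    exact_mod_cast q1
  have : (C.r 2 : ℤ) * Fintype.card (Qt H) ≤ (Emod p (blk H (mt C 1))).rank +
      (Emod p (blk H (mt C 2))).rank + 2 * dp p H := by
    linarith
  exact_mod_cast this

theorem dp_le_eight_three (C : FinRes G 3) (hPD : FinRes.IsPD (n := 2) C) (hG : Group.FG G)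
    (hs : SubEx G) (w : G →* ℤˣ) (e' : Fin (C.r 3) → ℤ)
    (hw : PRes (cst w (mt C 2)) (cst w (mt C 1)) e')
    (H : Subgroup G) (hH : H.FiniteIndex) (hHw : ∀ h ∈ H, w h = 1) (p : ℕ) [Fact p.Prime] :
    dp p H ≤ 8 := by
  have fgH : Group.FG H := by
    have := hG
    infer_instance
  obtain ⟨e, he⟩ := pres_of_res C
  have hP := pres_blk H (mt C 0) (mt C 1) e he
  obtain ⟨e'', hQ⟩ := pres_star_blk H w hHw (mt C 2) (mt C 1) e' hw
  have h21 : blk H (mt C 2) * blk H (mt C 1) = 0 := by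
    rw [← blk_mul, mt_mul]
    ext l j
    simp [blk, cut]
  have q1 := rank_E1 p H _ _ _ fgH hQ
  rw [Emod_star, Emod_star, Matrix.rank_transpose, Matrix.rank_transpose] at q1
  refine gs_growth p H _ _ (blk H (mt C 2)) _ fgH hP h21 ?_ (hs.subgroup H)
  omega

theorem ker_finiteIndex (w : G →* ℤˣ) : w.ker.FiniteIndex := by
  have : Finite (G ⧸ w.ker) := by
    have : Finite w.range := Subtype.finite
    exact Finite.of_equiv _ (QuotientGroup.quotientKerEquivRange w).symm.toEquiv
  exact Subgroup.finiteIndex_of_finite_quotient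

theorem exists_RK (n : ℕ) (hn : n = 2 ∨ n = 3) (C : FinRes G (n + 1)) (hPD : C.IsPD)
    (hG : Group.FG G) (hinf : Infinite G) (hs : SubEx G) :
    ∃ H : Subgroup G, H.FiniteIndex ∧ RK H 8 := by
  rcases hn with rfl | rfl
  · obtain ⟨w, e', hw⟩ := pres_of_dual (k := 1) C hPD
    refine ⟨w.ker, ker_finiteIndex w, ?_⟩
    intro p _ K hK
    -- `K` is a subgroup of `w.ker`; its image in `G`
    have hK' : (K.map w.ker.subtype).FiniteIndex := by
      have := ker_finiteIndex w
      refine ⟨?_⟩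
      rw [Subgroup.index_map_subtype]
      exact mul_ne_zero hK.index_ne_zero (Subgroup.FiniteIndex.index_ne_zero (H := w.ker))
    have := dp_le_eight_three C hPD hG hs w e' hw (K.map w.ker.subtype) hK' ?_ p
    · rwa [← dp_congr p (K.equivMapOfInjective w.ker.subtype w.ker.subtype_injective)] at this
    · rintro h ⟨k, _, rfl⟩
      exact k.2
  · obtain ⟨w, e', hw⟩ := pres_of_dual (k := 2) C hPD
    refine ⟨w.ker, ker_finiteIndex w, ?_⟩
    intro p _ K hK
    have hK' : (K.map w.ker.subtype).FiniteIndex := by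
      have := ker_finiteIndex w
      refine ⟨?_⟩
      rw [Subgroup.index_map_subtype]
      exact mul_ne_zero hK.index_ne_zero (Subgroup.FiniteIndex.index_ne_zero (H := w.ker))
    have := dp_le_eight_four C hPD hG hinf hs w e' hw (K.map w.ker.subtype) hK' ?_ p
    · rwa [← dp_congr p (K.equivMapOfInjective w.ker.subtype w.ker.subtype_injective)] at this
    · rintro h ⟨k, _, rfl⟩
      exact k.2

end PDG
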