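import Pool.Agent.W_3f3beb_h76.Stmt

/-!
# MP_3f3beb_al: definitions used in the proofs

Paper proof: proofs row 251.
-/

set_option autoImplicit false

open scoped Classical

namespace PDG

/-! ## Growth, finite abelianizations, Betti numbers -/

/-- every finite subset generates with exponential growth rate 1 -/
def SubEx (L : Type) [Group L] : Prop :=
  ∀ (S : Finset L) (c : ℝ), 1 < c → ∃ m : ℕ, 1 ≤ m ∧ (growth S m : ℝ) < c ^ m

/-- every finite subset has polynomial growth -/
def Poly (L : Type) [Group L] : Prop := ∀ S : Finset L, PolyBd S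

/-- all finite index subgroups have finite abelianization -/
def FAb (L : Type) [Group L] : Prop :=
  ∀ H : Subgroup L, H.FiniteIndex → Finite (Abelianization H)

/-- `dim Hom(L, F_p)` -/
noncomputable def dp (p : ℕ) [Fact p.Prime] (L : Type) [Group L] : ℕ :=
  Module.finrank (ZMod p) (Additive L →+ ZMod p)

/-- `dim Hom(H, F_p) ≤ D` for all primes `p` and all subgroups `H` of finite index -/
def RK (L : Type) [Group L] (D : ℕ) : Prop :=
  ∀ (p : ℕ) [Fact p.Prime] (H : Subgroup L), H.FiniteIndex → dp p H ≤ D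

/-- hypothesis (*) -/
def SolHyp (L : Type) [Group L] : Prop :=
  ∀ M : Subgroup L, M.FG → Infinite M → ManySoluble M

/-- all linear representations in characteristic zero have finite image -/
def LinFin (L : Type) [Group L] : Prop :=
  ∀ (m : ℕ) (K : Type) (_ : Field K) (_ : CharZero K) (ρ : L →* GL (Fin m) K), Finite ρ.range

/-- normal of index a power of `p` -/
def PN (p : ℕ) {L : Type} [Group L] (N : Subgroup L) : Prop := N.Normal ∧ ∃ k : ℕ, N.index = p ^ k

/-- the subgroup generated by the `n`-th powers of the elements of `U` -/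
def pw {L : Type} [Group L] (n : ℕ) (U : Subgroup L) : Subgroup L :=
  Subgroup.closure {y : L | ∃ x ∈ U, y = x ^ n}

/-! ## Group rings, matrices, partial resolutions -/

/-- the augmentation -/
noncomputable def aug (H : Type) [Group H] : MonoidAlgebra ℤ H →ₐ[ℤ] ℤ :=
  MonoidAlgebra.lift ℤ ℤ H 1

/-- a homomorphism from a free module of row vectors to the trivial module -/
noncomputable def eps {H : Type} [Group H] {ι : Type} [Fintype ι] (e : ι → ℤ)
    (x : ι → MonoidAlgebra ℤ H) : ℤ := ∑ j, aug H (x j) * e j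

/-- The row vector sequence `P_2 → P_1 → P_0 → ℤ → 0` (`x ↦ x D1`, `x ↦ x D0`, `eps e`) is exact
at `P_1`, `P_0` and `ℤ`. -/
structure PRes {H : Type} [Group H] {ι₀ ι₁ ι₂ : Type} [Fintype ι₀] [Fintype ι₁] [Fintype ι₂]
    (D0 : Matrix ι₁ ι₀ (MonoidAlgebra ℤ H)) (D1 : Matrix ι₂ ι₁ (MonoidAlgebra ℤ H))
    (e : ι₀ → ℤ) : Prop where
  surj : ∃ x : ι₀ → MonoidAlgebra ℤ H, eps e x = 1
  ex0 : ∀ x : ι₀ → MonoidAlgebra ℤ H, eps e x = 0 ↔ ∃ y, Matrix.vecMul y D0 = x
  ex1 : ∀ x : ι₁ → MonoidAlgebra ℤ H, Matrix.vecMul x D0 = 0 ↔ ∃ y, Matrix.vecMul y D1 = x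

/-- the augmented matrix modulo `p` -/
noncomputable def Emod (p : ℕ) {H : Type} [Group H] {α β : Type}
    (D : Matrix α β (MonoidAlgebra ℤ H)) : Matrix α β (ZMod p) :=
  D.map (fun a => ((aug H a : ℤ) : ZMod p))

/-- the involution `g ↦ w(g) g⁻¹` of the group ring -/
noncomputable def bar {H : Type} [Group H] (w : H →* ℤˣ) (a : MonoidAlgebra ℤ H) :
    MonoidAlgebra ℤ H :=
  a.coeff.sum (fun g c => MonoidAlgebra.single g⁻¹ ((w g : ℤ) * c))

/-- conjugate transpose -/
noncomputable def cst {H : Type} [Group H] (w : H →* ℤˣ) {α β : Type}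
    (D : Matrix α β (MonoidAlgebra ℤ H)) : Matrix β α (MonoidAlgebra ℤ H) :=
  fun b a => bar w (D a b)

/-! ## Functions on `H` killed by powers of the augmentation ideal -/

section
variable (p : ℕ) [Fact p.Prime] (H : Type) [Group H]

/-- translation: `(tr g f) x = f (x g)` -/
def tr (g : H) : (H → ZMod p) →ₗ[ZMod p] (H → ZMod p) where
  toFun f x := f (x * g)
  map_add' _ _ := rfl
  map_smul' _ _ := rfl

/-- `N_m`: the functions killed by the `m`-th power of the augmentation ideal -/
noncomputable def Nn : ℕ → Submodule (ZMod p) (H → ZMod p)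
  | 0 => ⊥
  | m + 1 => ⨅ g : H, (Nn m).comap (tr p H g - LinearMap.id)

/-- `a_m = dim N_m` -/
noncomputable def an (m : ℕ) : ℕ := Module.finrank (ZMod p) (Nn p H m)

/-- translations as a homomorphism -/
def trHom : H →* Module.End (ZMod p) (H → ZMod p) where
  toFun := tr p H
  map_one' := by ext f x; simp [tr]
  map_mul' g h := by ext f x; simp [tr, mul_assoc]

/-- the action of the group ring on functions -/
noncomputable def act : MonoidAlgebra ℤ H →ₐ[ℤ] Module.End (ZMod p) (H → ZMod p) :=
  MonoidAlgebra.lift ℤ (Module.End (ZMod p) (H → ZMod p)) H (trHom p H)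

/-- the cochain map given by a matrix: `u ↦ D u` -/
noncomputable def del {α β : Type} [Fintype β] (D : Matrix α β (MonoidAlgebra ℤ H)) :
    (β → H → ZMod p) →ₗ[ZMod p] (α → H → ZMod p) :=
  LinearMap.pi (fun l => ∑ j, (act p H (D l j)).comp (LinearMap.proj j))

/-- vectors with entries in `N_m` -/
noncomputable def Xm (β : Type) (m : ℕ) : Submodule (ZMod p) (β → H → ZMod p) :=
  Submodule.pi Set.univ (fun _ => Nn p H m)

end

end PDG
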