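import Pool.Agent.W_3f3beb_h76.StmtB
import Pool.Agent.W_3f3beb_h76.Defs

/-! # Virtually residually finite-soluble groups satisfy (*) -/

set_option autoImplicit false

open scoped Classical

namespace PDG

theorem ResS_quot_inj {G G' : Type} [Group G] [Group G'] (f : G →* G') (N : Subgroup G')
    [N.Normal] : Function.Injective (QuotientGroup.map (N.comap f) N f le_rfl) := by
  rw [injective_iff_map_eq_one]
  intro x
  induction x using QuotientGroup.induction_on with
  | H x =>
    intro hx
    rw [QuotientGroup.map_mk, QuotientGroup.eq_one_iff] at hx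
    exact (QuotientGroup.eq_one_iff x).2 hx

/-- finite soluble quotients pull back -/
theorem ResS_comap {G G' : Type} [Group G] [Group G'] (f : G →* G') (N : Subgroup G')
    (h : ∃ _ : N.Normal, N.FiniteIndex ∧ Group.IsSolvable (G' ⧸ N)) :
    ∃ _ : (N.comap f).Normal, (N.comap f).FiniteIndex ∧
      Group.IsSolvable (G ⧸ (N.comap f)) := by
  obtain ⟨hN, hfi, hs⟩ := h
  have hn : (N.comap f).Normal := hN.comap f
  refine ⟨hn, ?_, ?_⟩
  · have : Finite (G' ⧸ N) := Subgroup.finite_quotient_of_finiteIndex
    have : Finite (G ⧸ (N.comap f)) := Finite.of_injective _ (ResS_quot_inj f N)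
    exact Subgroup.finiteIndex_of_finite_quotient
  · exact Group.isSolvable_of_isSolvable_injective (ResS_quot_inj f N)

/-- PROOF. `H` as in the definition. Let `M` be infinite, finitely generated; `M' = M ⊓ H` has finite index in `M`, so it is infinite. Suppose that `M'` has only finitely many normal subgroups of finite index with soluble quotient; their intersection `I` has finite index in `M'`, so `I ≠ 1`. For `1 ≠ g ∈ I` (as an element of `H`) take `N` as in the
definition: `N ⊓ M'` is normal of finite index in `M'` with soluble quotient (embeds into `H/N`) and does not contain `g`: contradiction. -/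
theorem solHyp_of_residual {G : Type} [Group G] (h : VirtResSoluble G) : SolHyp G := by
  obtain ⟨H, hH, hres⟩ := h
  intro M _ hinf
  have hrel : (M ⊓ H).relIndex M ≠ 0 := by
    rw [Subgroup.inf_relIndex_left]
    intro h0
    exact hH.index_ne_zero (Subgroup.index_eq_zero_of_relIndex_eq_zero h0)
  refine ⟨M ⊓ H, inf_le_left, hrel, ?_⟩
  have hinf' : Infinite (M ⊓ H : Subgroup G) := by
    by_contra hfin
    rw [not_infinite_iff_finite] at hfin
    have h1 : Finite ((M ⊓ H).subgroupOf M) :=
      Finite.of_injective _ (Subgroup.subgroupOfEquivOfLe (inf_le_left : M ⊓ H ≤ M)).injective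
    have h2 : Finite M := (Subgroup.finite_iff_finite_and_finiteIndex _).2 ⟨h1, ⟨hrel⟩⟩
    exact not_finite M
  intro hfinite
  set Q : Set (Subgroup (M ⊓ H : Subgroup G)) := {N | ∃ _ : N.Normal, N.FiniteIndex ∧
    Group.IsSolvable ((M ⊓ H : Subgroup G) ⧸ N)} with hQ
  have : Finite Q := hfinite
  have hI : (⨅ N : Q, (N : Subgroup (M ⊓ H : Subgroup G))).FiniteIndex :=
    Subgroup.finiteIndex_iInf fun N => by
      obtain ⟨-, h1, -⟩ := N.2
      exact h1
  have hne : (⨅ N : Q, (N : Subgroup (M ⊓ H : Subgroup G))) ≠ ⊥ := by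
    intro hbot
    rw [hbot] at hI
    have h1 := hI.index_ne_zero
    rw [Subgroup.index_bot] at h1
    exact h1 Nat.card_eq_zero_of_infinite
  obtain ⟨⟨g, hg⟩, hg0⟩ := Subgroup.ne_bot_iff_exists_ne_one.1 hne
  have hg1 : g ≠ 1 := fun h => hg0 (Subtype.ext h)
  have hgne : (⟨(g : G), g.2.2⟩ : H) ≠ 1 := by
    intro h
    apply hg1
    have h3 := congrArg (fun x : H => (x : G)) h
    exact Subtype.ext h3
  obtain ⟨N, hN, hfi, hs, hgN⟩ := hres _ hgne
  have hmem : N.comap (Subgroup.inclusion (inf_le_right : M ⊓ H ≤ H)) ∈ Q :=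
    ResS_comap _ N ⟨hN, hfi, hs⟩
  have h2 := (Subgroup.mem_iInf.1 hg) ⟨_, hmem⟩
  exact hgN h2

end PDG
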