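import Pool.Agent.W_3f3beb_h76.MainA
import Pool.Agent.W_3f3beb_h76.MainB
import Pool.Agent.W_3f3beb_h76.ResS

/-! # The main theorem -/

set_option autoImplicit false

open scoped Classical

namespace PDG

theorem main_sub {G : Type} [Group G] (h : IsPDGroup G 2 ∨ IsPDGroup G 3) (hst : SolHyp G)
    (hG : Group.FG G) (hs : SubEx G) : Group.IsVirtuallyNilpotent G ∧ Poly G := by
  by_cases hfin : Finite G
  · refine ⟨⟨⊥, ?_, ?_⟩, poly_of_finite⟩
    · infer_instance
    · infer_instance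
  · have hinf : Infinite G := not_finite_iff_infinite.1 hfin
    obtain ⟨H, hH, hRK⟩ : ∃ H : Subgroup G, H.FiniteIndex ∧ RK H 8 := by
      rcases h with ⟨C, hC⟩ | ⟨C, hC⟩
      · exact exists_RK 2 (Or.inl rfl) C hC hG hinf hs
      · exact exists_RK 3 (Or.inr rfl) C hC hG hinf hs
    obtain ⟨h1, h2⟩ := main_ind 8 H (fg_subgroup hG H hH) (hs.subgroup H)
      (hst.of_injective H.subtype H.subtype_injective) hRK
    exact ⟨virt_of_finiteIndex H hH h1, h2.of_finiteIndex H hH⟩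

theorem main {G : Type} [Group G] (h : IsPDGroup G 2 ∨ IsPDGroup G 3)
    (hst : ∀ M : Subgroup G, M.FG → Infinite M → ManySoluble M) :
    ¬ IntermediateGrowth G ∧ (SubexpGrowth G → Group.IsVirtuallyNilpotent G) := by
  constructor
  · rintro ⟨S, hS, hP, hE⟩
    have hG : Group.FG G := ⟨⟨S, hS⟩⟩
    exact hP ((main_sub h hst hG (SubEx.of_subexp ⟨S, hS, hE⟩)).2 S)
  · rintro ⟨S, hS, hE⟩
    have hG : Group.FG G := ⟨⟨S, hS⟩⟩
    exact (main_sub h hst hG (SubEx.of_subexp ⟨S, hS, hE⟩)).1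

end PDG
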