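import Pool.Agent.W_3f3beb_h76.StmtC
import Pool.Agent.W_3f3beb_h76.MainC

/-! # From the matrix form of the definitions to the form used in the proof -/

set_option autoImplicit false

open scoped Classical
open Matrix

namespace PDG

variable {G : Type} [Group G]

theorem pdc_aug_eq (a : MonoidAlgebra ℤ G) : PDC.aug a = aug G a := by
  unfold PDC.aug
  induction a using MonoidAlgebra.induction_linear with
  | zero => simp
  | add x y hx hy =>
    rw [MonoidAlgebra.coeff_add, Finsupp.sum_add_index', hx, hy, map_add]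
    · intro _; rfl
    · intro _ _ _; rfl
  | single g c =>
    rw [MonoidAlgebra.coeff_single, Finsupp.sum_single_index, aug_single]
    rfl

theorem pdc_eps_eq {r : ℕ} (e : Fin r → ℤ) (x : Fin r → MonoidAlgebra ℤ G) :
    PDC.eps e x = eps e x := by
  simp [PDC.eps, eps, pdc_aug_eq]

/-- the augmentation as a homomorphism -/
noncomputable def epsHom {r : ℕ} (e : Fin r → ℤ) : (Fin r → MonoidAlgebra ℤ G) →+ ℤ where
  toFun := PDC.eps e
  map_zero' := by simp [pdc_eps_eq, eps]
  map_add' x y := by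
    simp only [pdc_eps_eq, eps, Pi.add_apply, map_add, add_mul, Finset.sum_add_distrib]

/-- row vectors times a matrix as a linear map -/
noncomputable def rowHom {a b : ℕ} (M : Matrix (Fin b) (Fin a) (MonoidAlgebra ℤ G)) :
    (Fin b → MonoidAlgebra ℤ G) →ₗ[MonoidAlgebra ℤ G] (Fin a → MonoidAlgebra ℤ G) where
  toFun x := x ᵥ* M
  map_add' _ _ := Matrix.add_vecMul _ _ _
  map_smul' _ _ := Matrix.smul_vecMul _ _ _

/-- the resolution of `Stmt.lean` given by a resolution in matrix form -/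
noncomputable def toFinRes {n : ℕ} (C : PDC.FinRes G n) : FinRes G n where
  r := C.r
  d i := rowHom (C.D i)
  ε := epsHom C.e
  ε_trivial g x := by
    change PDC.eps C.e _ = PDC.eps C.e _
    simp only [pdc_eps_eq, eps, Pi.smul_apply, smul_eq_mul, map_mul]
    refine Finset.sum_congr rfl fun j _ => ?_
    have : aug G (MonoidAlgebra.of ℤ G g) = 1 := by
      rw [MonoidAlgebra.of_apply, aug_single]
    rw [this, one_mul]
  ε_surjective := C.surjective
  exact_zero := C.exact_zero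
  exact_succ := C.exact_succ
  length := C.length

/-- the column vector of a homomorphism to `ℤG` -/
noncomputable def colHom (r : ℕ) :
    ((Fin r → MonoidAlgebra ℤ G) →ₗ[MonoidAlgebra ℤ G] MonoidAlgebra ℤ G) →+
      (Fin r → MonoidAlgebra ℤ G) where
  toFun f j := f (Pi.single j 1)
  map_zero' := rfl
  map_add' _ _ := rfl

/-- the homomorphism to `ℤG` given by a column vector -/
noncomputable def ofCol {r : ℕ} (u : Fin r → MonoidAlgebra ℤ G) :
    (Fin r → MonoidAlgebra ℤ G) →ₗ[MonoidAlgebra ℤ G] MonoidAlgebra ℤ G where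
  toFun x := x ⬝ᵥ u
  map_add' _ _ := add_dotProduct _ _ _
  map_smul' _ _ := smul_dotProduct _ _ _

theorem apply_eq_dot {r : ℕ} (f : (Fin r → MonoidAlgebra ℤ G) →ₗ[MonoidAlgebra ℤ G] MonoidAlgebra ℤ G)
    (x : Fin r → MonoidAlgebra ℤ G) : f x = x ⬝ᵥ colHom r f := by
  have hx : x = ∑ j, x j • (Pi.single j 1 : Fin r → MonoidAlgebra ℤ G) := by
    ext1 k
    simp [Finset.sum_apply, Pi.single_apply]
  conv_lhs => rw [hx]
  rw [map_sum]
  simp only [map_smul, smul_eq_mul, dotProduct]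
  rfl

theorem colHom_injective (r : ℕ) : Function.Injective (colHom (G := G) r) := by
  intro f g h
  refine LinearMap.ext fun x => ?_
  rw [apply_eq_dot, apply_eq_dot, h]

theorem colHom_ofCol {r : ℕ} (u : Fin r → MonoidAlgebra ℤ G) : colHom r (ofCol u) = u := by
  ext1 j
  change (Pi.single j 1 : Fin r → MonoidAlgebra ℤ G) ⬝ᵥ u = u j
  simp

theorem colHom_comp {a b : ℕ} (M : Matrix (Fin b) (Fin a) (MonoidAlgebra ℤ G))
    (f : (Fin a → MonoidAlgebra ℤ G) →ₗ[MonoidAlgebra ℤ G] MonoidAlgebra ℤ G) :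
    colHom b (f.comp (rowHom M)) = M *ᵥ colHom a f := by
  ext1 j
  change f ((Pi.single j 1 : Fin b → MonoidAlgebra ℤ G) ᵥ* M) = _
  rw [apply_eq_dot, ← Matrix.dotProduct_mulVec]
  simp

/-- composition with `rowHom M` -/
noncomputable def compHom {a b : ℕ} (M : Matrix (Fin b) (Fin a) (MonoidAlgebra ℤ G)) :
    ((Fin a → MonoidAlgebra ℤ G) →ₗ[MonoidAlgebra ℤ G] MonoidAlgebra ℤ G) →+
      ((Fin b → MonoidAlgebra ℤ G) →ₗ[MonoidAlgebra ℤ G] MonoidAlgebra ℤ G) where
  toFun f := f.comp (rowHom M)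
  map_zero' := LinearMap.zero_comp _
  map_add' _ _ := LinearMap.add_comp _ _ _

theorem top_of_cokernel {a b : ℕ} (M : Matrix (Fin b) (Fin a) (MonoidAlgebra ℤ G))
    (h : PDC.ColCokernelInt M) :
    Nonempty ((((Fin b → MonoidAlgebra ℤ G) →ₗ[MonoidAlgebra ℤ G] MonoidAlgebra ℤ G) ⧸
      (compHom M).range) ≃+ ℤ) := by
  obtain ⟨η, hη, hk⟩ := h
  let φ : ((Fin b → MonoidAlgebra ℤ G) →ₗ[MonoidAlgebra ℤ G] MonoidAlgebra ℤ G) →+ ℤ :=
    η.comp (colHom _)
  have hφ : Function.Surjective φ := by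
    intro c
    obtain ⟨u, hu⟩ := hη c
    exact ⟨ofCol u, by change η (colHom _ (ofCol u)) = c; rw [colHom_ofCol, hu]⟩
  have hker : (compHom M).range = φ.ker := by
    refine AddSubgroup.ext fun f => ?_
    rw [AddMonoidHom.mem_ker, AddMonoidHom.mem_range]
    change (∃ g, compHom M g = f) ↔ η (colHom b f) = 0
    rw [hk]
    constructor
    · rintro ⟨g, rfl⟩
      exact ⟨colHom a g, (colHom_comp _ _).symm⟩
    · rintro ⟨v, hv⟩
      have h2 : colHom b ((ofCol v).comp (rowHom M)) = colHom b f := by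
        rw [colHom_comp, colHom_ofCol, hv]
      exact ⟨ofCol v, colHom_injective _ h2⟩
  exact ⟨(QuotientAddGroup.quotientAddEquivOfEq hker).trans
    (QuotientAddGroup.quotientKerEquivOfSurjective φ hφ)⟩

theorem isPD_toFinRes {n : ℕ} (C : PDC.FinRes G (n + 1)) (h : C.IsPD) : (toFinRes C).IsPD := by
  obtain ⟨h0, h1, ht⟩ := h
  refine ⟨?_, ?_, ?_⟩
  · intro f hf
    change (Fin (C.r 0) → MonoidAlgebra ℤ G) →ₗ[MonoidAlgebra ℤ G] MonoidAlgebra ℤ G at f
    have hf' : C.D 0 *ᵥ colHom (C.r 0) f = 0 := by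
      rw [← colHom_comp]
      have : f.comp (rowHom (C.D 0)) = 0 := hf
      rw [this, map_zero]
    have h2 : colHom (C.r 0) f = colHom (C.r 0) 0 := by
      rw [map_zero]
      exact h0 _ hf'
    exact colHom_injective _ h2
  · intro i hi f hf
    change (Fin (C.r (i + 1)) → MonoidAlgebra ℤ G) →ₗ[MonoidAlgebra ℤ G] MonoidAlgebra ℤ G at f
    have hf' : C.D (i + 1) *ᵥ colHom (C.r (i + 1)) f = 0 := by
      rw [← colHom_comp]
      have : f.comp (rowHom (C.D (i + 1))) = 0 := hf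
      rw [this, map_zero]
    obtain ⟨v, hv⟩ := h1 i hi _ hf'
    have h2 : colHom (C.r (i + 1)) ((ofCol v).comp (rowHom (C.D i))) = colHom (C.r (i + 1)) f := by
      rw [colHom_comp, colHom_ofCol, hv]
    exact ⟨ofCol v, colHom_injective _ h2⟩
  · exact top_of_cokernel (C.D n) ht

theorem isPDGroup_of_pdc {n : ℕ} (h : PDC.IsPDGroup G n) : IsPDGroup G n := by
  obtain ⟨C, hC⟩ := h
  exact ⟨toFinRes C, isPD_toFinRes C hC⟩

theorem main_pdc (h : PDC.IsPDGroup G 2 ∨ PDC.IsPDGroup G 3)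
    (hst : ∀ M : Subgroup G, M.FG → Infinite M → PDC.ManySoluble M) :
    ¬ PDC.IntermediateGrowth G ∧ (PDC.SubexpGrowth G → Group.IsVirtuallyNilpotent G) :=
  main (h.imp isPDGroup_of_pdc isPDGroup_of_pdc) hst

end PDG
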