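import Mathlib

/-! # Embeddings of the complex numbers with prescribed values -/

set_option autoImplicit false

open scoped Classical Cardinal

namespace PDG

/-- Two algebraically closed extensions of the same uncountable cardinality of a countable ring. -/
theorem AbsA_aux1 {R : Type} [CommRing R] [IsDomain R] (hR : #R ≤ ℵ₀) {L K : Type} [Field L]
    [Field K] [IsAlgClosed L] [IsAlgClosed K] [Algebra R L] [Algebra R K] [FaithfulSMul R L]
    [FaithfulSMul R K] (hL : ℵ₀ < #L) (hLK : #L = #K) : Nonempty (L →ₐ[R] K) := by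
  obtain ⟨s, hs⟩ := exists_isTranscendenceBasis R L
  obtain ⟨t, ht⟩ := exists_isTranscendenceBasis R K
  have hK : ℵ₀ < #K := hLK ▸ hL
  have h1 : #L = #s := IsAlgClosed.cardinal_eq_cardinal_transcendence_basis_of_aleph0_lt' _ hs hR hL
  have h2 : #K = #t := IsAlgClosed.cardinal_eq_cardinal_transcendence_basis_of_aleph0_lt' _ ht hR hK
  obtain ⟨e⟩ : Nonempty (s ≃ t) := by
    rw [← Cardinal.eq, ← h1, ← h2, hLK]
  have hte : AlgebraicIndependent R (fun i : s => ((e i : t) : K)) :=
    ht.1.comp e e.injective
  let A := Algebra.adjoin R (Set.range ((↑) : s → L))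
  let f : A →ₐ[R] K := (MvPolynomial.aeval (fun i : s => ((e i : t) : K))).comp hs.1.repr
  have hf : Function.Injective f := by
    have h3 : Function.Injective (MvPolynomial.aeval (fun i : s => ((e i : t) : K)) :
      MvPolynomial s R →ₐ[R] K) := hte
    exact h3.comp hs.1.aevalEquiv.symm.injective
  letI : Algebra A K := f.toRingHom.toAlgebra
  haveI : FaithfulSMul A K := (faithfulSMul_iff_algebraMap_injective A K).2 hf
  haveI : Algebra.IsAlgebraic A L := hs.isAlgebraic
  let g : L →ₐ[A] K := IsAlgClosed.lift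
  refine ⟨{ g.toRingHom with commutes' := fun r => ?_ }⟩
  have h4 : g (algebraMap A L (algebraMap R A r)) = algebraMap A K (algebraMap R A r) :=
    g.commutes _
  have h5 : algebraMap A K (algebraMap R A r) = algebraMap R K r := f.commutes r
  have h6 : algebraMap A L (algebraMap R A r) = algebraMap R L r := rfl
  rw [h6, h5] at h4
  exact h4

theorem AbsA_aux2 {K : Type} [Field K] [IsAlgClosed K] (hK : #K = 𝔠) {R : Type} [CommRing R]
    [IsDomain R] [Countable R] (f : R →+* ℂ) (g : R →+* K) (hf : Function.Injective f)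
    (hg : Function.Injective g) : ∃ σ : ℂ →+* K, ∀ r, σ (f r) = g r := by
  letI : Algebra R ℂ := f.toAlgebra
  letI : Algebra R K := g.toAlgebra
  haveI : FaithfulSMul R ℂ := (faithfulSMul_iff_algebraMap_injective R ℂ).2 hf
  haveI : FaithfulSMul R K := (faithfulSMul_iff_algebraMap_injective R K).2 hg
  obtain ⟨σ⟩ := AbsA_aux1 (R := R) (Cardinal.mk_le_aleph0_iff.2 inferInstance) (L := ℂ) (K := K)
    (by rw [Cardinal.mk_complex]; exact Cardinal.aleph0_lt_continuum)
    (by rw [Cardinal.mk_complex, hK])
  exact ⟨σ.toRingHom, fun r => σ.commutes r⟩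

theorem AbsA_countable : Countable (Polynomial ℚ) := by
  rw [← Cardinal.mk_le_aleph0_iff]
  refine (Polynomial.cardinalMk_le_max).trans ?_
  simp

/-- PROOF. Choose transcendence bases `s` of `ℂ` over `ℚ` with `x ∈ s` and `t` of `K` over `ℚ` with `y ∈ t` (extend the algebraically independent families `{x}`, `{y}`). Both have cardinality `𝔠`
(`IsAlgClosed.cardinal_eq_cardinal_transcendence_basis_of_aleph0_lt`), so there is a bijection `s ≃ t`; compose with a transposition so that `x ↦ y`. The induced isomorphism of the polynomial rings extends to an isomorphism of the algebraically closed fields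
(`IsAlgClosed.equivOfTranscendenceBasis` and its construction, or `IsAlgClosed.lift`). -/
theorem hom_transc {K : Type} [Field K] [IsAlgClosed K] [CharZero K] (hK : #K = 𝔠) (x : ℂ) (y : K)
    (hx : Transcendental ℚ x) (hy : Transcendental ℚ y) : ∃ σ : ℂ →+* K, σ x = y := by
  haveI := AbsA_countable
  obtain ⟨σ, hσ⟩ := AbsA_aux2 hK (R := Polynomial ℚ) (Polynomial.aeval x).toRingHom
    (Polynomial.aeval y).toRingHom (transcendental_iff_injective.1 hx)
    (transcendental_iff_injective.1 hy)
  refine ⟨σ, ?_⟩
  have h := hσ Polynomial.X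
  simpa using h

/-- PROOF. `F = ℚ(x)` (intermediate field of `ℂ`), embed it into `K` by `x ↦ y` (same minimal polynomial). Both `ℂ` and `K` are `F`-algebras; transcendence bases over `F` have cardinality `𝔠` (`F` is countable); as above a bijection of the bases gives an isomorphism over `F`. (Alternatively: any isomorphism
`ℂ ≃ K` exists by `IsAlgClosed.ringEquiv_of_equiv_of_charZero`; it maps the algebraic closure of `ℚ` in `ℂ` to that in `K`, and an automorphism of `ℂ` moving `x` to a given conjugate is obtained by extending an automorphism of the algebraic closure of `ℚ` to `ℂ` with a transcendence basis.) -/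
theorem hom_alg {K : Type} [Field K] [IsAlgClosed K] [CharZero K] (hK : #K = 𝔠) (x : ℂ) (y : K)
    (hx : IsAlgebraic ℚ x) (hy : Polynomial.aeval y (minpoly ℚ x) = 0) :
    ∃ σ : ℂ →+* K, σ x = y := by
  haveI := AbsA_countable
  have hirr : Irreducible (minpoly ℚ x) := minpoly.irreducible hx.isIntegral
  haveI : Fact (Irreducible (minpoly ℚ x)) := ⟨hirr⟩
  haveI : Countable (AdjoinRoot (minpoly ℚ x)) :=
    (AdjoinRoot.mk_surjective (g := minpoly ℚ x)).countable
  have h1 : Polynomial.eval₂ (algebraMap ℚ ℂ) x (minpoly ℚ x) = 0 := minpoly.aeval ℚ x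
  have h2 : Polynomial.eval₂ (algebraMap ℚ K) y (minpoly ℚ x) = 0 := hy
  obtain ⟨σ, hσ⟩ := AbsA_aux2 hK (R := AdjoinRoot (minpoly ℚ x))
    (AdjoinRoot.lift (algebraMap ℚ ℂ) x h1) (AdjoinRoot.lift (algebraMap ℚ K) y h2)
    (RingHom.injective _) (RingHom.injective _)
  refine ⟨σ, ?_⟩
  have h := hσ (AdjoinRoot.root (minpoly ℚ x))
  rwa [AdjoinRoot.lift_root, AdjoinRoot.lift_root] at h

end PDG
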