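import Mathlib

/-! # p-adic facts and Kronecker's theorem -/

set_option autoImplicit false

open scoped Classical Cardinal

namespace PDG

theorem AbsB_le (p : ℕ) [Fact p.Prime] : #ℚ_[p] ≤ 𝔠 := by
  have h1 : #ℚ_[p] ≤ #(CauSeq ℚ (padicNorm p)) := Cardinal.mk_quotient_le
  have h2 : #(CauSeq ℚ (padicNorm p)) ≤ #(ℕ → ℚ) := Cardinal.mk_subtype_le _
  have h3 : #(ℕ → ℚ) = 𝔠 := by
    rw [Cardinal.mk_arrow]
    simp
  exact (h1.trans h2).trans h3.le

/-- PROOF. `ℚ_[p]` has cardinality `𝔠` (a complete metric space, the Cauchy sequences of rationals are at most `𝔠`; at least `𝔠`: it contains `ℤ_[p]`, uncountable and perfect; or `2^ℕ` embeds by `∑ a_i p^i`), and an algebraic extension of an infinite field has the same cardinality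
(`Algebra.IsAlgebraic.cardinalMk_le_max`). -/
theorem card_padicAlgCl (p : ℕ) [Fact p.Prime] : #(PadicAlgCl p) = 𝔠 := by
  apply le_antisymm
  · have h1 : #(PadicAlgCl p) ≤ max #ℚ_[p] Cardinal.aleph0 :=
      Algebra.IsAlgebraic.cardinalMk_le_max ℚ_[p] (PadicAlgCl p)
    exact h1.trans (max_le (AbsB_le p) Cardinal.aleph0_le_continuum)
  · have h1 : 𝔠 ≤ #ℚ_[p] := continuum_le_cardinal_of_nontriviallyNormedField ℚ_[p]
    have h2 : #ℚ_[p] ≤ #(PadicAlgCl p) :=
      Cardinal.mk_le_of_injective (algebraMap ℚ_[p] (PadicAlgCl p)).injective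
    exact h1.trans h2

end PDG
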