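import Mathlib

/-! # Algebraic numbers which are not integral: p-adic embeddings -/

set_option autoImplicit false

open scoped Classical Cardinal

namespace PDG

/-- the closed unit ball of the algebraic closure of `ℚ_[p]` -/
noncomputable def AbsD_aux_ball (p : ℕ) [Fact p.Prime] : Subring (PadicAlgCl p) where
  carrier := {z | ‖z‖ ≤ 1}
  mul_mem' := by
    intro a b ha hb
    simp only [Set.mem_ofPred_eq] at ha hb ⊢
    rw [norm_mul]
    exact mul_le_one₀ ha (norm_nonneg _) hb
  one_mem' := by simp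
  add_mem' := by
    intro a b ha hb
    simp only [Set.mem_ofPred_eq] at ha hb ⊢
    exact (PadicAlgCl.isNonarchimedean p a b).trans (max_le ha hb)
  zero_mem' := by simp
  neg_mem' := by
    intro a ha
    simpa using ha

/-- a monic polynomial over `ℚ` all of whose roots in the algebraic closure of `ℚ_[p]` have norm
at most one has coefficients of norm at most one -/
theorem AbsD_aux_coeff (p : ℕ) [Fact p.Prime] (f : Polynomial ℚ) (hf : f.Monic)
    (h : ∀ y : PadicAlgCl p, Polynomial.aeval y f = 0 → ‖y‖ ≤ 1) (n : ℕ) :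
    ‖((f.coeff n : ℚ) : ℚ_[p])‖ ≤ 1 := by
  set F : Polynomial (PadicAlgCl p) := f.map (algebraMap ℚ (PadicAlgCl p)) with hF
  have hmonic : F.Monic := hf.map _
  have hsplit : F = (F.roots.map fun a => Polynomial.X - Polynomial.C a).prod := by
    have := (IsAlgClosed.splits F).eq_prod_roots
    rw [hmonic.leadingCoeff, Polynomial.C_1, one_mul] at this
    exact this
  have hroots : ∀ a ∈ F.roots, ‖a‖ ≤ 1 := by
    intro a ha
    apply h
    have h1 : Polynomial.eval a F = 0 := (Polynomial.mem_roots'.1 ha).2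
    rwa [hF, Polynomial.eval_map_algebraMap] at h1
  have hlift : F ∈ Polynomial.lifts (AbsD_aux_ball p).subtype := by
    rw [hsplit]
    refine Subsemiring.multiset_prod_mem (Polynomial.lifts (AbsD_aux_ball p).subtype) _ ?_
    intro q hq
    obtain ⟨a, ha, rfl⟩ := Multiset.mem_map.1 hq
    have h2 : (Polynomial.X - Polynomial.C (⟨a, hroots a ha⟩ : AbsD_aux_ball p)).map
        (AbsD_aux_ball p).subtype = Polynomial.X - Polynomial.C a := by
      simp
    rw [← h2]
    exact ⟨_, rfl⟩
  obtain ⟨G, hG⟩ := hlift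
  have h3 : F.coeff n = ((G.coeff n : AbsD_aux_ball p) : PadicAlgCl p) := by
    rw [← hG]
    simp
  have h4 : ‖F.coeff n‖ ≤ 1 := by
    rw [h3]
    exact (G.coeff n).2
  rw [hF, Polynomial.coeff_map] at h4
  have h5 : algebraMap ℚ (PadicAlgCl p) (f.coeff n) =
      algebraMap ℚ_[p] (PadicAlgCl p) ((f.coeff n : ℚ) : ℚ_[p]) := by
    simp
  rw [h5] at h4
  have h6 := PadicAlgCl.norm_extends p ((f.coeff n : ℚ) : ℚ_[p])
  rw [← h6]
  exact h4

/-- a rational number which is integral at all primes is an integer -/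
theorem AbsD_aux_int (q : ℚ) (h : ∀ (p : ℕ) (_ : Fact p.Prime), ‖(q : ℚ_[p])‖ ≤ 1) :
    ∃ z : ℤ, (z : ℚ) = q := by
  by_cases hd : q.den = 1
  · exact ⟨q.num, Rat.coe_int_num_of_den_eq_one hd⟩
  · exfalso
    obtain ⟨p, hp, hpd⟩ := Nat.exists_prime_and_dvd hd
    have : Fact p.Prime := ⟨hp⟩
    have h1 : IsUnit (q.den : ℤ_[p]) := PadicInt.isUnit_den q (h p ⟨hp⟩)
    obtain ⟨m, hm⟩ := hpd
    rw [hm] at h1
    push_cast at h1
    exact PadicInt.prime_p.not_isUnit (isUnit_of_mul_isUnit_left h1)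

/-- PROOF. The minimal polynomial `f` of `x` over `ℚ` is monic and does not have integer coefficients (`x` is not integral over `ℤ`, `minpoly.isIntegrallyClosed_eq_field_fractions`). Let `p` be a prime dividing the denominator of a coefficient. In `PadicAlgCl p`, `f = ∏ (X - y_i)`; if all `‖y_i‖ ≤ 1`
then all coefficients (elementary symmetric functions, nonarchimedean norm) have norm `≤ 1` in `ℚ_[p]`: contradiction. -/
theorem exists_padic (x : ℂ) (hx : IsAlgebraic ℚ x) (hint : ¬ IsIntegral ℤ x) :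
    ∃ (p : ℕ) (_ : Fact p.Prime) (y : PadicAlgCl p), Polynomial.aeval y (minpoly ℚ x) = 0 ∧
      1 < ‖y‖ := by
  by_contra hcon
  push Not at hcon
  apply hint
  have hmonic : (minpoly ℚ x).Monic := minpoly.monic hx.isIntegral
  have hcoeff : ∀ n, ∃ z : ℤ, (z : ℚ) = (minpoly ℚ x).coeff n := fun n =>
    AbsD_aux_int _ fun p hp => AbsD_aux_coeff p _ hmonic (fun y hy => hcon p hp y hy) n
  have hlift : minpoly ℚ x ∈ Polynomial.lifts (Int.castRingHom ℚ) := by
    rw [Polynomial.lifts_iff_coeff_lifts]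
    intro n
    obtain ⟨z, hz⟩ := hcoeff n
    exact ⟨z, hz⟩
  obtain ⟨q, hq, -, hqm⟩ := Polynomial.lifts_and_degree_eq_and_monic hlift hmonic
  refine ⟨q, hqm, ?_⟩
  have h1 : Polynomial.aeval x (minpoly ℚ x) = 0 := minpoly.aeval ℚ x
  rw [← hq, Polynomial.aeval_def, Polynomial.eval₂_map] at h1
  have h2 : (algebraMap ℚ ℂ).comp (Int.castRingHom ℚ) = algebraMap ℤ ℂ := RingHom.ext_int _ _
  rwa [h2] at h1

end PDG
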