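import Mathlib

/-! # Kronecker -/

set_option autoImplicit false

open scoped Classical Cardinal

namespace PDG

/-- PROOF. Kronecker: in the number field `ℚ(x)`, `x` is integral and all its images under embeddings into `ℂ` are roots of the minimal polynomial, of modulus 1: `NumberField.Embeddings.pow_eq_one_of_norm_eq_one`. -/
theorem root_of_unity (x : ℂ) (hint : IsIntegral ℤ x)
    (h : ∀ y : ℂ, Polynomial.aeval y (minpoly ℚ x) = 0 → ‖y‖ = 1) : ∃ n : ℕ, 0 < n ∧ x ^ n = 1 := by
  have hq : IsIntegral ℚ x := hint.tower_top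
  have hfd : FiniteDimensional ℚ (IntermediateField.adjoin ℚ {x}) :=
    IntermediateField.adjoin.finiteDimensional hq
  have hnf : NumberField (IntermediateField.adjoin ℚ {x}) := { }
  set g : IntermediateField.adjoin ℚ {x} := IntermediateField.AdjoinSimple.gen ℚ x with hg
  have hgx : algebraMap (IntermediateField.adjoin ℚ {x}) ℂ g = x :=
    IntermediateField.AdjoinSimple.algebraMap_gen ℚ x
  have hgi : IsIntegral ℤ g := by
    rw [← hgx] at hint
    exact (isIntegral_algebraMap_iff (algebraMap (IntermediateField.adjoin ℚ {x}) ℂ).injective).mp hint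
  have hmin : minpoly ℚ g = minpoly ℚ x := IntermediateField.minpoly_gen ℚ x
  obtain ⟨n, hn, hn1⟩ := NumberField.Embeddings.pow_eq_one_of_norm_eq_one
    (IntermediateField.adjoin ℚ {x}) ℂ hgi (fun φ => by
      apply h
      have hφ : Polynomial.aeval (φ.toRatAlgHom g) (minpoly ℚ g) = 0 := by
        rw [Polynomial.aeval_algHom_apply, minpoly.aeval, map_zero]
      rw [hmin] at hφ
      exact hφ)
  refine ⟨n, hn, ?_⟩
  rw [← hgx, ← map_pow, hn1, map_one]

end PDG
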