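import Pool.Agent.W_3f3beb_h76.AbsA
import Pool.Agent.W_3f3beb_h76.AbsB
import Pool.Agent.W_3f3beb_h76.AbsD
import Pool.Agent.W_3f3beb_h76.AbsE

/-! # Absolute values on the complex numbers separating a non-root of unity from 1 -/

set_option autoImplicit false

open scoped Classical Cardinal

namespace PDG

/-- the absolute value of a normed field pulled back by a ring homomorphism -/
noncomputable def pullAbs {K : Type} [NormedField K] (σ : ℂ →+* K) : AbsoluteValue ℂ ℝ where
  toFun x := ‖σ x‖
  map_mul' x y := by simp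
  nonneg' x := norm_nonneg _
  eq_zero' x := by simp
  add_le' x y := by rw [map_add]; exact norm_add_le _ _

/-- PROOF. If `‖x‖ ≠ 1` use the usual absolute value. If `x` is transcendental, `‖x‖ = 1`: `y = 2 x` is transcendental, of norm 2: `hom_transc` with `K = ℂ`. If `x` is algebraic: if some complex root `y` of its minimal polynomial has `‖y‖ ≠ 1` use `hom_alg` with `K = ℂ`; otherwise if `x` is integral
over `ℤ` it is a root of unity (`root_of_unity`), excluded; otherwise `exists_padic` and `hom_alg` with `K = PadicAlgCl p` (`card_padicAlgCl`). -/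
theorem exists_abs (x : ℂ) (h : ∀ n : ℕ, 0 < n → x ^ n ≠ 1) (h0 : x ≠ 0) :
    ∃ v : AbsoluteValue ℂ ℝ, v x ≠ 1 := by
  by_cases hn : ‖x‖ = 1
  · by_cases ha : IsAlgebraic ℚ x
    · by_cases hy : ∃ y : ℂ, Polynomial.aeval y (minpoly ℚ x) = 0 ∧ ‖y‖ ≠ 1
      · obtain ⟨y, hy1, hy2⟩ := hy
        obtain ⟨σ, hσ⟩ := hom_alg (K := ℂ) Cardinal.mk_complex x y ha hy1
        refine ⟨pullAbs σ, ?_⟩
        change ‖σ x‖ ≠ 1
        rw [hσ]
        exact hy2
      · push Not at hy
        by_cases hint : IsIntegral ℤ x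
        · obtain ⟨n, hn0, hn1⟩ := root_of_unity x hint hy
          exact absurd hn1 (h n hn0)
        · obtain ⟨p, hp, y, hy1, hy2⟩ := exists_padic x ha hint
          obtain ⟨σ, hσ⟩ := hom_alg (K := PadicAlgCl p) (card_padicAlgCl p) x y ha hy1
          refine ⟨pullAbs σ, ?_⟩
          change ‖σ x‖ ≠ 1
          rw [hσ]
          exact hy2.ne'
    · have h2 : Transcendental ℚ (2 * x) := by
        intro h3
        apply ha
        have h4 : IsAlgebraic ℚ ((2 : ℂ)⁻¹) := by
          have h5 := isAlgebraic_algebraMap (R := ℚ) (A := ℂ) (2⁻¹ : ℚ)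
          simpa using h5
        have h6 := h4.mul h3
        rwa [← mul_assoc, inv_mul_cancel₀ two_ne_zero, one_mul] at h6
      obtain ⟨σ, hσ⟩ := hom_transc (K := ℂ) Cardinal.mk_complex x (2 * x) ha h2
      refine ⟨pullAbs σ, ?_⟩
      change ‖σ x‖ ≠ 1
      rw [hσ, norm_mul, hn]
      norm_num
  · exact ⟨pullAbs (RingHom.id ℂ), hn⟩

end PDG
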