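import Mathlib

/-! # Burnside's theorem -/

set_option autoImplicit false

open scoped Classical

namespace PDG

/-- PROOF. Let `A = Algebra.adjoin ℂ S` (its elements are the linear combinations of elements of `S`, a submonoid). `V` is a simple `A`-module; by Schur's lemma and since `ℂ` is algebraically closed `Module.End A V` consists of the scalars (an endomorphism `f` has an eigenvalue `c`, `f - c` is not injective, so zero).
The Jacobson density theorem `jacobson_density` (Mathlib.RingTheory.SimpleModule.Basic) with a basis of `V` shows that every linear map of `V` is given by an element of `A`. -/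
theorem burnside {V : Type} [AddCommGroup V] [Module ℂ V] [FiniteDimensional ℂ V] [Nontrivial V]
    (S : Submonoid (Module.End ℂ V))
    (h : ∀ W : Submodule ℂ V, (∀ s ∈ S, ∀ w ∈ W, s w ∈ W) → W = ⊥ ∨ W = ⊤) :
    Submodule.span ℂ (S : Set (Module.End ℂ V)) = ⊤ := by
  set A : Subalgebra ℂ (Module.End ℂ V) := Algebra.adjoin ℂ (S : Set (Module.End ℂ V)) with hA
  have hAS : Subalgebra.toSubmodule A = Submodule.span ℂ (S : Set (Module.End ℂ V)) := by
    rw [hA, Algebra.adjoin_eq_span]
    simp
  have hsm : ∀ (a : A) (v : V), a • v = (a : Module.End ℂ V) v := fun a v => rfl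
  have hsimple : IsSimpleModule A V := by
    refine (isSimpleModule_iff A V).2 ?_
    refine { exists_pair_ne := ⟨⊥, ⊤, bot_ne_top⟩, eq_bot_or_eq_top := ?_ }
    intro W
    let W' : Submodule ℂ V :=
      { carrier := W
        add_mem' := fun ha hb => W.add_mem ha hb
        zero_mem' := W.zero_mem
        smul_mem' := by
          intro c x hx
          have := W.smul_mem (algebraMap ℂ A c) hx
          rw [hsm] at this
          simpa using this }
    have hW' : ∀ s ∈ S, ∀ w ∈ W', s w ∈ W' := by
      intro s hs w hw
      have := W.smul_mem (⟨s, Algebra.subset_adjoin hs⟩ : A) hw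
      rw [hsm] at this
      exact this
    rcases h W' hW' with h1 | h1
    · left
      rw [eq_bot_iff]
      intro x hx
      have : x ∈ W' := hx
      rw [h1] at this
      exact this
    · right
      rw [eq_top_iff]
      intro x _
      have : x ∈ W' := by rw [h1]; trivial
      exact this
  have hend : ∀ g : Module.End A V, ∃ c : ℂ, ∀ v, g v = c • v := by
    intro g
    have hlin : ∀ (c : ℂ) (v : V), g (c • v) = c • g v := by
      intro c v
      have h1 := g.map_smul (algebraMap ℂ A c) v
      rw [hsm, hsm] at h1
      simpa using h1
    let g' : Module.End ℂ V := { toFun := g, map_add' := g.map_add, map_smul' := hlin }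
    obtain ⟨c, hc⟩ := Module.End.exists_eigenvalue g'
    obtain ⟨v, hv⟩ := hc.exists_hasEigenvector
    refine ⟨c, ?_⟩
    let k : Module.End A V :=
      { toFun := fun v => c • v
        map_add' := fun a b => smul_add c a b
        map_smul' := by
          intro a w
          simp only [hsm, RingHom.id_apply]
          rw [LinearMap.map_smul] }
    have hk : g - k = 0 := by
      by_contra hne
      have hb := LinearMap.bijective_of_ne_zero hne
      have h0 : (g - k) v = 0 := by
        have h2 := hv.apply_eq_smul
        have h3 : g v = c • v := h2
        rw [LinearMap.sub_apply, h3]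
        exact sub_self _
      have : v = 0 := hb.1 (by rw [h0, map_zero])
      exact hv.2 this
    intro w
    have h4 : (g - k) w = 0 := by rw [hk]; rfl
    rw [LinearMap.sub_apply] at h4
    exact sub_eq_zero.1 h4
  rw [eq_top_iff]
  intro f _
  rw [← hAS]
  let F : Module.End (Module.End A V) V :=
    { toFun := f
      map_add' := f.map_add
      map_smul' := by
        intro g v
        obtain ⟨c, hc⟩ := hend g
        simp only [RingHom.id_apply]
        rw [Module.End.smul_def, Module.End.smul_def, hc, hc, f.map_smul] }
  let b := Module.finBasis ℂ V
  obtain ⟨r, hr⟩ := jacobson_density (R := A) F (Finset.univ.image b)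
  have : (r : Module.End ℂ V) = f := by
    apply b.ext
    intro i
    have := hr (b i) (Finset.mem_image_of_mem _ (Finset.mem_univ _))
    exact this.symm
  rw [← this]
  exact r.2

end PDG
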