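import Pool.Agent.W_3f3beb_h76.GrB

/-! # Foelner sets -/

set_option autoImplicit false

open scoped Classical Pointwise

namespace PDG

variable {L : Type} [Group L]

/-- if balls grow by a factor at every second step then the growth is exponential -/
theorem FolA_aux1 (h : SubEx L) (F : Finset L) (δ : ℝ) (hδ : 0 < δ) (hδ1 : δ ≤ 1) :
    ∃ m : ℕ, (growth F (m + 2) : ℝ) ≤ (1 + δ) * (growth F m : ℝ) := by
  by_contra hcon
  push Not at hcon
  have hpow : ∀ k : ℕ, (1 + δ) ^ k ≤ (growth F (2 * k) : ℝ) := by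
    intro k
    induction k with
    | zero =>
      simp only [pow_zero, Nat.mul_zero]
      exact_mod_cast growth_pos F 0
    | succ k ih =>
      have h1 := hcon (2 * k)
      have h2 : 2 * (k + 1) = 2 * k + 2 := by ring
      rw [h2, pow_succ]
      have h3 : (1 + δ) ^ k * (1 + δ) ≤ (1 + δ) * (growth F (2 * k) : ℝ) := by
        rw [mul_comm]
        exact mul_le_mul_of_nonneg_left ih (by linarith)
      linarith
  have hc : 1 < 1 + δ / 4 := by linarith
  obtain ⟨C, hC⟩ := h.bound F (1 + δ / 4) hc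
  have hr : 1 < (1 + δ) / (1 + δ / 4) ^ 2 := by
    rw [one_lt_div (by positivity)]
    nlinarith
  obtain ⟨k, hk⟩ := pow_unbounded_of_one_lt C hr
  have h1 := hpow k
  have h2 := hC (2 * k)
  have h3 : (1 + δ) ^ k ≤ C * (1 + δ / 4) ^ (2 * k) := h1.trans h2
  rw [div_pow, ← pow_mul, lt_div_iff₀ (by positivity)] at hk
  linarith

/-- PROOF. Balls of the subgroup generated by `F`: let `1 ∈ F` without loss of generality, `B_r = ball F r` (finite). If `|B_{m+2}| > (1 + δ') |B_m|` for all `m ≥ 0` then `growth F (2 k) ≥ (1 + δ')^k`, against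
`SubEx`. So `|B_{m+2}| ≤ (1 + δ') |B_m|` for some `m`; take `B = B_{m+1}` (as a Finset): `{g | ∀ a ∈ F, g a ∈ B} ⊇ B_m`,
`|B_m| ≥ |B_{m+2}| / (1 + δ') ≥ (1 - δ) |B|`, `B F ⊆ B_{m+2}`, `|B F| ≤ (1 + δ') |B_m| ≤ (1 + δ) |B|`, `δ' = min δ 1`... (`1/(1+δ') ≥ 1 - δ`). -/
theorem folner (h : SubEx L) (F : Finset L) (hF : F.Nonempty) (δ : ℝ) (hδ : 0 < δ) :
    ∃ B : Finset L, B.Nonempty ∧
      (1 - δ) * (B.card : ℝ) ≤ ({g : L | ∀ a ∈ F, g * a ∈ B}.ncard : ℝ) ∧
      ((B * F).card : ℝ) ≤ (1 + δ) * (B.card : ℝ) := by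
  set e : ℝ := min δ 1 with he
  have he0 : 0 < e := lt_min hδ one_pos
  have he1 : e ≤ 1 := min_le_right _ _
  have heδ : e ≤ δ := min_le_left _ _
  obtain ⟨m, hm⟩ := FolA_aux1 h F e he0 he1
  have hone : ∀ a ∈ F, a ∈ ball F 1 := fun a ha => ⟨[a], by simp, by simp [ha], by simp⟩
  set B : Finset L := (ball_finite F (m + 1)).toFinset with hB
  have hBc : (B.card : ℝ) = (growth F (m + 1) : ℝ) := by
    rw [hB, growth, Set.ncard_eq_toFinset_card _ (ball_finite F (m + 1))]
  have hmem : ∀ g, g ∈ B ↔ g ∈ ball F (m + 1) := fun g => by rw [hB, Set.Finite.mem_toFinset]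
  have hmono1 : (growth F m : ℝ) ≤ (growth F (m + 1) : ℝ) := by
    exact_mod_cast Set.ncard_le_ncard (ball_mono F (Nat.le_succ m)) (ball_finite F (m + 1))
  have hmono2 : (growth F (m + 1) : ℝ) ≤ (growth F (m + 2) : ℝ) := by
    exact_mod_cast Set.ncard_le_ncard (ball_mono F (Nat.le_succ (m + 1))) (ball_finite F (m + 2))
  refine ⟨B, ⟨1, (hmem 1).2 ⟨[], by simp, by simp, by simp⟩⟩, ?_, ?_⟩
  · have hfin : {g : L | ∀ a ∈ F, g * a ∈ B}.Finite := by
      obtain ⟨a, ha⟩ := hF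
      refine Set.Finite.subset ((B.finite_toSet).preimage
        (f := fun g => g * a) (fun x _ y _ hxy => mul_right_cancel hxy)) ?_
      intro g hg
      exact hg a ha
    have hsub : ball F m ⊆ {g : L | ∀ a ∈ F, g * a ∈ B} := by
      intro g hg a ha
      exact (hmem _).2 (ball_mul F hg (hone a ha))
    have h1 : (growth F m : ℝ) ≤ ({g : L | ∀ a ∈ F, g * a ∈ B}.ncard : ℝ) := by
      exact_mod_cast Set.ncard_le_ncard hsub hfin
    rw [hBc]
    refine le_trans ?_ h1
    have hpos : (0 : ℝ) ≤ (growth F (m + 1) : ℝ) := Nat.cast_nonneg _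
    have hposm : (0 : ℝ) ≤ (growth F m : ℝ) := Nat.cast_nonneg _
    calc (1 - δ) * (growth F (m + 1) : ℝ) ≤ (1 - e) * (growth F (m + 1) : ℝ) :=
          mul_le_mul_of_nonneg_right (by linarith) hpos
      _ ≤ (1 - e) * ((1 + e) * (growth F m : ℝ)) :=
          mul_le_mul_of_nonneg_left (hmono2.trans hm) (by linarith)
      _ ≤ (growth F m : ℝ) := by nlinarith [mul_nonneg (mul_nonneg he0.le he0.le) hposm]
  · have hsub : ((B * F : Finset L) : Set L) ⊆ ball F (m + 2) := by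
      intro g hg
      obtain ⟨b, hb, a, ha, rfl⟩ := Finset.mem_mul.1 (Finset.mem_coe.1 hg)
      have h2 := ball_mul F ((hmem b).1 hb) (hone a ha)
      exact h2
    have h1 : ((B * F).card : ℝ) ≤ (growth F (m + 2) : ℝ) := by
      have := Set.ncard_le_ncard hsub (ball_finite F (m + 2))
      rw [Set.ncard_coe_finset] at this
      exact_mod_cast this
    rw [hBc]
    calc ((B * F).card : ℝ) ≤ (growth F (m + 2) : ℝ) := h1
      _ ≤ (1 + e) * (growth F m : ℝ) := hm
      _ ≤ (1 + δ) * (growth F (m + 1) : ℝ) :=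
          mul_le_mul (by linarith) hmono1 (Nat.cast_nonneg _) (by linarith)

end PDG
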