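import Pool.Agent.W_3f3beb_h76.RkB
import Pool.Agent.W_3f3beb_h76.FolA

/-! # Exact sequences and normalized dimensions; the Euler characteristic over `ℚ[G]` -/

set_option autoImplicit false

open scoped Classical Pointwise

namespace PDG

variable {G : Type} [Group G]

/-- normalized dimension -/
noncomputable def zeta {r : ℕ} (W : Submodule ℚ (Fin r → MonoidAlgebra ℚ G)) : ℝ :=
  sSup {x : ℝ | ∃ B : Finset G, B.Nonempty ∧ x = (zz W B : ℝ) / B.card}

theorem ChiA_le {r : ℕ} (W : Submodule ℚ (Fin r → MonoidAlgebra ℚ G)) (B : Finset G) :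
    (zz W B : ℝ) ≤ r * B.card := by
  haveI := Sp_finite (G := G) r B
  have h1 : zz W B ≤ r * B.card := by
    rw [← Sp_finrank (G := G) r B]
    exact Submodule.finrank_mono inf_le_right
  exact_mod_cast h1

/-- `0 ≤ zz W B ≤ r |B|` -/
theorem zeta_bdd {r : ℕ} (W : Submodule ℚ (Fin r → MonoidAlgebra ℚ G)) :
    BddAbove {x : ℝ | ∃ B : Finset G, B.Nonempty ∧ x = (zz W B : ℝ) / B.card} := by
  refine ⟨r, ?_⟩
  rintro x ⟨B, hB, rfl⟩
  have h1 : (0 : ℝ) < B.card := by exact_mod_cast hB.card_pos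
  rw [div_le_iff₀ h1]
  exact ChiA_le W B

theorem ChiA_le_zeta {r : ℕ} (W : Submodule ℚ (Fin r → MonoidAlgebra ℚ G)) (B : Finset G)
    (hB : B.Nonempty) : (zz W B : ℝ) ≤ zeta W * B.card := by
  have h1 : (0 : ℝ) < B.card := by exact_mod_cast hB.card_pos
  rw [← div_le_iff₀ h1]
  exact le_csSup (zeta_bdd W) ⟨B, hB, rfl⟩

theorem ChiA_nonneg {r : ℕ} (W : Submodule ℚ (Fin r → MonoidAlgebra ℚ G)) : 0 ≤ zeta W := by
  have h1 := ChiA_le_zeta W {1} (Finset.singleton_nonempty 1)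
  have h2 : (0 : ℝ) ≤ zz W {1} := Nat.cast_nonneg _
  simp only [Finset.card_singleton, Nat.cast_one, mul_one] at h1
  linarith

theorem ChiA_exists {r : ℕ} (W : Submodule ℚ (Fin r → MonoidAlgebra ℚ G)) (ε : ℝ) (hε : 0 < ε) :
    ∃ A : Finset G, A.Nonempty ∧ (zeta W - ε) * (A.card : ℝ) ≤ (zz W A : ℝ) := by
  have h0 : {x : ℝ | ∃ B : Finset G, B.Nonempty ∧ x = (zz W B : ℝ) / B.card}.Nonempty :=
    ⟨_, {1}, Finset.singleton_nonempty 1, rfl⟩
  obtain ⟨x, ⟨B, hB, rfl⟩, hx⟩ := exists_lt_of_lt_csSup h0 (show zeta W - ε < zeta W by linarith)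
  have h1 : (0 : ℝ) < B.card := by exact_mod_cast hB.card_pos
  exact ⟨B, hB, ((lt_div_iff₀ h1).1 hx).le⟩

/-- rank-nullity on `Sp s B` for a linear map with kernel `K` -/
theorem ChiA_rank {s : ℕ} {M : Type} [AddCommGroup M] [Module ℚ M]
    (f : (Fin s → MonoidAlgebra ℚ G) →ₗ[ℚ] M) (B : Finset G) :
    zz (LinearMap.ker f) B + Module.finrank ℚ ((Sp s B).map f : Submodule ℚ M) = s * B.card := by
  haveI := Sp_finite (G := G) s B
  have h1 := (f.domRestrict (Sp s B)).finrank_range_add_finrank_ker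
  rw [Sp_finrank, LinearMap.range_domRestrict, LinearMap.ker_domRestrict] at h1
  have h2 : Module.finrank ℚ (Submodule.comap (Sp s B).subtype (LinearMap.ker f)) =
      zz (LinearMap.ker f) B := by
    unfold zz
    rw [← Submodule.finrank_map_subtype_eq, Submodule.map_comap_subtype, inf_comm]
  rw [h2] at h1
  omega

theorem ChiA_fin (A B : Finset G) (hA : A.Nonempty) : {g : G | ∀ a ∈ A, g * a ∈ B}.Finite := by
  obtain ⟨a, ha⟩ := hA
  refine (B.image (fun b => b * a⁻¹)).finite_toSet.subset fun g hg => ?_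
  rw [Finset.mem_coe, Finset.mem_image]
  exact ⟨g * a, hg a ha, by group⟩

theorem ChiA_imT {t s r : ℕ}
    (d₁ : (Fin t → MonoidAlgebra ℚ G) →ₗ[MonoidAlgebra ℚ G] (Fin s → MonoidAlgebra ℚ G))
    (d₀ : (Fin s → MonoidAlgebra ℚ G) →ₗ[MonoidAlgebra ℚ G] (Fin r → MonoidAlgebra ℚ G))
    (hex : ∀ x, d₀ x = 0 ↔ ∃ y, d₁ y = x) :
    imT d₁ = LinearMap.ker (d₀.restrictScalars ℚ) := by
  ext x
  show x ∈ LinearMap.range (d₁.restrictScalars ℚ) ↔ _
  rw [LinearMap.mem_range, LinearMap.mem_ker]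
  exact (hex x).symm

/-- PROOF. `T = imT d₁` (`d₁ = d_{i+1}`), `W = imT d₀` (`d₀ = d_i`). `zz T B + dim (imSp d₀ B) = s |B|` (rank-nullity for `d₀` on `Sp s B`, kernel `T ⊓ Sp s B` by
exactness). (≤) `imSp d₀ B ≤ W ⊓ Sp r (B S)` (`exists_supp`), so `s |B| ≤ zeta T |B| + zeta W |B S|`, and `|B S| ≤ (1 + δ) |B|` for a suitable `B` (`folner`), `δ → 0`.
(≥) For `ε > 0` choose `A_T`, `A_W` with `zz T A_T ≥ (zeta T - ε) |A_T|` etc. and the sets `A0`, `A0'` of `lower` for `d₁` and `d₀`; `F = A0 ∪ A0'` in `folner`. Then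
`zz T B ≥ dim (imSp d₁ B ⊓ Sp s B) ≥ (zeta T - ε) |{g | ∀ a ∈ A0, g a ∈ B}|`, `dim (imSp d₀ B) ≥ (zeta W - ε) |{...}|`, both sets contain `{g | ∀ a ∈ F, g a ∈ B}` of size `≥ (1 - δ) |B|`
(if `zeta - ε < 0` the bound is trivial: `... ≥ (zeta - ε)(1 - δ)|B|` anyway). Let `ε, δ → 0`. -/
theorem zeta_add (h : SubEx G) {t s r : ℕ}
    (d₁ : (Fin t → MonoidAlgebra ℚ G) →ₗ[MonoidAlgebra ℚ G] (Fin s → MonoidAlgebra ℚ G))
    (d₀ : (Fin s → MonoidAlgebra ℚ G) →ₗ[MonoidAlgebra ℚ G] (Fin r → MonoidAlgebra ℚ G))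
    (hex : ∀ x, d₀ x = 0 ↔ ∃ y, d₁ y = x) :
    (s : ℝ) = zeta (imT d₁) + zeta (imT d₀) := by
  have hrank : ∀ B : Finset G, (zz (imT d₁) B : ℝ) +
      (Module.finrank ℚ (imSp d₀ B : Submodule ℚ (Fin r → MonoidAlgebra ℚ G)) : ℝ) =
      s * B.card := by
    intro B
    rw [ChiA_imT d₁ d₀ hex]
    exact_mod_cast ChiA_rank (d₀.restrictScalars ℚ) B
  have hfin : ∀ B : Finset G, Module.Finite ℚ (imSp d₀ B) := by
    intro B
    haveI := Sp_finite (G := G) s B
    exact Module.Finite.map (Sp s B) (d₀.restrictScalars ℚ)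
  apply le_antisymm
  · obtain ⟨S, -, hS⟩ := exists_supp d₀
    have key : ∀ δ : ℝ, 0 < δ → (s : ℝ) ≤ zeta (imT d₁) + zeta (imT d₀) * (1 + δ) := by
      intro δ hδ
      obtain ⟨B, hB, -, hB2⟩ := folner h (insert 1 S) (Finset.insert_nonempty 1 S) δ hδ
      have hBc : (0 : ℝ) < B.card := by exact_mod_cast hB.card_pos
      haveI := Sp_finite (G := G) r (B * insert 1 S)
      have h1 : Module.finrank ℚ (imSp d₀ B) ≤ zz (imT d₀) (B * insert 1 S) := by
        unfold zz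
        refine Submodule.finrank_mono (le_inf ?_ ?_)
        · rintro _ ⟨x, -, rfl⟩
          exact ⟨x, rfl⟩
        · exact (hS B).trans (Sp_mono r (Finset.mul_subset_mul_left (Finset.subset_insert 1 S)))
      have h2 := ChiA_le_zeta (imT d₀) (B * insert 1 S) (hB.mul (Finset.insert_nonempty 1 S))
      have h3 := ChiA_le_zeta (imT d₁) B hB
      have h4 : (Module.finrank ℚ (imSp d₀ B) : ℝ) ≤ zz (imT d₀) (B * insert 1 S) := by
        exact_mod_cast h1
      have h5 := mul_le_mul_of_nonneg_left hB2 (ChiA_nonneg (imT d₀))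
      have h6 := hrank B
      have h7 : (s : ℝ) * B.card ≤ (zeta (imT d₁) + zeta (imT d₀) * (1 + δ)) * B.card := by
        nlinarith
      exact le_of_mul_le_mul_right h7 hBc
    by_contra hcon
    push Not at hcon
    have hz := ChiA_nonneg (imT d₀)
    have h1 := key (((s : ℝ) - (zeta (imT d₁) + zeta (imT d₀))) / (2 * (zeta (imT d₀) + 1)))
      (by apply div_pos <;> linarith)
    have h2 : zeta (imT d₀) * (((s : ℝ) - (zeta (imT d₁) + zeta (imT d₀))) /
        (2 * (zeta (imT d₀) + 1))) ≤ ((s : ℝ) - (zeta (imT d₁) + zeta (imT d₀))) / 2 := by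
      rw [mul_div_assoc', div_le_div_iff₀ (by linarith) two_pos]
      nlinarith
    linarith
  · have key : ∀ ε : ℝ, 0 < ε → ∀ δ : ℝ, 0 < δ → δ < 1 →
        (zeta (imT d₁) + zeta (imT d₀) - 2 * ε) * (1 - δ) ≤ s := by
      intro ε hε δ hδ hδ1
      obtain ⟨AT, hAT, hT⟩ := ChiA_exists (imT d₁) ε hε
      obtain ⟨AW, hAW, hW⟩ := ChiA_exists (imT d₀) ε hε
      obtain ⟨A0, hA0, hA0'⟩ := lower d₁ _ AT hAT hT
      obtain ⟨A1, hA1, hA1'⟩ := lower d₀ _ AW hAW hW
      obtain ⟨B, hB, hB1, -⟩ := folner h (A0 ∪ A1) (hA0.mono Finset.subset_union_left) δ hδ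
      have hBc : (0 : ℝ) < B.card := by exact_mod_cast hB.card_pos
      have n0 : ({g : G | ∀ a ∈ A0 ∪ A1, g * a ∈ B}.ncard : ℝ) ≤
          ({g : G | ∀ a ∈ A0, g * a ∈ B}.ncard : ℝ) := by
        have hsub : {g : G | ∀ a ∈ A0 ∪ A1, g * a ∈ B} ⊆ {g : G | ∀ a ∈ A0, g * a ∈ B} :=
          fun g hg a ha => hg a (Finset.mem_union_left _ ha)
        exact_mod_cast Set.ncard_le_ncard hsub (ChiA_fin A0 B hA0)
      have n1 : ({g : G | ∀ a ∈ A0 ∪ A1, g * a ∈ B}.ncard : ℝ) ≤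
          ({g : G | ∀ a ∈ A1, g * a ∈ B}.ncard : ℝ) := by
        have hsub : {g : G | ∀ a ∈ A0 ∪ A1, g * a ∈ B} ⊆ {g : G | ∀ a ∈ A1, g * a ∈ B} :=
          fun g hg a ha => hg a (Finset.mem_union_right _ ha)
        exact_mod_cast Set.ncard_le_ncard hsub (ChiA_fin A1 B hA1)
      have gen : ∀ (c m z : ℝ), (1 - δ) * (B.card : ℝ) ≤ m → c * m ≤ z → 0 ≤ z →
          c * ((1 - δ) * B.card) ≤ z := by
        intro c m z h1 h2 h3
        rcases le_or_gt 0 c with hc | hc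
        · exact (mul_le_mul_of_nonneg_left h1 hc).trans h2
        · have h4 : 0 ≤ (1 - δ) * (B.card : ℝ) := mul_nonneg (by linarith) hBc.le
          exact (mul_nonpos_of_nonpos_of_nonneg hc.le h4).trans h3
      haveI := Sp_finite (G := G) s B
      haveI := hfin B
      have z0 : (Module.finrank ℚ (imSp d₁ B ⊓ Sp s B :
          Submodule ℚ (Fin s → MonoidAlgebra ℚ G)) : ℝ) ≤ zz (imT d₁) B := by
        have h1 : Module.finrank ℚ (imSp d₁ B ⊓ Sp s B :
          Submodule ℚ (Fin s → MonoidAlgebra ℚ G)) ≤ zz (imT d₁) B := by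
          unfold zz
          refine Submodule.finrank_mono (inf_le_inf_right _ ?_)
          rintro _ ⟨x, -, rfl⟩
          exact ⟨x, rfl⟩
        exact_mod_cast h1
      have z1 : (Module.finrank ℚ (imSp d₀ B ⊓ Sp r B :
          Submodule ℚ (Fin r → MonoidAlgebra ℚ G)) : ℝ) ≤ Module.finrank ℚ (imSp d₀ B) := by
        have h1 : Module.finrank ℚ (imSp d₀ B ⊓ Sp r B :
          Submodule ℚ (Fin r → MonoidAlgebra ℚ G)) ≤ Module.finrank ℚ (imSp d₀ B) :=
          Submodule.finrank_mono inf_le_left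
        exact_mod_cast h1
      have g0 := gen (zeta (imT d₁) - ε) _ _ (hB1.trans n0) ((hA0' B).trans z0)
        (Nat.cast_nonneg _)
      have g1 := gen (zeta (imT d₀) - ε) _ _ (hB1.trans n1) ((hA1' B).trans z1)
        (Nat.cast_nonneg _)
      have h6 := hrank B
      have h7 : ((zeta (imT d₁) + zeta (imT d₀) - 2 * ε) * (1 - δ)) * B.card ≤ s * B.card := by
        rw [← h6]
        calc ((zeta (imT d₁) + zeta (imT d₀) - 2 * ε) * (1 - δ)) * B.card
            = (zeta (imT d₁) - ε) * ((1 - δ) * B.card)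
              + (zeta (imT d₀) - ε) * ((1 - δ) * B.card) := by ring
          _ ≤ _ := add_le_add g0 g1
      exact le_of_mul_le_mul_right h7 hBc
    by_contra hcon
    push Not at hcon
    set x := zeta (imT d₁) + zeta (imT d₀) with hx
    have hs : (0 : ℝ) ≤ s := Nat.cast_nonneg s
    have hxs : 0 < x + s := by linarith
    have hlt : (x - s) / (2 * (x + s)) < 1 := by
      rw [div_lt_one (by linarith)]
      linarith
    have h1 := key ((x - s) / 4) (by linarith) ((x - s) / (2 * (x + s)))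
      (div_pos (by linarith) (by linarith)) hlt
    have h2 : (x - 2 * ((x - s) / 4)) * (1 - (x - s) / (2 * (x + s))) = (x + 3 * s) / 4 := by
      field_simp
      ring
    rw [h2] at h1
    linarith

/-- PROOF. `imT d₀` is the kernel of the linear form `ε`, so `zz (imT d₀) B ≥ r |B| - 1`, and `≤ r |B|`; the group is infinite, so there are `B` with `|B|` arbitrarily large. -/
theorem zeta_zero (hG : Infinite G) {s r : ℕ}
    (d₀ : (Fin s → MonoidAlgebra ℚ G) →ₗ[MonoidAlgebra ℚ G] (Fin r → MonoidAlgebra ℚ G))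
    (ε : (Fin r → MonoidAlgebra ℚ G) →ₗ[ℚ] ℚ) (hex : ∀ x, ε x = 0 ↔ ∃ y, d₀ y = x) :
    zeta (imT d₀) = r := by
  have hk : imT d₀ = LinearMap.ker ε := by
    ext x
    show x ∈ LinearMap.range (d₀.restrictScalars ℚ) ↔ _
    rw [LinearMap.mem_range, LinearMap.mem_ker]
    exact (hex x).symm
  have h0 : {x : ℝ | ∃ B : Finset G, B.Nonempty ∧ x = (zz (imT d₀) B : ℝ) / B.card}.Nonempty :=
    ⟨_, {1}, Finset.singleton_nonempty 1, rfl⟩
  apply le_antisymm
  · refine csSup_le h0 ?_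
    rintro x ⟨B, hB, rfl⟩
    have h1 : (0 : ℝ) < B.card := by exact_mod_cast hB.card_pos
    rw [div_le_iff₀ h1]
    exact ChiA_le _ B
  · have key : ∀ B : Finset G, (r : ℝ) * B.card ≤ zz (imT d₀) B + 1 := by
      intro B
      have h1 := ChiA_rank ε B
      rw [← hk] at h1
      have h2 : Module.finrank ℚ ((Sp r B).map ε : Submodule ℚ ℚ) ≤ 1 := by
        have h3 := Submodule.finrank_le ((Sp r B).map ε)
        rwa [Module.finrank_self] at h3
      have h4 : r * B.card ≤ zz (imT d₀) B + 1 := by omega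
      exact_mod_cast h4
    by_contra hcon
    push Not at hcon
    obtain ⟨n, hn⟩ := exists_nat_gt (1 / ((r : ℝ) - zeta (imT d₀)))
    have hpos : 0 < (r : ℝ) - zeta (imT d₀) := by linarith
    have hn0 : (0 : ℝ) < n := lt_trans (by positivity) hn
    obtain ⟨B, hBn⟩ := Infinite.exists_subset_card_eq G n
    have hB : B.Nonempty := by
      rw [← Finset.card_pos, hBn]
      exact_mod_cast hn0
    have h1 := ChiA_le_zeta (imT d₀) B hB
    have h2 := key B
    rw [hBn] at h1 h2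
    rw [div_lt_iff₀ hpos] at hn
    nlinarith

/-- the zero module -/
theorem zeta_bot {s r : ℕ} (d : (Fin s → MonoidAlgebra ℚ G) →ₗ[MonoidAlgebra ℚ G]
    (Fin r → MonoidAlgebra ℚ G)) (hd : ∀ x, d x = 0) : zeta (imT d) = 0 := by
  have hk : imT d = ⊥ := by
    rw [eq_bot_iff]
    rintro _ ⟨x, rfl⟩
    rw [Submodule.mem_bot]
    exact hd x
  have hz : ∀ B : Finset G, zz (imT d) B = 0 := by
    intro B
    unfold zz
    rw [hk, bot_inf_eq, finrank_bot]
  have hs : {x : ℝ | ∃ B : Finset G, B.Nonempty ∧ x = (zz (imT d) B : ℝ) / B.card} = {0} := by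
    ext x
    constructor
    · rintro ⟨B, -, rfl⟩
      rw [hz B]
      simp
    · intro hx
      rw [Set.mem_singleton_iff] at hx
      refine ⟨{1}, Finset.singleton_nonempty 1, ?_⟩
      rw [hz, hx]
      simp
  unfold zeta
  rw [hs, csSup_singleton]

/-- PROOF. `zeta_zero`: `ζ_0 = r_0`; `zeta_add`: `r_{i+1} = ζ_{i+1} + ζ_i`; `ζ_n = 0` since `C_{n+1} = 0` (`zeta_bot`, `r (n+1) = 0`). Alternating sum. -/
theorem chiQ (h : SubEx G) (hG : Infinite G) (n : ℕ) (r : ℕ → ℕ)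
    (d : ∀ i : ℕ, (Fin (r (i + 1)) → MonoidAlgebra ℚ G) →ₗ[MonoidAlgebra ℚ G]
      (Fin (r i) → MonoidAlgebra ℚ G))
    (ε : (Fin (r 0) → MonoidAlgebra ℚ G) →ₗ[ℚ] ℚ) (h0 : ∀ x, ε x = 0 ↔ ∃ y, d 0 y = x)
    (hex : ∀ i x, d i x = 0 ↔ ∃ y, d (i + 1) y = x) (hn : ∀ i, n < i → r i = 0) :
    ∑ i ∈ Finset.range (n + 1), (-1 : ℤ) ^ i * (r i : ℤ) = 0 := by
  have key : ∀ m : ℕ, ∑ i ∈ Finset.range (m + 1), (-1 : ℝ) ^ i * (r i : ℝ) =
      (-1 : ℝ) ^ m * zeta (imT (d m)) := by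
    intro m
    induction m with
    | zero =>
      rw [zeta_zero hG (d 0) ε h0]
      simp
    | succ m ih =>
      rw [Finset.sum_range_succ, ih, zeta_add h (d (m + 1)) (d m) (hex m)]
      ring
  have hz : zeta (imT (d n)) = 0 := by
    refine zeta_bot (d n) fun x => ?_
    have h1 : x = 0 := by
      funext i
      have h2 := hn (n + 1) (Nat.lt_succ_self n)
      exact absurd i.2 (by omega)
    rw [h1, map_zero]
  have h3 := key n
  rw [hz, mul_zero] at h3
  exact_mod_cast h3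

end PDG
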