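import Pool.Agent.W_3f3beb_h76.ChiA

/-! # The Euler characteristic of a finite free resolution over `ℤ[G]` -/

set_option autoImplicit false

open scoped Classical

namespace PDG

variable {G : Type} [Group G]

/-- the map from `ℤ[G]` to `ℚ[G]` -/
noncomputable def ChiB_phi (G : Type) [Group G] : MonoidAlgebra ℤ G →+* MonoidAlgebra ℚ G :=
  MonoidAlgebra.mapRingHom G (Int.castRingHom ℚ)

theorem ChiB_phi_single (g : G) (n : ℤ) :
    ChiB_phi G (MonoidAlgebra.single g n) = MonoidAlgebra.single g (n : ℚ) := by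
  unfold ChiB_phi
  rw [MonoidAlgebra.coe_mapRingHom, MonoidAlgebra.map_single]
  rfl

theorem ChiB_phi_inj : Function.Injective (ChiB_phi G) := by
  unfold ChiB_phi
  rw [MonoidAlgebra.coe_mapRingHom]
  exact MonoidAlgebra.map_injective _ (fun a b h => Int.cast_injective (α := ℚ) h)

theorem ChiB_phi_smul (n : ℤ) (a : MonoidAlgebra ℤ G) :
    ChiB_phi G (n • a) = (n : ℚ) • ChiB_phi G a := by
  rw [map_zsmul, Int.cast_smul_eq_zsmul]

/-- every element of `ℚ[G]` has a multiple in `ℤ[G]` -/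
theorem ChiB_denom1 (x : MonoidAlgebra ℚ G) :
    ∃ N : ℤ, N ≠ 0 ∧ ∃ x' : MonoidAlgebra ℤ G, (N : ℚ) • x = ChiB_phi G x' := by
  induction x using MonoidAlgebra.induction_linear with
  | zero => exact ⟨1, one_ne_zero, 0, by rw [smul_zero, map_zero]⟩
  | add x y hx hy =>
    obtain ⟨N, hN, x', hx'⟩ := hx
    obtain ⟨M, hM, y', hy'⟩ := hy
    refine ⟨N * M, mul_ne_zero hN hM, M • x' + N • y', ?_⟩
    rw [map_add, ChiB_phi_smul, ChiB_phi_smul, ← hx', ← hy', smul_add, smul_smul, smul_smul]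
    push_cast
    rw [mul_comm (M : ℚ) N]
  | single g q =>
    refine ⟨(q.den : ℤ), by exact_mod_cast q.den_ne_zero, MonoidAlgebra.single g q.num, ?_⟩
    rw [ChiB_phi_single, MonoidAlgebra.smul_single, smul_eq_mul]
    congr 1
    have := Rat.mul_den_eq_num q
    push_cast
    rw [mul_comm]
    exact this

/-- the map from `ℤ[G]^r` to `ℚ[G]^r` -/
noncomputable def ChiB_io {r : ℕ} (x : Fin r → MonoidAlgebra ℤ G) : Fin r → MonoidAlgebra ℚ G :=
  fun k => ChiB_phi G (x k)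

theorem ChiB_denom {r : ℕ} (x : Fin r → MonoidAlgebra ℚ G) :
    ∃ N : ℚ, N ≠ 0 ∧ ∃ x' : Fin r → MonoidAlgebra ℤ G, N • x = ChiB_io x' := by
  choose N hN x' hx' using fun k => ChiB_denom1 (x k)
  choose M hM using fun k => Finset.dvd_prod_of_mem N (Finset.mem_univ k)
  refine ⟨((∏ k, N k : ℤ) : ℚ), ?_, fun k => M k • x' k, ?_⟩
  · exact_mod_cast Finset.prod_ne_zero_iff.2 fun k _ => hN k
  · funext k
    rw [Pi.smul_apply]
    unfold ChiB_io
    rw [ChiB_phi_smul, ← hx' k, smul_smul, hM k]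
    push_cast
    rw [mul_comm]

theorem ChiB_io_inj {r : ℕ} {x y : Fin r → MonoidAlgebra ℤ G} (h : ChiB_io x = ChiB_io y) :
    x = y := by
  funext k
  exact ChiB_phi_inj (congrFun h k)

theorem ChiB_io_zero {r : ℕ} : ChiB_io (0 : Fin r → MonoidAlgebra ℤ G) = 0 := by
  funext k
  exact map_zero (ChiB_phi G)

/-- the matrix of a linear map -/
noncomputable def ChiB_mat {r s : ℕ} (d : (Fin s → MonoidAlgebra ℤ G) →ₗ[MonoidAlgebra ℤ G]
    (Fin r → MonoidAlgebra ℤ G)) : Matrix (Fin s) (Fin r) (MonoidAlgebra ℤ G) :=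
  fun k j => d (Pi.single k 1) j

theorem ChiB_mat_apply {r s : ℕ} (d : (Fin s → MonoidAlgebra ℤ G) →ₗ[MonoidAlgebra ℤ G]
    (Fin r → MonoidAlgebra ℤ G)) (x : Fin s → MonoidAlgebra ℤ G) :
    d x = Matrix.vecMul x (ChiB_mat d) := by
  have h : x = ∑ k, x k • (Pi.single k (1 : MonoidAlgebra ℤ G) : Fin s → MonoidAlgebra ℤ G) := by
    funext j
    rw [Finset.sum_apply, Finset.sum_eq_single j]
    · rw [Pi.smul_apply, Pi.single_eq_same, smul_eq_mul, mul_one]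
    · intro b _ hb
      rw [Pi.smul_apply, Pi.single_eq_of_ne hb.symm, smul_zero]
    · intro hj
      exact absurd (Finset.mem_univ j) hj
  conv_lhs => rw [h]
  rw [map_sum]
  funext j
  rw [Finset.sum_apply]
  unfold Matrix.vecMul dotProduct
  refine Finset.sum_congr rfl fun k _ => ?_
  rw [map_smul, Pi.smul_apply, smul_eq_mul]
  rfl

/-- the extension of scalars -/
noncomputable def ChiB_dQ {r s : ℕ} (d : (Fin s → MonoidAlgebra ℤ G) →ₗ[MonoidAlgebra ℤ G]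
    (Fin r → MonoidAlgebra ℤ G)) : (Fin s → MonoidAlgebra ℚ G) →ₗ[MonoidAlgebra ℚ G]
    (Fin r → MonoidAlgebra ℚ G) := Matrix.vecMulLinear ((ChiB_mat d).map (ChiB_phi G))

theorem ChiB_dQ_io {r s : ℕ} (d : (Fin s → MonoidAlgebra ℤ G) →ₗ[MonoidAlgebra ℤ G]
    (Fin r → MonoidAlgebra ℤ G)) (x : Fin s → MonoidAlgebra ℤ G) :
    ChiB_dQ d (ChiB_io x) = ChiB_io (d x) := by
  funext j
  unfold ChiB_dQ
  rw [Matrix.vecMulLinear_apply, ChiB_mat_apply d x]
  unfold ChiB_io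
  rw [RingHom.map_vecMul]
  rfl

theorem ChiB_dQ_smul {r s : ℕ} (d : (Fin s → MonoidAlgebra ℤ G) →ₗ[MonoidAlgebra ℤ G]
    (Fin r → MonoidAlgebra ℤ G)) (q : ℚ) (x : Fin s → MonoidAlgebra ℚ G) :
    ChiB_dQ d (q • x) = q • ChiB_dQ d x := LinearMap.map_smul_of_tower _ q x

/-- the augmentation of `ℚ[G]` -/
noncomputable def ChiB_aug (G : Type) [Group G] : MonoidAlgebra ℚ G →ₗ[ℚ] ℚ :=
  (MonoidAlgebra.lift ℚ ℚ G 1).toLinearMap

theorem ChiB_aug_single (g : G) (q : ℚ) : ChiB_aug G (MonoidAlgebra.single g q) = q := by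
  unfold ChiB_aug
  rw [AlgHom.toLinearMap_apply, MonoidAlgebra.lift_single, MonoidHom.one_apply, smul_eq_mul,
    mul_one]

theorem ChiB_eps1 {n : ℕ} (C : FinRes G n) (j : Fin (C.r 0)) (a : MonoidAlgebra ℤ G) :
    (C.ε (Pi.single j a) : ℚ) = ChiB_aug G (ChiB_phi G a) * (C.ε (Pi.single j 1) : ℚ) := by
  induction a using MonoidAlgebra.induction_linear with
  | zero => rw [Pi.single_zero, map_zero, map_zero, map_zero, zero_mul, Int.cast_zero]
  | add a b ha hb =>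
    rw [Pi.single_add, map_add, map_add, map_add, add_mul, ← ha, ← hb]
    push_cast
    rfl
  | single g m =>
    rw [ChiB_phi_single, ChiB_aug_single]
    have h1 : (Pi.single j (MonoidAlgebra.single g m) : Fin (C.r 0) → MonoidAlgebra ℤ G) =
        m • (MonoidAlgebra.of ℤ G g • (Pi.single j 1 : Fin (C.r 0) → MonoidAlgebra ℤ G)) := by
      funext k
      by_cases hk : k = j
      · subst hk
        rw [Pi.single_eq_same, Pi.smul_apply, Pi.smul_apply, Pi.single_eq_same, smul_eq_mul,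
          mul_one, MonoidAlgebra.of_apply, MonoidAlgebra.smul_single, smul_eq_mul, mul_one]
      · rw [Pi.single_eq_of_ne hk, Pi.smul_apply, Pi.smul_apply, Pi.single_eq_of_ne hk,
          smul_zero, smul_zero]
    rw [h1, map_zsmul, C.ε_trivial, smul_eq_mul]
    push_cast
    rfl

/-- the extension of `ε` -/
noncomputable def ChiB_eps {n : ℕ} (C : FinRes G n) :
    (Fin (C.r 0) → MonoidAlgebra ℚ G) →ₗ[ℚ] ℚ :=
  ∑ j, (C.ε (Pi.single j 1) : ℚ) • (ChiB_aug G).comp (LinearMap.proj j)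

theorem ChiB_eps_io {n : ℕ} (C : FinRes G n) (x : Fin (C.r 0) → MonoidAlgebra ℤ G) :
    ChiB_eps C (ChiB_io x) = (C.ε x : ℚ) := by
  have h : x = ∑ k, (Pi.single k (x k) : Fin (C.r 0) → MonoidAlgebra ℤ G) :=
    (Finset.univ_sum_single x).symm
  conv_rhs => rw [h]
  rw [map_sum]
  unfold ChiB_eps
  rw [LinearMap.sum_apply]
  push_cast
  refine Finset.sum_congr rfl fun j _ => ?_
  rw [ChiB_eps1 C j (x j), LinearMap.smul_apply, LinearMap.comp_apply, LinearMap.proj_apply,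
    smul_eq_mul, mul_comm]
  rfl

/-- PROOF. Extension of scalars from `ℤ` to `ℚ`: let `D_i` be the matrix of `C.d i` (`C.d i x = x D_i`, rows `C.d i (e_l)`), `D_i^ℚ` its image in `ℚ[G]` (`MonoidAlgebra.mapRingHom`), `d i x = x D_i^ℚ`
(`Matrix.vecMul`, linear over `ℚ[G]`), `ε^ℚ x = ∑_j aug (x j) C.ε (e_j)`. Every vector `x` over `ℚ[G]` has a multiple `N x` (`N ≥ 1` an integer) coming from `ℤ[G]`; the map from `ℤ[G]` to `ℚ[G]` is injective.
If `d i x = 0` then `N x` comes from `x'` with `C.d i x' = 0`, `x' = C.d (i+1) y'`, `x = d (i+1) (y'/N)`. The same for `ε`. The converse: `d i (d (i+1) y) = 0` since it holds for `N y`. -/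
theorem exists_rational {n : ℕ} (C : FinRes G n) :
    ∃ (d : ∀ i : ℕ, (Fin (C.r (i + 1)) → MonoidAlgebra ℚ G) →ₗ[MonoidAlgebra ℚ G]
      (Fin (C.r i) → MonoidAlgebra ℚ G)) (ε : (Fin (C.r 0) → MonoidAlgebra ℚ G) →ₗ[ℚ] ℚ),
      (∀ x, ε x = 0 ↔ ∃ y, d 0 y = x) ∧ (∀ i x, d i x = 0 ↔ ∃ y, d (i + 1) y = x) := by
  refine ⟨fun i => ChiB_dQ (C.d i), ChiB_eps C, fun x => ⟨fun hx => ?_, ?_⟩,
    fun i x => ⟨fun hx => ?_, ?_⟩⟩
  · obtain ⟨N, hN, x', hx'⟩ := ChiB_denom x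
    have h1 : (C.ε x' : ℚ) = 0 := by
      rw [← ChiB_eps_io, ← hx', map_smul, hx, smul_zero]
    have h2 : C.ε x' = 0 := by exact_mod_cast h1
    obtain ⟨y', hy'⟩ := (C.exact_zero x').1 h2
    refine ⟨N⁻¹ • ChiB_io y', ?_⟩
    rw [ChiB_dQ_smul, ChiB_dQ_io, hy', ← hx', smul_smul, inv_mul_cancel₀ hN, one_smul]
  · rintro ⟨y, rfl⟩
    obtain ⟨N, hN, y', hy'⟩ := ChiB_denom y
    have h1 : N * ChiB_eps C (ChiB_dQ (C.d 0) y) = 0 := by
      rw [← smul_eq_mul, ← map_smul, ← ChiB_dQ_smul, hy', ChiB_dQ_io, ChiB_eps_io,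
        (C.exact_zero _).2 ⟨y', rfl⟩, Int.cast_zero]
    exact (mul_eq_zero.1 h1).resolve_left hN
  · obtain ⟨N, hN, x', hx'⟩ := ChiB_denom x
    have h1 : ChiB_io (C.d i x') = ChiB_io 0 := by
      rw [← ChiB_dQ_io, ← hx', ChiB_dQ_smul, hx, smul_zero, ChiB_io_zero]
    obtain ⟨y', hy'⟩ := (C.exact_succ i x').1 (ChiB_io_inj h1)
    refine ⟨N⁻¹ • ChiB_io y', ?_⟩
    rw [ChiB_dQ_smul, ChiB_dQ_io, hy', ← hx', smul_smul, inv_mul_cancel₀ hN, one_smul]
  · rintro ⟨y, rfl⟩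
    obtain ⟨N, hN, y', hy'⟩ := ChiB_denom y
    have h1 : N • ChiB_dQ (C.d i) (ChiB_dQ (C.d (i + 1)) y) = 0 := by
      rw [← ChiB_dQ_smul, ← ChiB_dQ_smul, hy', ChiB_dQ_io, ChiB_dQ_io,
        (C.exact_succ i _).2 ⟨y', rfl⟩, ChiB_io_zero]
    exact (smul_eq_zero.1 h1).resolve_left hN

theorem chi_zero {n : ℕ} (C : FinRes G n) (h : SubEx G) (hG : Infinite G) :
    ∑ i ∈ Finset.range (n + 1), (-1 : ℤ) ^ i * (C.r i : ℤ) = 0 := by
  obtain ⟨d, ε, h0, hex⟩ := exists_rational C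
  exact chiQ h hG n C.r d ε h0 hex C.length

end PDG
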