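import Pool.Agent.W_3f3beb_h76.SymB

/-! # Cohomology in degrees 0 and 1 from a partial resolution -/

set_option autoImplicit false

open scoped Classical

namespace PDG

variable (p : ℕ) [Fact p.Prime] (H : Type) [Group H]
variable {ι₀ ι₁ ι₂ : Type} [Fintype ι₀] [Fintype ι₁] [Fintype ι₂]
variable (D0 : Matrix ι₁ ι₀ (MonoidAlgebra ℤ H)) (D1 : Matrix ι₂ ι₁ (MonoidAlgebra ℤ H))
variable (e : ι₀ → ℤ)

/-- the homomorphism from row vectors to functions given by the values `u j` on the basis vectors -/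
noncomputable def hm {ι : Type} [Fintype ι] (u : ι → H → ZMod p) (x : ι → MonoidAlgebra ℤ H) :
    H → ZMod p := ∑ j, act p H (x j) (u j)

theorem hm_add {ι : Type} [Fintype ι] (u : ι → H → ZMod p) (x y : ι → MonoidAlgebra ℤ H) :
    hm p H u (x + y) = hm p H u x + hm p H u y := by
  unfold hm
  rw [← Finset.sum_add_distrib]
  refine Finset.sum_congr rfl fun j _ => ?_
  rw [Pi.add_apply, map_add, LinearMap.add_apply]

theorem hm_smul {ι : Type} [Fintype ι] (u : ι → H → ZMod p) (a : MonoidAlgebra ℤ H)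
    (x : ι → MonoidAlgebra ℤ H) : hm p H u (a • x) = act p H a (hm p H u x) := by
  unfold hm
  rw [map_sum]
  refine Finset.sum_congr rfl fun j _ => ?_
  rw [Pi.smul_apply, smul_eq_mul, map_mul, Module.End.mul_apply]

theorem CohA_del_apply {ι κ : Type} [Fintype ι] (D : Matrix κ ι (MonoidAlgebra ℤ H))
    (u : ι → H → ZMod p) (k : κ) : del p H D u k = ∑ j, act p H (D k j) (u j) := by
  simp [del, LinearMap.sum_apply]

/-- `hm u (x D) = hm (D u) x` -/
theorem hm_vecMul {ι κ : Type} [Fintype ι] [Fintype κ] (D : Matrix κ ι (MonoidAlgebra ℤ H))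
    (u : ι → H → ZMod p) (x : κ → MonoidAlgebra ℤ H) :
    hm p H u (Matrix.vecMul x D) = hm p H (del p H D u) x := by
  unfold hm
  have h1 : ∀ j, act p H (Matrix.vecMul x D j) (u j) =
      ∑ k, act p H (x k) (act p H (D k j) (u j)) := by
    intro j
    have : Matrix.vecMul x D j = ∑ k, x k * D k j := rfl
    rw [this, map_sum, LinearMap.sum_apply]
    refine Finset.sum_congr rfl fun k _ => ?_
    rw [map_mul, Module.End.mul_apply]
  rw [Finset.sum_congr rfl fun j _ => h1 j, Finset.sum_comm]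
  refine Finset.sum_congr rfl fun k _ => ?_
  rw [CohA_del_apply, map_sum]

theorem CohA_aug_single (g : H) (c : ℤ) : aug H (MonoidAlgebra.single g c) = c := by
  simp [aug, MonoidAlgebra.lift_single]

theorem CohA_aug_of (g : H) : aug H (MonoidAlgebra.of ℤ H g) = 1 := by
  rw [MonoidAlgebra.of_apply, CohA_aug_single]

theorem CohA_eps_add {ι : Type} [Fintype ι] (e : ι → ℤ) (x y : ι → MonoidAlgebra ℤ H) :
    eps e (x + y) = eps e x + eps e y := by
  unfold eps
  rw [← Finset.sum_add_distrib]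
  refine Finset.sum_congr rfl fun j _ => ?_
  rw [Pi.add_apply, map_add]
  ring

theorem CohA_eps_smul {ι : Type} [Fintype ι] (e : ι → ℤ) (a : MonoidAlgebra ℤ H)
    (x : ι → MonoidAlgebra ℤ H) : eps e (a • x) = aug H a * eps e x := by
  unfold eps
  rw [Finset.mul_sum]
  refine Finset.sum_congr rfl fun j _ => ?_
  rw [Pi.smul_apply, smul_eq_mul, map_mul]
  ring

theorem CohA_hm_sub {ι : Type} [Fintype ι] (u : ι → H → ZMod p) (x y : ι → MonoidAlgebra ℤ H) :
    hm p H u (x - y) = hm p H u x - hm p H u y := by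
  have h := hm_add p H u (x - y) y
  rw [sub_add_cancel] at h
  rw [h]
  abel

theorem CohA_eps_sub {ι : Type} [Fintype ι] (e : ι → ℤ) (x y : ι → MonoidAlgebra ℤ H) :
    eps e (x - y) = eps e x - eps e y := by
  have h := CohA_eps_add H e (x - y) y
  rw [sub_add_cancel] at h
  linarith

theorem CohA_act_const (a : MonoidAlgebra ℤ H) (c : ZMod p) :
    act p H a (fun _ => c) = fun _ => ((aug H a : ℤ) : ZMod p) * c := by
  have h1 : (fun _ => c : H → ZMod p) ∈ Nn p H (0 + 1) := (mem_Nn_one p H _).2 ⟨c, rfl⟩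
  have h := act_sub_mem p H 0 a _ h1
  have h2 : act p H a (fun _ => c) - ((aug H a : ℤ) : ZMod p) • (fun _ => c : H → ZMod p) = 0 := by
    simpa [Nn] using h
  rw [sub_eq_zero.1 h2]
  rfl

theorem CohA_const_mem (m : ℕ) (c : ZMod p) : (fun _ => c : H → ZMod p) ∈ Nn p H (m + 1) := by
  induction m with
  | zero => exact (mem_Nn_one p H _).2 ⟨c, rfl⟩
  | succ m ih => exact Nn_mono p H (m + 1) ih

/-- if `hm u` is zero on the kernel of `eps e`, it is `eps e x • f` with a constant `f` -/
theorem CohA_factor (e : ι₀ → ℤ) (x₀ : ι₀ → MonoidAlgebra ℤ H) (hx₀ : eps e x₀ = 1)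
    (u : ι₀ → H → ZMod p) (hu : ∀ x, eps e x = 0 → hm p H u x = 0) :
    ∃ c : ZMod p, ∀ x, hm p H u x = fun _ => ((eps e x : ℤ) : ZMod p) * c := by
  have hg : ∀ g : H, tr p H g (hm p H u x₀) = hm p H u x₀ := by
    intro g
    have h1 : eps e (MonoidAlgebra.single g (1 : ℤ) • x₀ - x₀) = 0 := by
      rw [CohA_eps_sub, CohA_eps_smul, CohA_aug_single, hx₀]
      ring
    have h2 := hu _ h1
    rw [CohA_hm_sub, hm_smul, act_single] at h2
    rw [Int.cast_one, one_smul] at h2
    exact sub_eq_zero.1 h2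
  refine ⟨hm p H u x₀ 1, fun x => ?_⟩
  have hc : hm p H u x₀ = fun _ => hm p H u x₀ 1 := by
    funext g
    have := congrFun (hg g) 1
    simpa [tr] using this
  have h1 : eps e (x - MonoidAlgebra.single (1 : H) (eps e x) • x₀) = 0 := by
    rw [CohA_eps_sub, CohA_eps_smul, CohA_aug_single, hx₀]
    ring
  have h2 := hu _ h1
  rw [CohA_hm_sub, hm_smul, act_single, tr_one] at h2
  rw [sub_eq_zero.1 h2, LinearMap.id_apply]
  conv_lhs => rw [hc]
  rfl

theorem CohA_hm_single {ι : Type} [Fintype ι] (u : ι → H → ZMod p) (j : ι) :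
    hm p H u (Pi.single j 1) = u j := by
  unfold hm
  rw [Finset.sum_eq_single j]
  · rw [Pi.single_eq_same, map_one, Module.End.one_apply]
  · intro k _ hk
    rw [Pi.single_eq_of_ne hk, map_zero, LinearMap.zero_apply]
  · intro h
    exact absurd (Finset.mem_univ j) h

theorem CohA_eps_single {ι : Type} [Fintype ι] (e : ι → ℤ) (j : ι) :
    eps e (Pi.single j (1 : MonoidAlgebra ℤ H)) = e j := by
  unfold eps
  rw [Finset.sum_eq_single j]
  · rw [Pi.single_eq_same, map_one, one_mul]
  · intro k _ hk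
    rw [Pi.single_eq_of_ne hk, map_zero, zero_mul]
  · intro h
    exact absurd (Finset.mem_univ j) h

theorem CohA_hm_zero {ι : Type} [Fintype ι] (x : ι → MonoidAlgebra ℤ H) :
    hm p H (0 : ι → H → ZMod p) x = 0 := by
  unfold hm
  refine Finset.sum_eq_zero fun j _ => ?_
  rw [Pi.zero_apply, map_zero]

theorem CohA_hm_const (x : ι₀ → MonoidAlgebra ℤ H) :
    hm p H (fun j _ => ((e j : ℤ) : ZMod p)) x = fun _ => ((eps e x : ℤ) : ZMod p) := by
  unfold hm
  have h1 : ∀ j, act p H (x j) (fun _ => ((e j : ℤ) : ZMod p)) =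
      fun _ => ((aug H (x j) * e j : ℤ) : ZMod p) := by
    intro j
    rw [CohA_act_const]
    funext _
    push_cast
    rfl
  rw [Finset.sum_congr rfl fun j _ => h1 j]
  funext g
  rw [Finset.sum_apply]
  unfold eps
  push_cast
  rfl

/-- PROOF. `u ∈ Xm m`, `del D0 u = 0`: `hm u` is zero on `{x D0} = ker (eps e)`, so `hm u x = eps e x • f` with `f = hm u x₀`, `eps e x₀ = 1`; `g x₀ - x₀ ∈ ker (eps e)` gives `tr g f = f`: `f` is constant. So `u j = e j • f`;
the constant vector `(e j)` is not zero in `F_p` (since `eps e x₀ = 1` the `e j` have no common divisor). Conversely these vectors are in the kernel (`ex0`: rows of `D0` are in `ker (eps e)`). -/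
theorem h0_eq (h : PRes D0 D1 e) (m : ℕ) :
    Module.finrank (ZMod p) (LinearMap.ker (del p H D0) ⊓ Xm p H ι₀ (m + 1) :
      Submodule (ZMod p) (ι₀ → H → ZMod p)) = 1 := by
  obtain ⟨x₀, hx₀⟩ := h.surj
  set c : ι₀ → H → ZMod p := fun j _ => ((e j : ℤ) : ZMod p) with hc
  have hc0 : c ≠ 0 := by
    intro h0
    have h1 := CohA_hm_const p H e x₀
    rw [← hc, h0, CohA_hm_zero, hx₀, Int.cast_one] at h1
    exact zero_ne_one (congrFun h1 1)
  have hspan : (LinearMap.ker (del p H D0) ⊓ Xm p H ι₀ (m + 1) :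
      Submodule (ZMod p) (ι₀ → H → ZMod p)) = Submodule.span (ZMod p) {c} := by
    refine le_antisymm ?_ ?_
    · rintro u ⟨hu, -⟩
      have hu0 : del p H D0 u = 0 := LinearMap.mem_ker.1 hu
      have hk : ∀ x, eps e x = 0 → hm p H u x = 0 := by
        intro x hx
        obtain ⟨y, rfl⟩ := (h.ex0 x).1 hx
        rw [hm_vecMul, hu0, CohA_hm_zero]
      obtain ⟨f, hf⟩ := CohA_factor p H e x₀ hx₀ u hk
      refine Submodule.mem_span_singleton.2 ⟨f, ?_⟩
      funext j g
      have h1 := hf (Pi.single j 1)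
      rw [CohA_hm_single, CohA_eps_single] at h1
      rw [h1]
      simp only [hc, Pi.smul_apply, smul_eq_mul]
      ring
    · rw [Submodule.span_singleton_le_iff_mem]
      refine ⟨?_, ?_⟩
      · rw [SetLike.mem_coe, LinearMap.mem_ker]
        funext k
        have h1 : del p H D0 c k = hm p H c (D0 k) := by
          rw [CohA_del_apply]
          rfl
        have h2 : eps e (D0 k) = 0 := by
          rw [h.ex0]
          refine ⟨Pi.single k 1, ?_⟩
          rw [Matrix.single_one_vecMul]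
          rfl
        rw [h1, hc, CohA_hm_const, h2]
        funext _
        simp
      · rw [SetLike.mem_coe]
        unfold Xm
        rw [Submodule.mem_pi]
        intro j _
        exact CohA_const_mem p H m _
  rw [hspan, finrank_span_singleton hc0]

end PDG
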