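import Pool.Agent.W_3f3beb_h76.CohC
import Pool.Agent.W_3f3beb_h76.CohD

/-! # Ranks of the augmented matrices -/

set_option autoImplicit false

open scoped Classical

namespace PDG

variable (p : ℕ) [Fact p.Prime] (H : Type) [Group H]
variable {ι₀ ι₁ ι₂ : Type} [Fintype ι₀] [Fintype ι₁] [Fintype ι₂]
variable (D0 : Matrix ι₁ ι₀ (MonoidAlgebra ℤ H)) (D1 : Matrix ι₂ ι₁ (MonoidAlgebra ℤ H))
variable (e : ι₀ → ℤ)

theorem CohB_rank_nullity {α β : Type} [Fintype β] (D : Matrix α β (MonoidAlgebra ℤ H)) (m : ℕ)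
    [Module.Finite (ZMod p) (Xm p H β m)] :
    Module.finrank (ZMod p) ((Xm p H β m).map (del p H D)) +
      Module.finrank (ZMod p) (LinearMap.ker (del p H D) ⊓ Xm p H β m :
        Submodule (ZMod p) (β → H → ZMod p)) = Module.finrank (ZMod p) (Xm p H β m) := by
  have h := LinearMap.finrank_range_add_finrank_ker ((del p H D).domRestrict (Xm p H β m))
  have h1 : LinearMap.range ((del p H D).domRestrict (Xm p H β m)) =
      (Xm p H β m).map (del p H D) := by
    ext y
    simp [Submodule.mem_map]
  have h2 : Module.finrank (ZMod p) (LinearMap.ker ((del p H D).domRestrict (Xm p H β m))) =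
      Module.finrank (ZMod p) (LinearMap.ker (del p H D) ⊓ Xm p H β m :
        Submodule (ZMod p) (β → H → ZMod p)) := by
    have e1 : (LinearMap.ker ((del p H D).domRestrict (Xm p H β m))).map
        (Xm p H β m).subtype = LinearMap.ker (del p H D) ⊓ Xm p H β m := by
      ext u
      constructor
      · rintro ⟨⟨v, hv⟩, hv2, rfl⟩
        refine ⟨?_, hv⟩
        simpa [LinearMap.mem_ker] using hv2
      · rintro ⟨hu, hv⟩
        refine ⟨⟨u, hv⟩, ?_, rfl⟩
        simpa [LinearMap.mem_ker] using hu
    rw [← e1]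
    exact (LinearEquiv.finrank_eq (Submodule.equivMapOfInjective _
      (Submodule.subtype_injective _) _))
  rw [h1, h2] at h
  exact h

/-- PROOF. rank-nullity for `del D0` on `Xm 1` (dimension `|ι₀|`, `Xm_finrank`, `an_one`): image of dimension `rank E0` (`del_const`), kernel of dimension 1 (`h0_eq`). -/
theorem rank_E0 (hH : Group.FG H) (h : PRes D0 D1 e) :
    Fintype.card ι₀ = (Emod p D0).rank + 1 := by
  have := Xm_finite p H hH ι₀ 1
  have f0 := CohB_rank_nullity p H D0 1
  have f1 := h0_eq p H D0 D1 e h 0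
  rw [zero_add] at f1
  rw [f1, Xm_finrank p H hH, an_one, mul_one, del_const] at f0
  omega

/-- PROOF. rank-nullity for `del D1` on `Xm 1`, `h1_le` (m = 0, `an_two`, `an_one`), `h1_ge`, `del_const`. -/
theorem rank_E1 (hH : Group.FG H) (h : PRes D0 D1 e) :
    Fintype.card ι₁ = (Emod p D1).rank + (Emod p D0).rank + dp p H := by
  have := Xm_finite p H hH ι₁ 1
  have f0 := CohB_rank_nullity p H D1 1
  have f1 := h1_le p H D0 D1 e hH h 0
  have f2 := h1_ge p H D0 D1 e hH h
  rw [zero_add, zero_add, an_two p H hH, an_one, del_const] at f1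
  rw [del_const] at f2
  rw [Xm_finrank p H hH, an_one, mul_one, del_const] at f0
  omega

end PDG
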