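import Pool.Agent.W_3f3beb_h76.CohA

/-! # Upper bound for the first cohomology with coefficients N_m -/

set_option autoImplicit false

open scoped Classical

namespace PDG

variable (p : ℕ) [Fact p.Prime] (H : Type) [Group H]
variable {ι₀ ι₁ ι₂ : Type} [Fintype ι₀] [Fintype ι₁] [Fintype ι₂]
variable (D0 : Matrix ι₁ ι₀ (MonoidAlgebra ℤ H)) (D1 : Matrix ι₂ ι₁ (MonoidAlgebra ℤ H))
variable (e : ι₀ → ℤ)

/-- `u ↦ hm u x` as a linear map -/
noncomputable def CohC_L {ι : Type} [Fintype ι] (x : ι → MonoidAlgebra ℤ H) :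
    (ι → H → ZMod p) →ₗ[ZMod p] (H → ZMod p) :=
  ∑ j, (act p H (x j)).comp (LinearMap.proj j)

theorem CohC_L_apply {ι : Type} [Fintype ι] (x : ι → MonoidAlgebra ℤ H) (u : ι → H → ZMod p) :
    CohC_L p H x u = hm p H u x := by
  simp [CohC_L, hm, LinearMap.sum_apply]

/-- the value at `1` of `hm u (y h)` as a function of `h` -/
noncomputable def CohC_T (y : H → ι₁ → MonoidAlgebra ℤ H) :
    (ι₁ → H → ZMod p) →ₗ[ZMod p] (H → ZMod p) :=
  LinearMap.pi fun h => (LinearMap.proj (1 : H)).comp (CohC_L p H (y h))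

theorem CohC_T_apply (y : H → ι₁ → MonoidAlgebra ℤ H) (u : ι₁ → H → ZMod p) (h : H) :
    CohC_T p H y u h = hm p H u (y h) 1 := by
  simp [CohC_T, CohC_L_apply]

theorem CohC_hm_mem {ι : Type} [Fintype ι] (m : ℕ) (u : ι → H → ZMod p) (hu : u ∈ Xm p H ι m)
    (x : ι → MonoidAlgebra ℤ H) : hm p H u x ∈ Nn p H m := by
  unfold hm
  refine Submodule.sum_mem _ fun j _ => act_mem p H m _ _ ?_
  unfold Xm at hu
  exact (Submodule.mem_pi.1 hu) j (Set.mem_univ j)

/-- `hm v y` depends only on `y D0` if `D1 v = 0` -/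
theorem CohC_well (h : PRes D0 D1 e) (v : ι₁ → H → ZMod p) (hv : del p H D1 v = 0)
    (y y' : ι₁ → MonoidAlgebra ℤ H) (hy : Matrix.vecMul y D0 = Matrix.vecMul y' D0) :
    hm p H v y = hm p H v y' := by
  have h1 : Matrix.vecMul (y - y') D0 = 0 := by
    rw [Matrix.sub_vecMul, hy, sub_self]
  obtain ⟨z, hz⟩ := (h.ex1 _).1 h1
  have h2 : hm p H v (y - y') = 0 := by
    rw [← hz, hm_vecMul, hv, CohA_hm_zero]
  rw [CohA_hm_sub] at h2
  exact sub_eq_zero.1 h2

theorem CohC_smul_vecMul (a : MonoidAlgebra ℤ H) (y : ι₁ → MonoidAlgebra ℤ H) :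
    Matrix.vecMul (a • y) D0 = a • Matrix.vecMul y D0 := by
  funext j
  simp only [Matrix.vecMul, dotProduct, Pi.smul_apply, smul_eq_mul, Finset.mul_sum, mul_assoc]

/-- the values of the function `CohC_T y v` translated -/
theorem CohC_tr (h : PRes D0 D1 e) (x₀ : ι₀ → MonoidAlgebra ℤ H)
    (y : H → ι₁ → MonoidAlgebra ℤ H)
    (hy : ∀ g, Matrix.vecMul (y g) D0 = MonoidAlgebra.single g (1 : ℤ) • x₀ - x₀)
    (v : ι₁ → H → ZMod p) (hv : del p H D1 v = 0) (g : H) :
    tr p H g (CohC_T p H y v) - CohC_T p H y v = hm p H v (y g) := by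
  funext k
  rw [Pi.sub_apply, tr_apply', CohC_T_apply, CohC_T_apply]
  have h1 : hm p H v (y (k * g)) = hm p H v (MonoidAlgebra.single k (1 : ℤ) • y g + y k) := by
    refine CohC_well p H D0 D1 e h v hv _ _ ?_
    rw [Matrix.add_vecMul, CohC_smul_vecMul, hy, hy, hy, smul_sub, smul_smul,
      MonoidAlgebra.single_mul_single, mul_one]
    abel
  rw [h1, hm_add, hm_smul, act_single, Int.cast_one, one_smul, Pi.add_apply, tr_apply', one_mul]
  ring

/-- the action of the group ring on `CohC_T y v` -/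
theorem CohC_act (h : PRes D0 D1 e) (x₀ : ι₀ → MonoidAlgebra ℤ H) (hx₀ : eps e x₀ = 1)
    (y : H → ι₁ → MonoidAlgebra ℤ H)
    (hy : ∀ g, Matrix.vecMul (y g) D0 = MonoidAlgebra.single g (1 : ℤ) • x₀ - x₀)
    (v : ι₁ → H → ZMod p) (hv : del p H D1 v = 0) (a : MonoidAlgebra ℤ H) :
    ∀ z, Matrix.vecMul z D0 = a • x₀ - MonoidAlgebra.single (1 : H) (aug H a) • x₀ →
      act p H a (CohC_T p H y v) =
        ((aug H a : ℤ) : ZMod p) • CohC_T p H y v + hm p H v z := by
  have hex : ∀ b : MonoidAlgebra ℤ H, ∃ z, Matrix.vecMul z D0 =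
      b • x₀ - MonoidAlgebra.single (1 : H) (aug H b) • x₀ := by
    intro b
    rw [← h.ex0, CohA_eps_sub, CohA_eps_smul, CohA_eps_smul, CohA_aug_single, hx₀]
    ring
  induction a using MonoidAlgebra.induction_linear with
  | zero =>
    intro z hz
    have h1 : Matrix.vecMul z D0 = Matrix.vecMul 0 D0 := by
      rw [hz]
      simp
    rw [CohC_well p H D0 D1 e h v hv z 0 h1]
    have h2 : hm p H v 0 = 0 := by
      unfold hm
      simp
    rw [h2]
    simp
  | add a b ha hb =>
    intro z hz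
    obtain ⟨za, hza⟩ := hex a
    obtain ⟨zb, hzb⟩ := hex b
    have h1 : Matrix.vecMul z D0 = Matrix.vecMul (za + zb) D0 := by
      rw [hz, Matrix.add_vecMul, hza, hzb, map_add, MonoidAlgebra.single_add, add_smul, add_smul]
      abel
    rw [CohC_well p H D0 D1 e h v hv z _ h1, hm_add, map_add, LinearMap.add_apply, ha za hza,
      hb zb hzb, map_add]
    push_cast
    rw [add_smul]
    abel
  | single g c =>
    intro z hz
    have h1 : Matrix.vecMul z D0 =
        Matrix.vecMul (MonoidAlgebra.single (1 : H) c • y g) D0 := by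
      rw [hz, CohC_smul_vecMul, hy, smul_sub, smul_smul, MonoidAlgebra.single_mul_single, one_mul,
        mul_one, CohA_aug_single]
    have h2 := CohC_tr p H D0 D1 e h x₀ y hy v hv g
    rw [CohC_well p H D0 D1 e h v hv z _ h1, hm_smul, act_single, act_single, CohA_aug_single,
      tr_one, LinearMap.id_apply, ← h2, smul_sub]
    abel

theorem CohC_hm_sum {ι κ : Type} [Fintype ι] (s : Finset κ) (u : ι → H → ZMod p)
    (f : κ → ι → MonoidAlgebra ℤ H) :
    hm p H u (∑ j ∈ s, f j) = ∑ j ∈ s, hm p H u (f j) := by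
  induction s using Finset.induction_on with
  | empty =>
    unfold hm
    simp
  | insert a s ha ih => rw [Finset.sum_insert ha, Finset.sum_insert ha, hm_add, ih]

theorem CohC_vecMul_sum {κ : Type} (s : Finset κ) (f : κ → ι₁ → MonoidAlgebra ℤ H) :
    Matrix.vecMul (∑ j ∈ s, f j) D0 = ∑ j ∈ s, Matrix.vecMul (f j) D0 := by
  induction s using Finset.induction_on with
  | empty => simp
  | insert a s ha ih => rw [Finset.sum_insert ha, Finset.sum_insert ha, Matrix.add_vecMul, ih]

/-- the image of `N_{m+2}` in the quotient by `N_{m+1}` -/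
theorem CohC_quot (hH : Group.FG H) (m : ℕ) :
    Module.finrank (ZMod p) ((Nn p H (m + 2)).map (Nn p H (m + 1)).mkQ) =
      an p H (m + 2) - an p H (m + 1) := by
  have := Nn_finite p H hH (m + 2)
  have h1 := LinearMap.finrank_range_add_finrank_ker
    ((Nn p H (m + 1)).mkQ.comp (Nn p H (m + 2)).subtype)
  have h2 : LinearMap.range ((Nn p H (m + 1)).mkQ.comp (Nn p H (m + 2)).subtype) =
      (Nn p H (m + 2)).map (Nn p H (m + 1)).mkQ := by
    rw [LinearMap.range_comp, Submodule.range_subtype]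
  have h3 : LinearMap.ker ((Nn p H (m + 1)).mkQ.comp (Nn p H (m + 2)).subtype) =
      (Nn p H (m + 1)).submoduleOf (Nn p H (m + 2)) := by
    rw [LinearMap.ker_comp, Submodule.ker_mkQ]
    rfl
  have h4 := (Submodule.submoduleOfEquivOfLe (Nn_mono p H (m + 1))).finrank_eq
  rw [h2, h3, h4] at h1
  unfold an
  omega

/-- PROOF. Let `v ∈ Xm (m+1)` (over `ι₁`) with `del D1 v = 0`, `K = ker (eps e) = {y D0}`, `x₀` with `eps e x₀ = 1`. `φ (y D0) := hm v y` is well defined on `K` (`y D0 = 0` implies `y = z D1`, `hm v (z D1) = hm (del D1 v) z = 0`), `φ : K → N_{m+1}`, compatible with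
the group ring. Define `λ x = φ (x - eps e x • x₀) 1 ∈ F_p` (`x` any row; `x - (eps e x) x₀ ∈ K`), additive in `x`, and `F x : H → F_p`, `F x h = λ (h x)`; then `F (g x) = tr g (F x)`, `F` is additive, `F x = φ x` for `x ∈ K`
(`φ (h x) 1 = (tr h (φ x)) 1 = φ x h`). `tr g (F x) - F x = F (g x - x) = φ (g x - x) ∈ N_{m+1}`, so `F x ∈ N_{m+2}`. The map `v ↦ class of F x₀` in `N_{m+2} / N_{m+1}` is linear; if the class is zero then `F x ∈ N_{m+1}` for all `x`
(`x = (x - eps e x x₀) + eps e x x₀`), and with `u j = F (e_j) ∈ N_{m+1}`: `F = hm u`, `hm v y = φ (y D0) = hm u (y D0) = hm (del D0 u) y`, `v = del D0 u`. So the kernel of the map is contained in the image of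
`Xm (m+1)` under `del D0`. -/
theorem h1_le (hH : Group.FG H) (h : PRes D0 D1 e) (m : ℕ) :
    Module.finrank (ZMod p) (LinearMap.ker (del p H D1) ⊓ Xm p H ι₁ (m + 1) :
      Submodule (ZMod p) (ι₁ → H → ZMod p)) ≤
      Module.finrank (ZMod p) ((Xm p H ι₀ (m + 1)).map (del p H D0)) +
        (an p H (m + 2) - an p H (m + 1)) := by
  obtain ⟨x₀, hx₀⟩ := h.surj
  have hy' : ∀ g : H, ∃ y, Matrix.vecMul y D0 = MonoidAlgebra.single g (1 : ℤ) • x₀ - x₀ := by
    intro g
    rw [← h.ex0, CohA_eps_sub, CohA_eps_smul, CohA_aug_single, hx₀]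
    ring
  choose y hy using hy'
  have hw' : ∀ j : ι₀, ∃ w, Matrix.vecMul w D0 =
      Pi.single j (1 : MonoidAlgebra ℤ H) - MonoidAlgebra.single (1 : H) (e j) • x₀ := by
    intro j
    rw [← h.ex0, CohA_eps_sub, CohA_eps_single, CohA_eps_smul, CohA_aug_single, hx₀]
    ring
  choose w hw using hw'
  set Z : Submodule (ZMod p) (ι₁ → H → ZMod p) :=
    LinearMap.ker (del p H D1) ⊓ Xm p H ι₁ (m + 1) with hZ
  have := Xm_finite p H hH ι₁ (m + 1)
  have := Xm_finite p H hH ι₀ (m + 1)
  have hZfin : Module.Finite (ZMod p) Z :=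
    Module.Finite.of_injective (Submodule.inclusion (inf_le_right : Z ≤ Xm p H ι₁ (m + 1)))
      (Submodule.inclusion_injective _)
  have hNfin := Nn_finite p H hH (m + 2)
  set Θ : Z →ₗ[ZMod p] ((H → ZMod p) ⧸ Nn p H (m + 1)) :=
    (Nn p H (m + 1)).mkQ.comp ((CohC_T p H y).comp Z.subtype) with hΘ
  have h1 := LinearMap.finrank_range_add_finrank_ker Θ
  -- the range
  have h2 : Module.finrank (ZMod p) (LinearMap.range Θ) ≤ an p H (m + 2) - an p H (m + 1) := by
    rw [← CohC_quot p H hH m]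
    refine Submodule.finrank_mono ?_
    rintro _ ⟨v, rfl⟩
    refine ⟨CohC_T p H y v.1, ?_, rfl⟩
    rw [SetLike.mem_coe, mem_Nn_succ]
    intro g
    rw [CohC_tr p H D0 D1 e h x₀ y hy v.1 (LinearMap.mem_ker.1 v.2.1) g]
    exact CohC_hm_mem p H (m + 1) v.1 v.2.2 _
  -- the kernel
  have h3 : Module.finrank (ZMod p) (LinearMap.ker Θ) ≤
      Module.finrank (ZMod p) ((Xm p H ι₀ (m + 1)).map (del p H D0)) := by
    have h4 := LinearMap.finrank_range_of_inj (f := Z.subtype.comp (LinearMap.ker Θ).subtype)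
      (Subtype.val_injective.comp Subtype.val_injective)
    rw [← h4]
    refine Submodule.finrank_mono ?_
    rintro _ ⟨⟨v, hvΘ⟩, rfl⟩
    have hv : del p H D1 v.1 = 0 := LinearMap.mem_ker.1 v.2.1
    have hF : CohC_T p H y v.1 ∈ Nn p H (m + 1) := by
      have h5 : Θ v = 0 := hvΘ
      exact (Submodule.Quotient.mk_eq_zero _).1 h5
    set F := CohC_T p H y v.1 with hFdef
    refine ⟨fun j => hm p H v.1 (w j) + ((e j : ℤ) : ZMod p) • F, ?_, ?_⟩
    · rw [SetLike.mem_coe]
      unfold Xm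
      rw [Submodule.mem_pi]
      intro j _
      exact Submodule.add_mem _ (CohC_hm_mem p H (m + 1) v.1 v.2.2 _)
        (Submodule.smul_mem _ _ hF)
    · change del p H D0 _ = v.1
      funext k
      rw [CohA_del_apply]
      have h6 : ∀ j, act p H (D0 k j) (hm p H v.1 (w j) + ((e j : ℤ) : ZMod p) • F) =
          hm p H v.1 (D0 k j • w j) + act p H (D0 k j * MonoidAlgebra.single (1 : H) (e j)) F := by
        intro j
        rw [map_add, hm_smul, map_mul, Module.End.mul_apply, act_single, tr_one,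
          LinearMap.id_apply]
      rw [Finset.sum_congr rfl fun j _ => h6 j, Finset.sum_add_distrib]
      have h7 : ∑ j, act p H (D0 k j * MonoidAlgebra.single (1 : H) (e j)) F =
          act p H (∑ j, D0 k j * MonoidAlgebra.single (1 : H) (e j)) F := by
        rw [map_sum, LinearMap.sum_apply]
      have h8 : ∑ j, hm p H v.1 (D0 k j • w j) = hm p H v.1 (∑ j, D0 k j • w j) := by
        rw [CohC_hm_sum]
      rw [h7, h8]
      set a : MonoidAlgebra ℤ H := ∑ j, D0 k j * MonoidAlgebra.single (1 : H) (e j) with ha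
      have hrow : eps e (D0 k) = 0 := by
        rw [h.ex0]
        refine ⟨Pi.single k 1, ?_⟩
        rw [Matrix.single_one_vecMul]
        rfl
      have haug : aug H a = 0 := by
        rw [ha, map_sum, ← hrow]
        unfold eps
        refine Finset.sum_congr rfl fun j _ => ?_
        rw [map_mul, CohA_aug_single]
      obtain ⟨z, hz⟩ : ∃ z, Matrix.vecMul z D0 =
          a • x₀ - MonoidAlgebra.single (1 : H) (aug H a) • x₀ := by
        rw [← h.ex0, CohA_eps_sub, CohA_eps_smul, CohA_eps_smul, CohA_aug_single, hx₀]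
        ring
      have h9 := CohC_act p H D0 D1 e h x₀ hx₀ y hy v.1 hv a z hz
      rw [haug, Int.cast_zero, zero_smul, zero_add] at h9
      rw [← hFdef] at h9
      rw [h9, ← hm_add]
      have h10 : Matrix.vecMul (∑ j, D0 k j • w j + z) D0 =
          Matrix.vecMul (Pi.single k (1 : MonoidAlgebra ℤ H)) D0 := by
        rw [Matrix.add_vecMul, CohC_vecMul_sum, hz, haug, MonoidAlgebra.single_zero, zero_smul,
          sub_zero, ha, Finset.sum_smul, ← Finset.sum_add_distrib, Matrix.single_one_vecMul]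
        have h11 : ∀ j, Matrix.vecMul (D0 k j • w j) D0 +
            (D0 k j * MonoidAlgebra.single (1 : H) (e j)) • x₀ =
            Pi.single j (D0 k j) := by
          intro j
          rw [CohC_smul_vecMul, hw, smul_sub, smul_smul, sub_add_cancel, ← Pi.single_smul,
            smul_eq_mul, mul_one]
        rw [Finset.sum_congr rfl fun j _ => h11 j]
        exact Finset.univ_sum_single (D0 k)
      rw [CohC_well p H D0 D1 e h v.1 hv _ _ h10, CohA_hm_single]
  omega

end PDG
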