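import Mathlib

/-! # Covering inequality for supermodular set functions (Shearer) -/

set_option autoImplicit false

open scoped Classical

namespace PDG

/-- The points of `Y` lying in at least `l` of the sets `P j`, `j ∈ J`. -/
noncomputable def CovA_lvl {X ι : Type} (J : Finset ι) (P : ι → Finset X) (Y : Finset X) (l : ℕ) :
    Finset X := Y.filter (fun x => l ≤ (J.filter (fun j => x ∈ P j)).card)

theorem CovA_mem {X ι : Type} (J : Finset ι) (P : ι → Finset X) (Y : Finset X) (l : ℕ) (x : X) :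
    x ∈ CovA_lvl J P Y l ↔ x ∈ Y ∧ l ≤ (J.filter (fun j => x ∈ P j)).card := by
  unfold CovA_lvl
  rw [Finset.mem_filter]

theorem CovA_card {X ι : Type} (J : Finset ι) (P : ι → Finset X) (a : ι) (ha : a ∉ J) (x : X) :
    ((insert a J).filter (fun j => x ∈ P j)).card =
      (J.filter (fun j => x ∈ P j)).card + (if x ∈ P a then 1 else 0) := by
  rw [Finset.filter_insert]
  split_ifs with h
  · rw [Finset.card_insert_of_notMem]
    intro h1
    exact ha (Finset.mem_filter.1 h1).1
  · rfl

theorem CovA_claim {X ι : Type} (f : Finset X → ℝ) (h0 : f ∅ = 0)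
    (hsup : ∀ P Q : Finset X, f P + f Q ≤ f (P ∪ Q) + f (P ∩ Q))
    (J : Finset ι) (P : ι → Finset X) (Y : Finset X) (hY : ∀ j ∈ J, P j ⊆ Y) (N : ℕ)
    (hN : J.card ≤ N) :
    ∑ j ∈ J, f (P j) ≤ ∑ l ∈ Finset.range N, f (CovA_lvl J P Y (l + 1)) := by
  induction J using Finset.induction_on with
  | empty =>
    rw [Finset.sum_empty]
    apply Finset.sum_nonneg
    intro l _
    have h1 : CovA_lvl (∅ : Finset ι) P Y (l + 1) = ∅ := by
      apply Finset.eq_empty_of_forall_notMem
      intro x hx
      rw [CovA_mem] at hx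
      simp at hx
    rw [h1, h0]
  | insert a J ha ih =>
    rw [Finset.card_insert_of_notMem ha] at hN
    have ih1 := ih (fun j hj => hY j (Finset.mem_insert_of_mem hj)) (by omega)
    rw [Finset.sum_insert ha]
    have key : ∀ l ∈ Finset.range N, (f (P a ∩ CovA_lvl J P Y l) -
        f (P a ∩ CovA_lvl J P Y (l + 1))) + f (CovA_lvl J P Y (l + 1)) ≤
        f (CovA_lvl (insert a J) P Y (l + 1)) := by
      intro l _
      have h1 := hsup (P a ∩ CovA_lvl J P Y l) (CovA_lvl J P Y (l + 1))
      have h2 : P a ∩ CovA_lvl J P Y l ∪ CovA_lvl J P Y (l + 1) =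
          CovA_lvl (insert a J) P Y (l + 1) := by
        ext x
        rw [Finset.mem_union, Finset.mem_inter, CovA_mem, CovA_mem, CovA_mem,
          CovA_card J P a ha x]
        split_ifs with h
        · constructor
          · rintro (⟨_, h3, h4⟩ | ⟨h3, h4⟩)
            · exact ⟨h3, by omega⟩
            · exact ⟨h3, by omega⟩
          · rintro ⟨h3, h4⟩
            exact Or.inl ⟨h, h3, by omega⟩
        · constructor
          · rintro (⟨h5, _⟩ | ⟨h3, h4⟩)
            · exact absurd h5 h
            · exact ⟨h3, by omega⟩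
          · rintro ⟨h3, h4⟩
            exact Or.inr ⟨h3, by omega⟩
      have h3 : P a ∩ CovA_lvl J P Y l ∩ CovA_lvl J P Y (l + 1) =
          P a ∩ CovA_lvl J P Y (l + 1) := by
        ext x
        rw [Finset.mem_inter, Finset.mem_inter, Finset.mem_inter, CovA_mem, CovA_mem]
        constructor
        · rintro ⟨⟨h4, _⟩, h5⟩
          exact ⟨h4, h5⟩
        · rintro ⟨h4, h5, h6⟩
          exact ⟨⟨h4, h5, by omega⟩, h5, h6⟩
      rw [h2, h3] at h1
      linarith
    have hs := Finset.sum_le_sum key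
    rw [Finset.sum_add_distrib,
      Finset.sum_range_sub' (fun l => f (P a ∩ CovA_lvl J P Y l)) N] at hs
    have h4 : P a ∩ CovA_lvl J P Y 0 = P a := by
      ext x
      rw [Finset.mem_inter, CovA_mem]
      constructor
      · exact fun h => h.1
      · exact fun h => ⟨h, hY a (Finset.mem_insert_self a J) h, Nat.zero_le _⟩
    have h5 : P a ∩ CovA_lvl J P Y N = ∅ := by
      apply Finset.eq_empty_of_forall_notMem
      intro x hx
      rw [Finset.mem_inter, CovA_mem] at hx
      have h6 := Finset.card_filter_le J (fun j => x ∈ P j)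
      omega
    rw [h4, h5, h0] at hs
    linarith

/-- PROOF. Let `E_l` be the set of points of `Y` lying in at least `l` of the sets `P j`, `j ∈ J`. Claim: `∑_{j ∈ J} f (P j) ≤ ∑_{l=1}^{|J|} f (E_l)`.
Induction on `J`: adding a set `P`, the new level sets are `E'_l = E_l ∪ (E_{l-1} ∩ P)` (`E_0 = Y`); with `P_l = P ∩ E_{l-1}` supermodularity gives
`f (P_l) + f (E_l) ≤ f (E_l ∪ P_l) + f (E_l ∩ P_l) = f (E'_l) + f (P_{l+1})`; sum over `l = 1, ..., |J| + 1` (telescoping; `P_1 = P`, `P_{|J|+2} = ∅`, `E_{|J|+1} = ∅`).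
Finally `E_l = ∅` for `l > m`, `f ∅ = 0`, and `f (E_l) ≤ f Y`. -/
theorem covering {X ι : Type} (f : Finset X → ℝ) (h0 : f ∅ = 0)
    (hmono : ∀ P Q : Finset X, P ⊆ Q → f P ≤ f Q)
    (hsup : ∀ P Q : Finset X, f P + f Q ≤ f (P ∪ Q) + f (P ∩ Q))
    (J : Finset ι) (P : ι → Finset X) (Y : Finset X) (hY : ∀ j ∈ J, P j ⊆ Y) (m : ℕ)
    (hm : ∀ x ∈ Y, (J.filter (fun j => x ∈ P j)).card ≤ m) :
    ∑ j ∈ J, f (P j) ≤ m * f Y := by
  have h1 := CovA_claim f h0 hsup J P Y hY J.card le_rfl
  have hY0 : 0 ≤ f Y := by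
    rw [← h0]
    exact hmono _ _ (Finset.empty_subset Y)
  have h2 : ∀ l ∈ Finset.range J.card, f (CovA_lvl J P Y (l + 1)) ≤
      if l ∈ Finset.range m then f Y else 0 := by
    intro l _
    split_ifs with h
    · exact hmono _ _ (Finset.filter_subset _ _)
    · have h3 : CovA_lvl J P Y (l + 1) = ∅ := by
        apply Finset.eq_empty_of_forall_notMem
        intro x hx
        rw [CovA_mem] at hx
        have h4 := hm x hx.1
        rw [Finset.mem_range] at h
        omega
      rw [h3, h0]
  have h3 := Finset.sum_le_sum h2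
  rw [← Finset.sum_filter, Finset.sum_const, nsmul_eq_mul] at h3
  have h4 : ((Finset.range J.card).filter (fun l => l ∈ Finset.range m)).card ≤ m := by
    calc _ ≤ (Finset.range m).card := Finset.card_le_card (fun l hl => (Finset.mem_filter.1 hl).2)
      _ = m := Finset.card_range m
  have h5 : (((Finset.range J.card).filter (fun l => l ∈ Finset.range m)).card : ℝ) ≤ m := by
    exact_mod_cast h4
  calc _ ≤ _ := h1
    _ ≤ _ := h3
    _ ≤ m * f Y := mul_le_mul_of_nonneg_right h5 hY0

end PDG
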