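import Pool.Agent.W_3f3beb_h76.PowA

/-! # Decomposition according to the absolute values of the eigenvalues -/

set_option autoImplicit false

open scoped Classical

namespace PDG

open Polynomial in
theorem DecA_root {E : Type} [AddCommGroup E] [Module ℂ E] (T : E →ₗ[ℂ] E) {μ : ℂ} {x : E}
    (hx : T x = μ • x) (p : ℂ[X]) (hp : p.IsRoot μ) : aeval T p x = 0 := by
  obtain ⟨q, rfl⟩ := dvd_iff_isRoot.2 hp
  rw [mul_comm, map_mul, Module.End.mul_apply, map_sub, aeval_X, aeval_C]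
  have h : (T - algebraMap ℂ (Module.End ℂ E) μ) x = 0 := by
    rw [LinearMap.sub_apply, Module.algebraMap_end_apply, hx, sub_self]
  rw [h, map_zero]

open Polynomial in
theorem DecA_cop (s t : Multiset ℂ) (h : ∀ a ∈ s, ∀ b ∈ t, a ≠ b) :
    IsCoprime (s.map (fun a => X - C a)).prod (t.map (fun a => X - C a)).prod := by
  have key : ∀ (a : ℂ) (t : Multiset ℂ), (∀ b ∈ t, a ≠ b) →
      IsCoprime (X - C a) (t.map (fun a => X - C a)).prod := by
    intro a t
    induction t using Multiset.induction_on with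
    | empty =>
      intro _
      rw [Multiset.map_zero, Multiset.prod_zero]
      exact isCoprime_one_right
    | cons b t ih =>
      intro hb
      rw [Multiset.map_cons, Multiset.prod_cons]
      refine IsCoprime.mul_right ?_ (ih fun c hc => hb c (Multiset.mem_cons_of_mem hc))
      exact isCoprime_X_sub_C_of_isUnit_sub
        (isUnit_iff_ne_zero.2 (sub_ne_zero.2 (hb b (Multiset.mem_cons_self b t))))
  induction s using Multiset.induction_on with
  | empty =>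
    rw [Multiset.map_zero, Multiset.prod_zero]
    exact isCoprime_one_left
  | cons a s ih =>
    rw [Multiset.map_cons, Multiset.prod_cons]
    exact IsCoprime.mul_left (key a t (h a (Multiset.mem_cons_self a s)))
      (ih fun c hc => h c (Multiset.mem_cons_of_mem hc))

theorem DecA_one {E : Type} [AddCommGroup E] [Module ℂ E] [FiniteDimensional ℂ E]
    (T : E →ₗ[ℂ] E) (hT : LinearMap.ker T = ⊥) (V : Submodule ℂ E) (hV : ∀ x ∈ V, T x ∈ V)
    (hn : V ≠ ⊥) (l : List ℂ)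
    (hl : ∀ x ∈ V, (l.map (fun μ => T - algebraMap ℂ (Module.End ℂ E) μ)).prod x = 0) :
    ∃ (a : ℕ) (Q : V ≃ₗ[ℂ] (Fin a → ℂ)) (G : Matrix (Fin a) (Fin a) ℂ), 0 < a ∧ IsUnit G.det ∧
      (∀ x : V, Q ⟨T x, hV x x.2⟩ = G.mulVec (Q x)) ∧
      (l.map (fun μ => G - Matrix.scalar (Fin a) μ)).prod = 0 := by
  set bV := Module.finBasis ℂ V with hbV
  set TV : V →ₗ[ℂ] V := T.restrict hV with hTV
  refine ⟨Module.finrank ℂ V, bV.equivFun, LinearMap.toMatrixAlgEquiv bV TV, ?_, ?_, ?_, ?_⟩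
  · have : Nontrivial V := Submodule.nontrivial_iff_ne_bot.2 hn
    exact Module.finrank_pos
  · rw [← Matrix.isUnit_iff_isUnit_det]
    have h1 : IsUnit TV := by
      rw [LinearMap.isUnit_iff_ker_eq_bot, LinearMap.ker_eq_bot']
      intro x hx
      have h2 : T x = 0 := by
        have := congrArg Subtype.val hx
        exact this
      rw [LinearMap.ker_eq_bot'] at hT
      exact Subtype.ext (hT _ h2)
    exact h1.map (LinearMap.toMatrixAlgEquiv bV)
  · intro x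
    have h1 := LinearMap.toMatrix_mulVec_repr bV bV TV x
    exact h1.symm
  · have h1 : ∀ (l : List ℂ) (x : V),
        (((l.map (fun μ => TV - algebraMap ℂ (Module.End ℂ V) μ)).prod x : V) : E) =
          (l.map (fun μ => T - algebraMap ℂ (Module.End ℂ E) μ)).prod x := by
      intro l
      induction l with
      | nil => intro x; rfl
      | cons μ l ih =>
        intro x
        rw [List.map_cons, List.map_cons, List.prod_cons, List.prod_cons, Module.End.mul_apply,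
          Module.End.mul_apply, ← ih x]
        rfl
    have h2 : (l.map (fun μ => TV - algebraMap ℂ (Module.End ℂ V) μ)).prod = 0 := by
      ext x
      rw [h1, hl x x.2]
      rfl
    have h3 := congrArg (LinearMap.toMatrixAlgEquiv bV) h2
    rw [map_zero, map_list_prod, List.map_map] at h3
    rw [← h3]
    congr 1
    refine List.map_congr_left fun μ _ => ?_
    rw [Function.comp_apply, map_sub, AlgEquiv.commutes]
    rfl

theorem DecA_block {m : ℕ} (γ : Matrix (Fin m) (Fin m) ℂ) (hu : IsUnit γ.det)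
    (V₁ V₂ : Submodule ℂ (Fin m → ℂ)) (hc : IsCompl V₁ V₂)
    (h₁ : ∀ x ∈ V₁, Matrix.toLin' γ x ∈ V₁) (h₂ : ∀ x ∈ V₂, Matrix.toLin' γ x ∈ V₂)
    (n₁ : V₁ ≠ ⊥) (n₂ : V₂ ≠ ⊥) (l₁ l₂ : List ℂ)
    (k₁ : ∀ x ∈ V₁, (l₁.map (fun μ => Matrix.toLin' γ -
      algebraMap ℂ (Module.End ℂ (Fin m → ℂ)) μ)).prod x = 0)
    (k₂ : ∀ x ∈ V₂, (l₂.map (fun μ => Matrix.toLin' γ -
      algebraMap ℂ (Module.End ℂ (Fin m → ℂ)) μ)).prod x = 0) :
    ∃ (a b : ℕ) (P : (Fin m → ℂ) ≃ₗ[ℂ] (Fin a ⊕ Fin b → ℂ)) (Gp : Matrix (Fin a) (Fin a) ℂ)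
      (Gm : Matrix (Fin b) (Fin b) ℂ), 0 < a ∧ 0 < b ∧ IsUnit Gp.det ∧ IsUnit Gm.det ∧
      (∀ x, P (γ.mulVec x) = (Matrix.fromBlocks Gp 0 0 Gm).mulVec (P x)) ∧
      (l₁.map (fun μ => Gp - Matrix.scalar (Fin a) μ)).prod = 0 ∧
      (l₂.map (fun μ => Gm - Matrix.scalar (Fin b) μ)).prod = 0 := by
  have hT : LinearMap.ker (Matrix.toLin' γ) = ⊥ := by
    rw [← LinearMap.isUnit_iff_ker_eq_bot]
    exact ((Matrix.isUnit_iff_isUnit_det _).2 hu).map (Matrix.toLinAlgEquiv' : _ ≃ₐ[ℂ] _)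
  obtain ⟨a, Q₁, Gp, ha, u₁, q₁, z₁⟩ := DecA_one (Matrix.toLin' γ) hT V₁ h₁ n₁ l₁ k₁
  obtain ⟨b, Q₂, Gm, hb, u₂, q₂, z₂⟩ := DecA_one (Matrix.toLin' γ) hT V₂ h₂ n₂ l₂ k₂
  refine ⟨a, b, (Submodule.prodEquivOfIsCompl V₁ V₂ hc).symm ≪≫ₗ (LinearEquiv.prodCongr Q₁ Q₂) ≪≫ₗ
    (LinearEquiv.sumArrowLequivProdArrow (Fin a) (Fin b) ℂ ℂ).symm, Gp, Gm, ha, hb, u₁, u₂, ?_,
    z₁, z₂⟩
  intro x
  obtain ⟨y, rfl⟩ := (Submodule.prodEquivOfIsCompl V₁ V₂ hc).surjective x
  have e1 : γ.mulVec (Submodule.prodEquivOfIsCompl V₁ V₂ hc y) =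
      Submodule.prodEquivOfIsCompl V₁ V₂ hc
        (⟨Matrix.toLin' γ y.1, h₁ _ y.1.2⟩, ⟨Matrix.toLin' γ y.2, h₂ _ y.2.2⟩) := by
    rw [Submodule.coe_prodEquivOfIsCompl', Submodule.coe_prodEquivOfIsCompl']
    rw [Matrix.mulVec_add]
    rfl
  rw [e1]
  simp only [LinearEquiv.trans_apply, LinearEquiv.symm_apply_apply]
  rw [Matrix.fromBlocks_mulVec]
  ext j
  rcases j with j | j
  · simp only [LinearEquiv.prodCongr_apply, Sum.elim_inl, Matrix.zero_mulVec, add_zero]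
    exact congrFun (q₁ y.1) j
  · simp only [LinearEquiv.prodCongr_apply, Sum.elim_inr, Matrix.zero_mulVec, zero_add]
    exact congrFun (q₂ y.2) j

theorem DecA_inv {a : ℕ} (G : Matrix (Fin a) (Fin a) ℂ) (hG : IsUnit G.det) (l : List ℂ)
    (hl : ∀ μ ∈ l, μ ≠ 0) : ∃ U : Matrix (Fin a) (Fin a) ℂ, Commute U G ∧
      ((l.map (fun μ => μ⁻¹)).map (fun μ => G⁻¹ - Matrix.scalar (Fin a) μ)).prod =
        U * (l.map (fun μ => G - Matrix.scalar (Fin a) μ)).prod := by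
  induction l with
  | nil => exact ⟨1, Commute.one_left G, by simp⟩
  | cons μ l ih =>
    obtain ⟨U, hU, h⟩ := ih fun ν hν => hl ν (List.mem_cons_of_mem _ hν)
    have hμ := hl μ List.mem_cons_self
    have hinv : Commute G⁻¹ G := by
      change G⁻¹ * G = G * G⁻¹
      rw [Matrix.nonsing_inv_mul _ hG, Matrix.mul_nonsing_inv _ hG]
    refine ⟨(-(μ⁻¹ • G⁻¹)) * U, ?_, ?_⟩
    · exact ((hinv.smul_left μ⁻¹).neg_left).mul_left hU
    · rw [List.map_cons, List.map_cons, List.map_cons, List.prod_cons, List.prod_cons, h]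
      have e1 : G⁻¹ - Matrix.scalar (Fin a) μ⁻¹ =
          (-(μ⁻¹ • G⁻¹)) * (G - Matrix.scalar (Fin a) μ) := by
        have e2 : G⁻¹ * Matrix.scalar (Fin a) μ = μ • G⁻¹ := by
          ext i j
          rw [Matrix.scalar_apply, Matrix.mul_diagonal, Matrix.smul_apply, smul_eq_mul, mul_comm]
        rw [mul_sub, neg_mul, neg_mul, smul_mul_assoc, smul_mul_assoc,
          Matrix.nonsing_inv_mul _ hG, e2, smul_smul, inv_mul_cancel₀ hμ, one_smul]
        rw [sub_neg_eq_add, Matrix.scalar_apply, ← Matrix.smul_one_eq_diagonal]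
        abel
      have e3 : U * (G - Matrix.scalar (Fin a) μ) = (G - Matrix.scalar (Fin a) μ) * U := by
        have e4 : U * Matrix.scalar (Fin a) μ = Matrix.scalar (Fin a) μ * U :=
          ((Matrix.scalar_commute μ (fun r => Commute.all _ _) U).eq).symm
        rw [mul_sub, sub_mul, hU.eq, e4]
      rw [e1, mul_assoc (-(μ⁻¹ • G⁻¹)), mul_assoc (-(μ⁻¹ • G⁻¹)), ← mul_assoc U, e3, mul_assoc]

/-- PROOF. The roots `μ_1, ..., μ_m` of the characteristic polynomial `f` of `γ` have product `± det γ`, so `∏ v(μ_i) = 1`; as `v μ ≠ 1` for one of them they do not all have the same absolute value. Let `w` be the maximal value, `f = f₁ f₂`, `f₁` the product of the `X - μ_i` with `v(μ_i) = w`, `f₂` the product of the other ones; `f₁`, `f₂` are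
coprime, of positive degree. `V = ker f₁(γ) ⊕ ker f₂(γ)` (Cayley-Hamilton), both nonzero (each contains an eigenvector) and `γ`-invariant. Choose bases: `a = dim ker f₁(γ)`, `b = dim ker f₂(γ)`, blocks `Gp`, `Gm`, with `f₁(Gp) = 0`, `f₂(Gm) = 0`. `w > 0`. `Gp` is invertible (its eigenvalues are roots of `f₁`, nonzero); `Gp⁻¹` is killed by
`∏ (X - μ_i⁻¹)` over the roots of `f₁` (multiply by powers of `Gp⁻¹`), `v(μ_i⁻¹) = w⁻¹`. If all roots of `f₂` have `v ≤ w' < w` choose `w' < ρ < w` and `ρ' > w⁻¹` with `ρ ρ' < 1`: `pow_bound` for `Gm` and `Gp⁻¹`, `θ = ρ ρ'` (`θ ≥ 0`). `Gm` is invertible since `γ` is. -/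
theorem decomp (v : AbsoluteValue ℂ ℝ) (m : ℕ) (γ : Matrix (Fin m) (Fin m) ℂ)
    (hdet : v γ.det = 1) (μ : ℂ) (hμ : γ.charpoly.IsRoot μ) (hv : v μ ≠ 1) :
    ∃ (a b : ℕ) (P : (Fin m → ℂ) ≃ₗ[ℂ] (Fin a ⊕ Fin b → ℂ)) (Gp : Matrix (Fin a) (Fin a) ℂ)
      (Gm : Matrix (Fin b) (Fin b) ℂ), 0 < a ∧ 0 < b ∧ IsUnit Gp.det ∧ IsUnit Gm.det ∧
      (∀ x, P (γ.mulVec x) = (Matrix.fromBlocks Gp 0 0 Gm).mulVec (P x)) ∧
      ∃ C θ : ℝ, 0 ≤ θ ∧ θ < 1 ∧ ∀ n : ℕ, vn v (Gm ^ n) * vn v (Gp⁻¹ ^ n) ≤ C * θ ^ n := by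
  have hdet0 : γ.det ≠ 0 := by
    intro h
    rw [h, map_zero] at hdet
    exact zero_ne_one hdet
  have hu : IsUnit γ.det := isUnit_iff_ne_zero.2 hdet0
  have hmon := γ.charpoly_monic
  set R := γ.charpoly.roots with hR
  have hμR : μ ∈ R := (Polynomial.mem_roots hmon.ne_zero).2 hμ
  have hdR : γ.det = R.prod := Matrix.det_eq_prod_roots_charpoly γ
  have hne : ∀ ν ∈ R, ν ≠ 0 := by
    rintro ν hν rfl
    exact hdet0 (by rw [hdR, Multiset.prod_eq_zero hν])
  -- the maximal absolute value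
  obtain ⟨ω, hω, hmax⟩ := R.toFinset.exists_max_image v ⟨μ, Multiset.mem_toFinset.2 hμR⟩
  rw [Multiset.mem_toFinset] at hω
  have hmax' : ∀ ν ∈ R, v ν ≤ v ω := fun ν hν => hmax ν (Multiset.mem_toFinset.2 hν)
  have hw0 : 0 < v ω := v.pos (hne ω hω)
  obtain ⟨ν, hν, hνw⟩ : ∃ ν ∈ R, v ν ≠ v ω := by
    by_contra hcon
    push Not at hcon
    have h1 : (R.map v).prod = 1 := by
      rw [← map_multiset_prod, ← hdR, hdet]
    have h2 : R.map v = Multiset.replicate (Multiset.card R) (v ω) := by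
      rw [Multiset.eq_replicate]
      refine ⟨Multiset.card_map _ _, ?_⟩
      intro c hc
      obtain ⟨ν, hν, rfl⟩ := Multiset.mem_map.1 hc
      exact hcon ν hν
    rw [h2, Multiset.prod_replicate] at h1
    have h3 : Multiset.card R ≠ 0 := by
      intro h
      rw [Multiset.card_eq_zero] at h
      rw [h] at hμR
      exact Multiset.notMem_zero _ hμR
    have h4 : v ω = 1 := (pow_eq_one_iff_of_nonneg hw0.le h3).1 h1
    exact hv (by rw [hcon μ hμR, h4])
  set R₁ := R.filter (fun a => v a = v ω) with hR₁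
  set R₂ := R.filter (fun a => ¬ v a = v ω) with hR₂
  have hsum : R₁ + R₂ = R := Multiset.filter_add_not _ _
  set f₁ : Polynomial ℂ := (R₁.map (fun a => Polynomial.X - Polynomial.C a)).prod with hf₁
  set f₂ : Polynomial ℂ := (R₂.map (fun a => Polynomial.X - Polynomial.C a)).prod with hf₂
  have hf : γ.charpoly = f₁ * f₂ := by
    rw [(IsAlgClosed.splits γ.charpoly).eq_prod_roots_of_monic hmon, ← hR, ← hsum,
      Multiset.map_add, Multiset.prod_add]
  have hcop : IsCoprime f₁ f₂ := by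
    apply DecA_cop
    intro a ha c hc hac
    rw [hR₁, Multiset.mem_filter] at ha
    rw [hR₂, Multiset.mem_filter] at hc
    exact hc.2 (by rw [← hac]; exact ha.2)
  set T := Matrix.toLin' γ with hT
  have hinv : ∀ (f : Polynomial ℂ), ∀ x ∈ LinearMap.ker (Polynomial.aeval T f),
      T x ∈ LinearMap.ker (Polynomial.aeval T f) := by
    intro f x hx
    rw [LinearMap.mem_ker] at hx ⊢
    have h1 : Polynomial.aeval T f * T = T * Polynomial.aeval T f := by
      have h2 : Polynomial.aeval T (f * Polynomial.X) =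
        Polynomial.aeval T (Polynomial.X * f) := by rw [mul_comm]
      rw [map_mul, map_mul, Polynomial.aeval_X] at h2
      exact h2
    have h3 := congrArg (fun g : Module.End ℂ (Fin m → ℂ) => g x) h1
    simp only [Module.End.mul_apply] at h3
    rw [h3, hx, map_zero]
  have hcompl : IsCompl (LinearMap.ker (Polynomial.aeval T f₁))
      (LinearMap.ker (Polynomial.aeval T f₂)) := by
    refine ⟨Polynomial.disjoint_ker_aeval_of_isCoprime T hcop, ?_⟩
    rw [codisjoint_iff, Polynomial.sup_ker_aeval_eq_ker_aeval_mul_of_coprime T hcop, ← hf,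
      LinearMap.ker_eq_top]
    have h1 := Polynomial.aeval_algHom_apply
      (Matrix.toLinAlgEquiv' : Matrix (Fin m) (Fin m) ℂ ≃ₐ[ℂ] _) γ γ.charpoly
    rw [Matrix.aeval_self_charpoly, map_zero] at h1
    exact h1
  have hvec : ∀ a ∈ R, ∃ x : Fin m → ℂ, x ≠ 0 ∧ T x = a • x := by
    intro a ha
    have h1 : γ.charpoly.eval a = 0 := (Polynomial.mem_roots hmon.ne_zero).1 ha
    rw [Matrix.eval_charpoly] at h1
    obtain ⟨x, hx, h2⟩ := Matrix.exists_mulVec_eq_zero_iff.2 h1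
    refine ⟨x, hx, ?_⟩
    rw [Matrix.sub_mulVec, sub_eq_zero] at h2
    rw [hT, Matrix.toLin'_apply, ← h2]
    ext i
    rw [Matrix.scalar_apply, Matrix.mulVec_diagonal, Pi.smul_apply, smul_eq_mul]
  have hroot : ∀ (S : Multiset ℂ), ∀ a ∈ S,
      ((S.map (fun a => Polynomial.X - Polynomial.C a)).prod).IsRoot a := by
    intro S a ha
    rw [← Polynomial.dvd_iff_isRoot]
    exact Multiset.dvd_prod (Multiset.mem_map_of_mem _ ha)
  have hbot : ∀ (S : Multiset ℂ), ∀ a ∈ S, a ∈ R → LinearMap.ker (Polynomial.aeval T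
      (S.map (fun a => Polynomial.X - Polynomial.C a)).prod) ≠ ⊥ := by
    intro S a ha haR h
    obtain ⟨x, hx, h2⟩ := hvec a haR
    rw [LinearMap.ker_eq_bot'] at h
    exact hx (h x (DecA_root T h2 _ (hroot S a ha)))
  have hlist : ∀ (S : Multiset ℂ), ∀ x ∈ LinearMap.ker (Polynomial.aeval T
      (S.map (fun a => Polynomial.X - Polynomial.C a)).prod),
      (S.toList.map (fun μ => T - algebraMap ℂ (Module.End ℂ (Fin m → ℂ)) μ)).prod x = 0 := by
    intro S x hx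
    rw [LinearMap.mem_ker] at hx
    have h1 : (S.map (fun a => Polynomial.X - Polynomial.C a)).prod =
        (S.toList.map (fun a => Polynomial.X - Polynomial.C a)).prod := by
      conv_lhs => rw [← Multiset.coe_toList S]
      rw [Multiset.map_coe, Multiset.prod_coe]
    rw [h1, map_list_prod, List.map_map] at hx
    rw [← hx]
    congr 2
    refine List.map_congr_left fun a _ => ?_
    rw [Function.comp_apply, map_sub, Polynomial.aeval_X, Polynomial.aeval_C]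
  have hωR : ω ∈ R₁ := by
    rw [hR₁, Multiset.mem_filter]
    exact ⟨hω, rfl⟩
  have hνR : ν ∈ R₂ := by
    rw [hR₂, Multiset.mem_filter]
    exact ⟨hν, hνw⟩
  obtain ⟨a, b, P, Gp, Gm, ha, hb, up, um, hP, zp, zm⟩ := DecA_block γ hu _ _ hcompl (hinv f₁)
    (hinv f₂) (hbot R₁ ω hωR hω) (hbot R₂ ν hνR hν) R₁.toList R₂.toList (hlist R₁) (hlist R₂)
  refine ⟨a, b, P, Gp, Gm, ha, hb, up, um, hP, ?_⟩
  -- the bounds
  obtain ⟨ω', hω', hmax2⟩ := R₂.toFinset.exists_max_image v ⟨ν, Multiset.mem_toFinset.2 hνR⟩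
  rw [Multiset.mem_toFinset] at hω'
  have hw' : v ω' < v ω := by
    rw [hR₂, Multiset.mem_filter] at hω'
    exact lt_of_le_of_ne (hmax' ω' hω'.1) hω'.2
  obtain ⟨ρ, hρ1, hρ2⟩ := exists_between hw'
  have hρ0 : 0 < ρ := lt_of_le_of_lt (v.nonneg ω') hρ1
  have hρ3 : (v ω)⁻¹ < ρ⁻¹ := (inv_lt_inv₀ hw0 hρ0).2 hρ2
  obtain ⟨ρ', hρ4, hρ5⟩ := exists_between hρ3
  have hρ'0 : 0 < ρ' := lt_trans (inv_pos.2 hw0) hρ4
  have hθ : ρ * ρ' < 1 := by
    have h1 := mul_lt_mul_of_pos_left hρ5 hρ0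
    rwa [mul_inv_cancel₀ hρ0.ne'] at h1
  obtain ⟨C₁, hC₁⟩ := pow_bound v Gm R₂.toList zm (v ω') ρ hρ0
    (fun c hc => hmax2 c (Multiset.mem_toFinset.2 (Multiset.mem_toList.1 hc))) hρ1
  have hR₁0 : ∀ c ∈ R₁.toList, c ≠ 0 := by
    intro c hc
    rw [Multiset.mem_toList, hR₁, Multiset.mem_filter] at hc
    exact hne c hc.1
  obtain ⟨U, -, hU⟩ := DecA_inv Gp up R₁.toList hR₁0
  rw [zp, mul_zero] at hU
  obtain ⟨C₂, hC₂⟩ := pow_bound v Gp⁻¹ (R₁.toList.map (fun μ => μ⁻¹)) hU (v ω)⁻¹ ρ' hρ'0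
    (fun c hc => by
      obtain ⟨e, he, rfl⟩ := List.mem_map.1 hc
      rw [Multiset.mem_toList, hR₁, Multiset.mem_filter] at he
      rw [map_inv₀, he.2]) hρ4
  refine ⟨C₁ * C₂, ρ * ρ', by positivity, hθ, fun n => ?_⟩
  have e1 := hC₁ n
  have e2 := hC₂ n
  have e3 := vn_nonneg v (Gm ^ n)
  have e4 := vn_nonneg v (Gp⁻¹ ^ n)
  calc vn v (Gm ^ n) * vn v (Gp⁻¹ ^ n) ≤ (C₁ * ρ ^ n) * (C₂ * ρ' ^ n) :=
        mul_le_mul e1 e2 e4 (e3.trans e1)
    _ = C₁ * C₂ * (ρ * ρ') ^ n := by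
        rw [mul_pow]
        ring

end PDG
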