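import Pool.Agent.W_3f3beb_h76.GrB

/-! # Cyclic extensions of subexponential growth: eigenvalues -/

set_option autoImplicit false

open scoped Classical

namespace PDG

variable {H : Type} [Group H]

/-- the digit sums -/
noncomputable def EigA_s (M : ℂ) : List Bool → ℂ
  | [] => 0
  | b :: w => (if b then 1 else 0) + M * EigA_s M w

theorem EigA_ne (M : ℂ) (hM : 3 ≤ ‖M‖) : ∀ w w' : List Bool, w.length = w'.length → w ≠ w' →
    1 / 2 ≤ ‖EigA_s M w - EigA_s M w'‖ := by
  intro w
  induction w with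
  | nil =>
    intro w' h hne
    exact absurd (List.length_eq_zero_iff.1 h.symm).symm hne
  | cons b w ih =>
    intro w' h hne
    cases w' with
    | nil => simp at h
    | cons b' w' =>
      have hlen : w.length = w'.length := by simpa using h
      by_cases e : w = w'
      · subst e
        have hb : b ≠ b' := fun e => hne (by rw [e])
        have : EigA_s M (b :: w) - EigA_s M (b' :: w) = (if b then 1 else 0) - (if b' then 1 else 0) := by
          simp [EigA_s]
        rw [this]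
        cases b <;> cases b' <;> simp at hb ⊢ <;> norm_num
      · have h1 := ih w' hlen e
        have h2 : EigA_s M (b :: w) - EigA_s M (b' :: w') =
            M * (EigA_s M w - EigA_s M w') - ((if b' then 1 else 0) - (if b then 1 else 0)) := by
          simp [EigA_s]
          ring
        rw [h2]
        have h3 : ‖((if b' then 1 else 0) - (if b then 1 else 0) : ℂ)‖ ≤ 1 := by
          cases b <;> cases b' <;> simp
        have h4 := norm_sub_norm_le (M * (EigA_s M w - EigA_s M w'))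
          ((if b' then 1 else 0) - (if b then 1 else 0) : ℂ)
        rw [norm_mul] at h4
        have h5 : 3 * (1 / 2) ≤ ‖M‖ * ‖EigA_s M w - EigA_s M w'‖ :=
          mul_le_mul hM h1 (by norm_num) (norm_nonneg _)
        linarith

theorem EigA_word (K : Subgroup H) (hK : K.Normal) (T : H) (l : K →* Multiplicative ℂ)
    (M : ℂ) (hl : ∀ x : K, Multiplicative.toAdd (l ⟨T * x * T⁻¹, hK.conj_mem x x.2 T⟩) =
      M * Multiplicative.toAdd (l x)) (a : K) (w : List Bool) :
    ∃ X : K, wd ((a : H) * T) T w = X * T ^ w.length ∧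
      Multiplicative.toAdd (l X) = EigA_s M w * Multiplicative.toAdd (l a) := by
  induction w with
  | nil => exact ⟨1, by simp [wd], by simp [EigA_s]⟩
  | cons b w ih =>
    obtain ⟨X, hX, hlX⟩ := ih
    set Y : K := ⟨T * X * T⁻¹, hK.conj_mem X X.2 T⟩ with hY
    refine ⟨(if b then a else 1) * Y, ?_, ?_⟩
    · have : wd ((a : H) * T) T (b :: w) = (if b then (a : H) * T else T) * wd ((a : H) * T) T w := by
        simp [wd]
      rw [this, hX]
      cases b <;> simp [hY, pow_succ', mul_assoc]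
    · rw [map_mul, toAdd_mul, hY, hl X, hlX]
      cases b <;> simp [EigA_s] <;> ring

theorem EigA_pow (K : Subgroup H) (hK : K.Normal) (t : H) (l : K →* Multiplicative ℂ)
    (μ : ℂ) (hl : ∀ x : K, Multiplicative.toAdd (l ⟨t * x * t⁻¹, hK.conj_mem x x.2 t⟩) =
      μ * Multiplicative.toAdd (l x)) (q : ℕ) (x : K) :
    Multiplicative.toAdd (l ⟨t ^ q * x * (t ^ q)⁻¹, hK.conj_mem x x.2 (t ^ q)⟩) =
      μ ^ q * Multiplicative.toAdd (l x) := by
  induction q with
  | zero =>
    have : (⟨t ^ 0 * x * (t ^ 0)⁻¹, hK.conj_mem x x.2 (t ^ 0)⟩ : K) = x := by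
      apply Subtype.ext; simp
    rw [this]; simp
  | succ q ih =>
    have : (⟨t ^ (q + 1) * x * (t ^ (q + 1))⁻¹, hK.conj_mem x x.2 (t ^ (q + 1))⟩ : K) =
        ⟨t * (⟨t ^ q * x * (t ^ q)⁻¹, hK.conj_mem x x.2 (t ^ q)⟩ : K) * t⁻¹,
          hK.conj_mem _ (⟨t ^ q * x * (t ^ q)⁻¹, hK.conj_mem x x.2 (t ^ q)⟩ : K).2 t⟩ := by
      apply Subtype.ext
      simp [pow_succ', mul_assoc]
    rw [this, hl, ih]
    ring

/-- PROOF. For a word `w` of length `k`, `wd (a t) t w = a_0^{e_0} a_1^{e_1} ⋯ a_{k-1}^{e_{k-1}} t^k` with `a_i = t^i a t^{-i} ∈ K`, and `l` of the `K`-part is `(∑ e_i μ^i) l a` (`l` additive on `K`, `l (t x t⁻¹) = μ l x`).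
If `|μ| ≥ 3` different `0-1` sequences give different sums (`|μ^j| > ∑_{i<j} |μ|^i`... look at the largest index where they differ: `|μ|^j > (|μ|^j - 1)/(|μ| - 1)`). Then `not_sub_of_words'`. For `|μ| > 1` replace `t` by a power `t^q` with `|μ|^q ≥ 3` (`l (t^q x t^{-q}) = μ^q l x`). -/
theorem eig_bound (h : SubEx H) (K : Subgroup H) (hK : K.Normal) (t : H) (l : K →* Multiplicative ℂ)
    (μ : ℂ) (hl : ∀ x : K, Multiplicative.toAdd (l ⟨t * x * t⁻¹, hK.conj_mem x x.2 t⟩) =
      μ * Multiplicative.toAdd (l x)) (a : K) (ha : Multiplicative.toAdd (l a) ≠ 0) :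
    ‖μ‖ ≤ 1 := by
  by_contra hcon
  push Not at hcon
  obtain ⟨q, hq⟩ := pow_unbounded_of_one_lt 3 hcon
  have hM : 3 ≤ ‖μ ^ q‖ := by rw [norm_pow]; exact hq.le
  refine not_sub_of_words' (a : H) (t ^ q) ?_ h
  intro w w' hlen heq
  obtain ⟨X, hX, hlX⟩ := EigA_word K hK (t ^ q) l (μ ^ q) (EigA_pow K hK t l μ hl q) a w
  obtain ⟨X', hX', hlX'⟩ := EigA_word K hK (t ^ q) l (μ ^ q) (EigA_pow K hK t l μ hl q) a w'
  rw [hX, hX', hlen] at heq
  have hXX : X = X' := Subtype.ext (mul_right_cancel heq)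
  rw [hXX, hlX'] at hlX
  have hs := mul_right_cancel₀ ha hlX
  by_contra hne
  have := EigA_ne (μ ^ q) hM w w' hlen hne
  rw [hs, sub_self, norm_zero] at this
  norm_num at this

end PDG
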