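import Pool.Agent.W_3f3beb_h76.Defs

/-! # Countable fields of characteristic zero embed into the complex numbers -/

set_option autoImplicit false

open scoped Classical

namespace PDG

/-- PROOF. Let `F = AlgebraicClosure K` (countable), `s ⊆ F` a transcendence basis over `ℤ` (or `ℚ`), countable, and `t ⊆ ℂ` a transcendence basis of `ℂ`, uncountable (`IsAlgClosed.cardinal_eq_cardinal_transcendence_basis_of_aleph0_lt`). An injection
`s → t` gives an injective homomorphism from the polynomial ring generated by `s` into `ℂ`, which extends to the algebraic extension `F` (`IsAlgClosed.lift`). Alternatively embed `K` into an algebraically closed field of characteristic 0 of cardinality continuum and use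
`IsAlgClosed.ringEquiv_of_equiv_of_charZero`. -/
theorem exists_embedding (K : Type) [Field K] [CharZero K] [Countable K] : Nonempty (K →+* ℂ) := by
  have h1 : Cardinal.mk (MvPolynomial ℝ K) = Cardinal.continuum := by
    rw [MvPolynomial.cardinalMk_eq_max, Cardinal.mk_real]
    rw [max_eq_right (Cardinal.mk_le_aleph0.trans Cardinal.aleph0_le_continuum)]
    exact max_eq_left Cardinal.aleph0_le_continuum
  have h2 : Cardinal.mk (FractionRing (MvPolynomial ℝ K)) = Cardinal.continuum := by
    rw [IsFractionRing.cardinalMk (MvPolynomial ℝ K) (FractionRing (MvPolynomial ℝ K)), h1]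
  have h3 : Cardinal.mk (AlgebraicClosure (FractionRing (MvPolynomial ℝ K))) =
      Cardinal.continuum := by
    apply le_antisymm
    · refine (Algebra.IsAlgebraic.cardinalMk_le_max (FractionRing (MvPolynomial ℝ K)) _).trans ?_
      rw [h2]
      exact (max_eq_left Cardinal.aleph0_le_continuum).le
    · rw [← h2]
      exact Cardinal.mk_le_of_injective
        (algebraMap (FractionRing (MvPolynomial ℝ K))
          (AlgebraicClosure (FractionRing (MvPolynomial ℝ K)))).injective
  have h4 : CharZero (AlgebraicClosure (FractionRing (MvPolynomial ℝ K))) :=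
    charZero_of_injective_algebraMap
      (algebraMap K (AlgebraicClosure (FractionRing (MvPolynomial ℝ K)))).injective
  have h5 : Nonempty (AlgebraicClosure (FractionRing (MvPolynomial ℝ K)) ≃ ℂ) := by
    rw [← Cardinal.eq, h3, Cardinal.mk_complex]
  obtain ⟨e⟩ := IsAlgClosed.ringEquiv_of_equiv_of_charZero
    (K := AlgebraicClosure (FractionRing (MvPolynomial ℝ K))) (L := ℂ)
    (by rw [h3]; exact Cardinal.aleph0_lt_continuum) h5
  exact ⟨e.toRingHom.comp (algebraMap K (AlgebraicClosure (FractionRing (MvPolynomial ℝ K))))⟩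

theorem EmbC_countable {L : Type} [Group L] (hL : Group.FG L) : Countable L := by
  obtain ⟨α, hα, φ, hφ⟩ := (Group.fg_iff_exists_freeGroup_hom_surjective_finite).1 hL
  exact hφ.countable

/-- the subfield generated by the entries -/
def EmbC_fld {L : Type} [Group L] {K : Type} [Field K] (m : ℕ) (ρ : L →* GL (Fin m) K) :
    Subfield K :=
  Subfield.closure (Set.range fun t : L × Fin m × Fin m => (ρ t.1 : Matrix _ _ K) t.2.1 t.2.2)

theorem EmbC_mem {L : Type} [Group L] {K : Type} [Field K] (m : ℕ) (ρ : L →* GL (Fin m) K)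
    (g : L) (i j : Fin m) : (ρ g : Matrix _ _ K) i j ∈ EmbC_fld m ρ :=
  Subfield.subset_closure ⟨(g, i, j), rfl⟩

/-- the matrix over the small field -/
def EmbC_mat {L : Type} [Group L] {K : Type} [Field K] (m : ℕ) (ρ : L →* GL (Fin m) K) (g : L) :
    Matrix (Fin m) (Fin m) (EmbC_fld m ρ) :=
  fun i j => ⟨(ρ g : Matrix _ _ K) i j, EmbC_mem m ρ g i j⟩

theorem EmbC_map {L : Type} [Group L] {K : Type} [Field K] (m : ℕ) (ρ : L →* GL (Fin m) K)
    (g : L) : (EmbC_mat m ρ g).map (EmbC_fld m ρ).subtype = (ρ g : Matrix _ _ K) := by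
  ext i j
  rfl

theorem EmbC_inj {K : Type} [Field K] (m : ℕ) (F : Subfield K) {A B : Matrix (Fin m) (Fin m) F}
    (h : A.map F.subtype = B.map F.subtype) : A = B := by
  ext i j
  exact congrFun (congrFun h i) j

theorem EmbC_mul {L : Type} [Group L] {K : Type} [Field K] (m : ℕ) (ρ : L →* GL (Fin m) K)
    (g h : L) : EmbC_mat m ρ (g * h) = EmbC_mat m ρ g * EmbC_mat m ρ h := by
  apply EmbC_inj
  rw [Matrix.map_mul, EmbC_map, EmbC_map, EmbC_map, map_mul, Units.val_mul]

theorem EmbC_one {L : Type} [Group L] {K : Type} [Field K] (m : ℕ) (ρ : L →* GL (Fin m) K) :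
    EmbC_mat m ρ 1 = 1 := by
  apply EmbC_inj
  rw [EmbC_map, map_one, Units.val_one, Matrix.map_one _ (map_zero _) (map_one _)]

/-- PROOF. Let `K₀` be the subfield generated by the entries of the images of finitely many generators (closed under inverses): countable. All `ρ g` have entries in `K₀` (and the inverses too). Apply `exists_embedding` to `K₀`; entrywise injective, so the kernel does not change. -/
theorem rep_to_C {L : Type} [Group L] (hL : Group.FG L) {K : Type} [Field K] [CharZero K]
    (m : ℕ) (ρ : L →* GL (Fin m) K) : ∃ ρ' : L →* GL (Fin m) ℂ, ρ'.ker = ρ.ker := by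
  have hc : Countable L := EmbC_countable hL
  have hc' : Countable (EmbC_fld m ρ) := by
    have h1 := Subfield.cardinalMk_closure_le_max
      (Set.range fun t : L × Fin m × Fin m => (ρ t.1 : Matrix _ _ K) t.2.1 t.2.2)
    have h2 : Cardinal.mk (Set.range fun t : L × Fin m × Fin m =>
        (ρ t.1 : Matrix _ _ K) t.2.1 t.2.2) ≤ Cardinal.aleph0 :=
      Cardinal.mk_le_aleph0_iff.2 (Set.countable_range _).to_subtype
    rw [max_eq_right h2] at h1
    exact Cardinal.mk_le_aleph0_iff.1 h1
  obtain ⟨φ⟩ := exists_embedding (EmbC_fld m ρ)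
  let ρ₀ : L →* Matrix (Fin m) (Fin m) (EmbC_fld m ρ) :=
    { toFun := EmbC_mat m ρ
      map_one' := EmbC_one m ρ
      map_mul' := EmbC_mul m ρ }
  let ρ₁ : L →* GL (Fin m) (EmbC_fld m ρ) := ρ₀.toHomUnits
  have hρ₁ : ∀ g, ((ρ₁ g : GL (Fin m) (EmbC_fld m ρ)) : Matrix _ _ _) = EmbC_mat m ρ g :=
    fun g => rfl
  refine ⟨(Matrix.GeneralLinearGroup.map φ).comp ρ₁, ?_⟩
  ext g
  rw [MonoidHom.mem_ker, MonoidHom.mem_ker, MonoidHom.comp_apply]
  constructor
  · intro h
    have h1 : ρ₁ g = 1 := by
      apply Units.ext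
      ext i j
      have h2 : φ ((ρ₁ g : Matrix _ _ _) i j) = φ ((1 : Matrix (Fin m) (Fin m) _) i j) := by
        have h3 := congrArg (fun u : GL (Fin m) ℂ => (u : Matrix _ _ ℂ) i j) h
        have h4 : φ ((1 : Matrix (Fin m) (Fin m) (EmbC_fld m ρ)) i j) =
            (1 : Matrix (Fin m) (Fin m) ℂ) i j := by
          rw [Matrix.one_apply, Matrix.one_apply]
          split_ifs
          · exact map_one φ
          · exact map_zero φ
        rw [h4]
        exact h3
      exact congrArg Subtype.val (φ.injective h2)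
    apply Units.ext
    rw [← EmbC_map m ρ g, ← hρ₁, h1, Units.val_one, Matrix.map_one _ (map_zero _) (map_one _),
      Units.val_one]
  · intro h
    have h1 : ρ₁ g = 1 := by
      apply Units.ext
      rw [hρ₁, Units.val_one]
      apply EmbC_inj
      rw [EmbC_map, h, Units.val_one, Matrix.map_one _ (map_zero _) (map_one _)]
    rw [h1, map_one]

end PDG
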