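import Pool.Agent.W_3f3beb_h76.Defs

/-! # Growth: elementary properties -/

set_option autoImplicit false

open scoped Classical

namespace PDG

variable {L : Type} [Group L]

theorem one_mem_ball (S : Finset L) (n : ℕ) : (1 : L) ∈ ball S n :=
  ⟨[], by simp, by simp, by simp⟩

/-- lists of length `≤ n` over the finite set `S ∪ S⁻¹` are finite in number -/
theorem ball_finite (S : Finset L) (n : ℕ) : (ball S n).Finite := by
  induction n with
  | zero =>
    apply (Set.finite_singleton (1 : L)).subset
    rintro g ⟨l, hl, -, rfl⟩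
    have : l = [] := List.length_eq_zero_iff.1 (Nat.le_zero.1 hl)
    subst this
    simp
  | succ n ih =>
    have hS : ({s : L | s ∈ S ∨ s⁻¹ ∈ S}).Finite := by
      have h1 : {s : L | s ∈ S ∨ s⁻¹ ∈ S} = (S : Set L) ∪ (fun x : L => x⁻¹) '' (S : Set L) := by
        ext s
        simp
      rw [h1]
      exact S.finite_toSet.union (S.finite_toSet.image _)
    apply ((Set.finite_singleton (1 : L)).union
      (Set.Finite.image2 (fun a b : L => a * b) hS ih)).subset
    rintro g ⟨l, hl, hm, rfl⟩
    cases l with
    | nil => left; simp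
    | cons a l =>
      right
      rw [List.prod_cons]
      refine ⟨a, hm a (by simp), l.prod, ⟨l, by simpa using hl, ?_, rfl⟩, rfl⟩
      intro s hs
      exact hm s (by simp [hs])

theorem ball_mul (S : Finset L) {n m : ℕ} {x y : L} (hx : x ∈ ball S n) (hy : y ∈ ball S m) :
    x * y ∈ ball S (n + m) := by
  obtain ⟨l, hl, hm, rfl⟩ := hx
  obtain ⟨l', hl', hm', rfl⟩ := hy
  refine ⟨l ++ l', ?_, ?_, List.prod_append⟩
  · rw [List.length_append]; omega
  · intro s hs
    rcases List.mem_append.1 hs with h | h
    · exact hm s h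
    · exact hm' s h

/-- reverse the list and invert its entries -/
theorem ball_inv (S : Finset L) {n : ℕ} {x : L} (hx : x ∈ ball S n) : x⁻¹ ∈ ball S n := by
  obtain ⟨l, hl, hm, rfl⟩ := hx
  refine ⟨(l.map fun x => x⁻¹).reverse, by simpa using hl, ?_, (List.prod_inv_reverse l).symm⟩
  intro s hs
  rw [List.mem_reverse, List.mem_map] at hs
  obtain ⟨t, ht, rfl⟩ := hs
  rcases hm t ht with h | h
  · right; simpa using h
  · left; exact h

theorem ball_mono (S : Finset L) {n m : ℕ} (h : n ≤ m) : ball S n ⊆ ball S m := by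
  rintro g ⟨l, hl, hm, rfl⟩
  exact ⟨l, hl.trans h, hm, rfl⟩

/-- if `T ⊆ ball S k` then `ball T n ⊆ ball S (k * n)` (replace every letter by a word) -/
theorem ball_sub (S T : Finset L) (k : ℕ) (h : ∀ t ∈ T, t ∈ ball S k) (n : ℕ) :
    ball T n ⊆ ball S (k * n) := by
  have key : ∀ l : List L, (∀ s ∈ l, s ∈ T ∨ s⁻¹ ∈ T) → l.prod ∈ ball S (k * l.length) := by
    intro l
    induction l with
    | nil => intro _; exact one_mem_ball S _
    | cons a l ih =>
      intro hm
      rw [List.prod_cons, List.length_cons, Nat.mul_succ, Nat.add_comm]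
      apply ball_mul
      · rcases hm a (by simp) with h1 | h1
        · exact h a h1
        · have := ball_inv S (h _ h1)
          rwa [inv_inv] at this
      · exact ih fun s hs => hm s (by simp [hs])
  rintro g ⟨l, hl, hm, rfl⟩
  exact ball_mono S (Nat.mul_le_mul_left k hl) (key l hm)

/-- every element of the subgroup generated by `S` is in some ball -/
theorem mem_ball_of_closure (S : Finset L) {x : L} (hx : x ∈ Subgroup.closure (S : Set L)) :
    ∃ n, x ∈ ball S n := by
  induction hx using Subgroup.closure_induction with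
  | mem x hx => exact ⟨1, [x], by simp, by intro s hs; left; simpa [List.mem_singleton.1 hs] using hx, by simp⟩
  | one => exact ⟨0, one_mem_ball S 0⟩
  | mul x y _ _ hx hy =>
    obtain ⟨n, hn⟩ := hx
    obtain ⟨m, hm⟩ := hy
    exact ⟨n + m, ball_mul S hn hm⟩
  | inv x _ hx =>
    obtain ⟨n, hn⟩ := hx
    exact ⟨n, ball_inv S hn⟩

theorem ball_add_sub (S : Finset L) (n m : ℕ) :
    ball S (n + m) ⊆ Set.image2 (fun a b : L => a * b) (ball S n) (ball S m) := by
  rintro g ⟨l, hl, hm, rfl⟩
  refine ⟨(l.take n).prod, ⟨l.take n, by simp, ?_, rfl⟩, (l.drop n).prod,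
    ⟨l.drop n, ?_, ?_, rfl⟩, ?_⟩
  · intro s hs
    exact hm s (List.mem_of_mem_take hs)
  · rw [List.length_drop]; omega
  · intro s hs
    exact hm s (List.mem_of_mem_drop hs)
  · change (l.take n).prod * (l.drop n).prod = l.prod
    rw [← List.prod_append, List.take_append_drop]

theorem growth_mul_le (S : Finset L) (n m : ℕ) : growth S (n + m) ≤ growth S n * growth S m := by
  have h1 : (ball S n ×ˢ ball S m).Finite := (ball_finite S n).prod (ball_finite S m)
  have h2 : Set.image2 (fun a b : L => a * b) (ball S n) (ball S m)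
      = (fun q : L × L => q.1 * q.2) '' (ball S n ×ˢ ball S m) :=
    (Set.image_prod (fun a b : L => a * b)).symm
  calc growth S (n + m) ≤ (Set.image2 (fun a b : L => a * b) (ball S n) (ball S m)).ncard :=
        Set.ncard_le_ncard (ball_add_sub S n m) (by rw [h2]; exact h1.image _)
    _ ≤ (ball S n ×ˢ ball S m).ncard := by rw [h2]; exact Set.ncard_image_le h1
    _ = growth S n * growth S m := by rw [Set.ncard_prod]; rfl

theorem growth_pos (S : Finset L) (n : ℕ) : 1 ≤ growth S n := by
  have : 0 < (ball S n).ncard := (Set.ncard_pos (ball_finite S n)).2 ⟨1, one_mem_ball S n⟩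
  exact this

end PDG
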