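import Pool.Agent.W_3f3beb_h76.GrA

/-! # Subexponential and polynomial growth: subgroups, quotients, words -/

set_option autoImplicit false

open scoped Classical

namespace PDG

variable {L : Type} [Group L]

theorem growth_mono (S : Finset L) {n m : ℕ} (h : n ≤ m) : growth S n ≤ growth S m :=
  Set.ncard_le_ncard (ball_mono S h) (ball_finite S m)

theorem exists_ball_radius (S T : Finset L) (hS : Subgroup.closure (S : Set L) = ⊤) :
    ∃ k : ℕ, 1 ≤ k ∧ ∀ t ∈ T, t ∈ ball S k := by
  induction T using Finset.induction_on with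
  | empty => exact ⟨1, le_rfl, by simp⟩
  | insert a T _ ih =>
    obtain ⟨k, hk, hT⟩ := ih
    obtain ⟨n, hn⟩ := mem_ball_of_closure S (x := a) (by rw [hS]; trivial)
    refine ⟨k + n, by omega, ?_⟩
    intro t ht
    rcases Finset.mem_insert.1 ht with h | h
    · subst h
      exact ball_mono S (by omega) hn
    · exact ball_mono S (by omega) (hT t h)

theorem growth_le_of_ball (S T : Finset L) (k : ℕ) (h : ∀ t ∈ T, t ∈ ball S k) (n : ℕ) :
    growth T n ≤ growth S (k * n) :=
  Set.ncard_le_ncard (ball_sub S T k h n) (ball_finite S _)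

/-- PROOF. Let `S` generate `L`, `T` finite, `c > 1`. Every element of `T` is in some `ball S k`
(`mem_ball_of_closure`, `ball_mono`), so `growth T m ≤ growth S (k m) ≤ (1 + ε)^(k m) < c^m` for large `m`
if `(1 + ε)^k < c` (`k ≥ 1`). -/
theorem SubEx.of_subexp (h : SubexpGrowth L) : SubEx L := by
  obtain ⟨S, hS, hb⟩ := h
  intro T c hc
  obtain ⟨k, hk, hT⟩ := exists_ball_radius S T hS
  have hc0 : (0 : ℝ) ≤ c := by linarith
  set b : ℝ := c ^ ((((2 * k : ℕ) : ℝ))⁻¹) with hbdef
  have hbpow : b ^ (2 * k) = c := Real.rpow_inv_natCast_pow hc0 (by omega)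
  have hb1 : 1 < b := Real.one_lt_rpow hc (by positivity)
  have hbk : b ^ k < c := by
    rw [← hbpow]
    exact pow_lt_pow_right₀ hb1 (by omega)
  obtain ⟨N, hN⟩ := hb (b - 1) (by linarith)
  refine ⟨N + 1, by omega, ?_⟩
  have h1 : (growth T (N + 1) : ℝ) ≤ growth S (k * (N + 1)) := by
    exact_mod_cast growth_le_of_ball S T k hT (N + 1)
  have h2 : (growth S (k * (N + 1)) : ℝ) ≤ b ^ (k * (N + 1)) := by
    have := hN (k * (N + 1)) (by nlinarith)
    simpa using this
  have h3 : b ^ (k * (N + 1)) < c ^ (N + 1) := by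
    rw [pow_mul]
    exact pow_lt_pow_left₀ hbk (by positivity) (by omega)
  linarith

theorem map_ball {L' : Type} [Group L'] (f : L' →* L) (S : Finset L') (n : ℕ) :
    ball (S.image f) n = f '' ball S n := by
  ext x
  constructor
  · rintro ⟨l, hl, hm, rfl⟩
    have key : ∀ l : List L, (∀ s ∈ l, s ∈ S.image f ∨ s⁻¹ ∈ S.image f) →
        ∃ l' : List L', l'.length = l.length ∧ (∀ s ∈ l', s ∈ S ∨ s⁻¹ ∈ S) ∧
          f l'.prod = l.prod := by
      intro l
      induction l with
      | nil => intro _; exact ⟨[], rfl, by simp, by simp⟩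
      | cons a l ih =>
        intro hm
        obtain ⟨l', h1, h2, h3⟩ := ih fun s hs => hm s (by simp [hs])
        have ha : ∃ a' : L', (a' ∈ S ∨ a'⁻¹ ∈ S) ∧ f a' = a := by
          rcases hm a (by simp) with h | h
          · obtain ⟨a', ha', h'⟩ := Finset.mem_image.1 h
            exact ⟨a', Or.inl ha', h'⟩
          · obtain ⟨a', ha', h'⟩ := Finset.mem_image.1 h
            exact ⟨a'⁻¹, Or.inr (by simpa using ha'), by rw [map_inv, h', inv_inv]⟩
        obtain ⟨a', ha', hfa⟩ := ha
        refine ⟨a' :: l', by simp [h1], ?_, by simp [h3, hfa]⟩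
        intro s hs
        rcases List.mem_cons.1 hs with h | h
        · rw [h]; exact ha'
        · exact h2 s h
    obtain ⟨l', h1, h2, h3⟩ := key l hm
    exact ⟨l'.prod, ⟨l', by omega, h2, rfl⟩, h3⟩
  · rintro ⟨y, ⟨l, hl, hm, rfl⟩, rfl⟩
    refine ⟨l.map f, by simpa using hl, ?_, by rw [map_list_prod]⟩
    intro s hs
    obtain ⟨t, ht, rfl⟩ := List.mem_map.1 hs
    rcases hm t ht with h | h
    · left; exact Finset.mem_image_of_mem f h
    · right; rw [← map_inv]; exact Finset.mem_image_of_mem f h

theorem growth_image_of_injective {L' : Type} [Group L'] (f : L' →* L)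
    (hf : Function.Injective f) (S : Finset L') (n : ℕ) :
    growth (S.image f) n = growth S n := by
  rw [growth, map_ball, Set.ncard_image_of_injective _ hf, growth]

theorem growth_image_le {L' : Type} [Group L'] (f : L' →* L) (S : Finset L') (n : ℕ) :
    growth (S.image f) n ≤ growth S n := by
  rw [growth, map_ball]
  exact Set.ncard_image_le (ball_finite S n)

/-- PROOF. `f` maps the ball of a finite set `S` injectively into the ball of the image of `S`. -/
theorem SubEx.of_injective {L' : Type} [Group L'] (h : SubEx L) (f : L' →* L)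
    (hf : Function.Injective f) : SubEx L' := by
  intro S c hc
  obtain ⟨m, hm, hlt⟩ := h (S.image f) c hc
  rw [growth_image_of_injective f hf] at hlt
  exact ⟨m, hm, hlt⟩

theorem SubEx.subgroup (h : SubEx L) (H : Subgroup L) : SubEx H :=
  h.of_injective H.subtype H.subtype_injective

/-- PROOF. Choose preimages of the elements of the finite set; the ball of `L` maps onto the ball of `L'`. -/
theorem SubEx.of_surjective {L' : Type} [Group L'] (h : SubEx L) (f : L →* L')
    (hf : Function.Surjective f) : SubEx L' := by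
  intro S c hc
  obtain ⟨m, hm, hlt⟩ := h (S.image (Function.surjInv hf)) c hc
  refine ⟨m, hm, lt_of_le_of_lt ?_ hlt⟩
  have h1 : (S.image (Function.surjInv hf)).image f = S := by
    rw [Finset.image_image]
    have : (f ∘ Function.surjInv hf) = id := funext fun x => Function.surjInv_eq hf x
    rw [this, Finset.image_id]
  have h2 := growth_image_le f (S.image (Function.surjInv hf)) m
  rw [h1] at h2
  exact_mod_cast h2

theorem growth_mul_pow_le (S : Finset L) (n k : ℕ) : growth S (n * k) ≤ growth S n ^ k := by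
  induction k with
  | zero =>
    have : ball S (n * 0) ⊆ {1} := by
      rintro g ⟨l, hl, -, rfl⟩
      have : l = [] := List.length_eq_zero_iff.1 (by simpa using hl)
      subst this
      simp
    rw [pow_zero]
    calc growth S (n * 0) ≤ ({1} : Set L).ncard :=
          Set.ncard_le_ncard this (Set.finite_singleton 1)
      _ = 1 := Set.ncard_singleton 1
  | succ k ih =>
    rw [Nat.mul_succ, pow_succ]
    exact (growth_mul_le S (n * k) n).trans (Nat.mul_le_mul_right _ ih)

/-- PROOF. `growth S m₀ < c^m₀` for some `m₀ ≥ 1`; for `m = k m₀ + r`, `r < m₀`: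
`growth S m ≤ (growth S m₀)^k * growth S m₀ ≤ C * c^m` (`growth_mul_le`, monotone in `m`). -/
theorem SubEx.bound (h : SubEx L) (S : Finset L) (c : ℝ) (hc : 1 < c) :
    ∃ C : ℝ, ∀ m : ℕ, (growth S m : ℝ) ≤ C * c ^ m := by
  obtain ⟨m₀, hm, hlt⟩ := h S c hc
  refine ⟨growth S m₀, fun m => ?_⟩
  have h1 : growth S m ≤ growth S m₀ ^ (m / m₀) * growth S m₀ := by
    calc growth S m = growth S (m₀ * (m / m₀) + m % m₀) := by rw [Nat.div_add_mod]
      _ ≤ growth S (m₀ * (m / m₀)) * growth S (m % m₀) := growth_mul_le _ _ _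
      _ ≤ growth S m₀ ^ (m / m₀) * growth S m₀ := by
          apply Nat.mul_le_mul (growth_mul_pow_le _ _ _)
          exact growth_mono S (Nat.mod_lt m (by omega)).le
  have h2 : ((growth S m₀ : ℝ)) ^ (m / m₀) ≤ c ^ m := by
    calc ((growth S m₀ : ℝ)) ^ (m / m₀) ≤ (c ^ m₀) ^ (m / m₀) :=
          pow_le_pow_left₀ (by positivity) hlt.le _
      _ = c ^ (m₀ * (m / m₀)) := by rw [pow_mul]
      _ ≤ c ^ m := pow_le_pow_right₀ hc.le (Nat.mul_div_le m m₀)
  have h3 : (growth S m : ℝ) ≤ (growth S m₀ : ℝ) ^ (m / m₀) * growth S m₀ := by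
    exact_mod_cast h1
  calc (growth S m : ℝ) ≤ (growth S m₀ : ℝ) ^ (m / m₀) * growth S m₀ := h3
    _ ≤ c ^ m * growth S m₀ := by
        apply mul_le_mul_of_nonneg_right h2 (by positivity)
    _ = growth S m₀ * c ^ m := mul_comm _ _

/-- the product of the word `w` in the letters `g`, `h` -/
def wd {M : Type} [Monoid M] (g h : M) (w : List Bool) : M :=
  (w.map (fun b => if b then g else h)).prod

/-- PROOF. The `2^n` words of length `n` give `2^n` different elements of `ball {g, h} n`, so
`growth {g, h} n ≥ 2^n` for all `n`, against `SubEx` with `c = 3/2`... (`c^m ≤ 2^m`). -/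
theorem not_sub_of_words (g h : L)
    (hinj : ∀ w w' : List Bool, w.length = w'.length → wd g h w = wd g h w' → w = w') :
    ¬ SubEx L := by
  intro hs
  have key : ∀ n : ℕ, 2 ^ n ≤ growth ({g, h} : Finset L) n := by
    intro n
    let F : (Fin n → Bool) → L := fun v => wd g h (List.ofFn v)
    have hF : Function.Injective F := by
      intro v v' hv
      have := hinj (List.ofFn v) (List.ofFn v') (by simp) hv
      exact List.ofFn_injective this
    have h1 : (F '' Set.univ).ncard = 2 ^ n := by
      rw [Set.ncard_image_of_injective _ hF, Set.ncard_univ]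
      simp
    rw [← h1]
    apply Set.ncard_le_ncard _ (ball_finite _ _)
    rintro x ⟨v, -, rfl⟩
    refine ⟨(List.ofFn v).map (fun b => if b then g else h), by simp, ?_, rfl⟩
    intro s hs
    obtain ⟨b, -, rfl⟩ := List.mem_map.1 hs
    left
    cases b <;> simp
  obtain ⟨m, hm, hlt⟩ := hs ({g, h} : Finset L) (3 / 2) (by norm_num)
  have h1 : ((3 : ℝ) / 2) ^ m ≤ 2 ^ m := pow_le_pow_left₀ (by norm_num) (by norm_num) m
  have h2 : ((2 : ℝ)) ^ m ≤ growth ({g, h} : Finset L) m := by exact_mod_cast key m
  linarith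

/-- a variant for products `a^{e_0} t a^{e_1} t ⋯ a^{e_{n-1}} t`: if for all `n` these `2^n` products
are different then `L` is not of subexponential growth (`growth {a, t} (2 n) ≥ 2^n`; use `SubEx.bound` with
`c = 11/10`, or `SubEx` for the set `{t, a t}`: the products are the words in `g = a t`, `h = t`, so this is
`not_sub_of_words`). -/
theorem not_sub_of_words' (a t : L)
    (hinj : ∀ w w' : List Bool, w.length = w'.length → wd (a * t) t w = wd (a * t) t w' → w = w') :
    ¬ SubEx L := not_sub_of_words (a * t) t hinj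

/-- as for `SubEx.of_injective` -/
theorem Poly.of_injective {L' : Type} [Group L'] (h : Poly L) (f : L' →* L)
    (hf : Function.Injective f) : Poly L' := by
  intro S
  obtain ⟨d, K, hK⟩ := h (S.image f)
  refine ⟨d, K, fun n => ?_⟩
  have := hK n
  rwa [growth_image_of_injective f hf] at this

theorem Poly.subgroup (h : Poly L) (H : Subgroup L) : Poly H :=
  h.of_injective H.subtype H.subtype_injective

end PDG
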