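import Pool.Agent.W_3f3beb_h76.GrB

/-! # Polynomial growth and subgroups of finite index -/

set_option autoImplicit false

open scoped Classical

namespace PDG

variable {L : Type} [Group L]

theorem exists_reps (H : Subgroup L) (hH : H.FiniteIndex) :
    ∃ R : Finset L, 1 ∈ R ∧ ∀ g : L, ∃ h : H, ∃ t ∈ R, g = h * t := by
  haveI : Finite (L ⧸ H) := Subgroup.finite_quotient_of_finiteIndex
  haveI : Fintype (L ⧸ H) := Fintype.ofFinite _
  refine ⟨insert 1 (Finset.univ.image fun q : L ⧸ H => (Quotient.out q)⁻¹), by simp, ?_⟩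
  intro g
  obtain ⟨h, hh⟩ := QuotientGroup.mk_out_eq_mul H g⁻¹
  refine ⟨h, (Quotient.out ((g⁻¹ : L) : L ⧸ H))⁻¹, ?_, ?_⟩
  · simp
  · rw [hh]
    simp

theorem walk (H : Subgroup L) (R : Finset L) (S : Finset L) (T : Finset H)
    (hT : ∀ t ∈ R, ∀ s : L, (s ∈ S ∨ s⁻¹ ∈ S) → ∃ h ∈ T, ∃ t' ∈ R, t * s = (h : L) * t')
    (l : List L) (hl : ∀ s ∈ l, s ∈ S ∨ s⁻¹ ∈ S) :
    ∀ t ∈ R, ∃ h ∈ ball T l.length, ∃ t' ∈ R, t * l.prod = (h : L) * t' := by
  induction l with
  | nil =>
    intro t ht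
    exact ⟨1, one_mem_ball T _, t, ht, by simp⟩
  | cons a l ih =>
    intro t ht
    obtain ⟨h1, hh1, t1, ht1, he1⟩ := hT t ht a (hl a (by simp))
    obtain ⟨h2, hh2, t2, ht2, he2⟩ := ih (fun s hs => hl s (by simp [hs])) t1 ht1
    refine ⟨h1 * h2, ?_, t2, ht2, ?_⟩
    · rw [List.length_cons, Nat.add_comm]
      exact ball_mul T ⟨[h1], by simp, by intro s hs; left; rw [List.mem_singleton.1 hs]; exact hh1,
        by simp⟩ hh2
    · rw [List.prod_cons, ← mul_assoc, he1, mul_assoc, he2, Subgroup.coe_mul, mul_assoc]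

/-- PROOF. `L` is the disjoint union of the cosets `H t_q` (`q` in a finite set `Q`, `t_q` representatives,
`t_{q₀} = 1` for the coset `H`, or take an extra element). Let `S` be finite, `T` the finite set of the elements `t_q s t_{q'}⁻¹ ∈ H`
(`s ∈ S ∪ S⁻¹`) and `t_{q₀} ∈ H`. By induction on the length, every element of `ball S n` is `h * t_q` with `h ∈ ball T (n + 1)` (in `H`).
So `growth S n ≤ |Q| * growth T (n + 1)`, bounded by a polynomial. -/
theorem Poly.of_finiteIndex (H : Subgroup L) (hH : H.FiniteIndex) (h : Poly H) : Poly L := by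
  intro S
  obtain ⟨R, hR1, hR⟩ := exists_reps H hH
  choose hf tf htf hdec using hR
  let S' : Finset L := S ∪ S.image (fun x => x⁻¹)
  let T : Finset H := (R ×ˢ S').image fun q => hf (q.1 * q.2)
  have hT : ∀ t ∈ R, ∀ s : L, (s ∈ S ∨ s⁻¹ ∈ S) →
      ∃ h ∈ T, ∃ t' ∈ R, t * s = (h : L) * t' := by
    intro t ht s hs
    have hs' : s ∈ S' := by
      rcases hs with h | h
      · exact Finset.mem_union_left _ h
      · exact Finset.mem_union_right _ (Finset.mem_image.2 ⟨s⁻¹, h, inv_inv s⟩)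
    exact ⟨hf (t * s), Finset.mem_image.2 ⟨(t, s), Finset.mem_product.2 ⟨ht, hs'⟩, rfl⟩,
      tf (t * s), htf _, hdec _⟩
  obtain ⟨d, K, hK⟩ := h T
  refine ⟨d, K * R.card, fun n => ?_⟩
  have hsub : ball S n ⊆ (fun q : H × L => (q.1 : L) * q.2) '' (ball T n ×ˢ (R : Set L)) := by
    rintro x ⟨l, hl, hm, rfl⟩
    obtain ⟨g, hg, t', ht', he⟩ := walk H R S T hT l hm 1 hR1
    rw [one_mul] at he
    exact ⟨(g, t'), ⟨ball_mono T hl hg, ht'⟩, he.symm⟩
  have hfin : (ball T n ×ˢ (R : Set L)).Finite := (ball_finite T n).prod R.finite_toSet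
  have h1 : growth S n ≤ growth T n * R.card := by
    calc growth S n ≤ ((fun q : H × L => (q.1 : L) * q.2) ''
          (ball T n ×ˢ (R : Set L))).ncard := Set.ncard_le_ncard hsub (hfin.image _)
      _ ≤ (ball T n ×ˢ (R : Set L)).ncard := Set.ncard_image_le hfin
      _ = growth T n * R.card := by rw [Set.ncard_prod, Set.ncard_coe_finset]; rfl
  have h2 : (growth S n : ℝ) ≤ growth T n * R.card := by exact_mod_cast h1
  calc (growth S n : ℝ) ≤ growth T n * R.card := h2
    _ ≤ (K * ((n : ℝ) + 1) ^ d) * R.card := by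
        exact mul_le_mul_of_nonneg_right (hK n) (Nat.cast_nonneg _)
    _ = K * R.card * ((n : ℝ) + 1) ^ d := by ring

end PDG
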