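import Pool.Agent.W_3f3beb_h76.GrB

/-! # Graphs of linear maps and the action of block matrices; ping-pong -/

set_option autoImplicit false

open scoped Classical

namespace PDG

/-- the graph `{(e, φ e)}` in `ℂ^a ⊕ ℂ^b` -/
noncomputable def gr {a b : ℕ} (φ : Matrix (Fin b) (Fin a) ℂ) :
    Submodule ℂ (Fin a ⊕ Fin b → ℂ) where
  carrier := {x | ∀ j : Fin b, x (Sum.inr j) = φ.mulVec (fun i => x (Sum.inl i)) j}
  add_mem' := by
    intro x y hx hy j
    have : (fun i => (x + y) (Sum.inl i)) = (fun i => x (Sum.inl i)) + fun i => y (Sum.inl i) := rfl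
    rw [this, Matrix.mulVec_add, Pi.add_apply, Pi.add_apply, hx j, hy j]
  zero_mem' := by
    intro j
    have : (fun i => (0 : Fin a ⊕ Fin b → ℂ) (Sum.inl i)) = 0 := rfl
    rw [this, Matrix.mulVec_zero]; rfl
  smul_mem' := by
    intro c x hx j
    have : (fun i => (c • x) (Sum.inl i)) = c • fun i => x (Sum.inl i) := rfl
    rw [this, Matrix.mulVec_smul, Pi.smul_apply, Pi.smul_apply, hx j]

theorem GrphA_mem {a b : ℕ} (φ : Matrix (Fin b) (Fin a) ℂ) (x : Fin a ⊕ Fin b → ℂ) :
    x ∈ gr φ ↔ ∀ j : Fin b, x (Sum.inr j) = φ.mulVec (fun i => x (Sum.inl i)) j := Iff.rfl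

theorem gr_injective {a b : ℕ} : Function.Injective (gr (a := a) (b := b)) := by
  intro φ ψ h
  have key : ∀ v : Fin a → ℂ, φ.mulVec v = ψ.mulVec v := by
    intro v
    have h1 : (Sum.elim v (φ.mulVec v) : Fin a ⊕ Fin b → ℂ) ∈ gr φ := by
      rw [GrphA_mem]
      intro j
      rfl
    rw [h, GrphA_mem] at h1
    funext j
    exact h1 j
  ext j i
  have := congrFun (key (Pi.single i 1)) j
  simpa using this

/-- image of a subspace under a matrix -/
noncomputable def mp {a b : ℕ} (M : Matrix (Fin a ⊕ Fin b) (Fin a ⊕ Fin b) ℂ)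
    (W : Submodule ℂ (Fin a ⊕ Fin b → ℂ)) : Submodule ℂ (Fin a ⊕ Fin b → ℂ) :=
  W.map (Matrix.toLin' M)

theorem mp_mul {a b : ℕ} (M N : Matrix (Fin a ⊕ Fin b) (Fin a ⊕ Fin b) ℂ)
    (W : Submodule ℂ (Fin a ⊕ Fin b → ℂ)) : mp (M * N) W = mp M (mp N W) := by
  unfold mp
  rw [Matrix.toLin'_mul, Submodule.map_comp]

theorem mp_injective {a b : ℕ} (M : Matrix (Fin a ⊕ Fin b) (Fin a ⊕ Fin b) ℂ) (hM : M.det ≠ 0) :
    Function.Injective (mp M) := by
  have hu : IsUnit M.det := isUnit_iff_ne_zero.mpr hM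
  intro W W' h
  have h1 : mp (M⁻¹) (mp M W) = mp (M⁻¹) (mp M W') := by rw [h]
  rw [← mp_mul, ← mp_mul, Matrix.nonsing_inv_mul M hu] at h1
  simpa [mp] using h1

/-- PROOF. `M (e, φ e) = ((A + B φ) e, (C + D φ) e)`; `A + B φ` is invertible, so these vectors form the graph of `(C + D φ) (A + B φ)⁻¹`. -/
theorem mp_gr {a b : ℕ} (A : Matrix (Fin a) (Fin a) ℂ)
    (B : Matrix (Fin a) (Fin b) ℂ) (C : Matrix (Fin b) (Fin a) ℂ) (D : Matrix (Fin b) (Fin b) ℂ)
    (φ : Matrix (Fin b) (Fin a) ℂ) (h : (A + B * φ).det ≠ 0) :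
    mp (Matrix.fromBlocks A B C D) (gr φ) = gr ((C + D * φ) * (A + B * φ)⁻¹) := by
  have hu : IsUnit (A + B * φ).det := isUnit_iff_ne_zero.mpr h
  have hx : ∀ x : Fin a ⊕ Fin b → ℂ, x ∈ gr φ →
      (Matrix.fromBlocks A B C D).mulVec x =
        Sum.elim ((A + B * φ).mulVec (fun i => x (Sum.inl i)))
          ((C + D * φ).mulVec (fun i => x (Sum.inl i))) := by
    intro x hx
    rw [GrphA_mem] at hx
    have h2 : (x ∘ Sum.inr) = φ.mulVec (fun i => x (Sum.inl i)) := by
      funext j
      exact hx j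
    rw [Matrix.fromBlocks_mulVec, h2]
    congr 1
    · rw [Matrix.add_mulVec, ← Matrix.mulVec_mulVec]
      rfl
    · rw [Matrix.add_mulVec, ← Matrix.mulVec_mulVec]
      rfl
  ext y
  unfold mp
  rw [Submodule.mem_map]
  constructor
  · rintro ⟨x, hxm, rfl⟩
    rw [Matrix.toLin'_apply, hx x hxm, GrphA_mem]
    intro j
    show ((C + D * φ).mulVec (fun i => x (Sum.inl i))) j =
      (((C + D * φ) * (A + B * φ)⁻¹).mulVec ((A + B * φ).mulVec (fun i => x (Sum.inl i)))) j
    rw [Matrix.mulVec_mulVec, Matrix.mul_assoc, Matrix.nonsing_inv_mul _ hu, Matrix.mul_one]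
  · intro hy
    rw [GrphA_mem] at hy
    let v : Fin a → ℂ := ((A + B * φ)⁻¹).mulVec (fun i => y (Sum.inl i))
    have hv : (Sum.elim v (φ.mulVec v) : Fin a ⊕ Fin b → ℂ) ∈ gr φ := by
      rw [GrphA_mem]
      intro j
      rfl
    refine ⟨Sum.elim v (φ.mulVec v), hv, ?_⟩
    rw [Matrix.toLin'_apply, hx _ hv]
    funext j
    rcases j with j | j
    · show ((A + B * φ).mulVec v) j = y (Sum.inl j)
      have : (A + B * φ).mulVec v = fun i => y (Sum.inl i) := by
        show (A + B * φ).mulVec (((A + B * φ)⁻¹).mulVec (fun i => y (Sum.inl i))) = _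
        rw [Matrix.mulVec_mulVec, Matrix.mul_nonsing_inv _ hu, Matrix.one_mulVec]
      rw [this]
    · show ((C + D * φ).mulVec v) j = y (Sum.inr j)
      rw [hy j]
      show ((C + D * φ).mulVec (((A + B * φ)⁻¹).mulVec (fun i => y (Sum.inl i)))) j = _
      rw [Matrix.mulVec_mulVec]

theorem GrphA_wd_nil {M : Type} [Monoid M] (g h : M) : wd g h [] = 1 := rfl

theorem GrphA_wd_cons {M : Type} [Monoid M] (g h : M) (b : Bool) (w : List Bool) :
    wd g h (b :: w) = (if b then g else h) * wd g h w := by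
  unfold wd
  rw [List.map_cons, List.prod_cons]

/-- PROOF. (ping-pong for semigroups) Let `w ≠ w'` have the same length and equal products. Cancel the common beginning (the maps `x ↦ g x`, `x ↦ h x` of `Ω` are injective): `w = b :: u`, `w' = b' :: u'`, `b ≠ b'`, say `b = true`. Apply to a point `P ∈ U`: `u P, u' P ∈ U ∪ V`, so `g (u P) ∈ U`, `h (u' P) ∈ V`: contradiction.
Here the action is a function `act : M → Ω → Ω` with `act (x y) P = act x (act y P)`, `act 1 P = P`. -/
theorem pp_words {M Ω : Type} [Monoid M] (act : M → Ω → Ω)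
    (h1 : ∀ P, act 1 P = P) (hm : ∀ x y P, act (x * y) P = act x (act y P)) (g h : M)
    (hg : Function.Injective (act g)) (hh : Function.Injective (act h)) (U V : Set Ω)
    (hU : U.Nonempty) (hd : Disjoint U V) (gU : ∀ P ∈ U ∪ V, act g P ∈ U)
    (hV : ∀ P ∈ U ∪ V, act h P ∈ V) :
    ∀ w w' : List Bool, w.length = w'.length → wd g h w = wd g h w' → w = w' := by
  obtain ⟨P, hP⟩ := hU
  have hmem : ∀ w : List Bool, act (wd g h w) P ∈ U ∪ V := by
    intro w
    induction w with
    | nil =>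
      rw [GrphA_wd_nil, h1]
      exact Or.inl hP
    | cons b w ih =>
      rw [GrphA_wd_cons, hm]
      cases b
      · exact Or.inr (hV _ ih)
      · exact Or.inl (gU _ ih)
  have key : ∀ w w' : List Bool, w.length = w'.length →
      (∀ Q, act (wd g h w) Q = act (wd g h w') Q) → w = w' := by
    intro w
    induction w with
    | nil =>
      intro w' hl _
      exact (List.eq_nil_of_length_eq_zero hl.symm).symm
    | cons b w ih =>
      intro w' hl he
      cases w' with
      | nil => simp at hl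
      | cons b' w' =>
        have hl' : w.length = w'.length := by simpa using hl
        have he' : ∀ Q, act (if b then g else h) (act (wd g h w) Q) =
            act (if b' then g else h) (act (wd g h w') Q) := by
          intro Q
          have := he Q
          rwa [GrphA_wd_cons, GrphA_wd_cons, hm, hm] at this
        have hne : ∀ X Y : Ω, X ∈ U ∪ V → Y ∈ U ∪ V → act g X ≠ act h Y := by
          intro X Y hX hY hXY
          have a1 := gU X hX
          have a2 := hV Y hY
          rw [hXY] at a1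
          exact Set.disjoint_left.mp hd a1 a2
        cases b <;> cases b'
        · rw [ih w' hl' (fun Q => hh (he' Q))]
        · exact absurd (he' P).symm (hne _ _ (hmem w') (hmem w))
        · exact absurd (he' P) (hne _ _ (hmem w) (hmem w'))
        · rw [ih w' hl' (fun Q => hg (he' Q))]
  intro w w' hl he
  exact key w w' hl (fun Q => by rw [he])

end PDG
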