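import Mathlib

/-! # P. Hall's criterion in the form needed -/

set_option autoImplicit false

open scoped Classical

namespace PDG

variable {H : Type} [Group H]

/-- iterated commutator subgroups `[X, H, ..., H]` -/
def itc (X : Subgroup H) : ℕ → Subgroup H
  | 0 => X
  | n + 1 => ⁅itc X n, (⊤ : Subgroup H)⁆

theorem itc_normal (X : Subgroup H) (hX : X.Normal) (n : ℕ) : (itc X n).Normal := by
  induction n with
  | zero => exact hX
  | succ n ih =>
    have := ih
    show (⁅itc X n, (⊤ : Subgroup H)⁆).Normal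
    infer_instance

theorem itc_mono {X Y : Subgroup H} (h : X ≤ Y) (n : ℕ) : itc X n ≤ itc Y n := by
  induction n with
  | zero => exact h
  | succ n ih => exact Subgroup.commutator_mono ih le_rfl

theorem HallA_map (M : Subgroup H) [M.Normal] (K : Subgroup H) :
    K ≤ M ↔ K.map (QuotientGroup.mk' M) = ⊥ := by
  rw [Subgroup.map_eq_bot_iff, QuotientGroup.ker_mk']

theorem HallA_three (A B C M : Subgroup H) [M.Normal] (h1 : ⁅⁅B, C⁆, A⁆ ≤ M)
    (h2 : ⁅⁅C, A⁆, B⁆ ≤ M) : ⁅⁅A, B⁆, C⁆ ≤ M := by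
  rw [HallA_map, Subgroup.map_commutator, Subgroup.map_commutator] at *
  exact Subgroup.commutator_commutator_eq_bot_of_rotate h1 h2

theorem HallA_center (M : Subgroup H) [M.Normal] (K : Subgroup H) :
    ⁅K, (⊤ : Subgroup H)⁆ ≤ M ↔
      K ≤ (Subgroup.center (H ⧸ M)).comap (QuotientGroup.mk' M) := by
  rw [HallA_map, Subgroup.map_commutator,
    Subgroup.map_top_of_surjective _ (QuotientGroup.mk'_surjective M),
    Subgroup.commutator_top_right_eq_bot_iff_le_center, Subgroup.map_le_iff_le_comap]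

/-- PROOF. Three subgroups lemma (`Subgroup.commutator_commutator_le...` in Mathlib: `⁅⁅H₁, H₂⁆, H₃⁆ ≤ N` if the two other ones are, for `N` normal): `⁅⁅X, Y⁆, H⁆ ≤ ⁅⁅X, H⁆, Y⁆ ⊔ ⁅X, ⁅Y, H⁆⁆` for normal `X`, `Y`. Induction on `n`: `itc ⁅X, Y⁆ n ≤ ⨆_{a+b=n} ⁅itc X a, itc Y b⁆`. -/
theorem itc_commutator (X Y : Subgroup H) (hX : X.Normal) (hY : Y.Normal) (n : ℕ) :
    itc ⁅X, Y⁆ n ≤ ⨆ i ∈ Finset.range (n + 1), ⁅itc X i, itc Y (n - i)⁆ := by
  induction n with
  | zero =>
    refine le_iSup₂_of_le 0 (by simp) ?_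
    exact le_rfl
  | succ n ih =>
    set M : Subgroup H := ⨆ i ∈ Finset.range (n + 1 + 1), ⁅itc X i, itc Y (n + 1 - i)⁆ with hM
    have hMn : M.Normal := by
      have : ∀ i, (⨆ _ : i ∈ Finset.range (n + 1 + 1), ⁅itc X i, itc Y (n + 1 - i)⁆).Normal := by
        intro i
        have h1 := itc_normal X hX i
        have h2 := itc_normal Y hY (n + 1 - i)
        infer_instance
      rw [hM]
      infer_instance
    have hle : ∀ i, i ≤ n + 1 → ⁅itc X i, itc Y (n + 1 - i)⁆ ≤ M := by
      intro i hi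
      exact le_iSup₂_of_le (f := fun i (_ : i ∈ Finset.range (n + 1 + 1)) =>
        ⁅itc X i, itc Y (n + 1 - i)⁆) i (Finset.mem_range.2 (by omega)) le_rfl
    show ⁅itc ⁅X, Y⁆ n, (⊤ : Subgroup H)⁆ ≤ M
    rw [HallA_center]
    refine ih.trans (iSup₂_le fun i hi => ?_)
    rw [Finset.mem_range] at hi
    rw [← HallA_center]
    refine HallA_three _ _ _ M ?_ ?_
    · have h := hle i (by omega)
      rw [Subgroup.commutator_comm] at h
      have e : n + 1 - i = (n - i) + 1 := by omega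
      rw [e] at h
      exact h
    · have h := hle (i + 1) (by omega)
      have e : n + 1 - (i + 1) = n - i := by omega
      rw [e] at h
      rw [Subgroup.commutator_comm ⊤ (itc X i)]
      exact h

end PDG
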