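import Pool.Agent.W_3f3beb_h76.GrB
import Pool.Agent.W_3f3beb_h76.DpA

/-! # Minimal dimension implies irreducible -/

set_option autoImplicit false

open scoped Classical

namespace PDG

/-- finiteness of all representations of dimension `k` -/
def FinDim (k : ℕ) : Prop :=
  ∀ (L : Type) [Group L], Group.FG L → SubEx L → FAb L → ∀ ρ : L →* GL (Fin k) ℂ, Finite ρ.range

/-- PROOF. The range is an abelian quotient of `L`: finite, since the abelianization is finite (`FAb` for `⊤`, isomorphic to `L`). -/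
theorem finite_of_comm {L : Type} [Group L] (hf : FAb L) {P : Type} [Group P] (f : L →* P)
    (hc : ∀ x y : L, f x * f y = f y * f x) : Finite f.range := by
  have h0 : Finite (Abelianization (⊤ : Subgroup L)) := hf ⊤ inferInstance
  have h1 : Finite (Abelianization L) :=
    Finite.of_equiv _ (Subgroup.topEquiv (G := L)).abelianizationCongr.toEquiv
  let inst : CommGroup f.range :=
    { (inferInstance : Group f.range) with
      mul_comm := by
        rintro ⟨_, x, rfl⟩ ⟨_, y, rfl⟩
        exact Subtype.ext (hc x y) }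
  let F : L →* f.range := f.rangeRestrict
  have h2 : Function.Surjective (Abelianization.lift F) := by
    rintro ⟨_, x, rfl⟩
    refine ⟨Abelianization.of x, ?_⟩
    rw [Abelianization.lift_apply_of]
    rfl
  exact Finite.of_surjective _ h2

theorem IrrA_fin {L : Type} [Group L] {H : Subgroup L} (hH : H.FiniteIndex) (K : Subgroup H)
    (hK : K.FiniteIndex) : (K.map H.subtype).FiniteIndex :=
  ⟨by
    rw [Subgroup.index_map_subtype]
    exact mul_ne_zero hK.index_ne_zero hH.index_ne_zero⟩

/-- a representation of small dimension is trivial on a subgroup of finite index -/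
theorem IrrA_rep {k : ℕ} (ihk : FinDim k) {L : Type} [Group L] (hL : Group.FG L) (hs : SubEx L)
    (hf : FAb L) {U : Type} [AddCommGroup U] [Module ℂ U] [FiniteDimensional ℂ U]
    (hU : Module.finrank ℂ U = k) (r : L →* Module.End ℂ U) :
    ∃ K : Subgroup L, K.FiniteIndex ∧ ∀ g ∈ K, r g = 1 := by
  let b := Module.finBasisOfFinrankEq ℂ U hU
  let e : Module.End ℂ U →* Matrix (Fin k) (Fin k) ℂ :=
    MonoidHomClass.toMonoidHom (LinearMap.toMatrixAlgEquiv b)
  let ρ' : L →* GL (Fin k) ℂ := MonoidHom.toHomUnits (e.comp r)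
  have hfin : Finite ρ'.range := ihk L hL hs hf ρ'
  refine ⟨ρ'.ker, inferInstance, fun g hg => ?_⟩
  have h1 : ρ' g = 1 := hg
  have h2 : (LinearMap.toMatrixAlgEquiv b) (r g) = 1 := congrArg Units.val h1
  exact (LinearMap.toMatrixAlgEquiv b).injective (by rw [h2, map_one])

/-- the linear maps of the representation -/
noncomputable def IrrA_R {m : ℕ} {L : Type} [Group L] (ρ : L →* GL (Fin m) ℂ) :
    L →* Module.End ℂ (Fin m → ℂ) where
  toFun g := (ρ g).val.mulVecLin
  map_one' := by
    rw [map_one, Units.val_one]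
    exact Matrix.mulVecLin_one
  map_mul' g h := by
    rw [map_mul, Units.val_mul, Matrix.mulVecLin_mul]
    rfl

/-- PROOF. Suppose `W ≠ ⊥, ⊤` is invariant under `L'` (finite index). `L'` is finitely generated, `SubEx`, `FAb`. Its representations on `W` (dimension `k < m`) and on the quotient (dimension `m - k < m`) have finite image by `ih` (choose bases; `ρ g` and `ρ g⁻¹` preserve `W`). So a finite index subgroup `L''` of `L'` acts trivially on `W` and on
the quotient: `(ρ g - 1) V ⊆ W`, `(ρ g - 1) W = 0`, hence `(ρ g - 1)(ρ h - 1) = 0` and `ρ g ρ h = ρ g + ρ h - 1 = ρ h ρ g` on `L''`. `finite_of_comm` for `L''`: finite image, so the image of `L` is finite: contradiction. -/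
theorem irreducible_of_min (m : ℕ) (ih : ∀ k < m, FinDim k) {L : Type} [Group L]
    (hL : Group.FG L) (hs : SubEx L) (hf : FAb L) (ρ : L →* GL (Fin m) ℂ)
    (hinf : ¬ Finite ρ.range) (L' : Subgroup L) (hL' : L'.FiniteIndex)
    (W : Submodule ℂ (Fin m → ℂ)) (hW : ∀ g ∈ L', ∀ w ∈ W, (ρ g).val.mulVec w ∈ W) :
    W = ⊥ ∨ W = ⊤ := by
  by_contra hcon
  push Not at hcon
  obtain ⟨hbot, htop⟩ := hcon
  have hm : Module.finrank ℂ (Fin m → ℂ) = m := Module.finrank_fin_fun ℂ
  have hk0 : 0 < Module.finrank ℂ W := by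
    rw [Module.finrank_pos_iff]
    exact Submodule.nontrivial_iff_ne_bot.2 hbot
  have hkm : Module.finrank ℂ W < m := by
    have := Submodule.finrank_lt htop
    rwa [hm] at this
  have hq : Module.finrank ℂ ((Fin m → ℂ) ⧸ W) < m := by
    have := Submodule.finrank_quotient_add_finrank W
    omega
  have hLfg : Group.FG L' := by
    have := hL
    infer_instance
  have hWR : ∀ g ∈ L', ∀ w ∈ W, IrrA_R ρ g w ∈ W := hW
  let rW : L' →* Module.End ℂ W :=
    { toFun := fun g => (IrrA_R ρ g).restrict (hWR g g.2)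
      map_one' := by
        ext1 w
        refine Subtype.ext ?_
        show IrrA_R ρ (1 : L) (w : Fin m → ℂ) = w
        rw [map_one]
        rfl
      map_mul' := fun g h => by
        ext1 w
        refine Subtype.ext ?_
        show IrrA_R ρ ((g : L) * (h : L)) (w : Fin m → ℂ) = IrrA_R ρ g (IrrA_R ρ h w)
        rw [map_mul]
        rfl }
  let rQ : L' →* Module.End ℂ ((Fin m → ℂ) ⧸ W) :=
    { toFun := fun g => W.mapQ W (IrrA_R ρ g) (fun w hw => hWR g g.2 w hw)
      map_one' := by
        refine Submodule.linearMap_qext _ ?_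
        refine LinearMap.ext fun w => ?_
        show (Submodule.Quotient.mk (IrrA_R ρ (1 : L) w) : (Fin m → ℂ) ⧸ W) =
          Submodule.Quotient.mk w
        rw [map_one]
        rfl
      map_mul' := fun g h => by
        refine Submodule.linearMap_qext _ ?_
        refine LinearMap.ext fun w => ?_
        show (Submodule.Quotient.mk (IrrA_R ρ ((g : L) * (h : L)) w) : (Fin m → ℂ) ⧸ W) =
          Submodule.Quotient.mk (IrrA_R ρ g (IrrA_R ρ h w))
        rw [map_mul]
        rfl }
  obtain ⟨K₁, hK₁, h1⟩ := IrrA_rep (ih _ hkm) hLfg (hs.subgroup L') (hf.subgroup L' hL') rfl rW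
  obtain ⟨K₂, hK₂, h2⟩ := IrrA_rep (ih _ hq) hLfg (hs.subgroup L') (hf.subgroup L' hL') rfl rQ
  have hK : (K₁ ⊓ K₂).FiniteIndex := inferInstance
  set M : Subgroup L := (K₁ ⊓ K₂).map L'.subtype with hM
  have hMfin : M.FiniteIndex := IrrA_fin hL' _ hK
  have hMW : ∀ x ∈ M, ∀ w ∈ W, IrrA_R ρ x w = w := by
    rintro _ ⟨g, hg, rfl⟩ w hw
    have h3 := h1 g hg.1
    have h4 := congrArg (fun T : Module.End ℂ W => ((T ⟨w, hw⟩ : W) : Fin m → ℂ)) h3
    exact h4
  have hMQ : ∀ x ∈ M, ∀ v, IrrA_R ρ x v - v ∈ W := by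
    rintro _ ⟨g, hg, rfl⟩ v
    have h3 := h2 g hg.2
    have h4 := congrArg (fun T : Module.End ℂ ((Fin m → ℂ) ⧸ W) =>
      T (Submodule.Quotient.mk v)) h3
    exact (Submodule.Quotient.eq W).1 h4
  have hcomm : ∀ x ∈ M, ∀ y ∈ M, ρ x * ρ y = ρ y * ρ x := by
    have key : ∀ x ∈ M, ∀ y ∈ M, ∀ v, IrrA_R ρ x (IrrA_R ρ y v) =
        IrrA_R ρ x v + IrrA_R ρ y v - v := by
      intro x hx y hy v
      have h3 := hMW x hx _ (hMQ y hy v)
      rw [map_sub] at h3
      have h4 : IrrA_R ρ x (IrrA_R ρ y v) = IrrA_R ρ x v + (IrrA_R ρ y v - v) := by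
        rw [← h3]
        abel
      rw [h4]
      abel
    intro x hx y hy
    have h3 : IrrA_R ρ (x * y) = IrrA_R ρ (y * x) := by
      rw [map_mul, map_mul]
      refine LinearMap.ext fun v => ?_
      show IrrA_R ρ x (IrrA_R ρ y v) = IrrA_R ρ y (IrrA_R ρ x v)
      rw [key x hx y hy v, key y hy x hx v]
      abel
    have h4 : (ρ (x * y)).val.mulVecLin = (ρ (y * x)).val.mulVecLin := h3
    rw [← map_mul, ← map_mul]
    exact Units.ext (Matrix.toLin'.injective h4)
  have hfinf : Finite (ρ.comp M.subtype).range :=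
    finite_of_comm (hf.subgroup M hMfin) (ρ.comp M.subtype)
      fun x y => hcomm x x.2 y y.2
  have hker : (ρ.comp M.subtype).ker.FiniteIndex := inferInstance
  have hker2 : ((ρ.comp M.subtype).ker.map M.subtype).FiniteIndex := IrrA_fin hMfin _ hker
  have hle : (ρ.comp M.subtype).ker.map M.subtype ≤ ρ.ker := by
    rintro _ ⟨g, hg, rfl⟩
    exact hg
  have hker3 : ρ.ker.FiniteIndex := Subgroup.finiteIndex_of_le hle
  have hfinq : Finite (L ⧸ ρ.ker) := inferInstance
  exact hinf (Finite.of_equiv _ (QuotientGroup.quotientKerEquivRange ρ).toEquiv)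

end PDG
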