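import Pool.Agent.W_3f3beb_h76.UuB

/-! # The representations on the homogeneous abelian sections -/

set_option autoImplicit false

open scoped Classical commutatorElement

namespace PDG

theorem LamA_gen {A : Type} [AddCommGroup A] (p n : ℕ) (hexp : ∀ x : A, p ^ n • x = 0)
    (N : AddSubgroup A) (h : ∀ x : A, ∃ y ∈ N, ∃ z : A, x = y + p • z) : N = ⊤ := by
  have key : ∀ k : ℕ, ∀ x : A, ∃ y ∈ N, ∃ z : A, x = y + p ^ k • z := by
    intro k
    induction k with
    | zero => exact fun x => ⟨0, N.zero_mem, x, by simp⟩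
    | succ k ih =>
      intro x
      obtain ⟨y, hy, z, hz⟩ := ih x
      obtain ⟨y', hy', z', hz'⟩ := h z
      refine ⟨y + p ^ k • y', N.add_mem hy (N.nsmul_mem hy' _), z', ?_⟩
      rw [hz, hz', smul_add, smul_smul, pow_succ, add_assoc]
  rw [eq_top_iff]
  intro x _
  obtain ⟨y, hy, z, hz⟩ := key n x
  rw [hexp, add_zero] at hz
  rw [hz]; exact hy

theorem LamA_basis {Q : Type} [AddCommGroup Q] [Finite Q] (p : ℕ) [Fact p.Prime] (m : ℕ)
    (hQ0 : ∀ x : Q, p • x = 0) (hQc : Nat.card Q = p ^ m) :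
    ∃ x : Fin m → Q, ∀ q : Q, ∃ c : Fin m → ℕ, q = ∑ i, c i • x i := by
  have hp : p.Prime := Fact.out
  haveI : Module (ZMod p) Q := AddCommGroup.zmodModule hQ0
  have hfr : Module.finrank (ZMod p) Q = m := by
    have h1 := Module.natCard_eq_pow_finrank (K := ZMod p) (V := Q)
    rw [hQc, Nat.card_zmod] at h1
    exact (Nat.pow_right_injective hp.two_le h1).symm
  let b : Module.Basis (Fin m) (ZMod p) Q := Module.finBasisOfFinrankEq (ZMod p) Q hfr
  refine ⟨b, fun q => ⟨fun i => (b.repr q i).val, ?_⟩⟩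
  conv_lhs => rw [← b.sum_repr q]
  refine Finset.sum_congr rfl (fun i _ => ?_)
  conv_lhs => rw [← ZMod.natCast_zmod_val (b.repr q i)]
  rw [Nat.cast_smul_eq_nsmul]

/-- PROOF. `A/pA` has order `p^m`, an `F_p`-space; choose `x_1, ..., x_m ∈ A` whose classes form a basis. They generate `A` (`A = ⟨x⟩ + pA = ⟨x⟩ + p^2 A = ...`, `p^n A = 0`). The surjection `(ZMod (p^n))^m → A`, `e_i ↦ x_i` (well defined since `p^n A = 0`) is injective by counting. -/
theorem exists_free {A : Type} [AddCommGroup A] [Finite A] (p : ℕ) [Fact p.Prime] (n m : ℕ)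
    (hn : 1 ≤ n) (hexp : ∀ x : A, p ^ n • x = 0) (hcard : Nat.card A = p ^ (m * n))
    (hq : Nat.card (nsmulAddMonoidHom p : A →+ A).range = p ^ (m * (n - 1))) :
    Nonempty ((Fin m → ZMod (p ^ n)) ≃+ A) := by
  have hp : p.Prime := Fact.out
  haveI : Module (ZMod (p ^ n)) A := AddCommGroup.zmodModule hexp
  set R := (nsmulAddMonoidHom p : A →+ A).range with hR
  have hQc : Nat.card (A ⧸ R) = p ^ m := by
    have h1 := AddSubgroup.card_eq_card_quotient_mul_card_addSubgroup R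
    rw [hcard, hq] at h1
    have h2 : m * n = m + m * (n - 1) := by
      obtain ⟨k, rfl⟩ : ∃ k, n = k + 1 := ⟨n - 1, by omega⟩
      simp; ring
    rw [h2, pow_add] at h1
    exact (Nat.eq_of_mul_eq_mul_right (pow_pos hp.pos _) h1).symm
  have hQ0 : ∀ x : A ⧸ R, p • x = 0 := by
    intro x
    induction x using QuotientAddGroup.induction_on with
    | H x =>
      rw [← QuotientAddGroup.mk_nsmul, QuotientAddGroup.eq_zero_iff]
      exact ⟨x, rfl⟩
  obtain ⟨xb, hxb⟩ := LamA_basis p m hQ0 hQc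
  have hx : ∀ i, ∃ x : A, (QuotientAddGroup.mk x : A ⧸ R) = xb i := fun i =>
    QuotientAddGroup.mk_surjective (xb i)
  choose x hx using hx
  let f : (Fin m → ZMod (p ^ n)) →ₗ[ZMod (p ^ n)] A := Fintype.linearCombination (ZMod (p ^ n)) x
  have hxr : ∀ i, x i ∈ f.toAddMonoidHom.range := by
    intro i
    refine ⟨Pi.single i 1, ?_⟩
    simp [f, Fintype.linearCombination_apply_single]
  have htop : f.toAddMonoidHom.range = ⊤ := by
    apply LamA_gen p n hexp
    intro a
    obtain ⟨c, hc⟩ := hxb (QuotientAddGroup.mk a)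
    set y : A := ∑ i, c i • x i with hy
    have h3 : (QuotientAddGroup.mk a : A ⧸ R) = QuotientAddGroup.mk y := by
      rw [hc, hy]
      have := map_sum (QuotientAddGroup.mk' R) (fun i => c i • x i) Finset.univ
      simp only [QuotientAddGroup.coe_mk', QuotientAddGroup.mk_nsmul, hx] at this
      exact this.symm
    have h4 := QuotientAddGroup.eq.1 h3.symm
    obtain ⟨z, hz⟩ := h4
    refine ⟨y, ?_, z, ?_⟩
    · rw [hy]
      exact AddSubgroup.sum_mem _ (fun i _ => AddSubgroup.nsmul_mem _ (hxr i) _)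
    · simp only [nsmulAddMonoidHom_apply] at hz
      rw [hz]; abel
  have hsurj : Function.Surjective f := by
    intro a
    have : a ∈ f.toAddMonoidHom.range := by rw [htop]; trivial
    obtain ⟨v, hv⟩ := this
    exact ⟨v, hv⟩
  haveI : NeZero (p ^ n) := ⟨pow_ne_zero _ hp.ne_zero⟩
  have hbij : Function.Bijective f := by
    apply hsurj.bijective_of_nat_card_le
    rw [hcard, Nat.card_fun, Nat.card_zmod, Nat.card_fin, ← pow_mul, mul_comm]
  exact ⟨AddEquiv.ofBijective f.toAddMonoidHom hbij⟩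

/-- the representation on a homogeneous abelian normal subgroup -/
theorem LamA_rep {Q : Type} [Group Q] (S : Subgroup Q) (hSn : S.Normal)
    (hS : ∀ x ∈ S, ∀ y ∈ S, x * y = y * x) (hfin : Finite S) (p : ℕ) [Fact p.Prime] (n m : ℕ)
    (hn : 1 ≤ n) (hexp : ∀ x ∈ S, x ^ p ^ n = 1) (hcard : Nat.card S = p ^ (m * n))
    (S' : Subgroup Q) (hS' : ∀ x, x ∈ S' ↔ ∃ z ∈ S, z ^ p = x)
    (hcard' : Nat.card S' = p ^ (m * (n - 1))) :
    ∃ ρ : Q →* GL (Fin m) (ZMod (p ^ n)), ∀ (y : Q) (s : ℕ),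
      (∀ a b, ((p ^ s : ℕ) : ZMod (p ^ n)) ∣
        (ρ y).val a b - (1 : Matrix (Fin m) (Fin m) (ZMod (p ^ n))) a b) →
      ∀ x ∈ S, ∃ z ∈ S, y * x * y⁻¹ * x⁻¹ = z ^ p ^ s := by
  let cg : CommGroup S :=
    { (inferInstance : Group S) with
      mul_comm := fun a b => Subtype.ext (hS a.1 a.2 b.1 b.2) }
  have hrange : Nat.card (nsmulAddMonoidHom p : Additive S →+ Additive S).range =
      p ^ (m * (n - 1)) := by
    rw [← hcard']
    refine Nat.card_congr
      { toFun := fun a => ⟨(Additive.toMul a.1).1, ?_⟩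
        invFun := fun a => ⟨Additive.ofMul ⟨a.1, ?_⟩, ?_⟩
        left_inv := fun a => rfl
        right_inv := fun a => rfl }
    · obtain ⟨b, hb⟩ := a.2
      rw [hS']
      refine ⟨(Additive.toMul b).1, (Additive.toMul b).2, ?_⟩
      rw [← hb]
      rfl
    · obtain ⟨z, hz, hza⟩ := (hS' a.1).1 a.2
      rw [← hza]
      exact S.pow_mem hz p
    · obtain ⟨z, hz, hza⟩ := (hS' a.1).1 a.2
      refine ⟨Additive.ofMul ⟨z, hz⟩, ?_⟩
      apply Additive.toMul.injective
      apply Subtype.ext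
      exact hza
  obtain ⟨e⟩ := exists_free (A := Additive S) p n m hn
    (by
      intro x
      apply Additive.toMul.injective
      apply Subtype.ext
      exact hexp _ (Additive.toMul x).2) hcard hrange
  let φ : Q → (Additive S →+ Additive S) := fun y =>
    AddMonoidHom.mk' (fun a => Additive.ofMul ⟨y * (Additive.toMul a).1 * y⁻¹,
      hSn.conj_mem _ (Additive.toMul a).2 y⟩) (by
        intro a b
        apply Additive.toMul.injective
        apply Subtype.ext
        show y * ((Additive.toMul a).1 * (Additive.toMul b).1) * y⁻¹ =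
          (y * (Additive.toMul a).1 * y⁻¹) * (y * (Additive.toMul b).1 * y⁻¹)
        group)
  have hφ1 : ∀ a, φ 1 a = a := by
    intro a
    apply Additive.toMul.injective
    apply Subtype.ext
    show 1 * (Additive.toMul a).1 * 1⁻¹ = (Additive.toMul a).1
    group
  have hφm : ∀ y z a, φ (y * z) a = φ y (φ z a) := by
    intro y z a
    apply Additive.toMul.injective
    apply Subtype.ext
    show (y * z) * (Additive.toMul a).1 * (y * z)⁻¹ =
      y * (z * (Additive.toMul a).1 * z⁻¹) * y⁻¹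
    group
  let F : Q → ((Fin m → ZMod (p ^ n)) →ₗ[ZMod (p ^ n)] (Fin m → ZMod (p ^ n))) := fun y =>
    AddMonoidHom.toZModLinearMap (p ^ n)
      ((e.symm.toAddMonoidHom.comp (φ y)).comp e.toAddMonoidHom)
  have hF : ∀ y v, F y v = e.symm (φ y (e v)) := fun y v => rfl
  have hF1 : F 1 = LinearMap.id := by
    apply LinearMap.ext
    intro v
    rw [hF, hφ1, e.symm_apply_apply, LinearMap.id_apply]
  have hFm : ∀ y z, F (y * z) = (F y).comp (F z) := by
    intro y z
    apply LinearMap.ext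
    intro v
    rw [LinearMap.comp_apply, hF, hF, hF, e.apply_symm_apply, hφm]
  let M : Q →* Matrix (Fin m) (Fin m) (ZMod (p ^ n)) :=
    { toFun := fun y => LinearMap.toMatrix' (F y)
      map_one' := by rw [hF1, LinearMap.toMatrix'_id]
      map_mul' := fun y z => by rw [hFm, LinearMap.toMatrix'_comp] }
  refine ⟨M.toHomUnits, fun y s h x hx => ?_⟩
  have hM : ∀ a b, (M.toHomUnits y).val a b = LinearMap.toMatrix' (F y) a b := fun a b => rfl
  simp only [hM] at h
  choose B hB using h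
  set v := e.symm (Additive.ofMul (⟨x, hx⟩ : S)) with hv
  have h1 : F y v - v = (p ^ s : ℕ) • (Matrix.mulVec (Matrix.of B) v) := by
    have h2 : LinearMap.toMatrix' (F y) = 1 + ((p ^ s : ℕ) : ZMod (p ^ n)) • Matrix.of B := by
      ext a b
      rw [Matrix.add_apply, Matrix.smul_apply, Matrix.of_apply, smul_eq_mul, ← hB a b]
      ring
    have h3 : F y v = Matrix.mulVec (LinearMap.toMatrix' (F y)) v := by
      rw [← Matrix.toLin'_apply, Matrix.toLin'_toMatrix']
    rw [h3, h2, Matrix.add_mulVec, Matrix.one_mulVec, Matrix.smul_mulVec, add_sub_cancel_left,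
      Nat.cast_smul_eq_nsmul]
  have h4 : φ y (Additive.ofMul (⟨x, hx⟩ : S)) - Additive.ofMul (⟨x, hx⟩ : S) =
      (p ^ s : ℕ) • e (Matrix.mulVec (Matrix.of B) v) := by
    have h5 := congrArg e h1
    rw [map_sub, hF, e.apply_symm_apply, map_nsmul, hv, e.apply_symm_apply] at h5
    exact h5
  refine ⟨(Additive.toMul (e (Matrix.mulVec (Matrix.of B) v))).1,
    (Additive.toMul (e (Matrix.mulVec (Matrix.of B) v))).2, ?_⟩
  have h6 := congrArg (fun a => (Additive.toMul a).1) h4
  have h7 : y * x * y⁻¹ / x =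
      (Additive.toMul (e (Matrix.mulVec (Matrix.of B) v))).1 ^ p ^ s := h6
  rw [div_eq_mul_inv] at h7
  exact h7

variable {L : Type} [Group L] {p : ℕ} [Fact p.Prime] {r : ℕ} {T : Subgroup L}

theorem LamA_chain (h : TT p r T) (m i : ℕ)
    (hst : ∀ k, i ≤ k → (Uu p T (k + 1)).relIndex (Uu p T k) = p ^ m) (k l : ℕ) (hk : i ≤ k) :
    (Uu p T (k + l)).relIndex (Uu p T k) = p ^ (m * l) := by
  induction l with
  | zero => simp
  | succ l ih =>
    have h1 := Subgroup.relIndex_mul_relIndex (Uu p T (k + (l + 1))) (Uu p T (k + l)) (Uu p T k)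
      (Uu_anti' h (by omega)) (Uu_anti' h (by omega))
    rw [ih, ← add_assoc, hst (k + l) (by omega)] at h1
    rw [← add_assoc, ← h1, ← pow_add]
    congr 1
    ring

theorem LamA_pow (i s : ℕ) (x : L) (hx : x ∈ Uu p T i) : x ^ p ^ s ∈ Uu p T (i + s) := by
  induction s with
  | zero => simpa using hx
  | succ s ih =>
    rw [pow_succ, pow_mul]
    exact Uu_pow (i + s) _ ih

/-- PROOF. `Λ = U_i/U_{2i+2}` is abelian (`Uu_com`), `|Λ| = p^(m (i+2))`; for `s ≤ i + 2`, `p^s Λ = U_{i+s}/U_{2i+2}` (by `Uu_le` with `N = U_{2i+2}` and `Uu_pow`, induction on `s`; in an abelian group the `p`-th powers form a subgroup), in particular `p^{i+2} Λ = 0`, `|p Λ| = p^(m (i+1))`. `exists_free`: `Λ ≅ (ZMod (p^(i+2)))^m`. `L` acts on `Λ` by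
conjugation `x ↦ y x y⁻¹`, additive automorphisms, so `ZMod`-linear: `ρ`. If `ρ y ≡ 1` modulo `p^s` then `y x y⁻¹ x⁻¹ ∈ p^s Λ` for all `x`: `⁅y, x⁆ ∈ U_{i+s}` (`U_{2i+2} ≤ U_{i+s}`), so `⁅x, y⁆ ∈ U_{i+s}`. -/
theorem exists_section_rep (h : TT p r T) (m i : ℕ)
    (hst : ∀ k, i ≤ k → (Uu p T (k + 1)).relIndex (Uu p T k) = p ^ m) :
    ∃ ρ : L →* GL (Fin m) (ZMod (p ^ (i + 2))), ∀ (y : L) (s : ℕ), s ≤ i + 2 →
      (∀ a b, ((p ^ s : ℕ) : ZMod (p ^ (i + 2))) ∣
        (ρ y).val a b - (1 : Matrix (Fin m) (Fin m) (ZMod (p ^ (i + 2)))) a b) →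
      ∀ x ∈ Uu p T i, ⁅x, y⁆ ∈ Uu p T (i + s) := by
  set V := Uu p T (i + (i + 2)) with hV
  haveI hVn : V.Normal := (Uu_pn h _).1
  set π := QuotientGroup.mk' V with hπ
  have hker : π.ker = V := QuotientGroup.ker_mk' V
  have hUn := (Uu_pn h i).1
  have hcm : ∀ x ∈ (Uu p T i).map π, ∀ y ∈ (Uu p T i).map π, x * y = y * x := by
    rintro _ ⟨x, hx, rfl⟩ _ ⟨y, hy, rfl⟩
    apply UuC_comm
    have := Uu_com h i i (Subgroup.commutator_mem_commutator hx hy)
    exact Uu_anti' h (by omega) this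
  have hc1 : Nat.card ((Uu p T i).map π) = p ^ (m * (i + 2)) := by
    rw [← Subgroup.relIndex_ker, hker, hV]
    exact LamA_chain h m i hst i (i + 2) le_rfl
  have hc2 : Nat.card ((Uu p T (i + 1)).map π) = p ^ (m * (i + 2 - 1)) := by
    rw [← Subgroup.relIndex_ker, hker, hV]
    have h1 := LamA_chain h m i hst (i + 1) (i + 1) (by omega)
    have e : i + 1 + (i + 1) = i + (i + 2) := by ring
    rw [e] at h1
    exact h1
  have hp : p.Prime := Fact.out
  obtain ⟨ρ, hρ⟩ := LamA_rep ((Uu p T i).map π)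
    (hUn.map π (QuotientGroup.mk'_surjective V)) hcm
    (Nat.finite_of_card_ne_zero (by rw [hc1]; exact pow_ne_zero _ hp.ne_zero)) p (i + 2) m
    (by omega) (by
      rintro _ ⟨x, hx, rfl⟩
      rw [← map_pow, ← MonoidHom.mem_ker, hker]
      exact LamA_pow i (i + 2) x hx) hc1 ((Uu p T (i + 1)).map π) (by
      intro x
      constructor
      · intro hx
        have h1 := Subgroup.map_mono (f := π) (Uu_le h i V (Uu_pn h _)) hx
        rw [Subgroup.map_sup] at h1
        have h2 : V.map π = ⊥ := QuotientGroup.map_mk'_self V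
        rw [h2, sup_bot_eq] at h1
        have h3 : (pw p (Uu p T i)).map π ≤
            { carrier := {x | ∃ z ∈ (Uu p T i).map π, z ^ p = x}
              one_mem' := ⟨1, Subgroup.one_mem _, one_pow _⟩
              mul_mem' := by
                rintro _ _ ⟨a, ha, rfl⟩ ⟨b, hb, rfl⟩
                exact ⟨a * b, Subgroup.mul_mem _ ha hb,
                  (show Commute a b from hcm a ha b hb).mul_pow p⟩
              inv_mem' := by
                rintro _ ⟨a, ha, rfl⟩
                exact ⟨a⁻¹, Subgroup.inv_mem _ ha, inv_pow a p⟩ : Subgroup (L ⧸ V) } := by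
          rw [pw, MonoidHom.map_closure, Subgroup.closure_le]
          rintro _ ⟨_, ⟨y, hy, rfl⟩, rfl⟩
          exact ⟨π y, ⟨y, hy, rfl⟩, (map_pow π y p).symm⟩
        exact h3 h1
      · rintro ⟨_, ⟨y, hy, rfl⟩, rfl⟩
        exact ⟨y ^ p, Uu_pow i y hy, map_pow π y p⟩) hc2
  refine ⟨ρ.comp π, fun y s hs hd x hx => ?_⟩
  obtain ⟨_, ⟨u, hu, rfl⟩, hz⟩ := hρ (π y) s hd (π x) ⟨x, hx, rfl⟩
  rw [← map_pow, ← map_inv, ← map_inv, ← map_mul, ← map_mul, ← map_mul] at hz
  have h1 := QuotientGroup.eq.1 hz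
  have h2 : y * x * y⁻¹ * x⁻¹ ∈ Uu p T (i + s) := by
    have h3 : (y * x * y⁻¹ * x⁻¹)⁻¹ * u ^ p ^ s ∈ Uu p T (i + s) := Uu_anti' h (by omega) h1
    have h4 := LamA_pow i s u hu
    have h5 := (Subgroup.mul_mem_cancel_right _ h4).1 h3
    exact (Subgroup.inv_mem_iff _).1 h5
  have h6 : ⁅x, y⁆ = (y * x * y⁻¹ * x⁻¹)⁻¹ := by
    rw [commutatorElement_def]; group
  rw [h6]
  exact Subgroup.inv_mem _ h2

end PDG
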