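import Pool.Agent.W_3f3beb_h76.NearA
import Pool.Agent.W_3f3beb_h76.GrphA

/-! # The free semigroup -/

set_option autoImplicit false

open scoped Classical

namespace PDG

/-- PROOF. `x = fromBlocks A B C D` with the blocks of `x`; `ε`, `R` from `near`. `G = fromBlocks Gp 0 0 Gm`, `G^n = fromBlocks Gp^n 0 0 Gm^n`, `mp (G^n) (gr φ) = gr (Gm^n φ Gp^{-n})` (`mp_gr`), and `vn (Gm^n φ (Gp^n)⁻¹) ≤ vn (Gm^n) vn (Gp⁻¹^n) vn φ ≤ C θ^n max ε R ≤ ε` for `n` large (`n ≥ 1`). `Ω` = subspaces,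
`U = {gr φ | vn v φ ≤ ε}` (contains `gr 0`), `V = {mp x P | P ∈ U}`. The elements of `V` are `gr ψ` with `ε < vn ψ ≤ R` (`mp_gr`, `near`), so `U` and `V` are disjoint (`gr_injective`), and `mp (G^n)` maps `U ∪ V` into `U`, `mp (x G^n)` maps `U ∪ V` into `V`. `pp_words` (the matrices `G`, `x` are invertible: `mp_injective`). -/
theorem ping {a b : ℕ} (v : AbsoluteValue ℂ ℝ) (Gp : Matrix (Fin a) (Fin a) ℂ)
    (Gm : Matrix (Fin b) (Fin b) ℂ) (hGp : IsUnit Gp.det) (hGm : IsUnit Gm.det)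
    (x : Matrix (Fin a ⊕ Fin b) (Fin a ⊕ Fin b) ℂ) (hx : IsUnit x.det)
    (hA : x.toBlocks₁₁.det ≠ 0) (hC : x.toBlocks₂₁ ≠ 0) (K θ : ℝ) (h0 : 0 ≤ θ) (h1 : θ < 1)
    (hcon : ∀ n : ℕ, vn v (Gm ^ n) * vn v (Gp⁻¹ ^ n) ≤ K * θ ^ n) :
    ∃ n : ℕ, ∀ w w' : List Bool, w.length = w'.length →
      wd ((Matrix.fromBlocks Gp 0 0 Gm) ^ n) (x * (Matrix.fromBlocks Gp 0 0 Gm) ^ n) w =
        wd ((Matrix.fromBlocks Gp 0 0 Gm) ^ n) (x * (Matrix.fromBlocks Gp 0 0 Gm) ^ n) w' →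
      w = w' := by
  classical
  set A := x.toBlocks₁₁ with hAdef
  set B := x.toBlocks₁₂ with hBdef
  set C := x.toBlocks₂₁ with hCdef
  set D := x.toBlocks₂₂ with hDdef
  have hxb : x = Matrix.fromBlocks A B C D := (Matrix.fromBlocks_toBlocks x).symm
  obtain ⟨ε, R, hε, hnear⟩ := near v A B C D hA hC
  have hρ0 : 0 ≤ |K| * max ε R := mul_nonneg (abs_nonneg K) (hε.le.trans (le_max_left _ _))
  obtain ⟨n, hn⟩ : ∃ n : ℕ, |K| * max ε R * θ ^ n ≤ ε := by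
    have h2 : Filter.Tendsto (fun n : ℕ => |K| * max ε R * θ ^ n) Filter.atTop (nhds 0) := by
      have := (tendsto_pow_atTop_nhds_zero_of_lt_one h0 h1).const_mul (|K| * max ε R)
      rwa [mul_zero] at this
    obtain ⟨n, hn⟩ := (h2.eventually (ge_mem_nhds hε)).exists
    exact ⟨n, hn⟩
  have hGp0 : Gp.det ≠ 0 := hGp.ne_zero
  have hGm0 : Gm.det ≠ 0 := hGm.ne_zero
  have hpow : (Matrix.fromBlocks Gp 0 0 Gm) ^ n = Matrix.fromBlocks (Gp ^ n) 0 0 (Gm ^ n) :=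
    Matrix.fromBlocks_diagonal_pow _ _ _
  -- the action of the power of `G`
  have hact : ∀ φ : Matrix (Fin b) (Fin a) ℂ, vn v φ ≤ max ε R →
      ∃ φ', vn v φ' ≤ ε ∧ mp ((Matrix.fromBlocks Gp 0 0 Gm) ^ n) (gr φ) = gr φ' := by
    intro φ hφ
    refine ⟨Gm ^ n * φ * (Gp ^ n)⁻¹, ?_, ?_⟩
    · have e1 : (Gp ^ n)⁻¹ = Gp⁻¹ ^ n := (Matrix.inv_pow' Gp n).symm
      rw [e1]
      calc vn v (Gm ^ n * φ * Gp⁻¹ ^ n) ≤ vn v (Gm ^ n * φ) * vn v (Gp⁻¹ ^ n) := vn_mul v _ _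
        _ ≤ (vn v (Gm ^ n) * vn v φ) * vn v (Gp⁻¹ ^ n) :=
            mul_le_mul_of_nonneg_right (vn_mul v _ _) (vn_nonneg v _)
        _ = (vn v (Gm ^ n) * vn v (Gp⁻¹ ^ n)) * vn v φ := by ring
        _ ≤ (K * θ ^ n) * vn v φ := mul_le_mul_of_nonneg_right (hcon n) (vn_nonneg v _)
        _ ≤ (|K| * θ ^ n) * vn v φ :=
            mul_le_mul_of_nonneg_right
              (mul_le_mul_of_nonneg_right (le_abs_self K) (pow_nonneg h0 n)) (vn_nonneg v _)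
        _ ≤ (|K| * θ ^ n) * max ε R :=
            mul_le_mul_of_nonneg_left hφ (mul_nonneg (abs_nonneg K) (pow_nonneg h0 n))
        _ = |K| * max ε R * θ ^ n := by ring
        _ ≤ ε := hn
    · rw [hpow, mp_gr]
      · rw [zero_add, Matrix.zero_mul, add_zero]
      · rw [Matrix.zero_mul, add_zero, Matrix.det_pow]
        exact pow_ne_zero n hGp0
  set U : Set (Submodule ℂ (Fin a ⊕ Fin b → ℂ)) := {P | ∃ φ, vn v φ ≤ ε ∧ P = gr φ} with hU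
  set V : Set (Submodule ℂ (Fin a ⊕ Fin b → ℂ)) := {P | ∃ Q ∈ U, P = mp x Q} with hV
  have hVgr : ∀ P ∈ V, ∃ ψ, ε < vn v ψ ∧ vn v ψ ≤ R ∧ P = gr ψ := by
    rintro P ⟨Q, ⟨φ, hφ, rfl⟩, rfl⟩
    obtain ⟨h3, h4, h5⟩ := hnear φ hφ
    refine ⟨(C + D * φ) * (A + B * φ)⁻¹, h5, h4, ?_⟩
    rw [hxb, mp_gr _ _ _ _ _ h3]
  have hgU : ∀ P ∈ U ∪ V, mp ((Matrix.fromBlocks Gp 0 0 Gm) ^ n) P ∈ U := by
    rintro P (⟨φ, hφ, rfl⟩ | hP)
    · exact hact φ (hφ.trans (le_max_left _ _))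
    · obtain ⟨ψ, -, h4, rfl⟩ := hVgr P hP
      exact hact ψ (h4.trans (le_max_right _ _))
  refine ⟨n, ?_⟩
  refine pp_words (mp (a := a) (b := b)) ?_ ?_ _ _ ?_ ?_ U V ?_ ?_ hgU ?_
  · intro P
    unfold mp
    rw [Matrix.toLin'_one]
    exact Submodule.map_id P
  · intro M N P
    exact mp_mul M N P
  · refine mp_injective _ ?_
    rw [hpow, Matrix.det_fromBlocks_zero₂₁, Matrix.det_pow, Matrix.det_pow]
    exact mul_ne_zero (pow_ne_zero n hGp0) (pow_ne_zero n hGm0)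
  · refine mp_injective _ ?_
    rw [Matrix.det_mul, hpow, Matrix.det_fromBlocks_zero₂₁, Matrix.det_pow, Matrix.det_pow]
    exact mul_ne_zero hx.ne_zero (mul_ne_zero (pow_ne_zero n hGp0) (pow_ne_zero n hGm0))
  · exact ⟨gr 0, 0, by rw [(vn_eq_zero v 0).2 rfl]; exact hε.le, rfl⟩
  · rw [Set.disjoint_left]
    rintro P ⟨φ, hφ, rfl⟩ hP
    obtain ⟨ψ, h3, -, h5⟩ := hVgr _ hP
    rw [gr_injective h5] at hφ
    exact absurd hφ (not_le.2 h3)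
  · intro P hP
    exact ⟨mp ((Matrix.fromBlocks Gp 0 0 Gm) ^ n) P, hgU P hP, mp_mul _ _ _⟩

end PDG
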