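import Mathlib

/-! # Existence of a transversal element -/

set_option autoImplicit false

open scoped Classical

namespace PDG

/-- PROOF. Matrix of rank at most `K`: if vectors `c_j ∈ ℂ^κ`, `e_i ∈ ℂ^κ` (`κ` finite) satisfy `c_j · e_i = 0` for `i ≠ j` and `≠ 0` for `i = j`, `i, j < N`, then the `c_j` are linearly independent, so `N ≤ |κ|`. -/
theorem card_le_of_dual {κ : Type} [Fintype κ] (N : ℕ) (c e : Fin N → κ → ℂ)
    (h0 : ∀ i j, i ≠ j → ∑ k, c j k * e i k = 0) (h1 : ∀ i, ∑ k, c i k * e i k ≠ 0) :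
    N ≤ Fintype.card κ := by
  have hli : LinearIndependent ℂ c := by
    rw [Fintype.linearIndependent_iff]
    intro g hg i
    have h2 : ∑ k, (∑ j, g j • c j) k * e i k = 0 := by
      rw [hg]; simp
    have h3 : ∑ k, (∑ j, g j • c j) k * e i k = ∑ j, g j * ∑ k, c j k * e i k := by
      simp only [Finset.sum_apply, Pi.smul_apply, smul_eq_mul, Finset.sum_mul, Finset.mul_sum]
      rw [Finset.sum_comm]
      refine Finset.sum_congr rfl fun j _ => Finset.sum_congr rfl fun k _ => by ring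
    rw [h3] at h2
    rw [Finset.sum_eq_single i] at h2
    · exact (mul_eq_zero.1 h2).resolve_right (h1 i)
    · intro j _ hj
      rw [h0 i j (Ne.symm hj), mul_zero]
    · intro h; exact absurd (Finset.mem_univ _) h
  have h4 := hli.fintype_card_le_finrank
  simpa using h4

/-- PROOF. Multilinearity of the determinant in the columns: column `t` of the upper left block of `Y X` is `∑_k X_{k,t} (Y_{·,k})`; so the determinant is `∑_{k : Fin a → Fin a ⊕ Fin b} (∏_t X_{k_t, t}) det (Y_{s, k_t})_{s,t}` (rows and columns `Sum.inl`). -/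
theorem det_block_mul {a b : ℕ} (Y X : Matrix (Fin a ⊕ Fin b) (Fin a ⊕ Fin b) ℂ) :
    (Y * X).toBlocks₁₁.det = ∑ k : Fin a → Fin a ⊕ Fin b,
      (Matrix.of (fun s t : Fin a => Y (Sum.inl s) (k t))).det * ∏ t, X (k t) (Sum.inl t) := by
  have h1 : (Y * X).toBlocks₁₁.det
      = (Matrix.detRowAlternating (n := Fin a) (R := ℂ)).toMultilinearMap
        (fun t => ∑ k : Fin a ⊕ Fin b, X k (Sum.inl t) • (fun s => Y (Sum.inl s) k)) := by
    rw [← Matrix.det_transpose]
    change Matrix.det _ = Matrix.det _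
    congr 1
    ext t s
    simp only [Matrix.transpose_apply, Matrix.toBlocks₁₁, Matrix.of_apply, Matrix.mul_apply,
      Finset.sum_apply, Pi.smul_apply, smul_eq_mul]
    exact Finset.sum_congr rfl fun k _ => mul_comm _ _
  rw [h1, MultilinearMap.map_sum]
  refine Finset.sum_congr rfl fun k _ => ?_
  rw [MultilinearMap.map_smul_univ]
  rw [smul_eq_mul, mul_comm]
  congr 1
  rw [← Matrix.det_transpose]
  rfl

/-- PROOF. `E = ` vectors supported on `Fin a`; `ρ x E = E` iff `(ρ x).toBlocks₂₁ = 0` (`ρ x` is invertible with inverse `ρ x⁻¹`). The elements with this property form a subgroup `St` (products of block triangular matrices; for the inverse: `ρ x E ⊆ E` and equal dimensions). By `hst` it has infinite index, so there are `y_0, y_1, ...` in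
different cosets: `y_j⁻¹ y_i ∉ St` for `i ≠ j`. Suppose the claim is false: `det (ρ x).toBlocks₁₁ ≠ 0` implies `(ρ x).toBlocks₂₁ = 0`. Then `det (ρ (y_j⁻¹ y_i)).toBlocks₁₁ = 0` for `i ≠ j` and `= 1` for `i = j`. By `det_block_mul` (`Y = ρ y_j⁻¹`, `X = ρ y_i`) and `card_le_of_dual` for `N > (a + b)^a`: contradiction. -/
theorem exists_transversal {L : Type} [Group L] {a b : ℕ}
    (ρ : L →* Matrix (Fin a ⊕ Fin b) (Fin a ⊕ Fin b) ℂ)
    (hst : ∀ L' : Subgroup L, L'.FiniteIndex → ∃ g ∈ L', (ρ g).toBlocks₂₁ ≠ 0) :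
    ∃ x : L, (ρ x).toBlocks₁₁.det ≠ 0 ∧ (ρ x).toBlocks₂₁ ≠ 0 := by
  by_contra hcon
  push Not at hcon
  have hmul21 : ∀ x y : L, (ρ x).toBlocks₂₁ = 0 → (ρ (x * y)).toBlocks₂₁
      = (ρ x).toBlocks₂₂ * (ρ y).toBlocks₂₁ := by
    intro x y hx
    rw [map_mul]
    conv_lhs => rw [← Matrix.fromBlocks_toBlocks (ρ x), ← Matrix.fromBlocks_toBlocks (ρ y),
      Matrix.fromBlocks_multiply, Matrix.toBlocks_fromBlocks₂₁, hx]
    simp
  have hD : ∀ x : L, (ρ x).toBlocks₂₁ = 0 → IsUnit (ρ x).toBlocks₂₂ := by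
    intro x hx
    rw [Matrix.isUnit_iff_isUnit_det, isUnit_iff_ne_zero]
    intro h0
    have h1 : (ρ x).det = (ρ x).toBlocks₁₁.det * (ρ x).toBlocks₂₂.det := by
      conv_lhs => rw [← Matrix.fromBlocks_toBlocks (ρ x), hx]
      rw [Matrix.det_fromBlocks_zero₂₁]
    rw [h0, mul_zero] at h1
    have h2 : (ρ x * ρ x⁻¹).det = 1 := by
      rw [← map_mul, mul_inv_cancel, map_one, Matrix.det_one]
    rw [Matrix.det_mul, h1, zero_mul] at h2
    exact zero_ne_one h2
  have h21one : (ρ 1).toBlocks₂₁ = 0 := by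
    rw [map_one]
    ext i j
    simp [Matrix.toBlocks₂₁, Matrix.one_apply]
  let St : Subgroup L :=
    { carrier := {x | (ρ x).toBlocks₂₁ = 0}
      one_mem' := h21one
      mul_mem' := by
        intro x y hx hy
        simp only [Set.mem_ofPred_eq] at hx hy ⊢
        rw [hmul21 x y hx, hy, Matrix.mul_zero]
      inv_mem' := by
        intro x hx
        simp only [Set.mem_ofPred_eq] at hx ⊢
        have h1 := hmul21 x x⁻¹ hx
        rw [mul_inv_cancel, h21one] at h1
        obtain ⟨u, hu⟩ := hD x hx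
        rw [← hu] at h1
        have h3 : (↑u⁻¹ : Matrix (Fin b) (Fin b) ℂ) * ((↑u : Matrix (Fin b) (Fin b) ℂ) *
            (ρ x⁻¹).toBlocks₂₁) = (ρ x⁻¹).toBlocks₂₁ := by
          rw [← Matrix.mul_assoc, Units.inv_mul, Matrix.one_mul]
        rw [← h3, ← h1, Matrix.mul_zero] }
  have hSt : ∀ x, x ∈ St ↔ (ρ x).toBlocks₂₁ = 0 := fun x => Iff.rfl
  have hinf : ¬ St.FiniteIndex := by
    intro h
    obtain ⟨g, hg, hg'⟩ := hst St h
    exact hg' ((hSt g).1 hg)
  have hInf : Infinite (L ⧸ St) := by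
    by_contra h
    rw [not_infinite_iff_finite] at h
    exact hinf (Subgroup.finiteIndex_of_finite_quotient)
  let y : ℕ → L := fun n => Quotient.out (Infinite.natEmbedding (L ⧸ St) n)
  have hy : ∀ i j, i ≠ j → (y j)⁻¹ * y i ∉ St := by
    intro i j hij hmem
    have h1 : (QuotientGroup.mk (y j) : L ⧸ St) = QuotientGroup.mk (y i) :=
      QuotientGroup.eq.2 hmem
    have h2 : ∀ n, (QuotientGroup.mk (y n) : L ⧸ St) = Infinite.natEmbedding (L ⧸ St) n :=
      fun n => Quotient.out_eq _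
    rw [h2, h2] at h1
    exact hij ((Infinite.natEmbedding (L ⧸ St)).injective h1).symm
  have h4 := card_le_of_dual (κ := Fin a → Fin a ⊕ Fin b)
    (Fintype.card (Fin a → Fin a ⊕ Fin b) + 1)
    (fun j k => (Matrix.of (fun s t : Fin a => (ρ (y j)⁻¹) (Sum.inl s) (k t))).det)
    (fun i k => ∏ t, (ρ (y i)) (k t) (Sum.inl t))
    (by
      intro i j hij
      rw [← det_block_mul, ← map_mul]
      by_contra h
      have h5 := hcon _ h
      exact hy i j (fun h => hij (Fin.ext h)) ((hSt _).2 h5))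
    (by
      intro i
      rw [← det_block_mul, ← map_mul, inv_mul_cancel, map_one]
      have : (1 : Matrix (Fin a ⊕ Fin b) (Fin a ⊕ Fin b) ℂ).toBlocks₁₁ = 1 := by
        ext i j
        simp [Matrix.toBlocks₁₁, Matrix.one_apply]
      rw [this, Matrix.det_one]
      exact one_ne_zero)
  omega

end PDG
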