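import Mathlib

/-! # Roots of unity congruent to one -/

set_option autoImplicit false

open scoped Classical

namespace PDG

/-- PROOF. Suppose `q ≠ l`; `ζ = μ^(orderOf μ / q)` has order `q`. `μ` is a root of the monic characteristic polynomial of `M` over `R`, so `R' = R[μ]` (`Algebra.adjoin R {μ}` in `ℂ`) is integral over `R`; let `J` be a maximal ideal of `R'` lying over `I` (lying over). The characteristic polynomial
of `M` is congruent to `(X - 1)^m` modulo `I`, so `(μ - 1)^m ∈ J`, `μ - 1 ∈ J`, `ζ - 1 ∈ J`. But `1 + ζ + ... + ζ^(q-1) = 0` and it is `≡ q` modulo `J`: `q ∈ J`; also `l ∈ J`, `q` and `l` are coprime: `1 ∈ J`, contradiction. (The order of `μ` is positive by `hn`, `h1`.) -/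
theorem root_prime (R : Subring ℂ) (I : Ideal R) (hI : I.IsMaximal) (l : ℕ) (hl : l.Prime)
    (hlI : ((l : ℕ) : R) ∈ I) {m : ℕ} (M : Matrix (Fin m) (Fin m) R)
    (hM : ∀ i j, M i j - (1 : Matrix (Fin m) (Fin m) R) i j ∈ I) (μ : ℂ)
    (hμ : (M.map R.subtype).charpoly.IsRoot μ) (n : ℕ) (hn : 0 < n) (h1 : μ ^ n = 1) (q : ℕ)
    (hq : q.Prime) (hqn : q ∣ orderOf μ) : q = l := by
  by_contra hql
  have hord : orderOf μ ≠ 0 := (orderOf_pos_iff.2 (isOfFinOrder_iff_pow_eq_one.2 ⟨n, hn, h1⟩)).ne'
  have hζ : orderOf (μ ^ (orderOf μ / q)) = q := orderOf_pow_orderOf_div hord hqn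
  have hroot : Polynomial.eval₂ (algebraMap R ℂ) μ M.charpoly = 0 := by
    have h2 : (M.map R.subtype).charpoly = M.charpoly.map R.subtype := Matrix.charpoly_map M R.subtype
    rw [h2, Polynomial.IsRoot, Polynomial.eval_map] at hμ
    exact hμ
  have hint : IsIntegral R μ := ⟨M.charpoly, M.charpoly_monic, hroot⟩
  have := hI
  obtain ⟨J, hJ, hJI⟩ := Ideal.exists_ideal_over_maximal_of_isIntegral
    (S := integralClosure R ℂ) I (by
      have hinj : Function.Injective (algebraMap R (integralClosure R ℂ)) := by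
        intro x y hxy
        have := congrArg (fun z : integralClosure R ℂ => (z : ℂ)) hxy
        exact Subtype.ext this
      rw [(RingHom.injective_iff_ker_eq_bot _).1 hinj]
      exact bot_le)
  have := hJ
  let φ : integralClosure R ℂ →+* (integralClosure R ℂ ⧸ J) := Ideal.Quotient.mk J
  let μ' : integralClosure R ℂ := ⟨μ, hint⟩
  have : Nontrivial (integralClosure R ℂ ⧸ J) := Ideal.Quotient.nontrivial_iff.2 hJ.ne_top
  have : IsDomain (integralClosure R ℂ ⧸ J) := inferInstance
  have hφI : ∀ r ∈ I, φ (algebraMap R (integralClosure R ℂ) r) = 0 := by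
    intro r hr
    refine Ideal.Quotient.eq_zero_iff_mem.2 ?_
    rw [← hJI] at hr
    exact hr
  have hM1 : M.map (φ.comp (algebraMap R (integralClosure R ℂ))) = 1 := by
    ext i j
    rw [Matrix.map_apply]
    have h3 := hφI _ (hM i j)
    rw [map_sub, map_sub, sub_eq_zero] at h3
    rw [RingHom.comp_apply, h3]
    by_cases hij : i = j
    · subst hij
      simp
    · simp [Matrix.one_apply_ne hij]
  have hμ1 : φ μ' = 1 := by
    have h4 : Polynomial.eval₂ (algebraMap R (integralClosure R ℂ)) μ' M.charpoly = 0 := by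
      apply Subtype.ext
      have h5 := Polynomial.hom_eval₂ M.charpoly (algebraMap R (integralClosure R ℂ))
        (integralClosure R ℂ).val.toRingHom μ'
      exact h5.trans hroot
    have h6 : Polynomial.eval₂ (φ.comp (algebraMap R (integralClosure R ℂ))) (φ μ') M.charpoly = 0 := by
      rw [← Polynomial.hom_eval₂, h4, map_zero]
    rw [← Polynomial.eval_map, ← Matrix.charpoly_map, hM1, Matrix.charpoly_one] at h6
    simp only [Polynomial.eval_pow, Polynomial.eval_sub, Polynomial.eval_X,
      Polynomial.eval_one] at h6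
    exact sub_eq_zero.1 (eq_zero_of_pow_eq_zero h6)
  have hsum : ∑ i ∈ Finset.range q, (μ' ^ (orderOf μ / q)) ^ i = 0 := by
    apply Subtype.ext
    have h8 : (∑ i ∈ Finset.range q, (μ ^ (orderOf μ / q)) ^ i) = 0 := by
      have h9 : μ ^ (orderOf μ / q) ≠ 1 := by
        intro h10
        rw [h10, orderOf_one] at hζ
        exact hq.one_lt.ne hζ
      have h11 := mul_geom_sum (μ ^ (orderOf μ / q)) q
      have h12 : (μ ^ (orderOf μ / q)) ^ q = 1 := by
        conv_lhs => rw [← hζ]
        rw [hζ]
        nth_rewrite 2 [← hζ]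
        exact pow_orderOf_eq_one _
      rw [h12, sub_self] at h11
      exact (mul_eq_zero.1 h11).resolve_left (sub_ne_zero.2 h9)
    have h13 := map_sum (integralClosure R ℂ).val
      (fun i => (μ' ^ (orderOf μ / q)) ^ i) (Finset.range q)
    simp only [map_pow] at h13
    exact h13.trans h8
  have hq0 : ((q : ℕ) : integralClosure R ℂ ⧸ J) = 0 := by
    have h14 := congrArg φ hsum
    rw [map_sum, map_zero] at h14
    simp only [map_pow, hμ1, one_pow, Finset.sum_const, Finset.card_range, nsmul_eq_mul,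
      mul_one] at h14
    exact h14
  have hl0 : ((l : ℕ) : integralClosure R ℂ ⧸ J) = 0 := by
    have h15 := hφI _ hlI
    rwa [map_natCast, map_natCast] at h15
  have hcop : Nat.Coprime q l := (Nat.coprime_primes hq hl).2 hql
  obtain ⟨a, b, hab⟩ : IsCoprime (q : ℤ) (l : ℤ) := Nat.isCoprime_iff_coprime.2 hcop
  have h16 := congrArg (Int.cast : ℤ → (integralClosure R ℂ ⧸ J)) hab
  push_cast at h16
  rw [hq0, hl0, mul_zero, mul_zero, add_zero] at h16
  exact zero_ne_one h16

end PDG
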