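import Mathlib

/-! # Two maximal ideals with finite residue fields of different characteristics -/

set_option autoImplicit false

open scoped Classical

namespace PDG

theorem TwoP_aux_int : IsJacobsonRing ℤ := by
  rw [isJacobsonRing_iff_prime_eq]
  intro P hP
  by_cases h0 : P = ⊥
  · subst h0
    refine le_antisymm ?_ Ideal.le_jacobson
    intro x hx
    rw [Ideal.mem_bot]
    by_contra hne
    obtain ⟨p, hpx, hp⟩ := Nat.exists_infinite_primes (x.natAbs + 1)
    have hpI : Prime (p : ℤ) := Nat.prime_iff_prime_int.mp hp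
    have hmax : (Ideal.span {(p : ℤ)}).IsMaximal :=
      PrincipalIdealRing.isMaximal_of_irreducible hpI.irreducible
    have hx2 : x ∈ Ideal.span {(p : ℤ)} := by
      have h1 := (Ideal.mem_sInf.mp hx) (I := Ideal.span {(p : ℤ)}) ⟨bot_le, hmax⟩
      exact h1
    rw [Ideal.mem_span_singleton] at hx2
    have h3 : p ∣ x.natAbs := by
      have := Int.natAbs_dvd_natAbs.mpr hx2
      simpa using this
    have h4 : 0 < x.natAbs := Int.natAbs_pos.mpr hne
    have := Nat.le_of_dvd h4 h3
    omega
  · have hmax : P.IsMaximal := IsPrime.to_maximal_ideal h0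
    refine le_antisymm ?_ Ideal.le_jacobson
    intro x hx
    exact (Ideal.mem_sInf.mp hx) (I := P) ⟨le_refl _, hmax⟩

/-- PROOF. A field which is a finitely generated ring is finite (`finite_of_finite_type_of_isJacobsonRing`: it is finite over `ℤ`, `ℤ` is a Jacobson ring; a field which is a finitely generated `ℤ`-module has positive characteristic, since otherwise it contains `ℚ`, not a finitely generated abelian
group; so it is finite dimensional over some `ZMod q`). -/
theorem finite_of_fg_field (K : Type) [Field K] (h : Algebra.FiniteType ℤ K) : Finite K := by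
  haveI := TwoP_aux_int
  haveI := h
  haveI hfin : Module.Finite ℤ K := finite_of_finite_type_of_isJacobsonRing ℤ K
  have hchar : ∃ n : ℕ, n ≠ 0 ∧ (n : K) = 0 := by
    by_contra hcon
    push Not at hcon
    have hinj : Function.Injective (algebraMap ℤ K) := by
      rw [injective_iff_map_eq_zero]
      intro a ha
      by_contra hne
      have h1 : ((a.natAbs : ℕ) : K) = 0 := by
        rcases Int.natAbs_eq a with h2 | h2
        · have h3 : ((a : ℤ) : K) = 0 := by simpa using ha
          rw [h2] at h3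
          simpa using h3
        · have h3 : ((a : ℤ) : K) = 0 := by simpa using ha
          rw [h2] at h3
          simpa using h3
      exact hcon a.natAbs (Int.natAbs_ne_zero.mpr hne) h1
    have hint : Algebra.IsIntegral ℤ K := inferInstance
    have hf : IsField ℤ := isField_of_isIntegral_of_isField hinj (Field.toIsField K)
    exact Int.not_isField hf
  obtain ⟨n, hn, hn0⟩ := hchar
  refine Module.finite_of_fg_torsion K ?_
  intro x
  refine ⟨⟨(n : ℤ), mem_nonZeroDivisors_of_ne_zero (by exact_mod_cast hn)⟩, ?_⟩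
  change ((n : ℤ)) • x = 0
  rw [zsmul_eq_mul]
  push_cast
  rw [hn0, zero_mul]

theorem TwoP_aux_max (R : Subring ℂ) (S : Finset ℂ) (hR : R = Subring.closure (S : Set ℂ))
    (N : ℕ) (hN : N ≠ 0) :
    ∃ (l : ℕ) (I : Ideal R), l.Prime ∧ I.IsMaximal ∧ Finite (R ⧸ I) ∧ ((l : ℕ) : R) ∈ I ∧
      ((N : ℕ) : R) ∉ I := by
  haveI := TwoP_aux_int
  haveI hft : Algebra.FiniteType ℤ R := by
    have h1 : (subalgebraOfSubring R).FG := by
      rw [hR, ← Algebra.adjoin_int]
      exact Subalgebra.fg_adjoin_finset S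
    have h2 : Algebra.FiniteType ℤ (subalgebraOfSubring R) :=
      (subalgebraOfSubring R).fg_iff_finiteType.mp h1
    let g : (subalgebraOfSubring R) →+* R :=
      { toFun := fun x => ⟨x.1, x.2⟩
        map_one' := rfl
        map_mul' := fun _ _ => rfl
        map_zero' := rfl
        map_add' := fun _ _ => rfl }
    refine Algebra.FiniteType.of_surjective g.toIntAlgHom ?_
    intro x
    exact ⟨⟨x.1, x.2⟩, rfl⟩
  haveI hJ : IsJacobsonRing R := isJacobsonRing_of_finiteType (A := ℤ)
  have hbot : (⊥ : Ideal R).jacobson = ⊥ := hJ.out Ideal.isRadical_bot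
  have hNR : ((N : ℕ) : R) ∉ (⊥ : Ideal R).jacobson := by
    rw [hbot, Ideal.mem_bot]
    intro h
    have : ((N : ℕ) : ℂ) = 0 := by
      have := congrArg (Subtype.val) h
      simpa using this
    exact hN (by exact_mod_cast this)
  have hex : ∃ I : Ideal R, I.IsMaximal ∧ ((N : ℕ) : R) ∉ I := by
    by_contra hcon
    push Not at hcon
    apply hNR
    rw [Ideal.jacobson, Ideal.mem_sInf]
    intro I hI
    exact hcon I hI.2
  obtain ⟨I, hI, hNI⟩ := hex
  letI : Field (R ⧸ I) := Ideal.Quotient.field I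
  have hfin : Finite (R ⧸ I) := by
    refine finite_of_fg_field (R ⧸ I) ?_
    refine Algebra.FiniteType.of_surjective (Ideal.Quotient.mk I).toIntAlgHom ?_
    intro x
    obtain ⟨y, hy⟩ := Ideal.Quotient.mk_surjective x
    exact ⟨y, hy⟩
  haveI := hfin
  obtain ⟨l, hl⟩ := CharP.exists (R ⧸ I)
  have hlp : l.Prime := CharP.char_is_prime (R ⧸ I) l
  refine ⟨l, I, hlp, hI, hfin, ?_, hNI⟩
  have h1 : ((l : ℕ) : R ⧸ I) = 0 := CharP.cast_eq_zero _ l
  rw [← Ideal.Quotient.eq_zero_iff_mem]
  simpa using h1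

/-- PROOF. `R` is a finitely generated `ℤ`-algebra, a domain of characteristic zero. Claim: for every finite set `E` of primes some prime `l ∉ E` is not a unit in `R`: otherwise, with `N = ∏_{l ∈ E} l`, in `R[1/N]` (`Localization.Away`, or `Algebra.adjoin R {1/N}` in `ℂ`; it is a nonzero
finitely generated `ℤ`-algebra) all primes are units; the residue field of a maximal ideal is finite (`finite_of_fg_field`), of some characteristic `q`, but `q` is a unit: contradiction. So there are two different primes `l₁, l₂` which are not units; take maximal ideals containing them; the residue fields are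
finite. -/
theorem two_primes (R : Subring ℂ) (S : Finset ℂ) (hR : R = Subring.closure (S : Set ℂ)) :
    ∃ (l₁ l₂ : ℕ) (I₁ I₂ : Ideal R), l₁.Prime ∧ l₂.Prime ∧ l₁ ≠ l₂ ∧ I₁.IsMaximal ∧
      I₂.IsMaximal ∧ Finite (R ⧸ I₁) ∧ Finite (R ⧸ I₂) ∧ ((l₁ : ℕ) : R) ∈ I₁ ∧
      ((l₂ : ℕ) : R) ∈ I₂ := by
  obtain ⟨l₁, I₁, hp₁, hm₁, hf₁, hl₁, -⟩ := TwoP_aux_max R S hR 1 one_ne_zero
  obtain ⟨l₂, I₂, hp₂, hm₂, hf₂, hl₂, hn⟩ := TwoP_aux_max R S hR l₁ hp₁.ne_zero
  refine ⟨l₁, l₂, I₁, I₂, hp₁, hp₂, ?_, hm₁, hm₂, hf₁, hf₂, hl₁, hl₂⟩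
  intro h
  subst h
  exact hn hl₂

end PDG
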