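import Pool.Agent.W_3f3beb_h76.BurA
import Pool.Agent.W_3f3beb_h76.TwoP
import Pool.Agent.W_3f3beb_h76.RootA
import Pool.Agent.W_3f3beb_h76.Defs

/-! # Linear groups all of whose eigenvalues are roots of unity -/

set_option autoImplicit false

open scoped Classical

namespace PDG

theorem UnipA_trace {m : ℕ} (A : Matrix (Fin m) (Fin m) ℂ)
    (h : ∀ μ : ℂ, A.charpoly.IsRoot μ → μ = 1) : A.trace = m := by
  rw [Matrix.trace_eq_sum_roots_charpoly]
  have h1 : A.charpoly.roots = Multiset.replicate m 1 := by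
    rw [Multiset.eq_replicate]
    constructor
    · rw [IsAlgClosed.card_roots_eq_natDegree, Matrix.charpoly_natDegree_eq_dim, Fintype.card_fin]
    · intro b hb
      exact h b (Polynomial.isRoot_of_mem_roots hb)
  rw [h1, Multiset.sum_replicate, nsmul_eq_mul, mul_one]

/-- the action on vectors -/
noncomputable def UnipA_act {L : Type} [Group L] {m : ℕ} (ρ : L →* GL (Fin m) ℂ) :
    L →* Module.End ℂ (Fin m → ℂ) :=
  ((Matrix.toLinAlgEquiv' : Matrix (Fin m) (Fin m) ℂ ≃ₐ[ℂ] _).toAlgHom.toRingHom.toMonoidHom.comp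
    (Units.coeHom (Matrix (Fin m) (Fin m) ℂ))).comp ρ

theorem UnipA_act_apply {L : Type} [Group L] {m : ℕ} (ρ : L →* GL (Fin m) ℂ) (g : L) :
    UnipA_act ρ g = Matrix.toLinAlgEquiv' (ρ g).val := rfl

/-- PROOF. If all elements of the image of `L'` are unipotent (characteristic polynomial `(X - 1)^m`, so trace `m`) and `L'` acts irreducibly, then `tr ((ρ g - 1) ρ h) = m - m = 0` for all `g, h ∈ L'`, the `ρ h` span all matrices (`burnside`; `m ≥ 1`), so `ρ g = 1`. -/
theorem trivial_of_unipotent {L : Type} [Group L] (m : ℕ) (ρ : L →* GL (Fin m) ℂ)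
    (L' : Subgroup L)
    (hirr : ∀ W : Submodule ℂ (Fin m → ℂ), (∀ g ∈ L', ∀ w ∈ W, (ρ g).val.mulVec w ∈ W) →
      W = ⊥ ∨ W = ⊤)
    (hu : ∀ g ∈ L', ∀ μ : ℂ, (ρ g).val.charpoly.IsRoot μ → μ = 1) : ∀ g ∈ L', ρ g = 1 := by
  intro g hg
  rcases Nat.eq_zero_or_pos m with hm | hm
  · subst hm
    exact Units.ext (Subsingleton.elim _ _)
  · haveI : Nonempty (Fin m) := ⟨⟨0, hm⟩⟩
    obtain ⟨S, hS⟩ : ∃ S : Submonoid (Module.End ℂ (Fin m → ℂ)),
        S = L'.toSubmonoid.map (UnipA_act ρ) := ⟨_, rfl⟩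
    have hspan : Submodule.span ℂ (S : Set (Module.End ℂ (Fin m → ℂ))) = ⊤ := by
      refine burnside S ?_
      intro W hW
      refine hirr W ?_
      intro g hg w hw
      have h1 : UnipA_act ρ g ∈ S := by
        rw [hS]
        exact Submonoid.mem_map_of_mem _ hg
      have h2 := hW _ h1 w hw
      rw [UnipA_act_apply, Matrix.toLinAlgEquiv'_apply] at h2
      exact h2
    -- the functional
    have key : ∀ f : Module.End ℂ (Fin m → ℂ),
        ((ρ g).val * LinearMap.toMatrixAlgEquiv' f).trace =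
          ((1 : Matrix (Fin m) (Fin m) ℂ) * LinearMap.toMatrixAlgEquiv' f).trace := by
      intro f
      have hf : f ∈ Submodule.span ℂ (S : Set (Module.End ℂ (Fin m → ℂ))) := by
        rw [hspan]
        exact Submodule.mem_top
      induction hf using Submodule.span_induction with
      | mem x hx =>
        rw [hS] at hx
        obtain ⟨h, hh, rfl⟩ := hx
        rw [UnipA_act_apply, LinearMap.toMatrixAlgEquiv'_toLinAlgEquiv', one_mul]
        have e1 : (ρ g).val * (ρ h).val = (ρ (g * h)).val := by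
          rw [map_mul]
          rfl
        rw [e1, UnipA_trace _ (hu _ (L'.mul_mem hg hh)), UnipA_trace _ (hu _ hh)]
      | zero => simp
      | add x y _ _ hx hy =>
        rw [map_add, mul_add, mul_add, Matrix.trace_add, Matrix.trace_add, hx, hy]
      | smul a x _ hx =>
        rw [map_smul, Matrix.mul_smul, Matrix.mul_smul, Matrix.trace_smul, Matrix.trace_smul, hx]
    apply Units.ext
    show (ρ g).val = 1
    rw [Matrix.ext_iff_trace_mul_right]
    intro x
    have h3 := key (Matrix.toLinAlgEquiv' x)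
    rw [LinearMap.toMatrixAlgEquiv'_toLinAlgEquiv'] at h3
    exact h3

/-- PROOF. Let `R` be the subring of `ℂ` generated by the entries of `ρ x`, `ρ x⁻¹` for `x` in a finite generating set: all `ρ g` have entries in `R`: `ρ g = M_g` mapped from `R`, `g ↦ M_g` a homomorphism to invertible matrices over `R`. `two_primes` gives `I₁, I₂`; the
subgroup `L'` of all `g` with `M_g ≡ 1` modulo `I₁` and modulo `I₂` has finite index (kernel of a homomorphism to the finite group `GL_m (R/I₁) × GL_m (R/I₂)`). For `g ∈ L'` and an eigenvalue `μ` of `ρ g`: `μ^n = 1` for some `n > 0`, and every prime `q` dividing `orderOf μ` equals `l₁` and `l₂`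
(`root_prime`): so `orderOf μ = 1`, `μ = 1`. `trivial_of_unipotent`: `ρ` is trivial on `L'`. -/
theorem finite_of_roots {L : Type} [Group L] (hL : Group.FG L) (m : ℕ) (ρ : L →* GL (Fin m) ℂ)
    (hirr : ∀ L' : Subgroup L, L'.FiniteIndex → ∀ W : Submodule ℂ (Fin m → ℂ),
      (∀ g ∈ L', ∀ w ∈ W, (ρ g).val.mulVec w ∈ W) → W = ⊥ ∨ W = ⊤)
    (hroot : ∀ (g : L) (μ : ℂ), (ρ g).val.charpoly.IsRoot μ → ∃ n : ℕ, 0 < n ∧ μ ^ n = 1) :
    Finite ρ.range := by
  obtain ⟨S, hS⟩ := Group.fg_iff.1 hL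
  obtain ⟨hS, hSf⟩ := hS
  -- the ring
  obtain ⟨E, hE⟩ : ∃ E : Set ℂ, E = ⋃ x ∈ S, ⋃ i : Fin m, ⋃ j : Fin m,
      ({(ρ x).val i j, (ρ x⁻¹).val i j} : Set ℂ) := ⟨_, rfl⟩
  have hEf : E.Finite := by
    rw [hE]
    refine hSf.biUnion fun x _ => ?_
    refine Set.finite_iUnion fun i => Set.finite_iUnion fun j => ?_
    exact Set.toFinite _
  obtain ⟨R, hR⟩ : ∃ R : Subring ℂ, R = Subring.closure ((hEf.toFinset : Finset ℂ) : Set ℂ) :=
    ⟨_, rfl⟩
  have hER : ∀ z ∈ E, z ∈ R := by
    intro z hz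
    rw [hR]
    apply Subring.subset_closure
    rw [Set.Finite.coe_toFinset]
    exact hz
  have hent2 : ∀ g : L, (∀ i j, (ρ g).val i j ∈ R) ∧ (∀ i j, (ρ g⁻¹).val i j ∈ R) := by
    intro g
    have hg : g ∈ Subgroup.closure S := by
      rw [hS]
      exact Subgroup.mem_top g
    induction hg using Subgroup.closure_induction with
    | mem x hx =>
      constructor
      · intro i j
        apply hER
        rw [hE]
        simp only [Set.mem_iUnion]
        exact ⟨x, hx, i, j, Set.mem_insert _ _⟩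
      · intro i j
        apply hER
        rw [hE]
        simp only [Set.mem_iUnion]
        exact ⟨x, hx, i, j, Set.mem_insert_of_mem _ (Set.mem_singleton _)⟩
    | one =>
      have h1 : ∀ i j : Fin m, (ρ (1 : L)).val i j ∈ R := by
        intro i j
        rw [map_one]
        show (1 : Matrix (Fin m) (Fin m) ℂ) i j ∈ R
        rw [Matrix.one_apply]
        split_ifs
        · exact R.one_mem
        · exact R.zero_mem
      refine ⟨h1, ?_⟩
      rw [inv_one]
      exact h1
    | mul x y _ _ hx hy =>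
      constructor
      · intro i j
        rw [map_mul]
        show ((ρ x).val * (ρ y).val) i j ∈ R
        rw [Matrix.mul_apply]
        exact R.sum_mem fun k _ => R.mul_mem (hx.1 i k) (hy.1 k j)
      · intro i j
        rw [mul_inv_rev, map_mul]
        show ((ρ y⁻¹).val * (ρ x⁻¹).val) i j ∈ R
        rw [Matrix.mul_apply]
        exact R.sum_mem fun k _ => R.mul_mem (hy.2 i k) (hx.2 k j)
    | inv x _ hx =>
      refine ⟨hx.2, ?_⟩
      rw [inv_inv]
      exact hx.1
  have hent : ∀ g : L, ∀ i j, (ρ g).val i j ∈ R := fun g => (hent2 g).1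
  -- the homomorphism to matrices over the ring
  obtain ⟨N, hN⟩ : ∃ N : L →* Matrix (Fin m) (Fin m) R, ∀ g,
      (N g).map R.subtype = (ρ g).val := by
    refine ⟨{ toFun := fun g => Matrix.of fun i j => ⟨(ρ g).val i j, hent g i j⟩
              map_one' := ?_
              map_mul' := ?_ }, ?_⟩
    · ext i j
      simp only [Matrix.of_apply, map_one, Units.val_one, Matrix.one_apply]
      split_ifs <;> simp
    · intro x y
      ext i j
      simp only [Matrix.of_apply, map_mul, Units.val_mul, Matrix.mul_apply]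
      push_cast
      rfl
    · intro g
      ext i j
      rfl
  obtain ⟨l₁, l₂, I₁, I₂, hl₁, hl₂, hne, hI₁, hI₂, hf₁, hf₂, hm₁, hm₂⟩ := two_primes R _ hR
  -- the finite index subgroup
  have hfin : ∀ I : Ideal R, Finite (R ⧸ I) → ∃ K : Subgroup L, K.FiniteIndex ∧
      ∀ g ∈ K, ∀ i j, N g i j - (1 : Matrix (Fin m) (Fin m) R) i j ∈ I := by
    intro I hI
    obtain ⟨θ, hθ⟩ : ∃ θ : L →* (Matrix (Fin m) (Fin m) (R ⧸ I))ˣ, ∀ g,
        (θ g).val = (N g).map (Ideal.Quotient.mk I) := by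
      refine ⟨(((Ideal.Quotient.mk I).mapMatrix :
        Matrix (Fin m) (Fin m) R →+* Matrix (Fin m) (Fin m) (R ⧸ I)).toMonoidHom.comp
        N).toHomUnits, fun g => rfl⟩
    haveI : Finite (Matrix (Fin m) (Fin m) (R ⧸ I)) := by
      unfold Matrix
      infer_instance
    haveI : Finite (Matrix (Fin m) (Fin m) (R ⧸ I))ˣ := inferInstance
    refine ⟨θ.ker, inferInstance, ?_⟩
    intro g hg i j
    have h1 : θ g = 1 := hg
    have h2 := hθ g
    rw [h1] at h2
    have h3 := congrFun (congrFun h2 i) j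
    rw [Units.val_one, Matrix.map_apply, Matrix.one_apply] at h3
    rw [← Ideal.Quotient.eq, ← h3, Matrix.one_apply]
    split_ifs <;> simp
  obtain ⟨K₁, hK₁, h₁⟩ := hfin I₁ hf₁
  obtain ⟨K₂, hK₂, h₂⟩ := hfin I₂ hf₂
  have hK : (K₁ ⊓ K₂).FiniteIndex := inferInstance
  have htriv : ∀ g ∈ K₁ ⊓ K₂, ρ g = 1 := by
    refine trivial_of_unipotent m ρ (K₁ ⊓ K₂) (hirr _ hK) ?_
    intro g hg μ hμ
    obtain ⟨n, hn, hμn⟩ := hroot g μ hμ
    by_contra hne1
    have ho : orderOf μ ≠ 1 := by
      rw [Ne, orderOf_eq_one_iff]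
      exact hne1
    obtain ⟨q, hq, hqd⟩ := Nat.exists_prime_and_dvd ho
    have hμ' : ((N g).map R.subtype).charpoly.IsRoot μ := by
      rw [hN g]
      exact hμ
    have e1 := root_prime R I₁ hI₁ l₁ hl₁ hm₁ (N g) (h₁ g hg.1) μ hμ' n hn hμn q hq hqd
    have e2 := root_prime R I₂ hI₂ l₂ hl₂ hm₂ (N g) (h₂ g hg.2) μ hμ' n hn hμn q hq hqd
    exact hne (e1.symm.trans e2)
  have hle : K₁ ⊓ K₂ ≤ ρ.ker := fun g hg => htriv g hg
  haveI : ρ.ker.FiniteIndex := Subgroup.finiteIndex_of_le hle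
  exact Finite.of_equiv _ (QuotientGroup.quotientKerEquivRange ρ).toEquiv

end PDG
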