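import Pool.Agent.W_3f3beb_h76.IrrA
import Pool.Agent.W_3f3beb_h76.EmbC
import Pool.Agent.W_3f3beb_h76.UnipA
import Pool.Agent.W_3f3beb_h76.AbsC
import Pool.Agent.W_3f3beb_h76.DecA
import Pool.Agent.W_3f3beb_h76.TransA
import Pool.Agent.W_3f3beb_h76.PingA

/-! # Linear groups in characteristic zero: Theorem F -/

set_option autoImplicit false

open scoped Classical

namespace PDG

theorem LinA_map_wd {M N : Type} [Monoid M] [Monoid N] (f : M →* N) (g h : M) (w : List Bool) :
    f (wd g h w) = wd (f g) (f h) w := by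
  unfold wd
  rw [map_list_prod, List.map_map]
  congr 1
  apply List.map_congr_left
  intro b _
  cases b <;> simp

/-- the representation in the coordinates given by `P` -/
noncomputable def LinA_rep {L : Type} [Group L] {m a b : ℕ} (ρ : L →* GL (Fin m) ℂ)
    (P : (Fin m → ℂ) ≃ₗ[ℂ] (Fin a ⊕ Fin b → ℂ)) :
    L →* Matrix (Fin a ⊕ Fin b) (Fin a ⊕ Fin b) ℂ where
  toFun x := LinearMap.toMatrix'
    (P.toLinearMap ∘ₗ Matrix.toLin' (ρ x).val ∘ₗ P.symm.toLinearMap)
  map_one' := by
    rw [map_one, Units.val_one, Matrix.toLin'_one, LinearMap.id_comp]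
    have h1 : P.toLinearMap ∘ₗ P.symm.toLinearMap = LinearMap.id := by
      ext x
      simp
    rw [h1, LinearMap.toMatrix'_id]
  map_mul' x y := by
    rw [← LinearMap.toMatrix'_comp]
    congr 1
    rw [map_mul, Units.val_mul, Matrix.toLin'_mul]
    apply LinearMap.ext
    intro z
    simp

theorem LinA_rep_mulVec {L : Type} [Group L] {m a b : ℕ} (ρ : L →* GL (Fin m) ℂ)
    (P : (Fin m → ℂ) ≃ₗ[ℂ] (Fin a ⊕ Fin b → ℂ)) (x : L) (z : Fin m → ℂ) :
    (LinA_rep ρ P x).mulVec (P z) = P ((ρ x).val.mulVec z) := by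
  unfold LinA_rep
  simp only [MonoidHom.coe_mk, OneHom.coe_mk]
  rw [LinearMap.toMatrix'_mulVec]
  simp

/-- PROOF. Strong induction on `m`. Suppose `ρ` has infinite image. `irreducible_of_min`: all finite index subgroups act irreducibly. `finite_of_roots`: there are `g` and a root `μ` of the characteristic polynomial of `ρ g` with `μ^n ≠ 1` for all `n > 0`; `μ ≠ 0`. `exists_abs`: `v` with `v μ ≠ 1`. `det ∘ ρ` has
finite image (`finite_of_comm`), so `(det ρ g)^n = 1` for some `n > 0`, `v (det ρ g) = 1`. `decomp` for `γ = ρ g`: `a, b, P, Gp, Gm, C, θ`. Let `ρ' x = P (ρ x) P⁻¹` as a matrix over `Fin a ⊕ Fin b` (`LinearMap.toMatrix'`), `ρ' g = fromBlocks Gp 0 0 Gm`. If `L'` has finite index and all `(ρ' x).toBlocks₂₁ = 0` for `x ∈ L'` then the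
preimage under `P` of the vectors supported on `Fin a` is an `L'`-invariant subspace, not `⊥`, `⊤` (`a, b > 0`): contradiction. `exists_transversal`: `x`. `ping`: `n`; the words in `ρ'(g^n)`, `ρ'(x g^n)` are different, so the words in `g^n`, `x g^n ∈ L` are different: `not_sub_of_words`. -/
theorem finDim (m : ℕ) : FinDim m := by
  induction m using Nat.strong_induction_on with
  | _ m ih =>
    intro L _ hL hs hf ρ
    by_contra hinf
    have hirr := irreducible_of_min m ih hL hs hf ρ hinf
    have hroot : ¬ ∀ (g : L) (μ : ℂ), (ρ g).val.charpoly.IsRoot μ →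
        ∃ n : ℕ, 0 < n ∧ μ ^ n = 1 := by
      intro h
      exact hinf (finite_of_roots hL m ρ hirr h)
    push Not at hroot
    obtain ⟨g, μ, hμ, hn⟩ := hroot
    have hunit : ∀ x : L, IsUnit (ρ x).val.det := fun x =>
      (Matrix.isUnit_iff_isUnit_det _).1 (ρ x).isUnit
    have hμ0 : μ ≠ 0 := by
      rintro rfl
      have h1 : (ρ g).val.det = 0 := by
        rw [Matrix.det_eq_sign_charpoly_coeff, Polynomial.coeff_zero_eq_eval_zero,
          Polynomial.IsRoot.def.1 hμ, mul_zero]
      exact (hunit g).ne_zero h1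
    obtain ⟨v, hv⟩ := exists_abs μ hn hμ0
    have hvdet : v (ρ g).val.det = 1 := by
      have h1 : Finite (Matrix.GeneralLinearGroup.det.comp ρ : L →* ℂˣ).range :=
        finite_of_comm hf _ (fun x y => mul_comm _ _)
      obtain ⟨n, hn0, hn1⟩ := isOfFinOrder_iff_pow_eq_one.1 (isOfFinOrder_of_finite
        (⟨(Matrix.GeneralLinearGroup.det.comp ρ : L →* ℂˣ) g, g, rfl⟩ :
          (Matrix.GeneralLinearGroup.det.comp ρ : L →* ℂˣ).range))
      have h2 : ((Matrix.GeneralLinearGroup.det (ρ g) : ℂˣ) : ℂ) ^ n = 1 := by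
        have h3 := congrArg (fun y => ((Subtype.val y : ℂˣ) : ℂ)) hn1
        simpa using h3
      have h4 : (ρ g).val.det ^ n = 1 := h2
      have h5 : v (ρ g).val.det ^ n = 1 := by
        rw [← map_pow, h4, map_one]
      exact (pow_eq_one_iff_of_nonneg (v.nonneg _) hn0.ne').1 h5
    obtain ⟨a, b, P, Gp, Gm, ha, hb, hGp, hGm, hP, C, θ, hθ0, hθ1, hC⟩ :=
      decomp v m (ρ g).val hvdet μ hμ hv
    have hg : LinA_rep ρ P g = Matrix.fromBlocks Gp 0 0 Gm := by
      apply Matrix.toLin'.injective
      apply LinearMap.ext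
      intro z
      obtain ⟨y, rfl⟩ := P.surjective z
      rw [Matrix.toLin'_apply, Matrix.toLin'_apply, LinA_rep_mulVec, hP]
    have hst : ∀ L' : Subgroup L, L'.FiniteIndex →
        ∃ g ∈ L', (LinA_rep ρ P g).toBlocks₂₁ ≠ 0 := by
      intro L' hL'
      by_contra hcon
      push Not at hcon
      let W : Submodule ℂ (Fin m → ℂ) :=
        { carrier := {y | ∀ j : Fin b, P y (Sum.inr j) = 0}
          add_mem' := by
            intro y z hy hz j
            rw [map_add, Pi.add_apply, hy j, hz j, add_zero]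
          zero_mem' := by
            intro j
            rw [map_zero, Pi.zero_apply]
          smul_mem' := by
            intro c y hy j
            rw [map_smul, Pi.smul_apply, hy j, smul_zero] }
      have hmem : ∀ y, y ∈ W ↔ ∀ j : Fin b, P y (Sum.inr j) = 0 := fun y => Iff.rfl
      have hinv : ∀ x ∈ L', ∀ w ∈ W, (ρ x).val.mulVec w ∈ W := by
        intro x hx w hw
        rw [hmem] at hw ⊢
        intro j
        rw [← LinA_rep_mulVec, Matrix.mulVec, dotProduct, Fintype.sum_sum_type]
        have h1 : ∀ i : Fin a, LinA_rep ρ P x (Sum.inr j) (Sum.inl i) = 0 := by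
          intro i
          have h2 := congrFun (congrFun (hcon x hx) j) i
          simpa [Matrix.toBlocks₂₁] using h2
        rw [Finset.sum_eq_zero, Finset.sum_eq_zero, add_zero]
        · intro i _
          rw [hw i, mul_zero]
        · intro i _
          rw [h1 i, zero_mul]
      rcases hirr L' hL' W hinv with hbot | htop
      · have h1 : P.symm (Pi.single (Sum.inl ⟨0, ha⟩) 1) ∈ W := by
          rw [hmem]
          intro j
          rw [LinearEquiv.apply_symm_apply]
          simp
        rw [hbot, Submodule.mem_bot] at h1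
        have h2 := congrArg P h1
        rw [LinearEquiv.apply_symm_apply, map_zero] at h2
        have h3 := congrFun h2 (Sum.inl ⟨0, ha⟩)
        simp at h3
      · have h1 : P.symm (Pi.single (Sum.inr ⟨0, hb⟩) 1) ∈ W := by
          rw [htop]
          exact Submodule.mem_top
        rw [hmem] at h1
        have h2 := h1 ⟨0, hb⟩
        rw [LinearEquiv.apply_symm_apply] at h2
        simp at h2
    obtain ⟨x, hx1, hx2⟩ := exists_transversal (LinA_rep ρ P) hst
    have hxu : IsUnit (LinA_rep ρ P x).det :=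
      (Matrix.isUnit_iff_isUnit_det _).1 ((Group.isUnit x).map (LinA_rep ρ P))
    obtain ⟨n, hw⟩ := ping v Gp Gm hGp hGm (LinA_rep ρ P x) hxu hx1 hx2 C θ hθ0 hθ1 hC
    refine not_sub_of_words (g ^ n) (x * g ^ n) ?_ hs
    intro w w' hlen heq
    refine hw w w' hlen ?_
    have h1 := congrArg (LinA_rep ρ P) heq
    rw [LinA_map_wd, LinA_map_wd, map_mul, map_pow, hg] at h1
    exact h1

/-- Theorem F -/
theorem linFin {L : Type} [Group L] (hL : Group.FG L) (hs : SubEx L) (hf : FAb L) : LinFin L := by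
  intro m K _ _ ρ
  obtain ⟨ρ', hρ'⟩ := rep_to_C hL m ρ
  have h1 : Finite ρ'.range := finDim m L hL hs hf ρ'
  have h2 : Finite (L ⧸ ρ'.ker) :=
    Finite.of_equiv _ (QuotientGroup.quotientKerEquivRange ρ').symm.toEquiv
  rw [hρ'] at h2
  exact Finite.of_equiv _ (QuotientGroup.quotientKerEquivRange ρ).toEquiv

end PDG
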