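import Pool.Agent.W_3f3beb_h76.Defs

/-! # Augmentation, involution, matrices over the group ring -/

set_option autoImplicit false

open scoped Classical

namespace PDG

variable {H : Type} [Group H]

theorem aug_single (g : H) (c : ℤ) : aug H (MonoidAlgebra.single g c) = c := by
  simp [aug, MonoidAlgebra.lift_single]

theorem bar_single (w : H →* ℤˣ) (g : H) (c : ℤ) :
    bar w (MonoidAlgebra.single g c) = MonoidAlgebra.single g⁻¹ ((w g : ℤ) * c) := by
  unfold bar
  rw [MonoidAlgebra.coeff_single, Finsupp.sum_single_index]
  simp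

theorem bar_add (w : H →* ℤˣ) (a b : MonoidAlgebra ℤ H) : bar w (a + b) = bar w a + bar w b := by
  unfold bar
  rw [MonoidAlgebra.coeff_add, Finsupp.sum_add_index']
  · intro g
    simp
  · intro g c d
    rw [mul_add, MonoidAlgebra.single_add]

theorem MatA_bar_zero (w : H →* ℤˣ) : bar w (0 : MonoidAlgebra ℤ H) = 0 := by
  unfold bar
  simp

/-- `bar` as an additive map -/
noncomputable def MatA_barHom (w : H →* ℤˣ) : MonoidAlgebra ℤ H →+ MonoidAlgebra ℤ H where
  toFun := bar w
  map_zero' := MatA_bar_zero w
  map_add' := bar_add w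

theorem MatA_bar_sum (w : H →* ℤˣ) {α : Type} (s : Finset α) (f : α → MonoidAlgebra ℤ H) :
    bar w (∑ a ∈ s, f a) = ∑ a ∈ s, bar w (f a) :=
  map_sum (MatA_barHom w) f s

/-- check it for `a = single g c`, `b = single h c'` and use additivity (`MonoidAlgebra.induction` etc.) -/
theorem bar_mul (w : H →* ℤˣ) (a b : MonoidAlgebra ℤ H) : bar w (a * b) = bar w b * bar w a := by
  induction a using MonoidAlgebra.induction_linear with
  | zero => rw [zero_mul, MatA_bar_zero, mul_zero]
  | add x y hx hy => rw [add_mul, bar_add, hx, hy, bar_add, mul_add]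
  | single g c =>
    induction b using MonoidAlgebra.induction_linear with
    | zero => rw [mul_zero, MatA_bar_zero, zero_mul]
    | add x y hx hy => rw [mul_add, bar_add, hx, hy, bar_add, add_mul]
    | single h d =>
      rw [MonoidAlgebra.single_mul_single, bar_single, bar_single, bar_single,
        MonoidAlgebra.single_mul_single, mul_inv_rev, map_mul, Units.val_mul]
      congr 1
      ring

theorem bar_bar (w : H →* ℤˣ) (a : MonoidAlgebra ℤ H) : bar w (bar w a) = a := by
  induction a using MonoidAlgebra.induction_linear with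
  | zero => rw [MatA_bar_zero, MatA_bar_zero]
  | add x y hx hy => rw [bar_add, bar_add, hx, hy]
  | single g c =>
    rw [bar_single, bar_single, inv_inv, ← mul_assoc, ← Units.val_mul, ← map_mul, inv_mul_cancel,
      map_one, Units.val_one, one_mul]

theorem aug_bar (a : MonoidAlgebra ℤ H) : aug H (bar 1 a) = aug H a := by
  induction a using MonoidAlgebra.induction_linear with
  | zero => rw [MatA_bar_zero]
  | add x y hx hy => rw [bar_add, map_add, map_add, hx, hy]
  | single g c =>
    rw [bar_single, aug_single, aug_single]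
    simp

theorem cst_cst (w : H →* ℤˣ) {α β : Type} (D : Matrix α β (MonoidAlgebra ℤ H)) :
    cst w (cst w D) = D := by
  funext a b
  exact bar_bar w (D a b)

/-- `(x D)* = D* x*` in coordinates: the row vector `b ↦ bar (u b)` for a column vector `u` -/
theorem vecMul_star (w : H →* ℤˣ) {α β : Type} [Fintype α] [Fintype β]
    (D : Matrix α β (MonoidAlgebra ℤ H)) (u : β → MonoidAlgebra ℤ H) :
    Matrix.vecMul (fun b => bar w (u b)) (cst w D) = fun a => bar w (Matrix.mulVec D u a) := by
  funext a
  simp only [Matrix.vecMul, Matrix.mulVec, dotProduct, cst]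
  rw [MatA_bar_sum]
  exact Finset.sum_congr rfl fun b _ => (bar_mul w (D a b) (u b)).symm

theorem Emod_star (p : ℕ) {α β : Type} (D : Matrix α β (MonoidAlgebra ℤ H)) :
    Emod p (cst 1 D) = (Emod p D).transpose := by
  ext b a
  simp only [Emod, cst, Matrix.map_apply, Matrix.transpose_apply, aug_bar]

/-- additive, `eps e (g x) = eps e x`, `eps e (x + y) = eps e x + eps e y`. Every additive map `f` from row vectors to `ℤ` with `f (g x) = f x` is `eps e`, `e j = f (e_j)`. -/
theorem exists_eps {ι : Type} [Fintype ι] (f : (ι → MonoidAlgebra ℤ H) →+ ℤ)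
    (hf : ∀ (g : H) (x : ι → MonoidAlgebra ℤ H), f (MonoidAlgebra.of ℤ H g • x) = f x) :
    ∀ x, f x = eps (fun j => f (Pi.single j 1)) x := by
  intro x
  have key : ∀ (j : ι) (a : MonoidAlgebra ℤ H),
      f (Pi.single j a) = aug H a * f (Pi.single j 1) := by
    intro j a
    induction a using MonoidAlgebra.induction_linear with
    | zero => simp
    | add y z hy hz => rw [Pi.single_add, map_add, map_add, hy, hz, add_mul]
    | single g c =>
      have h1 : (Pi.single j (MonoidAlgebra.single g c) : ι → MonoidAlgebra ℤ H) =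
          c • (MonoidAlgebra.of ℤ H g • (Pi.single j 1 : ι → MonoidAlgebra ℤ H)) := by
        rw [← Pi.single_smul, ← Pi.single_smul]
        congr 1
        rw [MonoidAlgebra.of_apply, smul_eq_mul, mul_one, MonoidAlgebra.smul_single, smul_eq_mul,
          mul_one]
      rw [h1, map_zsmul, hf, aug_single, smul_eq_mul]
  unfold eps
  conv_lhs => rw [← Finset.univ_sum_single x]
  rw [map_sum]
  exact Finset.sum_congr rfl fun j _ => key j (x j)

end PDG
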