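import Pool.Agent.W_3f3beb_h76.PowA

/-! # Fractional linear maps near zero -/

set_option autoImplicit false

open scoped Classical

namespace PDG

theorem NearA_neg (v : AbsoluteValue ℂ ℝ) {α β : Type} [Fintype α] [Fintype β]
    (M : Matrix α β ℂ) : vn v (-M) = vn v M := by
  unfold vn
  refine Finset.sum_congr rfl fun i _ => Finset.sum_congr rfl fun j _ => ?_
  rw [Matrix.neg_apply, v.map_neg]

theorem NearA_sub (v : AbsoluteValue ℂ ℝ) {α β : Type} [Fintype α] [Fintype β]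
    (M N : Matrix α β ℂ) : vn v (M - N) ≤ vn v M + vn v N := by
  rw [sub_eq_add_neg]
  refine (vn_add v _ _).trans ?_
  rw [NearA_neg]

theorem NearA_det (v : AbsoluteValue ℂ ℝ) {a b : ℕ} (A : Matrix (Fin a) (Fin a) ℂ)
    (B : Matrix (Fin a) (Fin b) ℂ) (φ : Matrix (Fin b) (Fin a) ℂ) (hA : A.det ≠ 0)
    (h : vn v A⁻¹ * (vn v B * vn v φ) ≤ 1 / 4) : (A + B * φ).det ≠ 0 := by
  intro h0
  obtain ⟨x, hx, hx0⟩ := Matrix.exists_mulVec_eq_zero_iff.2 h0
  have hu : IsUnit A.det := isUnit_iff_ne_zero.2 hA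
  set X : Matrix (Fin a) (Fin 1) ℂ := Matrix.of fun i _ => x i with hX
  have h1 : (A + B * φ) * X = 0 := by
    ext i j
    have h2 := congrFun hx0 i
    simp only [Matrix.mulVec, dotProduct, Pi.zero_apply] at h2
    rw [Matrix.mul_apply]
    simpa [hX] using h2
  have h3 : X = -(A⁻¹ * (B * φ * X)) := by
    have h4 : A * X = -(B * φ * X) := by
      rw [Matrix.add_mul] at h1
      exact eq_neg_of_add_eq_zero_left h1
    calc X = A⁻¹ * (A * X) := by
          rw [← Matrix.mul_assoc, Matrix.nonsing_inv_mul _ hu, Matrix.one_mul]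
      _ = -(A⁻¹ * (B * φ * X)) := by rw [h4, Matrix.mul_neg]
  have h6 : vn v X ≤ vn v A⁻¹ * (vn v B * vn v φ) * vn v X := by
    calc vn v X = vn v (A⁻¹ * (B * φ * X)) := by
          conv_lhs => rw [h3]
          exact NearA_neg v _
      _ ≤ vn v A⁻¹ * vn v (B * φ * X) := vn_mul v _ _
      _ ≤ vn v A⁻¹ * (vn v (B * φ) * vn v X) :=
          mul_le_mul_of_nonneg_left (vn_mul v _ _) (vn_nonneg v _)
      _ ≤ vn v A⁻¹ * ((vn v B * vn v φ) * vn v X) := by
          refine mul_le_mul_of_nonneg_left ?_ (vn_nonneg v _)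
          exact mul_le_mul_of_nonneg_right (vn_mul v _ _) (vn_nonneg v _)
      _ = vn v A⁻¹ * (vn v B * vn v φ) * vn v X := by ring
  have h7 : vn v X = 0 := by
    have h8 := vn_nonneg v X
    nlinarith
  have h9 : X = 0 := (vn_eq_zero v _).1 h7
  apply hx
  ext i
  have h10 := congrFun (congrFun h9 i) 0
  simpa [hX] using h10

/-- PROOF. Work in the normed field `WithAbs v` (or with explicit estimates): the entries and the determinant of `A + B φ` and its adjugate are polynomials in the entries of `φ`, continuous for the topology of `v`. At `φ = 0`: `det A ≠ 0`, `C A⁻¹ ≠ 0` (since `C ≠ 0` and `A` is invertible). So for small `φ`, `det (A + B φ)` is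
close to `det A`, not zero, and `(C + D φ) (A + B φ)⁻¹` is within `κ/2` of `C A⁻¹`, `κ = vn v (C A⁻¹) > 0`: its `vn` lies between `κ/2` and `3κ/2`. Take `ε < κ/2`, `R = 3κ/2`. (`vn v φ ≤ ε` means that all entries have `v ≤ ε`.) If `v` is trivial (`v x = 1` for all `x ≠ 0`) then `vn v φ < 1` implies `φ = 0`, fine too. -/
theorem near {a b : ℕ} (v : AbsoluteValue ℂ ℝ) (A : Matrix (Fin a) (Fin a) ℂ)
    (B : Matrix (Fin a) (Fin b) ℂ) (C : Matrix (Fin b) (Fin a) ℂ) (D : Matrix (Fin b) (Fin b) ℂ)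
    (hA : A.det ≠ 0) (hC : C ≠ 0) :
    ∃ ε R : ℝ, 0 < ε ∧ ∀ φ : Matrix (Fin b) (Fin a) ℂ, vn v φ ≤ ε →
      (A + B * φ).det ≠ 0 ∧ vn v ((C + D * φ) * (A + B * φ)⁻¹) ≤ R ∧
      ε < vn v ((C + D * φ) * (A + B * φ)⁻¹) := by
  have hu : IsUnit A.det := isUnit_iff_ne_zero.2 hA
  set κ := vn v (C * A⁻¹) with hκ
  have hκ0 : 0 < κ := by
    refine lt_of_le_of_ne (vn_nonneg v _) (Ne.symm ?_)
    intro h
    have h1 : C * A⁻¹ = 0 := (vn_eq_zero v _).1 h
    apply hC
    have h2 : C * A⁻¹ * A = C := by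
      rw [Matrix.mul_assoc, Matrix.nonsing_inv_mul _ hu, Matrix.mul_one]
    rw [← h2, h1, Matrix.zero_mul]
  set K := vn v A⁻¹ with hK
  have hK0 : 0 ≤ K := vn_nonneg v _
  set β := vn v B with hβ
  have hβ0 : 0 ≤ β := vn_nonneg v _
  set δ := vn v D with hδ
  have hδ0 : 0 ≤ δ := vn_nonneg v _
  have hp1 : 0 < 4 * (K * β + 1) := by positivity
  have hp2 : 0 < 4 * (K * δ + 1) := by positivity
  obtain ⟨ε, hε0, hε1, hε2, hε3⟩ : ∃ ε : ℝ, 0 < ε ∧ ε ≤ κ / 4 ∧ K * (β * ε) ≤ 1 / 4 ∧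
      K * (δ * ε) ≤ κ / 4 := by
    refine ⟨min (κ / 4) (min (1 / (4 * (K * β + 1))) (κ / (4 * (K * δ + 1)))), ?_, ?_, ?_, ?_⟩
    · refine lt_min (by linarith) (lt_min (by positivity) (by positivity))
    · exact min_le_left _ _
    · have h1 : min (κ / 4) (min (1 / (4 * (K * β + 1))) (κ / (4 * (K * δ + 1)))) ≤
          1 / (4 * (K * β + 1)) := (min_le_right _ _).trans (min_le_left _ _)
      rw [le_div_iff₀ hp1] at h1
      have h2 : 0 ≤ min (κ / 4) (min (1 / (4 * (K * β + 1))) (κ / (4 * (K * δ + 1)))) := by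
        refine le_min (by linarith) (le_min (by positivity) (by positivity))
      nlinarith
    · have h1 : min (κ / 4) (min (1 / (4 * (K * β + 1))) (κ / (4 * (K * δ + 1)))) ≤
          κ / (4 * (K * δ + 1)) := (min_le_right _ _).trans (min_le_right _ _)
      rw [le_div_iff₀ hp2] at h1
      have h2 : 0 ≤ min (κ / 4) (min (1 / (4 * (K * β + 1))) (κ / (4 * (K * δ + 1)))) := by
        refine le_min (by linarith) (le_min (by positivity) (by positivity))
      nlinarith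
  refine ⟨ε, 2 * κ, hε0, ?_⟩
  intro φ hφ
  have hφ0 := vn_nonneg v φ
  have hb : K * (β * vn v φ) ≤ 1 / 4 := by
    refine le_trans ?_ hε2
    exact mul_le_mul_of_nonneg_left (mul_le_mul_of_nonneg_left hφ hβ0) hK0
  have hd : K * (δ * vn v φ) ≤ κ / 4 := by
    refine le_trans ?_ hε3
    exact mul_le_mul_of_nonneg_left (mul_le_mul_of_nonneg_left hφ hδ0) hK0
  have hdet : (A + B * φ).det ≠ 0 := NearA_det v A B φ hA hb
  set Y := (C + D * φ) * (A + B * φ)⁻¹ with hY
  have hu2 : IsUnit (A + B * φ).det := isUnit_iff_ne_zero.2 hdet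
  have hYe : Y * (A + B * φ) = C + D * φ := by
    rw [hY, Matrix.mul_assoc, Matrix.nonsing_inv_mul _ hu2, Matrix.mul_one]
  have hYA : Y = C * A⁻¹ + (D * φ - Y * (B * φ)) * A⁻¹ := by
    have h1 : Y * A = C + (D * φ - Y * (B * φ)) := by
      rw [Matrix.mul_add] at hYe
      rw [← add_sub_assoc, ← hYe, add_sub_cancel_right]
    have h2 : Y * A * A⁻¹ = Y := by
      rw [Matrix.mul_assoc, Matrix.mul_nonsing_inv _ hu, Matrix.mul_one]
    rw [h1, Matrix.add_mul] at h2
    exact h2.symm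
  have hE : vn v ((D * φ - Y * (B * φ)) * A⁻¹) ≤ κ / 4 + vn v Y * (1 / 4) := by
    calc vn v ((D * φ - Y * (B * φ)) * A⁻¹) ≤ vn v (D * φ - Y * (B * φ)) * K := vn_mul v _ _
      _ ≤ (δ * vn v φ + vn v Y * (β * vn v φ)) * K := by
          refine mul_le_mul_of_nonneg_right ?_ hK0
          refine (NearA_sub v _ _).trans (add_le_add (vn_mul v _ _) ?_)
          exact (vn_mul v _ _).trans (mul_le_mul_of_nonneg_left (vn_mul v _ _) (vn_nonneg v _))
      _ = K * (δ * vn v φ) + vn v Y * (K * (β * vn v φ)) := by ring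
      _ ≤ κ / 4 + vn v Y * (1 / 4) :=
          add_le_add hd (mul_le_mul_of_nonneg_left hb (vn_nonneg v _))
  have hY0 := vn_nonneg v Y
  have hup : vn v Y ≤ κ + vn v ((D * φ - Y * (B * φ)) * A⁻¹) := by
    conv_lhs => rw [hYA]
    exact vn_add v _ _
  have hlo : κ ≤ vn v Y + vn v ((D * φ - Y * (B * φ)) * A⁻¹) := by
    have h1 : C * A⁻¹ = Y - (D * φ - Y * (B * φ)) * A⁻¹ := by
      rw [eq_sub_iff_add_eq]
      exact hYA.symm
    rw [hκ]
    conv_lhs => rw [h1]
    exact NearA_sub v _ _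
  refine ⟨hdet, ?_, ?_⟩
  · linarith
  · linarith

end PDG
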