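import Pool.Agent.W_3f3beb_h76.MatA
import Pool.Agent.W_3f3beb_h76.GrA

/-! # The functions killed by the `m`-th power of the augmentation ideal -/

set_option autoImplicit false

open scoped Classical

namespace PDG

variable (p : ℕ) [Fact p.Prime] (H : Type) [Group H]

theorem tr_one : tr p H 1 = LinearMap.id := by
  ext f x
  simp [tr]

theorem tr_mul (g h : H) : tr p H (g * h) = (tr p H g).comp (tr p H h) := by
  ext f x
  simp [tr, mul_assoc]

theorem tr_apply' (g : H) (f : H → ZMod p) (x : H) : tr p H g f x = f (x * g) := rfl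

/-- `f ∈ N_{m+1}` iff `(g - 1) f ∈ N_m` for all `g` -/
theorem mem_Nn_succ (m : ℕ) (f : H → ZMod p) :
    f ∈ Nn p H (m + 1) ↔ ∀ g : H, tr p H g f - f ∈ Nn p H m := by
  simp [Nn]

theorem Nn_mono (m : ℕ) : Nn p H m ≤ Nn p H (m + 1) := by
  induction m with
  | zero =>
    intro f hf
    have : f = 0 := by simpa [Nn] using hf
    subst this
    exact Submodule.zero_mem _
  | succ m ih =>
    intro f hf
    rw [mem_Nn_succ] at hf ⊢
    intro g
    exact ih (hf g)

/-- PROOF. Induction on `m`: `(h - 1) g f = g (g⁻¹ h g - 1) f`. -/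
theorem tr_mem (m : ℕ) (g : H) (f : H → ZMod p) (hf : f ∈ Nn p H m) : tr p H g f ∈ Nn p H m := by
  induction m generalizing f with
  | zero =>
    have : f = 0 := by simpa [Nn] using hf
    subst this
    rw [map_zero]
    exact Submodule.zero_mem _
  | succ m ih =>
    rw [mem_Nn_succ] at hf ⊢
    intro h
    have h1 : tr p H h (tr p H g f) - tr p H g f = tr p H g (tr p H (g⁻¹ * h * g) f - f) := by
      rw [map_sub]
      congr 1
      funext x
      simp [tr_apply', mul_assoc]
    rw [h1]
    exact ih _ (hf _)

theorem act_single (g : H) (c : ℤ) (f : H → ZMod p) :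
    act p H (MonoidAlgebra.single g c) f = (c : ZMod p) • tr p H g f := by
  rw [act, MonoidAlgebra.lift_single, Int.cast_smul_eq_zsmul]
  rfl

theorem act_mem (m : ℕ) (a : MonoidAlgebra ℤ H) (f : H → ZMod p) (hf : f ∈ Nn p H m) :
    act p H a f ∈ Nn p H m := by
  induction a using MonoidAlgebra.induction_linear with
  | zero => rw [map_zero]; exact Submodule.zero_mem _
  | add a b ha hb =>
    rw [map_add]
    exact Submodule.add_mem _ ha hb
  | single g c =>
    rw [act_single]
    exact Submodule.smul_mem _ _ (tr_mem p H m g f hf)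

/-- PROOF. Enough for `a = single g c`: `c (g f - f)`. -/
theorem act_sub_mem (m : ℕ) (a : MonoidAlgebra ℤ H) (f : H → ZMod p)
    (hf : f ∈ Nn p H (m + 1)) :
    act p H a f - ((aug H a : ℤ) : ZMod p) • f ∈ Nn p H m := by
  induction a using MonoidAlgebra.induction_linear with
  | zero => simp
  | add a b ha hb =>
    have h1 : act p H (a + b) f - ((aug H (a + b) : ℤ) : ZMod p) • f
        = (act p H a f - ((aug H a : ℤ) : ZMod p) • f)
          + (act p H b f - ((aug H b : ℤ) : ZMod p) • f) := by
      rw [map_add, map_add]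
      push_cast
      rw [add_smul, LinearMap.add_apply]
      abel
    rw [h1]
    exact Submodule.add_mem _ ha hb
  | single g c =>
    rw [act_single, aug_single, ← smul_sub]
    exact Submodule.smul_mem _ _ ((mem_Nn_succ p H m f).1 hf g)

/-- `N_1` consists of the constants -/
theorem mem_Nn_one (f : H → ZMod p) : f ∈ Nn p H 1 ↔ ∃ c : ZMod p, f = fun _ => c := by
  rw [mem_Nn_succ]
  constructor
  · intro h
    refine ⟨f 1, ?_⟩
    funext x
    have h1 : tr p H x f - f = 0 := by simpa [Nn] using h x
    have h2 := congrFun (sub_eq_zero.1 h1) 1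
    rw [tr_apply', one_mul] at h2
    exact h2
  · rintro ⟨c, rfl⟩ g
    have : tr p H g (fun _ => c) - (fun _ => c) = 0 := by
      funext x
      simp [tr_apply']
    rw [this]
    exact Submodule.zero_mem _

/-- PROOF. `f ∈ N_m`, zero on `ball T (m - 1)` (and `f ∈ N_0` is zero anyway). Induction on `m`: for `t ∈ T ∪ T⁻¹`, `tr t f - f ∈ N_{m-1}` vanishes on `ball T (m-2)`, so it is zero:
`f (x t) = f x` for all `x` and `t ∈ T ∪ T⁻¹`, `f` is constant (`T` generates), `f 1 = 0`. -/
theorem Nn_eq_zero (T : Finset H) (hT : Subgroup.closure (T : Set H) = ⊤) (m : ℕ)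
    (f : H → ZMod p) (hf : f ∈ Nn p H (m + 1)) (h0 : ∀ x ∈ ball T m, f x = 0) : f = 0 := by
  have h1mem : ∀ k : ℕ, (1 : H) ∈ ball T k := fun k => ⟨[], by simp, by simp, by simp⟩
  induction m generalizing f with
  | zero =>
    obtain ⟨c, rfl⟩ := (mem_Nn_one p H f).1 hf
    have := h0 1 (h1mem 0)
    funext x
    exact this
  | succ m ih =>
    have key : ∀ t ∈ T, tr p H t f = f := by
      intro t ht
      have h2 : tr p H t f - f = 0 := by
        apply ih
        · exact (mem_Nn_succ p H (m + 1) f).1 hf t
        · intro x hx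
          have hxt : x * t ∈ ball T (m + 1) := by
            apply ball_mul T hx
            exact ⟨[t], by simp, by simp [ht], by simp⟩
          have hx' : x ∈ ball T (m + 1) := ball_mono T (Nat.le_succ m) hx
          rw [Pi.sub_apply, tr_apply', h0 _ hxt, h0 _ hx', sub_zero]
      exact sub_eq_zero.1 h2
    have hall : ∀ g : H, tr p H g f = f := by
      intro g
      have hg : g ∈ Subgroup.closure (T : Set H) := by rw [hT]; trivial
      induction hg using Subgroup.closure_induction with
      | mem x hx => exact key x (by simpa using hx)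
      | one => rw [tr_one]; rfl
      | mul x y _ _ hx hy =>
        rw [tr_mul, LinearMap.comp_apply, hy, hx]
      | inv x _ hx =>
        have h3 : tr p H x⁻¹ (tr p H x f) = f := by
          rw [← LinearMap.comp_apply, ← tr_mul, inv_mul_cancel, tr_one]
          rfl
        rwa [hx] at h3
    funext x
    have h4 := congrFun (hall x) 1
    rw [tr_apply', one_mul] at h4
    rw [h4, h0 1 (h1mem _)]
    rfl

/-- restriction to a ball -/
noncomputable def resBall (T : Finset H) (m : ℕ) :
    Nn p H (m + 1) →ₗ[ZMod p] (ball T m → ZMod p) where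
  toFun f x := (f : H → ZMod p) x
  map_add' _ _ := rfl
  map_smul' _ _ := rfl

theorem resBall_inj (T : Finset H) (hT : Subgroup.closure (T : Set H) = ⊤) (m : ℕ) :
    Function.Injective (resBall p H T m) := by
  rw [injective_iff_map_eq_zero]
  intro f hf
  apply Subtype.ext
  apply Nn_eq_zero p H T hT m f.1 f.2
  intro x hx
  exact congrFun hf ⟨x, hx⟩

/-- PROOF. Restriction to the finite set `ball T m` is injective on `N_{m+1}` (`Nn_eq_zero`). -/
theorem Nn_finite (hH : Group.FG H) (m : ℕ) : Module.Finite (ZMod p) (Nn p H m) := by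
  obtain ⟨T, hT⟩ := hH.out
  cases m with
  | zero =>
    have : Nn p H 0 = ⊥ := rfl
    rw [this]
    infer_instance
  | succ m =>
    haveI : Finite (ball T m) := (ball_finite T m).to_subtype
    exact Module.Finite.of_injective (resBall p H T m) (resBall_inj p H T hT m)

theorem an_le (T : Finset H) (hT : Subgroup.closure (T : Set H) = ⊤) (m : ℕ) :
    an p H (m + 1) ≤ growth T m := by
  haveI : Finite (ball T m) := (ball_finite T m).to_subtype
  haveI : Fintype (ball T m) := Fintype.ofFinite _
  have h := LinearMap.finrank_le_finrank_of_injective (resBall_inj p H T hT m)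
  rw [Module.finrank_fintype_fun_eq_card] at h
  rw [an, growth, ← Nat.card_coe_set_eq, Nat.card_eq_fintype_card]
  exact h

theorem an_zero : an p H 0 = 0 := by
  have : Nn p H 0 = ⊥ := rfl
  rw [an, this]
  exact finrank_bot _ _

/-- constants -/
noncomputable def constEquiv : ZMod p ≃ₗ[ZMod p] Nn p H 1 :=
  LinearEquiv.ofBijective
    { toFun := fun c => ⟨fun _ => c, (mem_Nn_one p H _).2 ⟨c, rfl⟩⟩
      map_add' := fun _ _ => rfl
      map_smul' := fun _ _ => rfl }
    ⟨fun a b hab => congrFun (congrArg Subtype.val hab) 1, fun f => by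
      obtain ⟨c, hc⟩ := (mem_Nn_one p H f.1).1 f.2
      exact ⟨c, Subtype.ext hc.symm⟩⟩

theorem an_one : an p H 1 = 1 := by
  rw [an, ← (constEquiv p H).finrank_eq]
  exact Module.finrank_self _

theorem an_mono (hH : Group.FG H) (m : ℕ) : an p H m ≤ an p H (m + 1) := by
  haveI := Nn_finite p H hH (m + 1)
  exact Submodule.finrank_mono (Nn_mono p H m)

theorem two_mem (q : ZMod p × (Additive H →+ ZMod p)) :
    (fun x : H => q.1 + q.2 (Additive.ofMul x)) ∈ Nn p H 2 := by
  rw [mem_Nn_succ]
  intro g
  rw [mem_Nn_one]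
  refine ⟨q.2 (Additive.ofMul g), ?_⟩
  funext x
  rw [Pi.sub_apply, tr_apply', ofMul_mul, map_add]
  ring

/-- the map `(c, φ) ↦ c + φ` -/
noncomputable def twoMap : (ZMod p × (Additive H →+ ZMod p)) →ₗ[ZMod p] Nn p H 2 where
  toFun q := ⟨fun x : H => q.1 + q.2 (Additive.ofMul x), two_mem p H q⟩
  map_add' a b := by
    apply Subtype.ext
    funext x
    simp only [Prod.fst_add, Prod.snd_add, AddMonoidHom.add_apply, Submodule.coe_add,
      Pi.add_apply]
    ring
  map_smul' c a := by
    apply Subtype.ext
    funext x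
    simp [mul_add]

theorem twoMap_apply (q : ZMod p × (Additive H →+ ZMod p)) (x : H) :
    (twoMap p H q : H → ZMod p) x = q.1 + q.2 (Additive.ofMul x) := rfl

theorem twoMap_bij : Function.Bijective (twoMap p H) := by
  constructor
  · rintro ⟨a, φ⟩ ⟨b, ψ⟩ hab
    have h : ∀ x : H, a + φ (Additive.ofMul x) = b + ψ (Additive.ofMul x) := by
      intro x
      have := congrFun (congrArg Subtype.val hab) x
      rw [twoMap_apply, twoMap_apply] at this
      exact this
    have h1 : a = b := by simpa using h 1
    subst h1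
    have h2 : φ = ψ := by
      ext x
      exact add_left_cancel (h (Additive.toMul x))
    rw [h2]
  · intro f
    have hf : ∀ g : H, ∃ c : ZMod p, tr p H g f.1 - f.1 = fun _ => c := by
      intro g
      exact (mem_Nn_one p H _).1 ((mem_Nn_succ p H 1 f.1).1 f.2 g)
    have hf2 : ∀ x g : H, f.1 (x * g) - f.1 x = f.1 g - f.1 1 := by
      intro x g
      obtain ⟨c, hc⟩ := hf g
      have h1 := congrFun hc x
      have h2 := congrFun hc 1
      rw [Pi.sub_apply, tr_apply'] at h1 h2
      rw [one_mul] at h2
      rw [h1, h2]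
    let φ : Additive H →+ ZMod p :=
      { toFun := fun x => f.1 (Additive.toMul x) - f.1 1
        map_zero' := by simp
        map_add' := by
          intro x y
          simp only [toMul_add]
          have := hf2 (Additive.toMul x) (Additive.toMul y)
          linear_combination this }
    refine ⟨(f.1 1, φ), ?_⟩
    apply Subtype.ext
    funext x
    rw [twoMap_apply]
    change f.1 1 + (f.1 x - f.1 1) = f.1 x
    ring

/-- the map `(c, φ) ↦ c + φ` -/
noncomputable def twoEquiv : (ZMod p × (Additive H →+ ZMod p)) ≃ₗ[ZMod p] Nn p H 2 :=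
  LinearEquiv.ofBijective (twoMap p H) (twoMap_bij p H)

/-- PROOF. `f ∈ N_2` iff `f - f 1` is a homomorphism to `F_p`: `f (x g) - f x` is independent of `x`. -/
theorem an_two (hH : Group.FG H) : an p H 2 = 1 + dp p H := by
  haveI := Nn_finite p H hH 2
  haveI h1 : Module.Finite (ZMod p) (ZMod p × (Additive H →+ ZMod p)) :=
    Module.Finite.equiv (twoEquiv p H).symm
  haveI h2 : Module.Finite (ZMod p) (Additive H →+ ZMod p) :=
    Module.Finite.of_surjective (LinearMap.snd (ZMod p) (ZMod p) (Additive H →+ ZMod p))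
      LinearMap.snd_surjective
  rw [an, ← (twoEquiv p H).finrank_eq, Module.finrank_prod, Module.finrank_self, dp]

end PDG
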