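import Pool.Agent.W_3f3beb_h76.DpA
import Pool.Agent.W_3f3beb_h76.SgA

/-! # Normal subgroups of p-power index; finite p-groups of bounded rank -/

set_option autoImplicit false

open scoped Classical

namespace PDG

variable {L : Type} [Group L] (p : ℕ) [Fact p.Prime]

theorem PN.finiteIndex {N : Subgroup L} (h : PN p N) : N.FiniteIndex := by
  obtain ⟨-, k, hk⟩ := h
  refine ⟨?_⟩
  rw [hk]
  exact pow_ne_zero _ (Fact.out (p := p.Prime)).ne_zero

theorem PN.of_le {N M : Subgroup L} (h : PN p N) (hM : M.Normal) (hle : N ≤ M) : PN p M := by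
  obtain ⟨-, k, hk⟩ := h
  refine ⟨hM, ?_⟩
  have h1 : M.index ∣ p ^ k := hk ▸ Subgroup.index_dvd_of_le hle
  obtain ⟨j, -, hj⟩ := (Nat.dvd_prime_pow (Fact.out (p := p.Prime))).1 h1
  exact ⟨j, hj⟩

/-- `[L : N ⊓ M]` divides `[L : N] [L : M]` -/
theorem PN.inf {N M : Subgroup L} (hN : PN p N) (hM : PN p M) : PN p (N ⊓ M) := by
  obtain ⟨hNn, k, hk⟩ := hN
  obtain ⟨hMn, l, hl⟩ := hM
  have := hNn
  have := hMn
  refine ⟨inferInstance, ?_⟩
  have h1 : (N ⊓ M).index = (N ⊓ M).relIndex M * M.index :=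
    (Subgroup.relIndex_mul_index inf_le_right).symm
  have h2 : (N ⊓ M).relIndex M = N.relIndex M := Subgroup.inf_relIndex_right N M
  have h3 : N.relIndex M ∣ N.index := Subgroup.relIndex_dvd_index_of_normal N M
  have h4 : (N ⊓ M).index ∣ p ^ (k + l) := by
    rw [h1, h2, pow_add, ← hk, ← hl]
    exact mul_dvd_mul_right h3 _
  obtain ⟨j, -, hj⟩ := (Nat.dvd_prime_pow (Fact.out (p := p.Prime))).1 h4
  exact ⟨j, hj⟩

/-- `x ^ (index) ∈ N` -/
theorem PN.isPGroup {N : Subgroup L} (h : PN p N) (hN : N.Normal) : IsPGroup p (L ⧸ N) := by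
  obtain ⟨-, k, hk⟩ := h
  exact IsPGroup.of_card (n := k) (by rw [← hk]; rfl)

theorem pw_normal (n : ℕ) (U : Subgroup L) (hU : U.Normal) : (pw n U).Normal := by
  unfold pw
  constructor
  intro y hy g
  induction hy using Subgroup.closure_induction with
  | mem x hx =>
    obtain ⟨u, hu, rfl⟩ := hx
    refine Subgroup.subset_closure ⟨g * u * g⁻¹, hU.conj_mem u hu g, ?_⟩
    rw [conj_pow]
  | one => simp
  | mul a b _ _ ha hb =>
    have h1 : g * (a * b) * g⁻¹ = (g * a * g⁻¹) * (g * b * g⁻¹) := by group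
    rw [h1]
    exact mul_mem ha hb
  | inv a _ ha =>
    have h1 : g * a⁻¹ * g⁻¹ = (g * a * g⁻¹)⁻¹ := by group
    rw [h1]
    exact inv_mem ha

end PDG
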