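import Pool.Agent.W_3f3beb_h76.PnA

/-! # Finite p-groups of exponent p^2 and bounded rank -/

set_option autoImplicit false

open scoped Classical

namespace PDG

variable (p : ℕ) [Fact p.Prime]

/-- a nontrivial normal subgroup of a finite `p`-group meets the center -/
theorem PnC_center {G : Type} [Group G] [Finite G] (hG : IsPGroup p G) (N : Subgroup G)
    (hN : N.Normal) (h : N ≠ ⊥) : ∃ x ∈ N, x ≠ 1 ∧ ∀ g : G, g * x * g⁻¹ = x := by
  have hN' : N.Normal := hN
  have hp : p ∣ Nat.card N := by
    have h1 : IsPGroup p N := hG.to_subgroup N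
    have h2 : Nontrivial N := (Subgroup.nontrivial_iff_ne_bot N).2 h
    obtain ⟨n, hn, hc⟩ := h1.nontrivial_iff_card.1 h2
    rw [hc]
    exact dvd_pow_self p (by omega)
  have hC : IsPGroup p (ConjAct G) := hG.of_equiv (ConjAct.toConjAct (G := G))
  have h1 : (1 : N) ∈ MulAction.fixedPoints (ConjAct G) N := by
    rw [MulAction.mem_fixedPoints]
    intro g
    exact smul_one g
  obtain ⟨b, hb, hb1⟩ := hC.exists_fixed_point_of_prime_dvd_card_of_fixed_point N hp h1
  rw [MulAction.mem_fixedPoints] at hb
  refine ⟨b, b.2, ?_, fun g => ?_⟩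
  · intro hh
    apply hb1
    ext
    rw [hh]
    rfl
  · have h2 := congrArg (fun z : N => (z : G)) (hb (ConjAct.toConjAct g))
    simpa [ConjAct.Subgroup.val_conj_smul, ConjAct.smul_def] using h2

/-- PROOF. `c = q * q!` with `q = p^(2 r)`. `A` a maximal normal abelian subgroup of `P` (finite group). `|A| = |A/A^p| |A^p|`, `A^p ≅ A^p / A^{p²}` is a quotient of `A/A^p`, `|A/A^p| = |Hom(A, F_p)| ≤ p^r`: `|A| ≤ p^(2r)`. The centralizer `Z` of `A` is `A`: otherwise the normal subgroup `Z/A` of the `p`-group `P/A` meets the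
center nontrivially (or: contains a subgroup of order `p` normal in `P/A`); for `x A` in this intersection, `x ∉ A`, `A ⟨x⟩` is abelian and normal, larger than `A`. So `P/A` embeds into `Aut A ⊆ Perm A`: `|P| ≤ |A| |A|!`. -/
theorem card_le_of_rank (r : ℕ) : ∃ c : ℕ, ∀ (P : Type) [Group P] [Finite P], IsPGroup p P →
    (∀ x : P, x ^ (p ^ 2) = 1) → (∀ Q : Subgroup P, dp p Q ≤ r) → Nat.card P ≤ c := by
  refine ⟨p ^ (2 * r) * (p ^ (2 * r)).factorial, ?_⟩
  intro P _ _ hP hexp hr
  obtain ⟨A, hA⟩ := Set.Finite.exists_maximal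
    (s := {A : Subgroup P | A.Normal ∧ ∀ x ∈ A, ∀ y ∈ A, x * y = y * x})
    (Set.toFinite _) ⟨⊥, inferInstance, by
      intro x hx y hy
      rw [Subgroup.mem_bot] at hx hy
      rw [hx, hy]⟩
  obtain ⟨⟨hAn, hAc⟩, hAmax⟩ := hA
  have hAn' : A.Normal := hAn
  -- the order of `A`
  have hcard : Nat.card A ≤ p ^ (2 * r) := by
    let _ : CommGroup A := { (inferInstance : Group A) with
      mul_comm := fun x y => Subtype.ext (hAc x x.2 y y.2) }
    have hfg : Group.FG A := inferInstance
    have hpp : 0 < p := (Fact.out : p.Prime).pos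
    have h1 : Nat.card (A ⧸ (powMonoidHom p : A →* A).range) ≤ p ^ r := by
      refine (card_elementary_le p hfg (QuotientGroup.mk' (powMonoidHom p : A →* A).range)
        (QuotientGroup.mk'_surjective _) ?_).1.trans (Nat.pow_le_pow_right hpp (hr A))
      intro x
      obtain ⟨y, rfl⟩ := QuotientGroup.mk'_surjective _ x
      rw [← map_pow, QuotientGroup.mk'_apply, QuotientGroup.eq_one_iff]
      exact ⟨y, rfl⟩
    have h2 : Nat.card (powMonoidHom p : A →* A).range ≤ p ^ r := by
      refine (card_elementary_le p hfg (powMonoidHom p : A →* A).rangeRestrict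
        (MonoidHom.rangeRestrict_surjective _) ?_).1.trans (Nat.pow_le_pow_right hpp (hr A))
      rintro ⟨x, y, rfl⟩
      ext
      have := hexp y
      rw [pow_two, pow_mul] at this
      simpa using this
    rw [Subgroup.card_eq_card_quotient_mul_card_subgroup (powMonoidHom p : A →* A).range]
    calc Nat.card (A ⧸ (powMonoidHom p : A →* A).range) *
        Nat.card (powMonoidHom p : A →* A).range ≤ p ^ r * p ^ r := Nat.mul_le_mul h1 h2
      _ = p ^ (2 * r) := by rw [← pow_add]; congr 1; ring
  -- the centralizer of `A`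
  have hZ : ∀ x : P, (∀ a ∈ A, a * x = x * a) → x ∈ A := by
    by_contra hcon
    push Not at hcon
    obtain ⟨x0, hx0, hx0A⟩ := hcon
    set Z : Subgroup P := Subgroup.centralizer (A : Set P) with hZdef
    have hZn : Z.Normal := inferInstance
    have hmap : (Z.map (QuotientGroup.mk' A)).Normal :=
      hZn.map _ (QuotientGroup.mk'_surjective A)
    have hx0Z : x0 ∈ Z := by
      rw [hZdef, Subgroup.mem_centralizer_iff]
      exact fun a ha => hx0 a ha
    have hne : Z.map (QuotientGroup.mk' A) ≠ ⊥ := by
      intro hbot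
      have h1 : QuotientGroup.mk' A x0 ∈ Z.map (QuotientGroup.mk' A) :=
        Subgroup.mem_map_of_mem _ hx0Z
      rw [hbot, Subgroup.mem_bot, QuotientGroup.mk'_apply, QuotientGroup.eq_one_iff] at h1
      exact hx0A h1
    obtain ⟨y, hy, hy1, hyc⟩ := PnC_center p (hP.to_quotient A) _ hmap hne
    obtain ⟨x, hxZ, rfl⟩ := hy
    have hxZ' : ∀ a ∈ A, a * x = x * a := fun a ha => Subgroup.mem_centralizer_iff.1 hxZ a ha
    have hxA : x ∉ A := by
      intro h
      apply hy1
      rw [QuotientGroup.mk'_apply, QuotientGroup.eq_one_iff]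
      exact h
    have hconj : ∀ g : P, g * x * g⁻¹ * x⁻¹ ∈ A := by
      intro g
      have h1 := hyc (QuotientGroup.mk' A g)
      rw [← QuotientGroup.eq_one_iff (N := A)]
      have h2 : ((g * x * g⁻¹ * x⁻¹ : P) : P ⧸ A) = QuotientGroup.mk' A g * QuotientGroup.mk' A x *
        (QuotientGroup.mk' A g)⁻¹ * (QuotientGroup.mk' A x)⁻¹ := rfl
      rw [h2, h1, mul_inv_cancel]
    set k : Set P := (A : Set P) ∪ {x} with hk
    have hkc : ∀ a ∈ k, ∀ b ∈ k, a * b = b * a := by
      rintro a (ha | ha) b (hb | hb)
      · exact hAc a ha b hb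
      · rw [Set.mem_singleton_iff.1 hb]
        exact hxZ' a ha
      · rw [Set.mem_singleton_iff.1 ha]
        exact (hxZ' b hb).symm
      · rw [Set.mem_singleton_iff.1 ha, Set.mem_singleton_iff.1 hb]
    have hAB : A ≤ Subgroup.closure k := fun a ha => Subgroup.subset_closure (Or.inl ha)
    have hxB : x ∈ Subgroup.closure k := Subgroup.subset_closure (Or.inr rfl)
    have hBn : (Subgroup.closure k).Normal := by
      refine ⟨fun b hb g => ?_⟩
      induction hb using Subgroup.closure_induction with
      | mem b hb =>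
        rcases hb with hb | hb
        · exact hAB (hAn.conj_mem b hb g)
        · rw [Set.mem_singleton_iff.1 hb]
          have h1 : g * x * g⁻¹ = g * x * g⁻¹ * x⁻¹ * x := by group
          rw [h1]
          exact mul_mem (hAB (hconj g)) hxB
      | one => simp
      | mul a b _ _ ha hb =>
        have h1 : g * (a * b) * g⁻¹ = (g * a * g⁻¹) * (g * b * g⁻¹) := by group
        rw [h1]
        exact mul_mem ha hb
      | inv a _ ha =>
        have h1 : g * a⁻¹ * g⁻¹ = (g * a * g⁻¹)⁻¹ := by group
        rw [h1]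
        exact inv_mem ha
    have hBc : ∀ a ∈ Subgroup.closure k, ∀ b ∈ Subgroup.closure k, a * b = b * a := by
      have hcm := Subgroup.isMulCommutative_closure (k := k) (fun a ha b hb => hkc a ha b hb)
      intro a ha b hb
      have := hcm.is_comm.comm (⟨a, ha⟩ : Subgroup.closure k) ⟨b, hb⟩
      exact congrArg (fun z : Subgroup.closure k => (z : P)) this
    exact hxA (hAmax ⟨hBn, hBc⟩ hAB hxB)
  -- the quotient embeds into the permutations of `A`
  have hker : (MulAut.conjNormal : P →* MulAut A).ker = A := by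
    ext g
    rw [MonoidHom.mem_ker]
    constructor
    · intro h
      apply hZ
      intro a ha
      have h1 := congrArg (fun f : MulAut A => ((f ⟨a, ha⟩ : A) : P)) h
      simp only [MulAut.conjNormal_apply, MulAut.one_apply] at h1
      rw [mul_inv_eq_iff_eq_mul] at h1
      exact h1.symm
    · intro h
      ext a
      rw [MulAut.conjNormal_apply, MulAut.one_apply]
      rw [hAc g h a a.2]
      group
  have hidx : Nat.card (P ⧸ A) ≤ (Nat.card A).factorial := by
    have h1 : Nat.card (P ⧸ A) = Nat.card (MulAut.conjNormal : P →* MulAut A).range := by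
      rw [← Subgroup.index_ker, hker]
      rfl
    rw [h1, ← Nat.card_perm]
    apply Nat.card_le_card_of_injective
      (fun f : (MulAut.conjNormal : P →* MulAut A).range => (f : MulAut A).toEquiv)
    intro f g hfg
    apply Subtype.ext
    exact MulEquiv.toEquiv_injective hfg
  rw [Subgroup.card_eq_card_quotient_mul_card_subgroup A, mul_comm]
  exact Nat.mul_le_mul hcard (hidx.trans (Nat.factorial_le hcard))

end PDG
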