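import Pool.Agent.W_3f3beb_h76.GrC
import Pool.Agent.W_3f3beb_h76.SgA

/-! # Polynomial growth of cyclic extensions -/

set_option autoImplicit false

open scoped Classical

namespace PDG

variable {H : Type} [Group H]

/-- the iterated commutators with `T` -/
def PolA_s (K : Subgroup H) (hK : K.Normal) (T : H) (s : K) : ℕ → K
  | 0 => s
  | i + 1 => ⟨T * PolA_s K hK T s i * T⁻¹, hK.conj_mem _ (PolA_s K hK T s i).2 T⟩ *
      (PolA_s K hK T s i)⁻¹

theorem PolA_lcs (K : Subgroup H) (hK : K.Normal) (T : H) (s : K) (i : ℕ) :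
    (PolA_s K hK T s i : H) ∈ (⊤ : Subgroup H).lowerCentralSeries i := by
  induction i with
  | zero => simp
  | succ i ih =>
    have : ((PolA_s K hK T s (i + 1) : K) : H) =
        ((PolA_s K hK T s i : H) * T * (PolA_s K hK T s i : H)⁻¹ * T⁻¹)⁻¹ := by
      simp [PolA_s, mul_assoc]
    rw [this]
    apply Subgroup.inv_mem
    exact Subgroup.commutator_mem_commutator ih (Subgroup.mem_top T)

/-- PROOF. `s_0 = s`, `s_{i+1} = T s_i T⁻¹ s_i⁻¹`; `s_i = 1` for `i ≥ c`, as `H` is nilpotent (`s_i` is in the `i`-th term of the lower central series). `w_i(m) = T^m s_i T^{-m}` satisfies `w_i(m+1) = T^m (s_{i+1} s_i) T^{-m} = w_{i+1}(m) w_i(m)`. Let `F = {s_0, ..., s_{c-1}} ⊆ K` (`K` normal). By downward induction on `i`,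
`w_i(m) ∈ ball F (q_i(m))` with `q_c = 0`, `q_i(m+1) = q_{i+1}(m) + q_i(m)`, `q_i(0) = 1`: `q_i(m) ≤ (m+1)^{c-i}`. -/
theorem conj_length (hn : Group.IsNilpotent H) (K : Subgroup H) (hK : K.Normal) (T : H) (s : K) :
    ∃ (F : Finset K) (c : ℕ), ∀ m : ℕ,
      (⟨T ^ m * s * (T ^ m)⁻¹, hK.conj_mem s s.2 (T ^ m)⟩ : K) ∈ ball F ((m + 1) ^ c) := by
  obtain ⟨c, hc⟩ := Subgroup.nilpotent_iff_lowerCentralSeries.1 hn
  set F : Finset K := (Finset.range (c + 1)).image (PolA_s K hK T s) with hF
  have hone : PolA_s K hK T s c = 1 := by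
    have := PolA_lcs K hK T s c
    rw [hc, Subgroup.mem_bot] at this
    exact Subtype.ext this
  have key : ∀ d i : ℕ, i + d = c → ∀ m : ℕ,
      (⟨T ^ m * PolA_s K hK T s i * (T ^ m)⁻¹, hK.conj_mem _ (PolA_s K hK T s i).2 (T ^ m)⟩ : K) ∈
        ball F ((m + 1) ^ d) := by
    intro d
    induction d with
    | zero =>
      intro i hi m
      have hi' : i = c := by omega
      subst hi'
      have : (⟨T ^ m * PolA_s K hK T s i * (T ^ m)⁻¹,
          hK.conj_mem _ (PolA_s K hK T s i).2 (T ^ m)⟩ : K) = 1 := by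
        apply Subtype.ext
        simp [hone]
      rw [this]
      exact ⟨[], by simp, by simp, by simp⟩
    | succ d ihd =>
      intro i hi m
      induction m with
      | zero =>
        have : (⟨T ^ 0 * PolA_s K hK T s i * (T ^ 0)⁻¹,
            hK.conj_mem _ (PolA_s K hK T s i).2 (T ^ 0)⟩ : K) = PolA_s K hK T s i := by
          apply Subtype.ext
          simp
        rw [this]
        refine ⟨[PolA_s K hK T s i], by simp, ?_, by simp⟩
        intro x hx
        rw [List.mem_singleton] at hx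
        subst hx
        left
        rw [hF, Finset.mem_image]
        exact ⟨i, Finset.mem_range.2 (by omega), rfl⟩
      | succ m ihm =>
        have h1 := ihd (i + 1) (by omega) m
        have h2 := ball_mul F h1 ihm
        have : (⟨T ^ (m + 1) * PolA_s K hK T s i * (T ^ (m + 1))⁻¹,
            hK.conj_mem _ (PolA_s K hK T s i).2 (T ^ (m + 1))⟩ : K) =
            (⟨T ^ m * PolA_s K hK T s (i + 1) * (T ^ m)⁻¹,
              hK.conj_mem _ (PolA_s K hK T s (i + 1)).2 (T ^ m)⟩ : K) *
            (⟨T ^ m * PolA_s K hK T s i * (T ^ m)⁻¹,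
              hK.conj_mem _ (PolA_s K hK T s i).2 (T ^ m)⟩ : K) := by
          apply Subtype.ext
          simp [PolA_s, pow_succ, mul_assoc]
        rw [this]
        refine ball_mono F ?_ h2
        calc (m + 1) ^ d + (m + 1) ^ (d + 1) = (m + 1) ^ d * (m + 2) := by ring
          _ ≤ (m + 2) ^ d * (m + 2) := Nat.mul_le_mul_right _ (Nat.pow_le_pow_left (by omega) d)
          _ = (m + 1 + 1) ^ (d + 1) := by ring
  exact ⟨F, c, fun m => key c 0 (by omega) m⟩

end PDG
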