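import Mathlib

/-! # Norms of powers of matrices for an absolute value -/

set_option autoImplicit false

open scoped Classical

namespace PDG

/-- the sum of the absolute values of the entries -/
noncomputable def vn (v : AbsoluteValue ℂ ℝ) {α β : Type} [Fintype α] [Fintype β]
    (M : Matrix α β ℂ) : ℝ := ∑ i, ∑ j, v (M i j)

section
variable (v : AbsoluteValue ℂ ℝ) {α β γ : Type} [Fintype α] [Fintype β] [Fintype γ]

theorem vn_nonneg (M : Matrix α β ℂ) : 0 ≤ vn v M :=
  Finset.sum_nonneg fun _ _ => Finset.sum_nonneg fun _ _ => v.nonneg _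

theorem vn_eq_zero (M : Matrix α β ℂ) : vn v M = 0 ↔ M = 0 := by
  constructor
  · intro h
    have h1 := (Finset.sum_eq_zero_iff_of_nonneg
      (fun i _ => Finset.sum_nonneg fun j _ => v.nonneg (M i j))).1 h
    ext i j
    have h2 := (Finset.sum_eq_zero_iff_of_nonneg (fun j _ => v.nonneg (M i j))).1
      (h1 i (Finset.mem_univ i)) j (Finset.mem_univ j)
    exact (v.eq_zero).1 h2
  · rintro rfl
    simp [vn]

theorem vn_add (M N : Matrix α β ℂ) : vn v (M + N) ≤ vn v M + vn v N := by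
  unfold vn
  rw [← Finset.sum_add_distrib]
  refine Finset.sum_le_sum fun i _ => ?_
  rw [← Finset.sum_add_distrib]
  exact Finset.sum_le_sum fun j _ => v.add_le _ _

theorem PowA_sum {ι : Type} (s : Finset ι) (f : ι → ℂ) : v (∑ i ∈ s, f i) ≤ ∑ i ∈ s, v (f i) := by
  induction s using Finset.induction_on with
  | empty => simp
  | insert a s ha ih =>
    rw [Finset.sum_insert ha, Finset.sum_insert ha]
    exact (v.add_le _ _).trans (by linarith)

theorem vn_mul (M : Matrix α β ℂ) (N : Matrix β γ ℂ) : vn v (M * N) ≤ vn v M * vn v N := by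
  have h1 : ∀ j, ∑ k, v (N j k) ≤ vn v N := fun j =>
    Finset.single_le_sum (f := fun j => ∑ k, v (N j k))
      (fun j _ => Finset.sum_nonneg fun k _ => v.nonneg _) (Finset.mem_univ j)
  calc vn v (M * N) ≤ ∑ i, ∑ k, ∑ j, v (M i j) * v (N j k) := by
        refine Finset.sum_le_sum fun i _ => Finset.sum_le_sum fun k _ => ?_
        rw [Matrix.mul_apply]
        refine (PowA_sum v _ _).trans (le_of_eq ?_)
        exact Finset.sum_congr rfl fun j _ => v.map_mul _ _
    _ = ∑ i, ∑ j, v (M i j) * ∑ k, v (N j k) := by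
        refine Finset.sum_congr rfl fun i _ => ?_
        rw [Finset.sum_comm]
        exact Finset.sum_congr rfl fun j _ => (Finset.mul_sum _ _ _).symm
    _ ≤ ∑ i, ∑ j, v (M i j) * vn v N := by
        refine Finset.sum_le_sum fun i _ => Finset.sum_le_sum fun j _ => ?_
        exact mul_le_mul_of_nonneg_left (h1 j) (v.nonneg _)
    _ = vn v M * vn v N := by
        unfold vn
        rw [Finset.sum_mul]
        exact Finset.sum_congr rfl fun i _ => (Finset.sum_mul _ _ _).symm

theorem PowA_smul (c : ℂ) (M : Matrix α β ℂ) : vn v (c • M) = v c * vn v M := by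
  unfold vn
  rw [Finset.mul_sum]
  refine Finset.sum_congr rfl fun i _ => ?_
  rw [Finset.mul_sum]
  refine Finset.sum_congr rfl fun j _ => ?_
  rw [Matrix.smul_apply, smul_eq_mul, v.map_mul]

theorem PowA_rec (a : ℕ → ℝ) (r r' C : ℝ) (h0 : 0 < r') (hr : 0 ≤ r) (hrr : r < r')
    (ha : ∀ n, a (n + 1) ≤ r * a n + C * r' ^ n) :
    ∀ n, a n ≤ max (a 0) (C / (r' - r)) * r' ^ n := by
  intro n
  induction n with
  | zero => simp
  | succ n ih =>
    have h1 : C ≤ max (a 0) (C / (r' - r)) * (r' - r) := by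
      have h2 := le_max_right (a 0) (C / (r' - r))
      rwa [div_le_iff₀ (by linarith)] at h2
    have h2 := mul_le_mul_of_nonneg_left ih hr
    have h3 := mul_le_mul_of_nonneg_right h1 (pow_pos h0 n).le
    have h4 := ha n
    rw [pow_succ]
    nlinarith

theorem PowA_comm [DecidableEq α] (T : Matrix α α ℂ) (μ : ℂ) (s : List ℂ) :
    Commute (T - Matrix.scalar α μ) (s.map (fun μ => T - Matrix.scalar α μ)).prod := by
  refine Commute.list_prod_right _ _ ?_
  intro x hx
  obtain ⟨ν, _, rfl⟩ := List.mem_map.1 hx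
  have h1 : ∀ (c : ℂ) (A : Matrix α α ℂ), Commute (Matrix.scalar α c) A := fun c A =>
    Matrix.scalar_commute c (fun r => Commute.all c r) A
  exact ((Commute.refl T).sub_right (h1 ν T).symm).sub_left (h1 μ _)

theorem PowA_bd [DecidableEq α] (T : Matrix α α ℂ) (r r' : ℝ) (h0 : 0 < r') (hrr : r < r') :
    ∀ (s : List ℂ), (∀ μ ∈ s, v μ ≤ r) → ∀ X : Matrix α α ℂ,
      (s.map (fun μ => T - Matrix.scalar α μ)).prod * X = 0 →
      ∃ C : ℝ, ∀ n : ℕ, vn v (T ^ n * X) ≤ C * r' ^ n := by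
  intro s
  induction s with
  | nil =>
    intro _ X hX
    rw [List.map_nil, List.prod_nil, one_mul] at hX
    refine ⟨0, fun n => ?_⟩
    rw [hX, mul_zero, zero_mul, (vn_eq_zero v _).2 rfl]
  | cons μ s ih =>
    intro hr X hX
    rw [List.map_cons, List.prod_cons, (PowA_comm T μ s).eq, mul_assoc] at hX
    obtain ⟨C, hC⟩ := ih (fun ν hν => hr ν (List.mem_cons_of_mem _ hν)) _ hX
    have hμ := hr μ List.mem_cons_self
    refine ⟨_, PowA_rec (fun n => vn v (T ^ n * X)) r r' C h0 ((v.nonneg μ).trans hμ) hrr ?_⟩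
    intro n
    have h1 : T ^ (n + 1) * X = μ • (T ^ n * X) + T ^ n * ((T - Matrix.scalar α μ) * X) := by
      rw [sub_mul, mul_sub, pow_succ, mul_assoc]
      have h2 : (Matrix.scalar α μ) * X = μ • X := by
        rw [Matrix.scalar_apply, ← Matrix.smul_eq_diagonal_mul]
      rw [h2, Matrix.mul_smul]
      abel
    rw [h1]
    refine (vn_add v _ _).trans ?_
    rw [PowA_smul]
    exact add_le_add (mul_le_mul_of_nonneg_right hμ (vn_nonneg v _)) (hC n)

/-- PROOF. For a matrix `X` (or column) with `∏_{μ ∈ s} (T - μ) X = 0`, `vn (T^n X) ≤ C r'^n`: induction on the list `s = μ :: s'` (the factors commute): `Y = (T - μ) X` is killed by the product over `s'`, so `vn (T^k Y) ≤ C' r'^k`. `T^n X = μ^n X + ∑_{k<n} μ^{n-1-k} T^k Y`, so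
`vn (T^n X) ≤ r^n vn X + ∑_{k<n} r^{n-1-k} C' r'^k ≤ r'^n (vn X + C' / (r' - r))` (`r ≥ 0` without loss of generality, replace it by `max r 0`, `max r 0 < r'`). Take `X = 1`. -/
theorem pow_bound [DecidableEq α] (T : Matrix α α ℂ) (s : List ℂ)
    (hs : (s.map (fun μ => T - Matrix.scalar α μ)).prod = 0) (r r' : ℝ) (h0 : 0 < r')
    (hr : ∀ μ ∈ s, v μ ≤ r) (hrr : r < r') : ∃ C : ℝ, ∀ n : ℕ, vn v (T ^ n) ≤ C * r' ^ n := by
  obtain ⟨C, hC⟩ := PowA_bd v T r r' h0 hrr s hr 1 (by rw [hs, zero_mul])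
  exact ⟨C, fun n => by simpa using hC n⟩

end

end PDG
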