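import Pool.Agent.W_3f3beb_h76.MatA

/-! # Restriction to subgroups of finite index -/

set_option autoImplicit false

open scoped Classical

namespace PDG

variable {G : Type} [Group G]

/-- the set of cosets `H g` -/
abbrev Qt (H : Subgroup G) : Type := Quotient (QuotientGroup.rightRel H)

noncomputable instance (H : Subgroup G) [H.FiniteIndex] : Fintype (Qt H) :=
  haveI : Finite (Qt H) := Finite.of_equiv (G ⧸ H) (QuotientGroup.quotientRightRelEquivQuotientLeftRel H).symm
  Fintype.ofFinite _

/-- `h ↦ x (h g)` as an element of the group ring of `H` -/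
noncomputable def cut (H : Subgroup G) (x : MonoidAlgebra ℤ G) (g : G) : MonoidAlgebra ℤ H :=
  MonoidAlgebra.ofCoeff (x.coeff.comapDomain (fun h : H => (h : G) * g)
    (fun a _ b _ hab => Subtype.ext (mul_right_cancel hab)))

/-- the block matrix over the group ring of `H`: entries `h ↦ D_{lj} (t_a⁻¹ h t_b)`, `t = Quotient.out` -/
noncomputable def blk (H : Subgroup G) {α β : Type} (D : Matrix α β (MonoidAlgebra ℤ G)) :
    Matrix (α × Qt H) (β × Qt H) (MonoidAlgebra ℤ H) :=
  fun l j => cut H (MonoidAlgebra.single (Quotient.out l.2) 1 * D l.1 j.1) (Quotient.out j.2)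

/-- coordinates of a vector over `ℤ[H]` -/
noncomputable def cutv (H : Subgroup G) {α : Type} (x : α → MonoidAlgebra ℤ G) :
    α × Qt H → MonoidAlgebra ℤ H := fun j => cut H (x j.1) (Quotient.out j.2)

theorem ResA_coeff (H : Subgroup G) (x : MonoidAlgebra ℤ G) (g : G) (h : H) :
    (cut H x g).coeff h = x.coeff ((h : G) * g) := by
  simp [cut, MonoidAlgebra.coeff_ofCoeff, Finsupp.comapDomain_apply]

theorem ResA_zero (H : Subgroup G) (g : G) : cut H 0 g = 0 := by
  apply MonoidAlgebra.ext
  ext h
  rw [ResA_coeff]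
  simp

theorem ResA_add (H : Subgroup G) (x y : MonoidAlgebra ℤ G) (g : G) :
    cut H (x + y) g = cut H x g + cut H y g := by
  apply MonoidAlgebra.ext
  ext h
  rw [ResA_coeff]
  simp [ResA_coeff]

/-- `g = h * out ⟦g⟧` with `h ∈ H` -/
theorem ResA_mem (H : Subgroup G) (g : G) :
    g * (Quotient.out (Quotient.mk (QuotientGroup.rightRel H) g))⁻¹ ∈ H := by
  have h := Quotient.mk_out (s := QuotientGroup.rightRel H) g
  exact (QuotientGroup.rightRel_apply).1 h

theorem ResA_mk (H : Subgroup G) (g : G) (a : Qt H) (h : g * (Quotient.out a)⁻¹ ∈ H) :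
    a = Quotient.mk (QuotientGroup.rightRel H) g := by
  have h1 : (QuotientGroup.rightRel H) (Quotient.out a) g := (QuotientGroup.rightRel_apply).2 h
  have h2 : Quotient.mk (QuotientGroup.rightRel H) (Quotient.out a)
      = Quotient.mk (QuotientGroup.rightRel H) g := Quotient.sound h1
  rwa [Quotient.out_eq] at h2

theorem ResA_single_mem (H : Subgroup G) (m g : G) (r : ℤ) (hm : m * g⁻¹ ∈ H) :
    cut H (MonoidAlgebra.single m r) g = MonoidAlgebra.single ⟨m * g⁻¹, hm⟩ r := by
  apply MonoidAlgebra.ext
  ext h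
  rw [ResA_coeff, MonoidAlgebra.coeff_single, MonoidAlgebra.coeff_single, Finsupp.single_apply,
    Finsupp.single_apply]
  congr 1
  rw [Subtype.ext_iff]
  simp only [eq_iff_iff]
  exact ⟨fun h' => by rw [h']; simp, fun h' => by rw [← h']; simp⟩

theorem ResA_single_not (H : Subgroup G) (m g : G) (r : ℤ) (hm : ¬ m * g⁻¹ ∈ H) :
    cut H (MonoidAlgebra.single m r) g = 0 := by
  apply MonoidAlgebra.ext
  ext h
  rw [ResA_coeff, MonoidAlgebra.coeff_single, Finsupp.single_apply, if_neg]
  · simp
  · intro h'
    apply hm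
    rw [h']
    simp

theorem ResA_single_other (H : Subgroup G) (m : G) (r : ℤ) (a : Qt H)
    (ha : a ≠ Quotient.mk (QuotientGroup.rightRel H) m) :
    cut H (MonoidAlgebra.single m r) (Quotient.out a) = 0 :=
  ResA_single_not H m _ r (fun h => ha (ResA_mk H m a h))

theorem ResA_sum_aug (H : Subgroup G) [H.FiniteIndex] (x : MonoidAlgebra ℤ G) :
    ∑ a : Qt H, aug H (cut H x (Quotient.out a)) = aug G x := by
  induction x using MonoidAlgebra.induction_linear with
  | zero => simp [ResA_zero]
  | add x y hx hy => simp only [ResA_add, map_add, Finset.sum_add_distrib, hx, hy]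
  | single m r =>
    rw [Finset.sum_eq_single (Quotient.mk (QuotientGroup.rightRel H) m)]
    · rw [ResA_single_mem H m _ r (ResA_mem H m), aug_single, aug_single]
    · intro b _ hb
      rw [ResA_single_other H m r b hb, map_zero]
    · intro h
      exact absurd (Finset.mem_univ _) h

/-- the element with prescribed coordinates -/
theorem ResA_exists (H : Subgroup G) [H.FiniteIndex] (y : Qt H → MonoidAlgebra ℤ H) :
    ∃ x : MonoidAlgebra ℤ G, ∀ a, cut H x (Quotient.out a) = y a := by
  refine ⟨∑ a : Qt H, MonoidAlgebra.ofCoeff ((y a).coeff.mapDomain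
    (fun h : H => (h : G) * Quotient.out a)), fun b => ?_⟩
  apply MonoidAlgebra.ext
  ext h
  rw [ResA_coeff, MonoidAlgebra.coeff_sum, Finsupp.finset_sum_apply, Finset.sum_eq_single b]
  · rw [MonoidAlgebra.coeff_ofCoeff]
    exact Finsupp.mapDomain_apply (f := fun h : H => (h : G) * Quotient.out b)
      (fun a c hac => Subtype.ext (mul_right_cancel hac)) _ h
  · intro a _ hab
    rw [MonoidAlgebra.coeff_ofCoeff]
    apply Finsupp.mapDomain_notin_range
    rintro ⟨h', hh'⟩
    apply hab
    simp only at hh'
    have h1 : (h : G) * Quotient.out b * (Quotient.out a)⁻¹ ∈ H := by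
      rw [← hh']
      simp
    have h2 : (h : G) * Quotient.out b * (Quotient.out b)⁻¹ ∈ H := by simp
    rw [ResA_mk H _ a h1, ← ResA_mk H _ b h2]
  · intro h'
    exact absurd (Finset.mem_univ _) h'

/-- PROOF. every `g` is uniquely `h t_q`. -/
theorem cutv_bijective (H : Subgroup G) [H.FiniteIndex] {α : Type} [Finite α] :
    Function.Bijective (cutv H : (α → MonoidAlgebra ℤ G) → α × Qt H → MonoidAlgebra ℤ H) := by
  constructor
  · intro x y hxy
    funext i
    apply MonoidAlgebra.ext
    ext g
    have h1 := congrFun hxy (i, Quotient.mk (QuotientGroup.rightRel H) g)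
    have h2 : cut H (x i) (Quotient.out (Quotient.mk (QuotientGroup.rightRel H) g))
      = cut H (y i) (Quotient.out (Quotient.mk (QuotientGroup.rightRel H) g)) := h1
    have h3 := congrArg (fun z : MonoidAlgebra ℤ H => z.coeff ⟨_, ResA_mem H g⟩) h2
    simp only [ResA_coeff] at h3
    simpa using h3
  · intro y
    choose x hx using fun i => ResA_exists H (fun a => y (i, a))
    exact ⟨x, by funext j; exact hx j.1 j.2⟩

/-- PROOF. `x = ∑_a cut(x, t_a) t_a`, so `x y = ∑_a cut(x,t_a) (t_a y)` and `cut (h z, g) = h cut (z, g)` for `h ∈ H`. -/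
theorem cut_mul (H : Subgroup G) [H.FiniteIndex] (x y : MonoidAlgebra ℤ G) (g : G) :
    cut H (x * y) g = ∑ a : Qt H, cut H x (Quotient.out a) *
      cut H (MonoidAlgebra.single (Quotient.out a) 1 * y) g := by
  induction x using MonoidAlgebra.induction_linear with
  | zero => simp [ResA_zero]
  | add x y hx hy => simp only [ResA_add, add_mul, Finset.sum_add_distrib, hx, hy]
  | single m r =>
    rw [Finset.sum_eq_single (Quotient.mk (QuotientGroup.rightRel H) m)]
    · rw [ResA_single_mem H m _ r (ResA_mem H m)]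
      apply MonoidAlgebra.ext
      ext h
      rw [ResA_coeff, MonoidAlgebra.coeff_single_mul_apply, MonoidAlgebra.coeff_single_mul_apply,
        ResA_coeff, MonoidAlgebra.coeff_single_mul_apply]
      simp only [one_mul, Subgroup.coe_mul, Subgroup.coe_inv]
      congr 2
      group
    · intro b _ hb
      rw [ResA_single_other H m r b hb, zero_mul]
    · intro h
      exact absurd (Finset.mem_univ _) h

/-- PROOF. `aug x = ∑_a aug (cut x t_a)` -/
theorem eps_cutv (H : Subgroup G) [H.FiniteIndex] {α : Type} [Fintype α] (e : α → ℤ)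
    (x : α → MonoidAlgebra ℤ G) :
    eps (fun j : α × Qt H => e j.1) (cutv H x) = eps e x := by
  unfold eps cutv
  rw [Fintype.sum_prod_type]
  apply Finset.sum_congr rfl
  intro i _
  simp only
  rw [← Finset.sum_mul, ResA_sum_aug]

end PDG
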