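import Pool.Agent.W_3f3beb_h76.ResA

/-! # Block matrices and restriction of exact sequences -/

set_option autoImplicit false

open scoped Classical

namespace PDG

variable {G : Type} [Group G]

theorem ResC_coeff (H : Subgroup G) (x : MonoidAlgebra ℤ G) (g : G) (h : H) :
    (cut H x g).coeff h = x.coeff ((h : G) * g) := by
  unfold cut
  rw [MonoidAlgebra.coeff_ofCoeff, Finsupp.comapDomain_apply]

theorem ResC_zero (H : Subgroup G) (g : G) : cut H (0 : MonoidAlgebra ℤ G) g = 0 := by
  apply MonoidAlgebra.coeff_injective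
  ext h
  rw [ResC_coeff]
  simp

theorem ResC_add (H : Subgroup G) (x y : MonoidAlgebra ℤ G) (g : G) :
    cut H (x + y) g = cut H x g + cut H y g := by
  apply MonoidAlgebra.coeff_injective
  ext h
  rw [ResC_coeff, MonoidAlgebra.coeff_add, MonoidAlgebra.coeff_add, Finsupp.add_apply,
    Finsupp.add_apply, ResC_coeff, ResC_coeff]

theorem ResC_sum (H : Subgroup G) {ι : Type} (s : Finset ι) (x : ι → MonoidAlgebra ℤ G) (g : G) :
    cut H (∑ i ∈ s, x i) g = ∑ i ∈ s, cut H (x i) g := by
  induction s using Finset.induction_on with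
  | empty => rw [Finset.sum_empty, Finset.sum_empty, ResC_zero]
  | insert a s ha ih => rw [Finset.sum_insert ha, Finset.sum_insert ha, ResC_add, ih]

theorem ResC_cutv_zero (H : Subgroup G) {α : Type} :
    cutv H (0 : α → MonoidAlgebra ℤ G) = 0 := by
  funext j
  exact ResC_zero H _

/-- PROOF. `cut_mul` and additivity of `cut` in the first argument. -/
theorem cutv_vecMul (H : Subgroup G) [H.FiniteIndex] {α β : Type} [Fintype α] [Fintype β]
    (D : Matrix α β (MonoidAlgebra ℤ G)) (x : α → MonoidAlgebra ℤ G) :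
    cutv H (Matrix.vecMul x D) = Matrix.vecMul (cutv H x) (blk H D) := by
  funext j
  show cut H (∑ a, x a * D a j.1) (Quotient.out j.2) =
    ∑ l : α × Qt H, cut H (x l.1) (Quotient.out l.2) * blk H D l j
  rw [ResC_sum, Fintype.sum_prod_type]
  refine Finset.sum_congr rfl fun a _ => ?_
  rw [cut_mul]
  rfl

/-- PROOF. `cutv_vecMul` for the rows of `D`: both sides have the same rows, or act in the same way on all vectors `cutv x` -/
theorem blk_mul (H : Subgroup G) [H.FiniteIndex] {α β γ : Type} [Fintype α] [Fintype β] [Fintype γ]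
    (D : Matrix α β (MonoidAlgebra ℤ G)) (D' : Matrix β γ (MonoidAlgebra ℤ G)) :
    blk H (D * D') = blk H D * blk H D' := by
  funext l j
  have h1 := congrFun (cutv_vecMul H D'
    (fun k => MonoidAlgebra.single (Quotient.out l.2) 1 * D l.1 k)) j
  have h2 : cutv H (Matrix.vecMul (fun k => MonoidAlgebra.single (Quotient.out l.2) 1 * D l.1 k)
      D') j = blk H (D * D') l j := by
    show cut H (∑ k, MonoidAlgebra.single (Quotient.out l.2) 1 * D l.1 k * D' k j.1)
      (Quotient.out j.2) = cut H (MonoidAlgebra.single (Quotient.out l.2) 1 *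
        ∑ k, D l.1 k * D' k j.1) (Quotient.out j.2)
    rw [Finset.mul_sum]
    congr 1
    exact Finset.sum_congr rfl fun k _ => mul_assoc _ _ _
  rw [← h2, h1]
  rfl

/-- PROOF. transport by the bijection `cutv`. -/
theorem pres_blk (H : Subgroup G) [H.FiniteIndex] {ι₀ ι₁ ι₂ : Type} [Fintype ι₀] [Fintype ι₁]
    [Fintype ι₂] (D0 : Matrix ι₁ ι₀ (MonoidAlgebra ℤ G)) (D1 : Matrix ι₂ ι₁ (MonoidAlgebra ℤ G))
    (e : ι₀ → ℤ) (h : PRes D0 D1 e) :
    PRes (blk H D0) (blk H D1) (fun j : ι₀ × Qt H => e j.1) := by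
  refine ⟨?_, ?_, ?_⟩
  · obtain ⟨x, hx⟩ := h.surj
    exact ⟨cutv H x, by rw [eps_cutv, hx]⟩
  · intro z
    obtain ⟨x, rfl⟩ := (cutv_bijective H).2 z
    rw [eps_cutv, h.ex0 x]
    constructor
    · rintro ⟨y, rfl⟩
      exact ⟨cutv H y, (cutv_vecMul H D0 y).symm⟩
    · rintro ⟨y', hy'⟩
      obtain ⟨y, rfl⟩ := (cutv_bijective H).2 y'
      rw [← cutv_vecMul] at hy'
      exact ⟨y, (cutv_bijective H).1 hy'⟩
  · intro z
    obtain ⟨x, rfl⟩ := (cutv_bijective H).2 z
    rw [← cutv_vecMul]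
    have h1 : cutv H (Matrix.vecMul x D0) = 0 ↔ Matrix.vecMul x D0 = 0 := by
      constructor
      · intro h2
        rw [← ResC_cutv_zero H] at h2
        exact (cutv_bijective H).1 h2
      · intro h2
        rw [h2, ResC_cutv_zero]
    rw [h1, h.ex1 x]
    constructor
    · rintro ⟨y, rfl⟩
      exact ⟨cutv H y, (cutv_vecMul H D1 y).symm⟩
    · rintro ⟨y', hy'⟩
      obtain ⟨y, rfl⟩ := (cutv_bijective H).2 y'
      rw [← cutv_vecMul] at hy'
      exact ⟨y, (cutv_bijective H).1 hy'⟩

end PDG
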