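import Pool.Agent.W_3f3beb_h76.CovA
import Pool.Agent.W_3f3beb_h76.Defs

/-! # Normalized dimensions of submodules of free modules over `ℚ[G]` -/

set_option autoImplicit false

open scoped Classical Pointwise

namespace PDG

variable {G : Type} [Group G]

/-- the vectors in `ℚ[G]^r` with support in `B` -/
noncomputable def Sp (r : ℕ) (B : Finset G) : Submodule ℚ (Fin r → MonoidAlgebra ℚ G) where
  carrier := {x | ∀ j, ∀ g, g ∉ B → (x j).coeff g = 0}
  add_mem' := by
    intro x y hx hy j g hg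
    simp [hx j g hg, hy j g hg]
  zero_mem' := by intro j g _; simp
  smul_mem' := by
    intro c x hx j g hg
    simp [hx j g hg]

/-- `dim (W ∩ ℚ[G]^r(B))` -/
noncomputable def zz {r : ℕ} (W : Submodule ℚ (Fin r → MonoidAlgebra ℚ G)) (B : Finset G) : ℕ :=
  Module.finrank ℚ (W ⊓ Sp r B : Submodule ℚ (Fin r → MonoidAlgebra ℚ G))

/-- the image of `ℚ[G]^s(B)` under a module homomorphism -/
noncomputable def imSp {s r : ℕ} (d : (Fin s → MonoidAlgebra ℚ G) →ₗ[MonoidAlgebra ℚ G]
    (Fin r → MonoidAlgebra ℚ G)) (B : Finset G) : Submodule ℚ (Fin r → MonoidAlgebra ℚ G) :=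
  (Sp s B).map (d.restrictScalars ℚ)

/-- the image of a module homomorphism -/
noncomputable def imT {s r : ℕ} (d : (Fin s → MonoidAlgebra ℚ G) →ₗ[MonoidAlgebra ℚ G]
    (Fin r → MonoidAlgebra ℚ G)) : Submodule ℚ (Fin r → MonoidAlgebra ℚ G) :=
  LinearMap.range (d.restrictScalars ℚ)

/-- the coefficients on `B` -/
noncomputable def RkA_map (r : ℕ) (B : Finset G) : Sp r B →ₗ[ℚ] (Fin r → B → ℚ) where
  toFun x j b := ((x : Fin r → MonoidAlgebra ℚ G) j).coeff b
  map_add' x y := by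
    funext j b
    simp
  map_smul' c x := by
    funext j b
    simp

theorem RkA_inj (r : ℕ) (B : Finset G) : Function.Injective (RkA_map r B) := by
  rintro ⟨x, hx⟩ ⟨y, hy⟩ h
  apply Subtype.ext
  funext j
  apply MonoidAlgebra.ext
  ext g
  by_cases hg : g ∈ B
  · exact congrFun (congrFun h j) ⟨g, hg⟩
  · show (x j).coeff g = (y j).coeff g
    rw [hx j g hg, hy j g hg]

theorem RkA_coeff (B : Finset G) (f : B → ℚ) (g : G) :
    (∑ b : B, MonoidAlgebra.single (b : G) (f b)).coeff g = if h : g ∈ B then f ⟨g, h⟩ else 0 := by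
  rw [MonoidAlgebra.coeff_sum, Finsupp.finset_sum_apply]
  by_cases h : g ∈ B
  · rw [dif_pos h, Finset.sum_eq_single (⟨g, h⟩ : B)]
    · simp
    · intro b _ hb
      rw [MonoidAlgebra.coeff_single_apply, if_neg]
      intro hbg
      exact hb (Subtype.ext hbg)
    · intro h'
      exact absurd (Finset.mem_univ _) h'
  · rw [dif_neg h]
    refine Finset.sum_eq_zero fun b _ => ?_
    rw [MonoidAlgebra.coeff_single_apply, if_neg]
    intro hbg
    exact h (hbg ▸ b.2)

theorem RkA_surj (r : ℕ) (B : Finset G) : Function.Surjective (RkA_map r B) := by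
  intro f
  refine ⟨⟨fun j => ∑ b : B, MonoidAlgebra.single (b : G) (f j b), fun j g hg => ?_⟩, ?_⟩
  · rw [RkA_coeff, dif_neg hg]
  · funext j b
    show (∑ b : B, MonoidAlgebra.single (b : G) (f j b)).coeff b = f j b
    rw [RkA_coeff, dif_pos b.2]

/-- `Sp r B` is the space of functions -/
noncomputable def RkA_equiv (r : ℕ) (B : Finset G) : Sp r B ≃ₗ[ℚ] (Fin r → B → ℚ) :=
  LinearEquiv.ofBijective (RkA_map r B) ⟨RkA_inj r B, RkA_surj r B⟩

/-- a basis: the vectors `g e_j`, `g ∈ B` -/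
theorem Sp_finrank (r : ℕ) (B : Finset G) : Module.finrank ℚ (Sp r B) = r * B.card := by
  rw [(RkA_equiv r B).finrank_eq, Module.finrank_pi_fintype]
  simp

theorem Sp_finite (r : ℕ) (B : Finset G) : Module.Finite ℚ (Sp r B) :=
  Module.Finite.equiv (RkA_equiv r B).symm

theorem Sp_mono (r : ℕ) {A B : Finset G} (h : A ⊆ B) : Sp r A ≤ Sp r B :=
  fun _ hx j g hg => hx j g fun hA => hg (h hA)

theorem Sp_inter (r : ℕ) (A B : Finset G) : Sp r (A ∩ B) = Sp r A ⊓ Sp r B := by
  apply le_antisymm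
  · exact le_inf (Sp_mono r Finset.inter_subset_left) (Sp_mono r Finset.inter_subset_right)
  · rintro x ⟨hA, hB⟩ j g hg
    by_cases h : g ∈ A
    · exact hB j g fun h' => hg (Finset.mem_inter.2 ⟨h, h'⟩)
    · exact hA j g h

/-- every vector has finite support -/
theorem mem_Sp (r : ℕ) (x : Fin r → MonoidAlgebra ℚ G) : ∃ B : Finset G, x ∈ Sp r B := by
  refine ⟨Finset.univ.biUnion fun j => (x j).coeff.support, fun j g hg => ?_⟩
  by_contra h
  exact hg (Finset.mem_biUnion.2 ⟨j, Finset.mem_univ j, Finsupp.mem_support_iff.2 h⟩)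

/-- translation by `g` maps `Sp r B` to `Sp r (g B)` -/
theorem single_smul_mem_Sp (r : ℕ) (B : Finset G) (g : G) (x : Fin r → MonoidAlgebra ℚ G)
    (hx : x ∈ Sp r B) : MonoidAlgebra.single g (1 : ℚ) • x ∈ Sp r (B.image (fun b => g * b)) := by
  intro j h hh
  show (MonoidAlgebra.single g (1 : ℚ) * x j).coeff h = 0
  rw [MonoidAlgebra.coeff_single_mul_apply, hx j (g⁻¹ * h), mul_zero]
  intro h'
  exact hh (Finset.mem_image.2 ⟨g⁻¹ * h, h', by group⟩)

/-- PROOF. Let `S` be the union of the supports of the entries of the vectors `d (e_i)` and `{1}`; `x = ∑ x_i e_i`, `d x = ∑ x_i d (e_i)`. -/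
theorem exists_supp {s r : ℕ} (d : (Fin s → MonoidAlgebra ℚ G) →ₗ[MonoidAlgebra ℚ G]
    (Fin r → MonoidAlgebra ℚ G)) :
    ∃ S : Finset G, 1 ∈ S ∧ ∀ B : Finset G, imSp d B ≤ Sp r (B * S) := by
  refine ⟨insert 1 (Finset.univ.biUnion fun i => Finset.univ.biUnion fun j =>
    (d (Pi.single i 1) j).coeff.support), Finset.mem_insert_self _ _, fun B => ?_⟩
  rintro _ ⟨x, hx, rfl⟩ j g hg
  show (d x j).coeff g = 0
  have e1 : d x = ∑ i, x i • d (Pi.single i 1) := by
    conv_lhs => rw [← Finset.univ_sum_single x]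
    rw [map_sum]
    refine Finset.sum_congr rfl fun i _ => ?_
    rw [← map_smul]
    congr 1
    funext k
    by_cases hk : k = i
    · subst hk
      simp
    · simp [Pi.single_eq_of_ne hk]
  rw [e1, Finset.sum_apply, MonoidAlgebra.coeff_sum, Finsupp.finset_sum_apply]
  refine Finset.sum_eq_zero fun i _ => ?_
  by_contra h
  apply hg
  have h1 : g ∈ (x i * d (Pi.single i 1) j).coeff.support := Finsupp.mem_support_iff.2 h
  have h2 := MonoidAlgebra.support_coeff_mul_subset _ _ h1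
  obtain ⟨a, ha, b, hb, rfl⟩ := Finset.mem_mul.1 h2
  refine Finset.mul_mem_mul ?_ ?_
  · by_contra haB
    exact (Finsupp.mem_support_iff.1 ha) (hx i a haB)
  · exact Finset.mem_insert_of_mem (Finset.mem_biUnion.2 ⟨i, Finset.mem_univ i,
      Finset.mem_biUnion.2 ⟨j, Finset.mem_univ j, hb⟩⟩)

end PDG
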