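import Pool.Agent.W_3f3beb_h76.RkA

/-! # Lower bound for the images of large finite sets -/

set_option autoImplicit false

open scoped Classical Pointwise

namespace PDG

variable {G : Type} [Group G]

theorem RkB_empty (r : ℕ) : Sp (G := G) r ∅ = ⊥ := by
  rw [eq_bot_iff]
  intro x hx
  rw [Submodule.mem_bot]
  funext j
  apply MonoidAlgebra.ext
  ext g
  exact hx j g (by simp)

theorem RkB_fin (r : ℕ) (U : Submodule ℚ (Fin r → MonoidAlgebra ℚ G)) (P : Finset G) :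
    Module.Finite ℚ (U ⊓ Sp r P : Submodule ℚ (Fin r → MonoidAlgebra ℚ G)) := by
  haveI := Sp_finite r P
  exact Submodule.finiteDimensional_of_le (S₂ := Sp r P) inf_le_right

theorem RkB_mono (r : ℕ) (U : Submodule ℚ (Fin r → MonoidAlgebra ℚ G)) (P Q : Finset G)
    (h : P ⊆ Q) :
    Module.finrank ℚ (U ⊓ Sp r P : Submodule ℚ (Fin r → MonoidAlgebra ℚ G)) ≤
      Module.finrank ℚ (U ⊓ Sp r Q : Submodule ℚ (Fin r → MonoidAlgebra ℚ G)) := by
  haveI := RkB_fin r U Q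
  exact Submodule.finrank_mono (inf_le_inf_left _ (Sp_mono r h))

theorem RkB_super (r : ℕ) (U : Submodule ℚ (Fin r → MonoidAlgebra ℚ G)) (P Q : Finset G) :
    Module.finrank ℚ (U ⊓ Sp r P : Submodule ℚ (Fin r → MonoidAlgebra ℚ G)) +
      Module.finrank ℚ (U ⊓ Sp r Q : Submodule ℚ (Fin r → MonoidAlgebra ℚ G)) ≤
    Module.finrank ℚ (U ⊓ Sp r (P ∪ Q) : Submodule ℚ (Fin r → MonoidAlgebra ℚ G)) +
      Module.finrank ℚ (U ⊓ Sp r (P ∩ Q) : Submodule ℚ (Fin r → MonoidAlgebra ℚ G)) := by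
  haveI := RkB_fin r U P
  haveI := RkB_fin r U Q
  haveI := RkB_fin r U (P ∪ Q)
  have h1 := Submodule.finrank_sup_add_finrank_inf_eq (U ⊓ Sp r P) (U ⊓ Sp r Q)
  have h2 : (U ⊓ Sp r P) ⊓ (U ⊓ Sp r Q) = U ⊓ Sp r (P ∩ Q) := by
    rw [Sp_inter, ← inf_inf_distrib_left]
  have h3 : (U ⊓ Sp r P) ⊔ (U ⊓ Sp r Q) ≤ U ⊓ Sp r (P ∪ Q) :=
    sup_le (inf_le_inf_left _ (Sp_mono r Finset.subset_union_left))
      (inf_le_inf_left _ (Sp_mono r Finset.subset_union_right))
  have h4 := Submodule.finrank_mono h3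
  rw [h2] at h1
  omega

/-- translation -/
noncomputable def RkB_tr (r : ℕ) (g : G) :
    (Fin r → MonoidAlgebra ℚ G) →ₗ[ℚ] (Fin r → MonoidAlgebra ℚ G) where
  toFun x := MonoidAlgebra.single g (1 : ℚ) • x
  map_add' x y := smul_add _ x y
  map_smul' c x := by
    rw [RingHom.id_apply]
    exact smul_comm _ _ _

theorem RkB_tr_inj (r : ℕ) (g : G) : Function.Injective (RkB_tr r g) := by
  intro x y h
  have h1 : MonoidAlgebra.single g (1 : ℚ) • x = MonoidAlgebra.single g (1 : ℚ) • y := h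
  have h2 := congrArg (fun z => MonoidAlgebra.single g⁻¹ (1 : ℚ) • z) h1
  simp only [smul_smul, MonoidAlgebra.single_mul_single, inv_mul_cancel, one_mul] at h2
  have e : (MonoidAlgebra.single (1 : G) (1 : ℚ)) = 1 := MonoidAlgebra.one_def.symm
  rw [e, one_smul, one_smul] at h2
  exact h2

/-- a finite set carrying preimages of a basis of `W` -/
theorem RkB_exists {s r : ℕ} (d : (Fin s → MonoidAlgebra ℚ G) →ₗ[MonoidAlgebra ℚ G]
    (Fin r → MonoidAlgebra ℚ G)) (A : Finset G) :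
    ∃ A0 : Finset G, A ⊆ A0 ∧ imT d ⊓ Sp r A ≤ imSp d A0 := by
  haveI := RkB_fin r (imT d) A
  have hfg : (imT d ⊓ Sp r A).FG := Module.Finite.iff_fg.1 inferInstance
  obtain ⟨S, hS⟩ := hfg
  have hx : ∀ x ∈ S, ∃ C : Finset G, x ∈ imSp d C := by
    intro x hx
    have h1 : x ∈ imT d ⊓ Sp r A := by
      rw [← hS]
      exact Submodule.subset_span hx
    obtain ⟨y, hy⟩ := h1.1
    obtain ⟨C, hC⟩ := mem_Sp s y
    exact ⟨C, ⟨y, hC, hy⟩⟩
  choose! C hC using hx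
  refine ⟨A ∪ S.biUnion C, Finset.subset_union_left, ?_⟩
  rw [← hS, Submodule.span_le]
  intro x hx
  exact Submodule.map_mono (Sp_mono s ((Finset.subset_biUnion_of_mem C hx).trans
    Finset.subset_union_right)) (hC x hx)

/-- PROOF. If `c ≤ 0` take `A0 = A`. `W = imT d ⊓ Sp r A` is finite dimensional, spanned by finitely many `d y_k`; choose `A0 ⊇ A` finite with all
`y_k ∈ Sp s A0`: `W ≤ imSp d A0`. Given `B`, let `f P = finrank (imSp d B ⊓ Sp r P)` for `P ⊆ G` finite: `f ∅ = 0`, monotone, and supermodular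
(`(U ⊓ Sp P) ⊓ (U ⊓ Sp Q) = U ⊓ Sp (P ∩ Q)`, `(U ⊓ Sp P) ⊔ (U ⊓ Sp Q) ≤ U ⊓ Sp (P ∪ Q)`, `finrank (X ⊔ Y) + finrank (X ⊓ Y) = finrank X + finrank Y`).
Let `J = {g | ∀ a ∈ A0, g a ∈ B}` (finite, as `A0` is nonempty), `P g = g A ⊆ B`. A point `x` lies in `g A` for at most `|A|` elements `g` (`g = x a⁻¹`).
`f (g A) ≥ finrank W = zz (imT d) A`: multiplication by `g` maps `W` injectively into `imSp d B ⊓ Sp r (g A)` (`g • d y = d (g • y)`, `g • y ∈ Sp s (g A0) ≤ Sp s B`).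
`covering` gives `|J| * c * |A| ≤ |J| zz ≤ ∑_{g ∈ J} f (g A) ≤ |A| f B`. -/
theorem lower {s r : ℕ} (d : (Fin s → MonoidAlgebra ℚ G) →ₗ[MonoidAlgebra ℚ G]
    (Fin r → MonoidAlgebra ℚ G)) (c : ℝ) (A : Finset G) (hA : A.Nonempty)
    (hc : c * (A.card : ℝ) ≤ (zz (imT d) A : ℝ)) :
    ∃ A0 : Finset G, A0.Nonempty ∧ ∀ B : Finset G,
      c * ({g : G | ∀ a ∈ A0, g * a ∈ B}.ncard : ℝ) ≤
        (Module.finrank ℚ (imSp d B ⊓ Sp r B : Submodule ℚ (Fin r → MonoidAlgebra ℚ G)) : ℝ) := by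
  obtain ⟨A0, hAA0, hW⟩ := RkB_exists d A
  refine ⟨A0, hA.mono hAA0, fun B => ?_⟩
  set U : Submodule ℚ (Fin r → MonoidAlgebra ℚ G) := imSp d B with hU
  obtain ⟨a0, ha0⟩ := hA
  have hfin : {g : G | ∀ a ∈ A0, g * a ∈ B}.Finite := by
    refine (B.image (fun b => b * a0⁻¹)).finite_toSet.subset ?_
    intro g hg
    rw [Finset.mem_coe, Finset.mem_image]
    exact ⟨g * a0, hg a0 (hAA0 ha0), by group⟩
  have hcard : ({g : G | ∀ a ∈ A0, g * a ∈ B}.ncard : ℝ) = (hfin.toFinset.card : ℝ) := by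
    rw [Set.ncard_eq_toFinset_card _ hfin]
  have hcov := covering (X := G) (ι := G)
    (fun P => (Module.finrank ℚ (U ⊓ Sp r P : Submodule ℚ (Fin r → MonoidAlgebra ℚ G)) : ℝ))
    (by
      show ((Module.finrank ℚ (U ⊓ Sp r ∅ : Submodule ℚ (Fin r → MonoidAlgebra ℚ G)) : ℕ) : ℝ) = 0
      rw [RkB_empty, inf_bot_eq, finrank_bot]
      simp)
    (fun P Q h => by
      have := RkB_mono r U P Q h
      show ((_ : ℕ) : ℝ) ≤ ((_ : ℕ) : ℝ)
      exact_mod_cast this)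
    (fun P Q => by
      have := RkB_super r U P Q
      exact_mod_cast this)
    hfin.toFinset (fun g => A.image (fun a => g * a)) B
    (by
      intro g hg
      rw [Set.Finite.mem_toFinset] at hg
      intro x hx
      rw [Finset.mem_image] at hx
      obtain ⟨a, ha, rfl⟩ := hx
      exact hg a (hAA0 ha))
    A.card
    (by
      intro x _
      refine Finset.card_le_card_of_injOn (fun g => g⁻¹ * x) ?_ ?_
      · intro g hg
        rw [Finset.mem_coe, Finset.mem_filter, Finset.mem_image] at hg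
        obtain ⟨_, a, ha, hax⟩ := hg
        rw [← hax]
        simpa using ha
      · intro g _ g' _ h
        have h' : g⁻¹ * x = g'⁻¹ * x := h
        exact inv_injective (mul_right_cancel h'))
  have hlow : ∀ g ∈ hfin.toFinset, (zz (imT d) A : ℝ) ≤
      (Module.finrank ℚ (U ⊓ Sp r (A.image (fun a => g * a)) :
        Submodule ℚ (Fin r → MonoidAlgebra ℚ G)) : ℝ) := by
    intro g hg
    rw [Set.Finite.mem_toFinset] at hg
    have hle : (imT d ⊓ Sp r A).map (RkB_tr r g) ≤ U ⊓ Sp r (A.image (fun a => g * a)) := by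
      rintro _ ⟨w, hw, rfl⟩
      refine ⟨?_, single_smul_mem_Sp r A g w hw.2⟩
      obtain ⟨y, hy, hyw⟩ := hW hw
      refine ⟨MonoidAlgebra.single g (1 : ℚ) • y, ?_, ?_⟩
      · refine Sp_mono s ?_ (single_smul_mem_Sp s A0 g y hy)
        intro x hx
        rw [Finset.mem_image] at hx
        obtain ⟨a, ha, rfl⟩ := hx
        exact hg a ha
      · have h1 : d y = w := hyw
        show d (MonoidAlgebra.single g (1 : ℚ) • y) = MonoidAlgebra.single g (1 : ℚ) • w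
        rw [map_smul, h1]
    haveI := RkB_fin r U (A.image (fun a => g * a))
    have h2 := Submodule.finrank_mono hle
    have h3 := (Submodule.equivMapOfInjective (RkB_tr r g) (RkB_tr_inj r g)
      (imT d ⊓ Sp r A)).finrank_eq
    rw [← h3] at h2
    have h4 : zz (imT d) A ≤ Module.finrank ℚ (U ⊓ Sp r (A.image (fun a => g * a)) :
        Submodule ℚ (Fin r → MonoidAlgebra ℚ G)) := h2
    exact_mod_cast h4
  have hsum := Finset.card_nsmul_le_sum hfin.toFinset (fun g =>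
    (Module.finrank ℚ (U ⊓ Sp r (A.image (fun a => g * a)) :
        Submodule ℚ (Fin r → MonoidAlgebra ℚ G)) : ℝ)) (zz (imT d) A : ℝ) hlow
  rw [nsmul_eq_mul] at hsum
  have hJ : (0 : ℝ) ≤ (hfin.toFinset.card : ℝ) := Nat.cast_nonneg _
  have h5 : (hfin.toFinset.card : ℝ) * (c * (A.card : ℝ)) ≤
      (A.card : ℝ) * (Module.finrank ℚ (U ⊓ Sp r B :
        Submodule ℚ (Fin r → MonoidAlgebra ℚ G)) : ℝ) :=
    (mul_le_mul_of_nonneg_left hc hJ).trans (hsum.trans hcov)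
  have hApos : (0 : ℝ) < (A.card : ℝ) := by
    have : 0 < A.card := Finset.card_pos.2 ⟨a0, ha0⟩
    exact_mod_cast this
  rw [hcard]
  have h6 : (A.card : ℝ) * (c * (hfin.toFinset.card : ℝ)) ≤
      (A.card : ℝ) * (Module.finrank ℚ (U ⊓ Sp r B :
        Submodule ℚ (Fin r → MonoidAlgebra ℚ G)) : ℝ) := by
    calc _ = (hfin.toFinset.card : ℝ) * (c * (A.card : ℝ)) := by ring
      _ ≤ _ := h5
  exact le_of_mul_le_mul_left h6 hApos

end PDG
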