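import Pool.Agent.W_3f3beb_h76.TrvA
import Pool.Agent.W_3f3beb_h76.UltA

/-! # A finite index subgroup acting trivially on all sections of the derived series -/

set_option autoImplicit false

open scoped Classical commutatorElement

namespace PDG

variable {L : Type} [Group L]

/-- PROOF. Induction on `j`: `L^(j)` has finite index, so its abelianization is finite, `L^(j+1)` is the (image of the) commutator subgroup of `L^(j)`. -/
theorem derived_finiteIndex (hf : FAb L) (j : ℕ) : (derivedSeries L j).FiniteIndex := by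
  induction j with
  | zero =>
    rw [derivedSeries_zero]
    infer_instance
  | succ j ih =>
    have h1 : Finite (Abelianization (derivedSeries L j)) := hf _ ih
    have h2 : (_root_.commutator (derivedSeries L j)).FiniteIndex := by
      have : Finite (derivedSeries L j ⧸ _root_.commutator (derivedSeries L j)) := h1
      exact Subgroup.finiteIndex_of_finite_quotient
    rw [derivedSeries_succ, ← Subgroup.map_subtype_commutator]
    exact DpA_fin ih _ h2

/-- PROOF. Suppose not; for every `k` the normal finite index subgroup `cap L k` contains an element `y_k` and there are `j_k` and a prime `p_k` with `¬ Trv p_k (L^(j_k)) y_k`. For a fixed prime `q`, `p_k = q` only for `k < (q^D)!` (`trv_cap`, `cap_anti`; `dp q (L^(j)) ≤ D` by `RK`, `L^(j)` finitely generated since of finite index). So `ultra_field` applies to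
`ρ k` from `exists_hom_rep`: `N`. Let `k₀` be such that `cap L k₀ ≤ N` (`exists_cap_le`), finitely generated by a finite set `F`. There is `k ≥ k₀` with `ρ k y = 1` for all `y ∈ F`, so `Trv p_k (L^(j_k)) y` for all `y ∈ cap L k₀` (`Trv.of_closure`), in particular for `y_k ∈ cap L k ≤ cap L k₀`: contradiction. -/
theorem exists_trv (hL : Group.FG L) (hF : LinFin L) (hf : FAb L) (D : ℕ) (hr : RK L D) :
    ∃ N : Subgroup L, N.FiniteIndex ∧ N.Normal ∧ ∀ (p : ℕ) [Fact p.Prime] (j : ℕ), ∀ y ∈ N,
      Trv p (derivedSeries L j) y := by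
  by_contra hcon
  push Not at hcon
  have hcapn : ∀ k, (cap L k).Normal := fun k => by
    have := cap_characteristic (L := L) k
    infer_instance
  have h1 : ∀ k : ℕ, ∃ (p : ℕ) (_ : p.Prime) (j : ℕ) (y : L), y ∈ cap L k ∧
      ¬ Trv p (derivedSeries L j) y := by
    intro k
    obtain ⟨p, hp, j, y, hy, h⟩ := hcon (cap L k) (cap_finiteIndex hL k) (hcapn k)
    exact ⟨p, hp.out, j, y, hy, h⟩
  choose pr hpr j y hy hnt using h1
  have hfg : ∀ j, Group.FG (derivedSeries L j) := by
    intro j
    have := hL
    have := derived_finiteIndex hf j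
    infer_instance
  have hdp : ∀ (q : ℕ) [Fact q.Prime] (j : ℕ), dp q (derivedSeries L j) ≤ D := fun q _ j =>
    hr q _ (derived_finiteIndex hf j)
  have hinf : ∀ q : ℕ, {k | pr k = q}.Finite := by
    intro q
    refine (Set.finite_lt_nat (Nat.factorial (q ^ D))).subset fun k hk => ?_
    have hk' : pr k = q := hk
    by_contra hlt
    have hle : Nat.factorial (q ^ D) ≤ k := not_lt.1 hlt
    have hq : Fact q.Prime := ⟨hk' ▸ hpr k⟩
    have h2 := trv_cap q (derivedSeries L (j k)) inferInstance (hfg _) D (hdp q _) (y k)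
      (cap_anti hle (hy k))
    rw [← hk'] at h2
    exact hnt k h2
  have hrep : ∀ k, ∃ ρ : L →* GL (Fin D) (ZMod (pr k)), ∀ y : L, ρ y = 1 ↔
      Trv (pr k) (derivedSeries L (j k)) y := by
    intro k
    have : Fact (pr k).Prime := ⟨hpr k⟩
    exact exists_hom_rep (pr k) (derivedSeries L (j k)) inferInstance (hfg _) D (hdp _ _)
  choose ρ hρ using hrep
  obtain ⟨N, hN, hNF⟩ := ultra_field hF D pr hpr hinf ρ
  obtain ⟨k₀, hk₀⟩ := exists_cap_le N hN
  have hcfg : (cap L k₀).FG := by
    have := hL
    have := cap_finiteIndex hL k₀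
    rw [← Group.fg_iff_subgroup_fg]
    infer_instance
  obtain ⟨F, hF⟩ := hcfg
  have hFN : ∀ z ∈ F, z ∈ N := fun z hz => hk₀ (by
    rw [← hF]
    exact Subgroup.subset_closure hz)
  obtain ⟨k, hk, hkF⟩ := hNF F hFN k₀
  have : Fact (pr k).Prime := ⟨hpr k⟩
  have h2 := Trv.of_closure (pr k) (derivedSeries L (j k)) inferInstance (F : Set L)
    (fun z hz => (hρ k z).1 (hkF z hz))
  rw [hF] at h2
  exact hnt k (h2 (y k) (cap_anti hk (hy k)))

end PDG
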