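import Pool.Agent.W_3f3beb_h76.SolA
import Pool.Agent.W_3f3beb_h76.SolD

/-! # Nilpotent quotients -/

set_option autoImplicit false

open scoped Classical commutatorElement

namespace PDG

variable {L : Type} [Group L]

/-- the action of `y` on the abelianization of the normal subgroup `H` -/
noncomputable def SolB_tau (H : Subgroup L) [H.Normal] (y : L) :
    Additive (Abelianization H) →+ Additive (Abelianization H) :=
  MonoidHom.toAdditive (Abelianization.map (MulAut.conjNormal (H := H) y).toMonoidHom)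

theorem SolB_tau_of (H : Subgroup L) [H.Normal] (y : L) (x : H) :
    SolB_tau H y (Additive.ofMul (Abelianization.of x)) =
      Additive.ofMul (Abelianization.of (MulAut.conjNormal (H := H) y x)) := rfl

/-- iterated differences -/
noncomputable def SolB_A (H : Subgroup L) [H.Normal] (N : Subgroup L) (k : ℕ) :
    AddSubgroup (Additive (Abelianization H)) :=
  AddSubgroup.closure {a | ∃ (l : List (Additive (Abelianization H) →+ Additive (Abelianization H)))
    (x : Additive (Abelianization H)), l.length = k ∧ (∀ τ ∈ l, τ ∈ SolB_tau H '' (N : Set L)) ∧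
    a = l.foldr (fun τ z => τ z - z) x}

theorem SolB_A_zero (H : Subgroup L) [H.Normal] (N : Subgroup L) : SolB_A H N 0 = ⊤ := by
  rw [eq_top_iff]
  intro a _
  exact AddSubgroup.subset_closure ⟨[], a, rfl, by simp, rfl⟩

theorem SolB_A_succ (H : Subgroup L) [H.Normal] (N : Subgroup L) (k : ℕ) {y : L} (hy : y ∈ N)
    {a : Additive (Abelianization H)} (ha : a ∈ SolB_A H N k) :
    SolB_tau H y a - a ∈ SolB_A H N (k + 1) := by
  induction ha using AddSubgroup.closure_induction with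
  | mem a ha =>
    obtain ⟨l, x, hl, hm, rfl⟩ := ha
    refine AddSubgroup.subset_closure ⟨SolB_tau H y :: l, x, by simp [hl], ?_, rfl⟩
    intro τ hτ
    rcases List.mem_cons.1 hτ with rfl | h
    · exact ⟨y, hy, rfl⟩
    · exact hm τ h
  | zero => simp
  | add a b _ _ ha hb =>
    have : SolB_tau H y (a + b) - (a + b) = (SolB_tau H y a - a) + (SolB_tau H y b - b) := by
      rw [map_add]; abel
    rw [this]
    exact add_mem ha hb
  | neg a _ ha =>
    have : SolB_tau H y (-a) - (-a) = -(SolB_tau H y a - a) := by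
      rw [map_neg]; abel
    rw [this]
    exact neg_mem ha

/-- the subgroup of `L` of the elements of `H` with class in `A_k` -/
noncomputable def SolB_P (H : Subgroup L) [H.Normal] (N : Subgroup L) (k : ℕ) : Subgroup L :=
  ((AddSubgroup.toSubgroup (SolB_A H N k)).comap (Abelianization.of (G := H))).map H.subtype

theorem SolB_mem_P (H : Subgroup L) [H.Normal] (N : Subgroup L) (k : ℕ) (x : L) :
    x ∈ SolB_P H N k ↔ ∃ hx : x ∈ H,
      Additive.ofMul (Abelianization.of (⟨x, hx⟩ : H)) ∈ SolB_A H N k := by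
  constructor
  · rintro ⟨z, hz, rfl⟩
    exact ⟨z.2, hz⟩
  · rintro ⟨hx, h⟩
    exact ⟨⟨x, hx⟩, h, rfl⟩

theorem SolB_P_zero (H : Subgroup L) [H.Normal] (N : Subgroup L) : SolB_P H N 0 = H := by
  ext x
  rw [SolB_mem_P, SolB_A_zero]
  simp

theorem SolB_P_succ (H : Subgroup L) [H.Normal] (N : Subgroup L) (k : ℕ) :
    ⁅SolB_P H N k, N⁆ ≤ SolB_P H N (k + 1) := by
  rw [Subgroup.commutator_le]
  intro x hx y hy
  obtain ⟨hxH, hx⟩ := (SolB_mem_P H N k x).1 hx
  have hn : y * x⁻¹ * y⁻¹ ∈ H := Subgroup.Normal.conj_mem inferInstance _ (H.inv_mem hxH) y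
  have hc : ⁅x, y⁆ ∈ H := by
    rw [commutatorElement_def, mul_assoc, mul_assoc]
    have := H.mul_mem hxH hn
    rwa [mul_assoc] at this
  refine (SolB_mem_P H N (k + 1) _).2 ⟨hc, ?_⟩
  have he : (⟨⁅x, y⁆, hc⟩ : H) = ⟨x, hxH⟩ * (MulAut.conjNormal (H := H) y ⟨x, hxH⟩)⁻¹ := by
    apply Subtype.ext
    simp [commutatorElement_def, mul_assoc]
  rw [he, map_mul, map_inv]
  have h1 := SolB_A_succ H N k hy hx
  rw [SolB_tau_of] at h1
  have h2 := neg_mem h1
  rw [neg_sub] at h2
  rw [← div_eq_mul_inv, ofMul_div]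
  exact h2

theorem SolB_of_pw (p : ℕ) (H : Subgroup L) [H.Normal] {x : L}
    (hx : x ∈ pw p H ⊔ ⁅H, H⁆) (hxH : x ∈ H) :
    ∃ z : Additive (Abelianization H), Additive.ofMul (Abelianization.of (⟨x, hxH⟩ : H)) = p • z := by
  have key : pw p H ⊔ ⁅H, H⁆ ≤
      ((AddSubgroup.toSubgroup (AddMonoidHom.range (DistribSMul.toAddMonoidHom
        (Additive (Abelianization H)) p))).comap (Abelianization.of (G := H))).map H.subtype := by
    refine sup_le ?_ ?_
    · rw [pw, Subgroup.closure_le]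
      rintro y ⟨x, hx, rfl⟩
      refine ⟨(⟨x, hx⟩ : H) ^ p, ?_, by simp⟩
      refine ⟨Additive.ofMul (Abelianization.of (⟨x, hx⟩ : H)), ?_⟩
      rw [map_pow]
      rfl
    · rw [Subgroup.commutator_le]
      intro a ha b hb
      refine ⟨⁅(⟨a, ha⟩ : H), (⟨b, hb⟩ : H)⁆, ?_, rfl⟩
      refine ⟨0, ?_⟩
      rw [map_zero]
      have : Abelianization.of ⁅(⟨a, ha⟩ : H), (⟨b, hb⟩ : H)⁆ = 1 := by
        rw [map_commutatorElement, commutatorElement_eq_one_iff_commute]
        exact Commute.all _ _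
      rw [this]
      rfl
  obtain ⟨⟨w, hw⟩, ⟨z, hz⟩, h2⟩ := key hx
  have : w = x := h2
  subst this
  exact ⟨z, hz.symm⟩

theorem SolB_P_bot (H : Subgroup L) [H.Normal] (hfin : Finite (Abelianization H)) (N : Subgroup L)
    (h : ∀ (p : ℕ) [Fact p.Prime], ∀ y ∈ N, Trv p H y) :
    ∃ c, SolB_P H N c ≤ ⁅H, H⁆ := by
  have : Finite (Additive (Abelianization H)) := hfin
  obtain ⟨c, hc⟩ := nilpotent_action (SolB_tau H '' (N : Set L)) (by
    rintro _ ⟨y, hy, rfl⟩ p hp a
    obtain ⟨x, rfl⟩ : ∃ x : H, a = Additive.ofMul (Abelianization.of x) := by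
      obtain ⟨x, hx⟩ := QuotientGroup.mk_surjective (Additive.toMul a)
      exact ⟨x, congrArg Additive.ofMul hx.symm⟩
    have : Fact p.Prime := ⟨hp⟩
    have h1 := h p y hy x x.2
    have hn : y * (x : L)⁻¹ * y⁻¹ ∈ H :=
      Subgroup.Normal.conj_mem inferInstance _ (H.inv_mem x.2) y
    have hcm : ⁅(x : L), y⁆ ∈ H := by
      rw [commutatorElement_def, mul_assoc, mul_assoc]
      have := H.mul_mem x.2 hn
      rwa [mul_assoc] at this
    obtain ⟨z, hz⟩ := SolB_of_pw p H h1 hcm
    refine ⟨-z, ?_⟩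
    have he : (⟨⁅(x : L), y⁆, hcm⟩ : H) = x * (MulAut.conjNormal (H := H) y x)⁻¹ := by
      apply Subtype.ext
      simp [commutatorElement_def, mul_assoc]
    rw [he, map_mul, map_inv, ← div_eq_mul_inv, ofMul_div] at hz
    rw [SolB_tau_of, smul_neg, ← hz]
    exact (neg_sub _ _).symm)
  refine ⟨c, ?_⟩
  intro x hx
  obtain ⟨hxH, hx⟩ := (SolB_mem_P H N c x).1 hx
  have hA : SolB_A H N c = ⊥ := by
    rw [eq_bot_iff, SolB_A, AddSubgroup.closure_le]
    rintro a ⟨l, z, hl, hm, rfl⟩
    exact (AddSubgroup.mem_bot).2 (hc l hl hm z)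
  rw [hA, AddSubgroup.mem_bot] at hx
  have h1 : Abelianization.of (⟨x, hxH⟩ : H) = 1 := hx
  have h2 : (⟨x, hxH⟩ : H) ∈ commutator H := by
    have := (Abelianization.ker_of (G := H)) ▸ (MonoidHom.mem_ker.2 h1)
    exact this
  have h3 : (commutator H).map H.subtype = ⁅H, H⁆ := by
    rw [commutator_def, Subgroup.map_commutator, ← MonoidHom.range_eq_map, Subgroup.range_subtype]
  rw [← h3]
  exact ⟨_, h2, rfl⟩

/-- PROOF. `A = L^(j)/L^(j+1)`, finite abelian (`L^(j+1)` has finite index). For `y ∈ N`, conjugation `τ_y` on `A`: `Trv p (L^(j)) y` says `⁅x, y⁆ ∈ pw p L^(j) ⊔ L^(j+1)`: `τ_y x - x ∈ pA`. By `nilpotent_action` all `c`-fold commutators `⁅...⁅x, y_1⁆, ..., y_c⁆` with `x ∈ L^(j)`, `y_i ∈ N` are in `L^(j+1)`; so `⁅...⁅L^(j), N⁆, ..., N⁆ ≤ L^(j+1)` (`c` times). Concatenate: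
the lower central series of `N` reaches `L^(j)` after finitely many steps, for every `j` (start with `N ≤ L^(0) = ⊤`). So the quotient is nilpotent. -/
theorem nilp_quot (hf : FAb L) (N : Subgroup L) (hN : N.Normal)
    (h : ∀ (p : ℕ) [Fact p.Prime] (j : ℕ), ∀ y ∈ N, Trv p (derivedSeries L j) y) (j : ℕ) :
    Group.IsNilpotent (N ⧸ (derivedSeries L j).subgroupOf N) := by
  have key : ∀ j : ℕ, ∃ k : ℕ, N.lowerCentralSeries k ≤ derivedSeries L j := by
    intro j
    induction j with
    | zero => exact ⟨0, by simp⟩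
    | succ j ih =>
      obtain ⟨k, hk⟩ := ih
      have hD : (derivedSeries L j).Normal := derivedSeries_normal L j
      obtain ⟨c, hc⟩ := SolB_P_bot (derivedSeries L j)
        (hf _ (derived_finiteIndex hf j)) N (fun p _ y hy => h p j y hy)
      have hstep : ∀ m : ℕ, N.lowerCentralSeries (k + m) ≤
          SolB_P (derivedSeries L j) N m := by
        intro m
        induction m with
        | zero => rw [SolB_P_zero]; exact hk
        | succ m ihm =>
          have h1 : N.lowerCentralSeries (k + (m + 1)) = ⁅N.lowerCentralSeries (k + m), N⁆ := rfl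
          rw [h1]
          exact (Subgroup.commutator_mono ihm le_rfl).trans (SolB_P_succ _ N m)
      exact ⟨k + c, (hstep c).trans hc⟩
  obtain ⟨k, hk⟩ := key j
  rw [Subgroup.nilpotent_iff_lowerCentralSeries]
  refine ⟨k, ?_⟩
  have ht : (⊤ : Subgroup N).map (QuotientGroup.mk' ((derivedSeries L j).subgroupOf N)) = ⊤ := by
    rw [← MonoidHom.range_eq_map, MonoidHom.range_eq_top]
    exact QuotientGroup.mk'_surjective _
  rw [← ht, ← Subgroup.map_lowerCentralSeries, eq_bot_iff]
  rintro _ ⟨y, hy, rfl⟩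
  rw [Subgroup.mem_bot]
  rw [QuotientGroup.mk'_apply, QuotientGroup.eq_one_iff, Subgroup.mem_subgroupOf]
  have h2 : (y : L) ∈ N.lowerCentralSeries k := by
    rw [← Subgroup.top_subtype_lowerCentralSeries]
    exact ⟨y, hy, rfl⟩
  exact hk h2

end PDG
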