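import Mathlib

/-!
# MP_3f3beb_al: Poincare duality groups of dimension 3 and 4 and intermediate growth: definitions

`MonoidAlgebra ℤ G` is the integral group ring of `G`.
-/

set_option autoImplicit false

namespace PDG

/-- the group elements which are products of at most `n` elements of `S ∪ S⁻¹` -/
def ball {G : Type} [Group G] (S : Finset G) (n : ℕ) : Set G :=
  {g : G | ∃ l : List G, l.length ≤ n ∧ (∀ s ∈ l, s ∈ S ∨ s⁻¹ ∈ S) ∧ l.prod = g}

/-- the growth function `β_S(n)` -/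
noncomputable def growth {G : Type} [Group G] (S : Finset G) (n : ℕ) : ℕ := (ball S n).ncard

/-- `β_S` is bounded by a polynomial -/
def PolyBd {G : Type} [Group G] (S : Finset G) : Prop :=
  ∃ d : ℕ, ∃ K : ℝ, ∀ n : ℕ, (growth S n : ℝ) ≤ K * ((n : ℝ) + 1) ^ d

/-- `β_S` is not exponential: for every `ε > 0` it is eventually below `(1 + ε) ^ n` -/
def SubexpBd {G : Type} [Group G] (S : Finset G) : Prop :=
  ∀ ε : ℝ, 0 < ε → ∃ N : ℕ, ∀ n : ℕ, N ≤ n → (growth S n : ℝ) ≤ (1 + ε) ^ n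

/-- `G` is finitely generated and has intermediate growth -/
def IntermediateGrowth (G : Type) [Group G] : Prop :=
  ∃ S : Finset G, Subgroup.closure (S : Set G) = ⊤ ∧ ¬ PolyBd S ∧ SubexpBd S

/-- `G` is finitely generated and does not have exponential growth -/
def SubexpGrowth (G : Type) [Group G] : Prop :=
  ∃ S : Finset G, Subgroup.closure (S : Set G) = ⊤ ∧ SubexpBd S

/-- A finite free resolution of length `n` of the trivial module `ℤ` over the group ring
(`G` is of type FL): the free modules have ranks `r i`, zero for `i > n`, and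
`0 → C_n → ⋯ → C_1 → C_0 → ℤ → 0` is exact. -/
structure FinRes (G : Type) [Group G] (n : ℕ) where
  r : ℕ → ℕ
  d : ∀ i : ℕ, (Fin (r (i + 1)) → MonoidAlgebra ℤ G) →ₗ[MonoidAlgebra ℤ G]
    (Fin (r i) → MonoidAlgebra ℤ G)
  ε : (Fin (r 0) → MonoidAlgebra ℤ G) →+ ℤ
  ε_trivial : ∀ (g : G) (x : Fin (r 0) → MonoidAlgebra ℤ G), ε (MonoidAlgebra.of ℤ G g • x) = ε x
  ε_surjective : Function.Surjective ε
  exact_zero : ∀ x, ε x = 0 ↔ ∃ y, d 0 y = x
  exact_succ : ∀ i x, d i x = 0 ↔ ∃ y, d (i + 1) y = x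
  length : ∀ i, n < i → r i = 0

/-- The cochain map `Hom(C_i, ℤG) → Hom(C_{i+1}, ℤG)`; its cohomology is `H^i(G; ℤG)`. -/
noncomputable def FinRes.δ {G : Type} [Group G] {n : ℕ} (C : FinRes G n) (i : ℕ) :
    ((Fin (C.r i) → MonoidAlgebra ℤ G) →ₗ[MonoidAlgebra ℤ G] MonoidAlgebra ℤ G) →+
      ((Fin (C.r (i + 1)) → MonoidAlgebra ℤ G) →ₗ[MonoidAlgebra ℤ G] MonoidAlgebra ℤ G) where
  toFun f := f.comp (C.d i)
  map_zero' := LinearMap.zero_comp _
  map_add' f g := LinearMap.add_comp _ _ _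

/-- Poincaré duality in dimension `n + 1`: `H^i(G; ℤG) = 0` for `i ≤ n`, and `H^{n+1}(G; ℤG)` is
infinite cyclic. So `G` is a Poincaré duality group of dimension `n + 1` (of type FL). -/
structure FinRes.IsPD {G : Type} [Group G] {n : ℕ} (C : FinRes G (n + 1)) : Prop where
  zero : ∀ f, C.δ 0 f = 0 → f = 0
  succ : ∀ i, i + 1 ≤ n → ∀ f, C.δ (i + 1) f = 0 → ∃ h, C.δ i h = f
  top : Nonempty ((((Fin (C.r (n + 1)) → MonoidAlgebra ℤ G) →ₗ[MonoidAlgebra ℤ G]
    MonoidAlgebra ℤ G) ⧸ (C.δ n).range) ≃+ ℤ)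

/-- `M` has a subgroup of finite index which has infinitely many finite soluble quotients
(`M'` has infinitely many normal subgroups `N` of finite index such that `M' ⧸ N` is soluble) -/
def ManySoluble {G : Type} [Group G] (M : Subgroup G) : Prop :=
  ∃ M' : Subgroup G, M' ≤ M ∧ M'.relIndex M ≠ 0 ∧
    {N : Subgroup M' | ∃ _ : N.Normal, N.FiniteIndex ∧ Group.IsSolvable (M' ⧸ N)}.Infinite

end PDG
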