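import Pool.Agent.W_3f3beb_h76.Stmt

/-!
# MP_3f3beb_al: the classes of groups in the main theorem
-/

set_option autoImplicit false

namespace PDG

/-- `G` is a Poincaré duality group of dimension `n + 1` of type FL -/
def IsPDGroup (G : Type) [Group G] (n : ℕ) : Prop := ∃ C : FinRes G (n + 1), C.IsPD

/-- `G` has a subgroup of finite index which is residually (finite soluble) -/
def VirtResSoluble (G : Type) [Group G] : Prop :=
  ∃ H : Subgroup G, H.FiniteIndex ∧ ∀ g : H, g ≠ 1 →
    ∃ (N : Subgroup H) (_ : N.Normal), N.FiniteIndex ∧ Group.IsSolvable (H ⧸ N) ∧ g ∉ N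

end PDG
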