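import Mathlib

/-!
# MP_3f3beb_al: Poincaré duality groups of dimension 3 and 4 and intermediate growth

The definitions used in the statement of the main theorem. `MonoidAlgebra ℤ G` is the integral
group ring of `G`; the free left module of rank `r` is the module of row vectors `Fin r → ℤG`, and
homomorphisms of free modules are given by matrices: `x ↦ x D`.
-/

set_option autoImplicit false

namespace PDC

open Matrix

/-- the group elements which are products of at most `n` elements of `S ∪ S⁻¹` -/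
def ball {G : Type} [Group G] (S : Finset G) (n : ℕ) : Set G :=
  {g : G | ∃ l : List G, l.length ≤ n ∧ (∀ s ∈ l, s ∈ S ∨ s⁻¹ ∈ S) ∧ l.prod = g}

/-- `β_S` is bounded by a polynomial -/
def PolyBd {G : Type} [Group G] (S : Finset G) : Prop :=
  ∃ d : ℕ, ∃ K : ℝ, ∀ n : ℕ, ((ball S n).ncard : ℝ) ≤ K * ((n : ℝ) + 1) ^ d

/-- `β_S` is not exponential: for every `ε > 0` it is eventually below `(1 + ε) ^ n` -/
def SubexpBd {G : Type} [Group G] (S : Finset G) : Prop :=
  ∀ ε : ℝ, 0 < ε → ∃ N : ℕ, ∀ n : ℕ, N ≤ n → ((ball S n).ncard : ℝ) ≤ (1 + ε) ^ n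

/-- `G` is finitely generated and has intermediate growth -/
def IntermediateGrowth (G : Type) [Group G] : Prop :=
  ∃ S : Finset G, Subgroup.closure (S : Set G) = ⊤ ∧ ¬ PolyBd S ∧ SubexpBd S

/-- `G` is finitely generated and does not have exponential growth -/
def SubexpGrowth (G : Type) [Group G] : Prop :=
  ∃ S : Finset G, Subgroup.closure (S : Set G) = ⊤ ∧ SubexpBd S

/-- the sum of the coefficients of an element of the group ring -/
noncomputable def aug {G : Type} [Group G] (a : MonoidAlgebra ℤ G) : ℤ :=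
  a.coeff.sum (fun _ c => c)

/-- the homomorphism from the free module of row vectors to the trivial module `ℤ` which maps the
`j`-th basis vector to `e j` -/
noncomputable def eps {G : Type} [Group G] {r : ℕ} (e : Fin r → ℤ)
    (x : Fin r → MonoidAlgebra ℤ G) : ℤ := ∑ j, aug (x j) * e j

/-- A finite free resolution of length `n` of the trivial module `ℤ` over the group ring `ℤG`
(`G` is of type FL): free modules `C_i` of ranks `r i`, zero for `i > n`, differentials
`C_{i+1} → C_i`, `x ↦ x D_i`, and an augmentation `C_0 → ℤ`, such that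
`0 → C_n → ⋯ → C_1 → C_0 → ℤ → 0` is exact. -/
structure FinRes (G : Type) [Group G] (n : ℕ) where
  r : ℕ → ℕ
  D : ∀ i : ℕ, Matrix (Fin (r (i + 1))) (Fin (r i)) (MonoidAlgebra ℤ G)
  e : Fin (r 0) → ℤ
  surjective : ∀ c : ℤ, ∃ x : Fin (r 0) → MonoidAlgebra ℤ G, eps e x = c
  exact_zero : ∀ x : Fin (r 0) → MonoidAlgebra ℤ G, eps e x = 0 ↔ ∃ y, y ᵥ* D 0 = x
  exact_succ : ∀ (i : ℕ) (x : Fin (r (i + 1)) → MonoidAlgebra ℤ G),
    x ᵥ* D i = 0 ↔ ∃ y, y ᵥ* D (i + 1) = x
  length : ∀ i, n < i → r i = 0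

/-- multiplication of column vectors by `M` is injective -/
def ColInjective {G : Type} [Group G] {a b : ℕ} (M : Matrix (Fin b) (Fin a) (MonoidAlgebra ℤ G)) :
    Prop := ∀ u, M *ᵥ u = 0 → u = 0

/-- the kernel of multiplication of column vectors by `M` is contained in the image of `N` -/
def ColExact {G : Type} [Group G] {a b c : ℕ} (M : Matrix (Fin c) (Fin b) (MonoidAlgebra ℤ G))
    (N : Matrix (Fin b) (Fin a) (MonoidAlgebra ℤ G)) : Prop := ∀ u, M *ᵥ u = 0 → ∃ v, N *ᵥ v = u

/-- the cokernel of multiplication of column vectors by `M` is isomorphic to `ℤ` as an abelian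
group -/
def ColCokernelInt {G : Type} [Group G] {a b : ℕ}
    (M : Matrix (Fin b) (Fin a) (MonoidAlgebra ℤ G)) : Prop :=
  ∃ η : (Fin b → MonoidAlgebra ℤ G) →+ ℤ, Function.Surjective η ∧
    ∀ u, η u = 0 ↔ ∃ v, M *ᵥ v = u

/-- Poincaré duality in dimension `n + 1`. A homomorphism `C_i → ℤG` is a column vector, and the
coboundary `Hom(C_i, ℤG) → Hom(C_{i+1}, ℤG)` is `u ↦ D_i u`. The conditions say that its cohomology
`H^i(G; ℤG)` is zero for `i ≤ n`, and that `H^{n+1}(G; ℤG)` is infinite cyclic. -/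
def FinRes.IsPD {G : Type} [Group G] {n : ℕ} (C : FinRes G (n + 1)) : Prop :=
  ColInjective (C.D 0) ∧ (∀ i, i + 1 ≤ n → ColExact (C.D (i + 1)) (C.D i)) ∧
    ColCokernelInt (C.D n)

/-- `G` is a Poincaré duality group of dimension `n + 1` of type FL -/
def IsPDGroup (G : Type) [Group G] (n : ℕ) : Prop := ∃ C : FinRes G (n + 1), C.IsPD

/-- `M` has a subgroup `M'` of finite index which has infinitely many normal subgroups `N` of
finite index such that `M' ⧸ N` is soluble -/
def ManySoluble {G : Type} [Group G] (M : Subgroup G) : Prop :=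
  ∃ M' : Subgroup G, M' ≤ M ∧ M'.relIndex M ≠ 0 ∧
    {N : Subgroup M' | ∃ _ : N.Normal, N.FiniteIndex ∧ Group.IsSolvable (M' ⧸ N)}.Infinite

end PDC
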