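import Pool.Agent.W_3f3beb_h76.NnA

/-! # The symbol map and kernels of matrices over the group ring -/

set_option autoImplicit false

open scoped Classical

namespace PDG

variable (p : ℕ) [Fact p.Prime] (H : Type) [Group H]

/-- vectors with entries in a subspace -/
noncomputable def SymA_piEquiv {k V ι : Type} [Field k] [AddCommGroup V] [Module k V]
    (W : Submodule k V) :
    (Submodule.pi Set.univ (fun _ : ι => W) : Submodule k (ι → V)) ≃ₗ[k] (ι → W) where
  toFun x i := ⟨x.1 i, x.2 i (Set.mem_univ i)⟩
  map_add' _ _ := rfl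
  map_smul' _ _ := rfl
  invFun f := ⟨fun i => f i, fun i _ => (f i).2⟩
  left_inv _ := rfl
  right_inv _ := rfl

theorem SymA_finrank_pi {k V ι : Type} [Field k] [AddCommGroup V] [Module k V] [Fintype ι]
    (W : Submodule k V) [Module.Finite k W] :
    Module.finrank k (Submodule.pi Set.univ (fun _ : ι => W) : Submodule k (ι → V)) =
      Fintype.card ι * Module.finrank k W := by
  rw [(SymA_piEquiv W).finrank_eq, Module.finrank_pi_fintype]
  simp

/-- coordinates -/
noncomputable def SymA_coord {k B : Type} [Field k] [AddCommGroup B] [Module k B] {d : ℕ}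
    (b : Module.Basis (Fin d) k B) (γ : Type) : (γ → B) ≃ₗ[k] (Fin d → γ → k) where
  toFun v i l := b.equivFun (v l) i
  map_add' v w := by
    funext i l
    simp only [Pi.add_apply, map_add]
  map_smul' c v := by
    funext i l
    simp only [Pi.smul_apply, map_smul, RingHom.id_apply]
  invFun w l := b.equivFun.symm (fun i => w i l)
  left_inv v := by
    funext l
    simp
  right_inv w := by
    funext i l
    change b.equivFun (b.equivFun.symm fun i => w i l) i = w i l
    rw [LinearEquiv.apply_symm_apply]

theorem SymA_range {k : Type} [Field k] {α β : Type} [Fintype β] (E : Matrix α β k)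
    {B : Type} [AddCommGroup B] [Module k B] [Module.Finite k B] :
    Module.finrank k (LinearMap.range (LinearMap.pi (fun l : α => ∑ j : β, E l j • (LinearMap.proj j :
      (β → B) →ₗ[k] B)))) = E.rank * Module.finrank k B := by
  set T : (β → B) →ₗ[k] (α → B) := LinearMap.pi (fun l : α => ∑ j : β, E l j •
    (LinearMap.proj j : (β → B) →ₗ[k] B)) with hT
  set b := Module.finBasis k B with hb
  set S : (Fin (Module.finrank k B) → β → k) →ₗ[k] (Fin (Module.finrank k B) → α → k) :=
    LinearMap.pi (fun i => E.mulVecLin.comp (LinearMap.proj i)) with hS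
  have hcomm : ∀ u, SymA_coord b α (T u) = S (SymA_coord b β u) := by
    intro u
    funext i l
    change b.equivFun (T u l) i = E.mulVec (fun j => b.equivFun (u j) i) l
    have h1 : T u l = ∑ j, E l j • u j := by
      simp [hT]
    rw [h1, map_sum]
    simp only [map_smul, Finset.sum_apply, Pi.smul_apply, smul_eq_mul, Matrix.mulVec, dotProduct]
  have h1 : (LinearMap.range T).map (SymA_coord b α : (α → B) →ₗ[k] _) = LinearMap.range S := by
    ext w
    constructor
    · rintro ⟨v, ⟨u, rfl⟩, rfl⟩
      exact ⟨SymA_coord b β u, (hcomm u).symm⟩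
    · rintro ⟨x, rfl⟩
      refine ⟨T ((SymA_coord b β).symm x), ⟨_, rfl⟩, ?_⟩
      change SymA_coord b α (T ((SymA_coord b β).symm x)) = S x
      rw [hcomm, LinearEquiv.apply_symm_apply]
  have h2 : LinearMap.range S = Submodule.pi Set.univ
      (fun _ : Fin (Module.finrank k B) => LinearMap.range E.mulVecLin) := by
    ext w
    constructor
    · rintro ⟨x, rfl⟩ i _
      exact ⟨x i, rfl⟩
    · intro hw
      choose x hx using fun i => hw i (Set.mem_univ i)
      exact ⟨x, funext hx⟩
  have hfin : Module.Finite k (LinearMap.range E.mulVecLin) := inferInstance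
  rw [← (SymA_coord b α).finrank_map_eq, h1, h2, SymA_finrank_pi, Fintype.card_fin, mul_comm]
  rfl

/-- PROOF. If a matrix `E` over a field `k` has rank `ρ`, then for a finite dimensional space `B` the map `B^β → B^α`, `u ↦ (∑_j E_{lj} u_j)_l` has kernel of dimension
`(|β| - ρ) dim B` and image of dimension `ρ dim B` (choose a basis of `B`: a direct sum of `dim B` copies of `E`). -/
theorem ker_matrix {k : Type} [Field k] {α β : Type} [Fintype α] [Fintype β] (E : Matrix α β k)
    {B : Type} [AddCommGroup B] [Module k B] [Module.Finite k B] :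
    Module.finrank k (LinearMap.ker (LinearMap.pi (fun l : α => ∑ j : β, E l j • (LinearMap.proj j :
      (β → B) →ₗ[k] B)))) + E.rank * Module.finrank k B = Fintype.card β * Module.finrank k B := by
  rw [← SymA_range E, add_comm, LinearMap.finrank_range_add_finrank_ker,
    Module.finrank_pi_fintype]
  simp

theorem range_matrix {k : Type} [Field k] {α β : Type} [Fintype α] [Fintype β] (E : Matrix α β k)
    {B : Type} [AddCommGroup B] [Module k B] [Module.Finite k B] :
    Module.finrank k (LinearMap.range (LinearMap.pi (fun l : α => ∑ j : β, E l j • (LinearMap.proj j :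
      (β → B) →ₗ[k] B)))) = E.rank * Module.finrank k B :=
  SymA_range E

/-- the symbol: the class modulo `N_m` of an element of `N_{m+1}`, in the quotient of the space of all functions -/
noncomputable def sym (m : ℕ) : (H → ZMod p) →ₗ[ZMod p] ((H → ZMod p) ⧸ Nn p H m) :=
  (Nn p H m).mkQ

/-- PROOF. `act_sub_mem` -/
theorem sym_act (m : ℕ) (a : MonoidAlgebra ℤ H) (f : H → ZMod p) (hf : f ∈ Nn p H (m + 1)) :
    sym p H m (act p H a f) = ((aug H a : ℤ) : ZMod p) • sym p H m f := by
  unfold sym
  rw [← map_smul, Submodule.mkQ_apply, Submodule.mkQ_apply, Submodule.Quotient.eq]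
  exact act_sub_mem p H m a f hf

theorem del_mem {α β : Type} [Fintype β] (D : Matrix α β (MonoidAlgebra ℤ H)) (m : ℕ)
    (u : β → H → ZMod p) (hu : u ∈ Xm p H β m) : del p H D u ∈ Xm p H α m := by
  intro l _
  have h1 : del p H D u l = ∑ j, act p H (D l j) (u j) := by
    simp [del]
  rw [h1]
  exact Submodule.sum_mem _ fun j _ => act_mem p H m _ _ (hu j (Set.mem_univ j))

theorem del_mul {α β γ : Type} [Fintype β] [Fintype γ] (D : Matrix α β (MonoidAlgebra ℤ H))
    (D' : Matrix β γ (MonoidAlgebra ℤ H)) (u : γ → H → ZMod p) :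
    del p H (D * D') u = del p H D (del p H D' u) := by
  have h1 : ∀ {α' β' : Type} [Fintype β'] (D : Matrix α' β' (MonoidAlgebra ℤ H))
      (u : β' → H → ZMod p) (l : α'), del p H D u l = ∑ j, act p H (D l j) (u j) := by
    intro α' β' _ D u l
    simp [del]
  funext l
  rw [h1, h1]
  simp only [h1, Matrix.mul_apply, map_sum, map_mul, LinearMap.sum_apply, Module.End.mul_apply]
  rw [Finset.sum_comm]

theorem Xm_finrank (hH : Group.FG H) (β : Type) [Fintype β] (m : ℕ) :
    Module.finrank (ZMod p) (Xm p H β m) = Fintype.card β * an p H m := by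
  have h2 : Module.Finite (ZMod p) (Nn p H m) := Nn_finite p H hH m
  exact SymA_finrank_pi (Nn p H m)

theorem Xm_finite (hH : Group.FG H) (β : Type) [Fintype β] (m : ℕ) :
    Module.Finite (ZMod p) (Xm p H β m) := by
  have h2 : Module.Finite (ZMod p) (Nn p H m) := Nn_finite p H hH m
  exact Module.Finite.equiv (SymA_piEquiv (ι := β) (Nn p H m)).symm

end PDG
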