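import Pool.Agent.W_3f3beb_h76.SymA

/-! # Kernels and images of matrices on `N_m` -/

set_option autoImplicit false

open scoped Classical

namespace PDG

variable (p : ℕ) [Fact p.Prime] (H : Type) [Group H]

theorem SymB_mem_Xm {β : Type} {m : ℕ} {u : β → H → ZMod p} :
    u ∈ Xm p H β m ↔ ∀ j, u j ∈ Nn p H m := by
  unfold Xm
  rw [Submodule.mem_pi]
  exact ⟨fun h j => h j (Set.mem_univ j), fun h j _ => h j⟩

/-- symbols -/
noncomputable def SymB_B (m : ℕ) : Submodule (ZMod p) ((H → ZMod p) ⧸ Nn p H m) :=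
  (Nn p H (m + 1)).map (sym p H m)

theorem SymB_finite (hH : Group.FG H) (m : ℕ) : Module.Finite (ZMod p) (SymB_B p H m) := by
  have := Nn_finite p H hH (m + 1)
  unfold SymB_B
  infer_instance

theorem SymB_dim (hH : Group.FG H) (m : ℕ) :
    Module.finrank (ZMod p) (SymB_B p H m) + an p H m = an p H (m + 1) := by
  have := Nn_finite p H hH (m + 1)
  have h1 := LinearMap.finrank_range_add_finrank_ker ((sym p H m).domRestrict (Nn p H (m + 1)))
  have h2 : LinearMap.range ((sym p H m).domRestrict (Nn p H (m + 1))) = SymB_B p H m := by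
    rw [LinearMap.range_domRestrict]
    rfl
  have h3 : LinearMap.ker ((sym p H m).domRestrict (Nn p H (m + 1))) =
      (Nn p H m).comap (Nn p H (m + 1)).subtype := by
    ext x
    rw [LinearMap.mem_ker, LinearMap.domRestrict_apply, Submodule.mem_comap]
    unfold sym
    rw [← LinearMap.mem_ker, Submodule.ker_mkQ]
    rfl
  have h4 : Module.finrank (ZMod p) (LinearMap.ker ((sym p H m).domRestrict (Nn p H (m + 1)))) =
      an p H m := by
    rw [h3]
    exact LinearEquiv.finrank_eq (Submodule.comapSubtypeEquivOfLe (Nn_mono p H m))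
  rw [h2, h4] at h1
  exact h1

/-- the coordinatewise symbol -/
noncomputable def SymB_map {β : Type} (m : ℕ) (X : Submodule (ZMod p) (β → H → ZMod p))
    (hX : X ≤ Xm p H β (m + 1)) : X →ₗ[ZMod p] (β → SymB_B p H m) where
  toFun u := fun j => ⟨sym p H m (u.1 j),
    Submodule.mem_map_of_mem ((SymB_mem_Xm p H).1 (hX u.2) j)⟩
  map_add' u v := by
    funext j
    apply Subtype.ext
    exact map_add (sym p H m) _ _
  map_smul' c u := by
    funext j
    apply Subtype.ext
    exact map_smul (sym p H m) _ _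

theorem SymB_split (hH : Group.FG H) {β : Type} [Fintype β] (m : ℕ)
    (X Y : Submodule (ZMod p) (β → H → ZMod p)) (hX : X ≤ Xm p H β (m + 1))
    (hYX : Y ≤ Xm p H β m) (hY : ∀ u ∈ X, (∀ j, u j ∈ Nn p H m) → u ∈ Y)
    (R : Submodule (ZMod p) (β → SymB_B p H m)) (hR : ∀ u : X, SymB_map p H m X hX u ∈ R) :
    Module.finrank (ZMod p) X ≤ Module.finrank (ZMod p) Y + Module.finrank (ZMod p) R := by
  have := Xm_finite p H hH β (m + 1)
  have := Xm_finite p H hH β m
  have := SymB_finite p H hH m
  have hXf : FiniteDimensional (ZMod p) X := Submodule.finiteDimensional_of_le hX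
  have hYf : FiniteDimensional (ZMod p) Y := Submodule.finiteDimensional_of_le hYX
  have h1 := LinearMap.finrank_range_add_finrank_ker (SymB_map p H m X hX)
  have h2 : Module.finrank (ZMod p) (LinearMap.range (SymB_map p H m X hX)) ≤
      Module.finrank (ZMod p) R := by
    apply Submodule.finrank_mono
    rintro _ ⟨u, rfl⟩
    exact hR u
  have h3 : Module.finrank (ZMod p) (LinearMap.ker (SymB_map p H m X hX)) ≤
      Module.finrank (ZMod p) Y := by
    have hk : ∀ u : LinearMap.ker (SymB_map p H m X hX), (X.subtype u.1) ∈ Y := by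
      intro u
      refine hY _ u.1.2 ?_
      intro j
      have h4 := u.2
      rw [LinearMap.mem_ker] at h4
      have h5 : sym p H m (u.1.1 j) = 0 := congrArg Subtype.val (congrFun h4 j)
      unfold sym at h5
      rw [← LinearMap.mem_ker, Submodule.ker_mkQ] at h5
      exact h5
    refine LinearMap.finrank_le_finrank_of_injective
      (f := LinearMap.codRestrict Y (X.subtype.comp
        (LinearMap.ker (SymB_map p H m X hX)).subtype) hk) ?_
    intro u v huv
    have h6 := congrArg Subtype.val huv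
    exact Subtype.ext (Subtype.ext h6)
  omega

/-- the matrix acting on symbols -/
noncomputable def SymB_T {α β : Type} [Fintype β] (D : Matrix α β (MonoidAlgebra ℤ H)) (m : ℕ) :
    (β → SymB_B p H m) →ₗ[ZMod p] (α → SymB_B p H m) :=
  LinearMap.pi (fun l : α => ∑ j : β, Emod p D l j • (LinearMap.proj j :
      (β → SymB_B p H m) →ₗ[ZMod p] SymB_B p H m))

theorem SymB_T_val {α β : Type} [Fintype β] (D : Matrix α β (MonoidAlgebra ℤ H)) (m : ℕ)
    (s : β → SymB_B p H m) (l : α) :
    ((SymB_T p H D m s l : SymB_B p H m) : (H → ZMod p) ⧸ Nn p H m) =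
      ∑ j, Emod p D l j • ((s j : SymB_B p H m) : (H → ZMod p) ⧸ Nn p H m) := by
  unfold SymB_T
  rw [LinearMap.pi_apply, LinearMap.sum_apply, Submodule.coe_sum]
  rfl

theorem SymB_del {α β : Type} [Fintype β] (D : Matrix α β (MonoidAlgebra ℤ H)) (m : ℕ)
    (u : β → H → ZMod p) (hu : ∀ j, u j ∈ Nn p H (m + 1)) (l : α) :
    sym p H m (del p H D u l) = ∑ j, Emod p D l j • sym p H m (u j) := by
  unfold del
  rw [LinearMap.pi_apply, LinearMap.sum_apply, map_sum]
  refine Finset.sum_congr rfl fun j _ => ?_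
  exact sym_act p H m (D l j) (u j) (hu j)

/-- PROOF. Induction on `m`. Let `B` be the image of `N_{m+1}` under `sym m` (dimension `an (m+1) - an m`), `E = Emod p D`. On `ker (del D) ⊓ Xm (m+1)` the coordinatewise symbol has
values in `{s ∈ B^β | E s = 0}` (`sym_act`), of dimension `(|β| - rank E) dim B` (`ker_matrix`), and kernel `ker (del D) ⊓ Xm m`. -/
theorem ker_le (hH : Group.FG H) {α β : Type} [Fintype α] [Fintype β]
    (D : Matrix α β (MonoidAlgebra ℤ H)) (m : ℕ) :
    Module.finrank (ZMod p) (LinearMap.ker (del p H D) ⊓ Xm p H β m :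
      Submodule (ZMod p) (β → H → ZMod p)) + (Emod p D).rank * an p H m ≤
      Fintype.card β * an p H m := by
  induction m with
  | zero =>
    have h0 : (LinearMap.ker (del p H D) ⊓ Xm p H β 0 :
        Submodule (ZMod p) (β → H → ZMod p)) = ⊥ := by
      rw [eq_bot_iff]
      rintro u ⟨_, hu⟩
      have hu' := (SymB_mem_Xm p H).1 (show u ∈ Xm p H β 0 from hu)
      rw [Submodule.mem_bot]
      funext j
      have h1 : u j ∈ (⊥ : Submodule (ZMod p) (H → ZMod p)) := hu' j
      rw [Submodule.mem_bot] at h1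
      exact h1
    rw [h0, finrank_bot, an_zero]
    simp
  | succ m ih =>
    have := SymB_finite p H hH m
    have h1 := SymB_split p H hH m (LinearMap.ker (del p H D) ⊓ Xm p H β (m + 1))
      (LinearMap.ker (del p H D) ⊓ Xm p H β m) inf_le_right inf_le_right
      (by
        rintro u ⟨hu, _⟩ h
        exact ⟨hu, (SymB_mem_Xm p H).2 h⟩)
      (LinearMap.ker (SymB_T p H D m))
      (by
        rintro ⟨u, hu⟩
        rw [LinearMap.mem_ker]
        funext l
        apply Subtype.ext
        rw [SymB_T_val]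
        have h2 := SymB_del p H D m u ((SymB_mem_Xm p H).1 hu.2) l
        have h3 : del p H D u = 0 := hu.1
        rw [h3, Pi.zero_apply, map_zero] at h2
        exact h2.symm)
    have h4 := ker_matrix (Emod p D) (B := SymB_B p H m)
    have h5 := SymB_dim p H hH m
    have h6 : Module.finrank (ZMod p) (LinearMap.ker (SymB_T p H D m)) +
        (Emod p D).rank * Module.finrank (ZMod p) (SymB_B p H m) =
        Fintype.card β * Module.finrank (ZMod p) (SymB_B p H m) := h4
    rw [← h5]
    nlinarith

/-- PROOF. `E₁ = Emod p D₁`, `E₂ = Emod p D₂`, `B` as in `ker_le`. The coordinatewise symbol maps the image `I = del D₁ (Xm (m+1))` into `{E₁ s | s ∈ B^β}`, of dimension `rank E₁ * dim B` (`range_matrix`);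
its kernel on `I` is contained in `Xm m` and, since `D₂ D₁ = 0` (`del_mul`), in `ker (del D₂)`: dimension at most `(|α| - rank E₂) an m` by `ker_le`. -/
theorem im_le (hH : Group.FG H) {α β γ : Type} [Fintype α] [Fintype β] [Fintype γ]
    (D₁ : Matrix α β (MonoidAlgebra ℤ H)) (D₂ : Matrix γ α (MonoidAlgebra ℤ H))
    (h21 : D₂ * D₁ = 0) (m : ℕ) :
    Module.finrank (ZMod p) ((Xm p H β (m + 1)).map (del p H D₁)) + (Emod p D₂).rank * an p H m ≤
      (Emod p D₁).rank * (an p H (m + 1) - an p H m) + Fintype.card α * an p H m := by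
  have := SymB_finite p H hH m
  have hX : (Xm p H β (m + 1)).map (del p H D₁) ≤ Xm p H α (m + 1) := by
    rintro _ ⟨u, hu, rfl⟩
    exact del_mem p H D₁ (m + 1) u hu
  have h1 := SymB_split p H hH m ((Xm p H β (m + 1)).map (del p H D₁))
    (LinearMap.ker (del p H D₂) ⊓ Xm p H α m) hX inf_le_right
    (by
      rintro _ ⟨u, _, rfl⟩ h
      refine ⟨?_, (SymB_mem_Xm p H).2 h⟩
      show del p H D₂ (del p H D₁ u) = 0
      rw [← del_mul, h21]
      funext l
      unfold del
      rw [LinearMap.pi_apply, LinearMap.sum_apply]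
      refine Finset.sum_eq_zero fun j _ => ?_
      rw [Matrix.zero_apply, map_zero]
      rfl)
    (LinearMap.range (SymB_T p H D₁ m))
    (by
      rintro ⟨_, ⟨u, hu, rfl⟩⟩
      have hu' := (SymB_mem_Xm p H).1 hu
      refine ⟨fun j => ⟨sym p H m (u j), Submodule.mem_map_of_mem (hu' j)⟩, ?_⟩
      funext l
      apply Subtype.ext
      rw [SymB_T_val]
      exact (SymB_del p H D₁ m u hu' l).symm)
  have h2 := ker_le p H hH D₂ m
  have h3 : Module.finrank (ZMod p) (LinearMap.range (SymB_T p H D₁ m)) =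
      (Emod p D₁).rank * Module.finrank (ZMod p) (SymB_B p H m) :=
    range_matrix (Emod p D₁) (B := SymB_B p H m)
  have h5 := SymB_dim p H hH m
  have h6 : an p H (m + 1) - an p H m = Module.finrank (ZMod p) (SymB_B p H m) := by omega
  rw [h6]
  rw [h3] at h1
  omega

theorem SymB_act_const (a : MonoidAlgebra ℤ H) (c : ZMod p) :
    act p H a (fun _ => c) = ((aug H a : ℤ) : ZMod p) • (fun _ : H => c) := by
  have h1 := act_sub_mem p H 0 a (fun _ => c) ((mem_Nn_one p H _).2 ⟨c, rfl⟩)
  have h2 : act p H a (fun _ => c) - ((aug H a : ℤ) : ZMod p) • (fun _ : H => c) ∈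
      (⊥ : Submodule (ZMod p) (H → ZMod p)) := h1
  rw [Submodule.mem_bot, sub_eq_zero] at h2
  exact h2

/-- constant vectors -/
def SymB_cst (β : Type) : (β → ZMod p) →ₗ[ZMod p] (β → H → ZMod p) where
  toFun v := fun j _ => v j
  map_add' _ _ := rfl
  map_smul' _ _ := rfl

theorem SymB_cst_inj (β : Type) : Function.Injective (SymB_cst p H β) := by
  intro v w h
  funext j
  exact congrFun (congrFun h j) 1

/-- PROOF. On vectors of constants `del D` is the matrix `Emod p D`. -/
theorem del_const {α β : Type} [Fintype α] [Fintype β] (D : Matrix α β (MonoidAlgebra ℤ H)) :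
    Module.finrank (ZMod p) ((Xm p H β 1).map (del p H D)) = (Emod p D).rank := by
  have hd : ∀ v : β → ZMod p, del p H D (SymB_cst p H β v) =
      SymB_cst p H α ((Emod p D).mulVec v) := by
    intro v
    funext l
    unfold del
    rw [LinearMap.pi_apply, LinearMap.sum_apply]
    funext x
    rw [Finset.sum_apply]
    show _ = ((Emod p D).mulVec v) l
    rw [Matrix.mulVec, dotProduct]
    refine Finset.sum_congr rfl fun j _ => ?_
    have h1 := SymB_act_const p H (D l j) (v j)
    have h2 := congrFun h1 x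
    exact h2
  have hX : Xm p H β 1 = LinearMap.range (SymB_cst p H β) := by
    ext u
    rw [SymB_mem_Xm]
    constructor
    · intro h
      choose c hc using fun j => (mem_Nn_one p H (u j)).1 (h j)
      exact ⟨c, by funext j; exact (hc j).symm⟩
    · rintro ⟨v, rfl⟩ j
      exact (mem_Nn_one p H _).2 ⟨v j, rfl⟩
  have hM : (Xm p H β 1).map (del p H D) =
      (LinearMap.range (Emod p D).mulVecLin).map (SymB_cst p H α) := by
    rw [hX]
    ext w
    constructor
    · rintro ⟨_, ⟨v, rfl⟩, rfl⟩
      exact ⟨(Emod p D).mulVec v, ⟨v, rfl⟩, (hd v).symm⟩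
    · rintro ⟨_, ⟨v, rfl⟩, rfl⟩
      exact ⟨SymB_cst p H β v, ⟨v, rfl⟩, hd v⟩
  rw [hM]
  exact (LinearEquiv.finrank_eq (Submodule.equivMapOfInjective (SymB_cst p H α)
    (SymB_cst_inj p H α) (LinearMap.range (Emod p D).mulVecLin))).symm

end PDG
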