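import Pool.Agent.W_3f3beb_h76.DpA
import Pool.Agent.W_3f3beb_h76.SgA
import Pool.Agent.W_3f3beb_h76.PnA

/-! # The conjugation action on `U/U^p[U,U]` -/

set_option autoImplicit false

open scoped Classical commutatorElement

namespace PDG

variable {L : Type} [Group L]

/-- `y` acts trivially on `U/U^p[U,U]` -/
def Trv (p : ℕ) (U : Subgroup L) (y : L) : Prop := ∀ x ∈ U, ⁅x, y⁆ ∈ pw p U ⊔ ⁅U, U⁆

/-- The functionals separate the points of an elementary abelian group. -/
theorem TrvA_sep (p : ℕ) [Fact p.Prime] {Q : Type} [CommGroup Q] (hexp : ∀ x : Q, x ^ p = 1)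
    (v : Q) (h : ∀ φ : Additive Q →+ ZMod p, φ (Additive.ofMul v) = 0) : v = 1 := by
  let inst : Module (ZMod p) (Additive Q) :=
    AddCommGroup.zmodModule (n := p) fun x => hexp x.toMul
  by_contra hv
  have hv' : (Additive.ofMul v : Additive Q) ≠ 0 := hv
  obtain ⟨f, hf⟩ := Module.Projective.exists_dual_ne_zero (ZMod p) hv'
  exact hf (h f.toAddMonoidHom)

/-- The functionals separate the points of `U/U^p[U,U]`. -/
theorem TrvA_mem_iff (p : ℕ) [Fact p.Prime] (U : Subgroup L) (hU : U.Normal) (u : U) :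
    (u : L) ∈ pw p U ⊔ ⁅U, U⁆ ↔ ∀ θ : Additive U →+ ZMod p, θ (Additive.ofMul u) = 0 := by
  constructor
  · intro hu θ
    set K : Subgroup L := (AddMonoidHom.toMultiplicativeRight θ :
      U →* Multiplicative (ZMod p)).ker.map U.subtype with hK
    have h1 : pw p U ≤ K := by
      unfold pw
      rw [Subgroup.closure_le]
      rintro y ⟨x, hx, rfl⟩
      refine ⟨⟨x, hx⟩ ^ p, ?_, rfl⟩
      show (AddMonoidHom.toMultiplicativeRight θ : U →* Multiplicative (ZMod p)) (⟨x, hx⟩ ^ p) = 1
      rw [map_pow]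
      refine Multiplicative.toAdd.injective ?_
      rw [toAdd_pow, toAdd_one]
      exact ZModModule.char_nsmul_eq_zero p _
    have h2 : ⁅U, U⁆ ≤ K := by
      rw [Subgroup.commutator_le]
      intro a ha b hb
      refine ⟨⁅(⟨a, ha⟩ : U), (⟨b, hb⟩ : U)⁆, ?_, rfl⟩
      show (AddMonoidHom.toMultiplicativeRight θ : U →* Multiplicative (ZMod p)) _ = 1
      rw [map_commutatorElement]
      exact commutatorElement_eq_one_iff_commute.2 (Commute.all _ _)
    obtain ⟨v, hv, hvu⟩ := (sup_le h1 h2) hu
    have h3 : v = u := Subtype.ext hvu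
    rw [← h3]
    exact hv
  · intro h
    have hU' : U.Normal := hU
    have hn1 : (pw p U).Normal := pw_normal p U hU
    have hn2 : (pw p U ⊔ ⁅U, U⁆).Normal := inferInstance
    set W : Subgroup U := (pw p U ⊔ ⁅U, U⁆).subgroupOf U with hW
    have hWn : W.Normal := inferInstance
    let _ : CommGroup (U ⧸ W) := { (inferInstance : Group (U ⧸ W)) with
      mul_comm := by
        intro a b
        obtain ⟨x, rfl⟩ := QuotientGroup.mk'_surjective W a
        obtain ⟨y, rfl⟩ := QuotientGroup.mk'_surjective W b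
        have h1 : ⁅x, y⁆ ∈ W := by
          rw [hW, Subgroup.mem_subgroupOf]
          exact (le_sup_right : ⁅U, U⁆ ≤ pw p U ⊔ ⁅U, U⁆)
            (Subgroup.commutator_mem_commutator x.2 y.2)
        rw [← commutatorElement_eq_one_iff_mul_comm, ← map_commutatorElement,
          QuotientGroup.mk'_apply, QuotientGroup.eq_one_iff]
        exact h1 }
    have hexp : ∀ x : U ⧸ W, x ^ p = 1 := by
      intro x
      obtain ⟨y, hy⟩ := QuotientGroup.mk'_surjective W x
      have h1 : y ^ p ∈ W := by
        rw [hW, Subgroup.mem_subgroupOf]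
        exact (le_sup_left : pw p U ≤ pw p U ⊔ ⁅U, U⁆)
          (Subgroup.subset_closure ⟨y, y.2, rfl⟩)
      rw [← hy, ← map_pow, QuotientGroup.mk'_apply, QuotientGroup.eq_one_iff]
      exact h1
    have h2 : QuotientGroup.mk' W u = 1 := by
      refine TrvA_sep p hexp _ fun φ => ?_
      exact h (φ.comp (MonoidHom.toAdditive (QuotientGroup.mk' W)))
    rw [QuotientGroup.mk'_apply, QuotientGroup.eq_one_iff, hW, Subgroup.mem_subgroupOf] at h2
    exact h2

/-- The action of `L` on `Hom(U, F_p)`. -/
noncomputable def TrvA_end (p : ℕ) [Fact p.Prime] (U : Subgroup L) [U.Normal] :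
    L →* Module.End (ZMod p) (Additive U →+ ZMod p) where
  toFun y := DpA_comp p ((MulAut.conjNormal (H := U) y⁻¹ : MulAut U) : U →* U)
  map_one' := by
    refine LinearMap.ext fun θ => AddMonoidHom.ext fun x => ?_
    show θ (Additive.ofMul ((MulAut.conjNormal (1 : L)⁻¹ : MulAut U) x.toMul)) = θ x
    rw [inv_one, map_one]
    rfl
  map_mul' y z := by
    refine LinearMap.ext fun θ => AddMonoidHom.ext fun x => ?_
    show θ (Additive.ofMul ((MulAut.conjNormal (y * z)⁻¹ : MulAut U) x.toMul)) =
      θ (Additive.ofMul ((MulAut.conjNormal z⁻¹ : MulAut U)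
        ((MulAut.conjNormal y⁻¹ : MulAut U) x.toMul)))
    rw [mul_inv_rev, map_mul]
    rfl

theorem TrvA_end_iff (p : ℕ) [Fact p.Prime] (U : Subgroup L) [hU : U.Normal] (y : L) :
    TrvA_end p U y = 1 ↔ Trv p U y := by
  have key : ∀ (θ : Additive U →+ ZMod p) (x : U),
      θ (Additive.ofMul (⟨⁅(x : L), y⁆, by
        rw [commutatorElement_def]
        have h1 : (x : L) * y * (x : L)⁻¹ * y⁻¹ = x * (y * (x : L)⁻¹ * y⁻¹) := by group
        rw [h1]
        exact mul_mem x.2 (hU.conj_mem _ (inv_mem x.2) y)⟩ : U)) =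
      θ (Additive.ofMul x) -
        θ (Additive.ofMul ((MulAut.conjNormal y : MulAut U) x)) := by
    intro θ x
    have h1 : (⟨⁅(x : L), y⁆, by
        rw [commutatorElement_def]
        have h1 : (x : L) * y * (x : L)⁻¹ * y⁻¹ = x * (y * (x : L)⁻¹ * y⁻¹) := by group
        rw [h1]
        exact mul_mem x.2 (hU.conj_mem _ (inv_mem x.2) y)⟩ : U) =
        x * ((MulAut.conjNormal y : MulAut U) x)⁻¹ := by
      ext
      simp only [commutatorElement_def, Subgroup.coe_mul, Subgroup.coe_inv,
        MulAut.conjNormal_apply]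
      group
    rw [h1, ofMul_mul, ofMul_inv, map_add, map_neg, sub_eq_add_neg]
  constructor
  · intro h x hx
    have hm := (TrvA_mem_iff p U hU (⟨⁅x, y⁆, by
        rw [commutatorElement_def]
        have h1 : x * y * x⁻¹ * y⁻¹ = x * (y * x⁻¹ * y⁻¹) := by group
        rw [h1]
        exact mul_mem hx (hU.conj_mem _ (inv_mem hx) y)⟩ : U)).2
    refine hm fun θ => ?_
    have h2 := key θ ⟨x, hx⟩
    refine h2.trans ?_
    have h3 := DFunLike.congr_fun (DFunLike.congr_fun h θ)
      (Additive.ofMul ((MulAut.conjNormal y : MulAut U) ⟨x, hx⟩))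
    have h4 : θ (Additive.ofMul ((MulAut.conjNormal y⁻¹ : MulAut U)
      ((MulAut.conjNormal y : MulAut U) ⟨x, hx⟩))) =
      θ (Additive.ofMul ((MulAut.conjNormal y : MulAut U) ⟨x, hx⟩)) := h3
    have h5 : (MulAut.conjNormal y⁻¹ : MulAut U) ((MulAut.conjNormal y : MulAut U) ⟨x, hx⟩) =
        (⟨x, hx⟩ : U) := by
      rw [map_inv]
      exact MulAut.inv_apply_self U _ _
    rw [h5] at h4
    rw [h4, sub_self]
  · intro h
    refine LinearMap.ext fun θ => AddMonoidHom.ext fun x => ?_
    show θ (Additive.ofMul ((MulAut.conjNormal y⁻¹ : MulAut U) x.toMul)) = θ x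
    set x' : U := (MulAut.conjNormal y⁻¹ : MulAut U) x.toMul with hx'
    have h5 : (MulAut.conjNormal y : MulAut U) x' = x.toMul := by
      rw [hx', map_inv]
      exact MulAut.apply_inv_self U _ _
    have h6 := (TrvA_mem_iff p U hU (⟨⁅(x' : L), y⁆, by
        rw [commutatorElement_def]
        have h1 : (x' : L) * y * (x' : L)⁻¹ * y⁻¹ = x' * (y * (x' : L)⁻¹ * y⁻¹) := by group
        rw [h1]
        exact mul_mem x'.2 (hU.conj_mem _ (inv_mem x'.2) y)⟩ : U)).1 (h x' x'.2) θ
    have h7 := (key θ x').symm.trans h6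
    rw [h5, sub_eq_zero] at h7
    exact h7

/-- PROOF. `V = Hom(U, F_p)`, a vector space of dimension `d = dp p U ≤ D` (`hom_finite`). `L` acts on `V`: `(y θ)(x) = θ (y⁻¹ x y)`, linear: with a basis `ρ₀ : L →* GL (Fin d) (ZMod p)`; pad by the identity matrix of size `D - d` (`Fin d ⊕ Fin (D - d) ≃ Fin D`). `ρ y = 1` iff `θ (y⁻¹ x y) = θ x` for all `θ ∈ V`, `x ∈ U`, iff
`y⁻¹ x y x⁻¹` is in the common kernel of all `θ`, which is `pw p U ⊔ ⁅U, U⁆` (the quotient `U/(U^p[U,U])` is an `F_p`-vector space, its functionals separate points); for all `x ∈ U` this is equivalent to `Trv p U y` (for `y` and for `y⁻¹` it is the same condition: the quotient action is by a group). -/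
theorem exists_hom_rep (p : ℕ) [Fact p.Prime] (U : Subgroup L) (hU : U.Normal)
    (hfg : Group.FG U) (D : ℕ) (hD : dp p U ≤ D) :
    ∃ ρ : L →* GL (Fin D) (ZMod p), ∀ y : L, ρ y = 1 ↔ Trv p U y := by
  have hU' : U.Normal := hU
  have hfin := hom_finite p hfg
  have hdim : Module.finrank (ZMod p)
      ((Additive U →+ ZMod p) × (Fin (D - dp p U) → ZMod p)) = D := by
    rw [Module.finrank_prod, Module.finrank_fin_fun]
    have h1 : Module.finrank (ZMod p) (Additive U →+ ZMod p) = dp p U := rfl
    rw [h1]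
    omega
  set b := Module.finBasisOfFinrankEq (ZMod p)
    ((Additive U →+ ZMod p) × (Fin (D - dp p U) → ZMod p)) hdim with hb
  let E : L →* Module.End (ZMod p) ((Additive U →+ ZMod p) × (Fin (D - dp p U) → ZMod p)) :=
    { toFun := fun y => LinearMap.prodMap (TrvA_end p U y) LinearMap.id
      map_one' := by
        rw [map_one]
        exact LinearMap.prodMap_one
      map_mul' := fun y z => by
        rw [map_mul, LinearMap.prodMap_mul]
        rfl }
  refine ⟨(Units.map (LinearMap.toMatrixAlgEquiv b).toMonoidHom).comp E.toHomUnits, fun y => ?_⟩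
  rw [← TrvA_end_iff p U y]
  constructor
  · intro h
    have h1 : LinearMap.toMatrixAlgEquiv b (E y) = 1 := congrArg Units.val h
    have h2 : E y = 1 := by
      apply (LinearMap.toMatrixAlgEquiv b).injective
      rw [h1, map_one]
    refine LinearMap.ext fun θ => ?_
    have h3 := congrArg (fun T : Module.End (ZMod p)
      ((Additive U →+ ZMod p) × (Fin (D - dp p U) → ZMod p)) => (T (θ, 0)).1) h2
    exact h3
  · intro h
    apply Units.ext
    show LinearMap.toMatrixAlgEquiv b (E y) = 1
    have h2 : E y = 1 := by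
      show LinearMap.prodMap (TrvA_end p U y) LinearMap.id = 1
      rw [h]
      exact LinearMap.prodMap_one
    rw [h2, map_one]

/-- PROOF. `L` acts on the finite set `Hom(U, F_p)` of cardinality `p^(dp p U) ≤ p^D` (`card_hom`); the kernel of `L → Perm` has index `≤ (p^D)!` and consists of elements with `Trv` (as in `exists_hom_rep`); or apply `cap_le_ker` to that homomorphism. -/
theorem trv_cap (p : ℕ) [Fact p.Prime] (U : Subgroup L) (hU : U.Normal)
    (hfg : Group.FG U) (D : ℕ) (hD : dp p U ≤ D) :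
    ∀ y ∈ cap L (Nat.factorial (p ^ D)), Trv p U y := by
  intro y hy
  have hU' : U.Normal := hU
  have hfin := hom_finite p hfg
  have hfinV : Finite (Additive U →+ ZMod p) := Module.finite_of_finite (ZMod p)
  have hfinE : Finite (Module.End (ZMod p) (Additive U →+ ZMod p)) :=
    Finite.of_injective (fun f : Module.End (ZMod p) (Additive U →+ ZMod p) => (f : _ → _))
      DFunLike.coe_injective
  have hcard : Nat.card (Module.End (ZMod p) (Additive U →+ ZMod p))ˣ ≤
      Nat.factorial (p ^ D) := by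
    have h1 : Nat.card (Module.End (ZMod p) (Additive U →+ ZMod p))ˣ ≤
        Nat.card (Equiv.Perm (Additive U →+ ZMod p)) := by
      refine Nat.card_le_card_of_injective (fun u =>
        (LinearMap.GeneralLinearGroup.generalLinearEquiv (ZMod p)
          (Additive U →+ ZMod p) u).toEquiv) ?_
      intro u v huv
      apply (LinearMap.GeneralLinearGroup.generalLinearEquiv (ZMod p)
          (Additive U →+ ZMod p)).injective
      exact LinearEquiv.toEquiv_injective huv
    rw [Nat.card_perm, card_hom p hfg] at h1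
    exact h1.trans (Nat.factorial_le (Nat.pow_le_pow_right (Fact.out : p.Prime).pos hD))
  have h2 := cap_le_ker (TrvA_end p U).toHomUnits _ hcard hy
  rw [← TrvA_end_iff p U y]
  exact congrArg Units.val h2

/-- elements acting trivially form a subgroup; products -/
theorem Trv.of_closure (p : ℕ) [Fact p.Prime] (U : Subgroup L) (hU : U.Normal) (F : Set L)
    (h : ∀ y ∈ F, Trv p U y) : ∀ y ∈ Subgroup.closure F, Trv p U y := by
  have hU' : U.Normal := hU
  have h1 : Subgroup.closure F ≤ (TrvA_end p U).toHomUnits.ker := by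
    rw [Subgroup.closure_le]
    intro y hy
    have h2 := (TrvA_end_iff p U y).2 (h y hy)
    exact Units.ext h2
  intro y hy
  rw [← TrvA_end_iff p U y]
  exact congrArg Units.val (h1 hy)

end PDG
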