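import Pool.Agent.W_3f3beb_h76.EigA

/-! # Automorphisms of finitely generated abelian groups with eigenvalues of modulus at most one -/

set_option autoImplicit false

open scoped Classical

namespace PDG

/-- The roots of the characteristic polynomial are roots of unity of a common order. -/
theorem UniA_roots (m : ℕ) (M : Matrix (Fin m) (Fin m) ℤ) (hM : IsUnit M.det)
    (h : ∀ μ : ℂ, ((M.map (fun x : ℤ => (x : ℂ))).charpoly).IsRoot μ → ‖μ‖ ≤ 1) :
    ∃ N : ℕ, 1 ≤ N ∧ ∀ μ : ℂ, ((M.map (fun x : ℤ => (x : ℂ))).charpoly).IsRoot μ → μ ^ N = 1 := by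
  have hmap : (M.map (fun x : ℤ => (x : ℂ))).charpoly =
      M.charpoly.map (Int.castRingHom ℂ) := by
    rw [← Matrix.charpoly_map]
    rfl
  have hmon : (M.map (fun x : ℤ => (x : ℂ))).charpoly.Monic := Matrix.charpoly_monic _
  have hmah : (M.charpoly.map (Int.castRingHom ℂ)).mahlerMeasure = 1 := by
    rw [← hmap, Polynomial.mahlerMeasure_eq_leadingCoeff_mul_prod_roots, hmon.leadingCoeff,
      norm_one, one_mul]
    refine Multiset.prod_eq_one fun x hx => ?_
    obtain ⟨a, ha, rfl⟩ := Multiset.mem_map.1 hx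
    exact max_eq_left (h a (Polynomial.isRoot_of_mem_roots ha))
  have hord : ∀ μ : ℂ, ((M.map (fun x : ℤ => (x : ℂ))).charpoly).IsRoot μ →
      ∃ n, 0 < n ∧ μ ^ n = 1 := by
    intro μ hμ
    have hne : μ ≠ 0 := by
      rintro rfl
      have h1 : (M.map (fun x : ℤ => (x : ℂ))).charpoly.eval 0 = 0 := hμ
      rw [Matrix.eval_charpoly] at h1
      simp only [map_zero, zero_sub] at h1
      rw [Matrix.det_neg] at h1
      rcases mul_eq_zero.1 h1 with h2 | h2
      · exact absurd h2 (pow_ne_zero _ (by norm_num))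
      · have h3 : ((M.det : ℤ) : ℂ) = 0 := by
          rw [← h2]
          exact RingHom.map_det (Int.castRingHom ℂ) M
        exact hM.ne_zero (by exact_mod_cast h3)
    refine Polynomial.pow_eq_one_of_mahlerMeasure_eq_one hmah hne ?_
    rw [Polynomial.mem_aroots]
    refine ⟨(Matrix.charpoly_monic M).ne_zero, ?_⟩
    rw [hmap] at hμ
    rw [Polynomial.aeval_def, ← Polynomial.eval_map]
    exact hμ
  choose! n hn using hord
  refine ⟨∏ μ ∈ (M.map (fun x : ℤ => (x : ℂ))).charpoly.roots.toFinset, n μ, ?_, ?_⟩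
  · refine Nat.one_le_iff_ne_zero.2 (Finset.prod_ne_zero_iff.2 fun μ hμ => ?_)
    exact (hn μ (Polynomial.isRoot_of_mem_roots (Multiset.mem_toFinset.1 hμ))).1.ne'
  · intro μ hμ
    have hmem : μ ∈ (M.map (fun x : ℤ => (x : ℂ))).charpoly.roots.toFinset :=
      Multiset.mem_toFinset.2 ((Polynomial.mem_roots hmon.ne_zero).2 hμ)
    obtain ⟨k, hk⟩ := Finset.dvd_prod_of_mem n hmem
    rw [hk, pow_mul, (hn μ hμ).2, one_pow]

/-- PROOF. The characteristic polynomial of `M` is monic with integer coefficients; its complex roots have modulus `≤ 1` and product `± 1`, so modulus 1; each root is an algebraic integer all of whose conjugates are roots as well: roots of unity by Kronecker's theorem (`NumberField.Embeddings.pow_eq_one_of_norm_eq_one`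
or a direct argument). Let `N ≥ 1` be a common order: all eigenvalues of `M ^ N` are 1, so `(M ^ N - 1) ^ m = 0` (Cayley-Hamilton over `ℂ`). -/
theorem unipotent_power (m : ℕ) (M : Matrix (Fin m) (Fin m) ℤ) (hM : IsUnit M.det)
    (h : ∀ μ : ℂ, ((M.map (fun x : ℤ => (x : ℂ))).charpoly).IsRoot μ → ‖μ‖ ≤ 1) :
    ∃ N : ℕ, 1 ≤ N ∧ (M ^ N - 1) ^ m = 0 := by
  obtain ⟨N, hN, hroot⟩ := UniA_roots m M hM h
  refine ⟨N, hN, ?_⟩
  set Mc : Matrix (Fin m) (Fin m) ℂ := M.map (fun x : ℤ => (x : ℂ)) with hMc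
  have hmon : Mc.charpoly.Monic := Matrix.charpoly_monic _
  have hsplit := IsAlgClosed.splits Mc.charpoly
  have hprod := hsplit.eq_prod_roots_of_monic hmon
  have hcard : Multiset.card Mc.charpoly.roots = m := by
    rw [← hsplit.natDegree_eq_card_roots, Matrix.charpoly_natDegree_eq_dim, Fintype.card_fin]
  have hdvd : Mc.charpoly ∣ (Polynomial.X ^ N - 1 : Polynomial ℂ) ^ m := by
    have h1 : (Mc.charpoly.roots.map fun a => Polynomial.X - Polynomial.C a).prod ∣
        (Mc.charpoly.roots.map fun _ => (Polynomial.X ^ N - 1 : Polynomial ℂ)).prod := by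
      refine Multiset.prod_dvd_prod_of_dvd _ _ fun a ha => ?_
      rw [Polynomial.dvd_iff_isRoot]
      have := hroot a (Polynomial.isRoot_of_mem_roots ha)
      simp [Polynomial.IsRoot, this]
    rw [← hprod, Multiset.map_const', Multiset.prod_replicate, hcard] at h1
    exact h1
  have hzero : (Mc ^ N - 1) ^ m = 0 := by
    obtain ⟨q, hq⟩ := hdvd
    have h2 := congrArg (Polynomial.aeval Mc) hq
    rw [map_mul, Matrix.aeval_self_charpoly, zero_mul] at h2
    simpa using h2
  have hinj : Function.Injective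
      (fun A : Matrix (Fin m) (Fin m) ℤ => (Int.castRingHom ℂ).mapMatrix A) := by
    intro A B hAB
    ext i j
    have h3 := congrFun (congrFun hAB i) j
    simpa using h3
  apply hinj
  simp only [map_pow, map_sub, map_one, map_zero]
  exact hzero

/-- `σ` as an element of the endomorphism ring -/
def endo {A : Type} [AddCommGroup A] (σ : A ≃+ A) : AddMonoid.End A := σ.toAddMonoidHom

theorem UniA_mul {A : Type} [AddCommGroup A] (f g : AddMonoid.End A) (x : A) :
    (f * g) x = f (g x) := rfl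

/-- the matrix part: `(σ ^ N - 1) ^ m = 0` on a free module of finite rank -/
theorem UniA_free {Q : Type} [AddCommGroup Q] [Module.Finite ℤ Q] [Module.Free ℤ Q]
    (τ : Q ≃ₗ[ℤ] Q)
    (h : ∀ (l : Q →ₗ[ℤ] ℂ) (μ : ℂ), l ≠ 0 → (∀ x, l (τ x) = μ * l x) → ‖μ‖ ≤ 1) :
    ∃ N c : ℕ, 1 ≤ N ∧ ((τ : Q →ₗ[ℤ] Q) ^ N - 1) ^ c = 0 := by
  let b := Module.finBasis ℤ Q
  set M : Matrix _ _ ℤ := LinearMap.toMatrixAlgEquiv b (τ : Q →ₗ[ℤ] Q) with hM
  have hdet : IsUnit M.det := LinearEquiv.isUnit_det τ b b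
  have hroot : ∀ μ : ℂ, ((M.map (fun x : ℤ => (x : ℂ))).charpoly).IsRoot μ → ‖μ‖ ≤ 1 := by
    intro μ hμ
    have h1 : (M.map (fun x : ℤ => (x : ℂ))).charpoly.eval μ = 0 := hμ
    rw [Matrix.eval_charpoly] at h1
    obtain ⟨v, hv0, hv⟩ := Matrix.exists_vecMul_eq_zero_iff.2 h1
    have hv1 : ∀ j, ∑ i, v i * (M i j : ℂ) = μ * v j := by
      intro j
      have h2 := congrFun hv j
      rw [Matrix.vecMul_sub, Pi.sub_apply] at h2
      have h3 : (Matrix.vecMul v (Matrix.scalar _ μ)) j = μ * v j := by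
        simp [Matrix.scalar_apply, Matrix.vecMul_diagonal, mul_comm]
      rw [h3] at h2
      have h4 : (Matrix.vecMul v (M.map (fun x : ℤ => (x : ℂ)))) j = ∑ i, v i * (M i j : ℂ) := by
        simp [Matrix.vecMul, dotProduct]
      rw [h4] at h2
      exact (sub_eq_zero.1 h2).symm
    let l : Q →ₗ[ℤ] ℂ := b.constr ℤ v
    have hl0 : l ≠ 0 := by
      intro hl
      apply hv0
      funext j
      have h5 : l (b j) = v j := b.constr_basis ℤ v j
      rw [← h5, hl]
      rfl
    have hl1 : l.comp (τ : Q →ₗ[ℤ] Q) = (LinearMap.mulLeft ℤ μ).comp l := by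
      refine b.ext fun j => ?_
      have h6 : τ (b j) = ∑ i, M i j • b i := by
        have h7 : ∀ i, M i j = b.repr (τ (b j)) i := by
          intro i
          rw [hM, LinearMap.toMatrixAlgEquiv_apply]
          rfl
        rw [Finset.sum_congr rfl fun i _ => by rw [h7 i]]
        exact (b.sum_repr (τ (b j))).symm
      have h8 : ∀ i, l (b i) = v i := fun i => b.constr_basis ℤ v i
      rw [LinearMap.comp_apply, LinearMap.comp_apply, LinearEquiv.coe_coe, h6, map_sum,
        LinearMap.mulLeft_apply, h8, ← hv1]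
      refine Finset.sum_congr rfl fun i _ => ?_
      rw [map_smul, h8, zsmul_eq_mul, mul_comm]
    exact h l μ hl0 fun x => by
      have := LinearMap.congr_fun hl1 x
      simpa using this
  obtain ⟨N, hN, hz⟩ := unipotent_power _ M hdet hroot
  have hz' : ((τ : Q →ₗ[ℤ] Q) ^ N - 1) ^ Module.finrank ℤ Q = 0 := by
    apply (LinearMap.toMatrixAlgEquiv b).injective
    rw [map_pow, map_sub, map_pow, map_one, map_zero]
    exact hz
  exact ⟨N, _, hN, hz'⟩

/-- PROOF. `A` modulo torsion is free of some rank `m`, `σ` induces an invertible integer matrix `M` on it; if `μ` is an eigenvalue of `M` over `ℂ` there is a nonzero `l : A →+ ℂ` with `l (σ x) = μ l x` (eigenvector of the transpose), so `|μ| ≤ 1` by `h`. `unipotent_power`: `(σ^N - 1)^m A` is in the torsion subgroup `T`, which is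
finite; choose a multiple `N'` of `N` with `σ^{N'} = 1` on `T` (still `(σ^{N'} - 1)^m A ≤ T`, since `σ^{N'} - 1` is a multiple of `σ^N - 1`): `(σ^{N'} - 1)^{m+1} A = 0`. -/
theorem unipotent_aut {A : Type} [AddCommGroup A] [AddGroup.FG A] (σ : A ≃+ A)
    (h : ∀ (l : A →+ ℂ) (μ : ℂ), l ≠ 0 → (∀ x, l (σ x) = μ * l x) → ‖μ‖ ≤ 1) :
    ∃ N c : ℕ, 1 ≤ N ∧ ∀ x : A, ((endo σ ^ N - 1) ^ c) x = 0 := by
  have : Module.Finite ℤ A := Module.Finite.iff_addGroup_fg.2 inferInstance
  let T : Submodule ℤ A := Submodule.torsion ℤ A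
  let s : A ≃ₗ[ℤ] A := σ.toIntLinearEquiv
  have hsT : ∀ x, s x ∈ T ↔ x ∈ T := by
    intro x
    simp only [T, Submodule.mem_torsion_iff]
    constructor
    · rintro ⟨a, ha⟩
      refine ⟨a, ?_⟩
      apply s.injective
      rw [map_zero, ← ha]
      exact map_zsmul s (a : ℤ) x
    · rintro ⟨a, ha⟩
      refine ⟨a, ?_⟩
      have h1 : s ((a : ℤ) • x) = (a : ℤ) • s x := map_zsmul s (a : ℤ) x
      have h2 : (a : ℤ) • x = 0 := ha
      rw [h2, map_zero] at h1
      exact h1.symm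
  have hmapT : T.map (s : A →ₗ[ℤ] A) = T := by
    ext y
    rw [Submodule.mem_map]
    constructor
    · rintro ⟨x, hx, rfl⟩
      exact (hsT x).2 hx
    · intro hy
      exact ⟨s.symm y, (hsT _).1 (by simpa using hy), by simp⟩
  let τ : (A ⧸ T) ≃ₗ[ℤ] (A ⧸ T) := Submodule.Quotient.equiv T T s hmapT
  have hτ : ∀ x : A, T.mkQ (s x) = τ (T.mkQ x) := fun x => rfl
  have : Module.IsTorsionFree ℤ (A ⧸ T) := inferInstanceAs (Module.IsTorsionFree ℤ (A ⧸ Submodule.torsion ℤ A))
  obtain ⟨N, c, hN, hz⟩ := UniA_free τ (by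
    intro l μ hl hμ
    refine h (l.comp T.mkQ).toAddMonoidHom μ ?_ ?_
    · intro h0
      apply hl
      apply LinearMap.ext
      intro y
      obtain ⟨x, rfl⟩ := T.mkQ_surjective y
      exact DFunLike.congr_fun h0 x
    · intro x
      exact hμ (T.mkQ x))
  -- `T` is finite
  have : Module.Finite ℤ T := Module.Finite.of_fg (IsNoetherian.noetherian T)
  have hTt : Module.IsTorsion ℤ T := by
    intro x
    obtain ⟨a, ha⟩ := (Submodule.mem_torsion_iff _).1 x.2
    exact ⟨a, Subtype.ext ha⟩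
  have : Finite T := Module.finite_of_fg_torsion T hTt
  let e : Equiv.Perm T := Equiv.Perm.subtypePerm (p := fun x => x ∈ T) (σ.toEquiv : Equiv.Perm A)
    (fun x => hsT x)
  have hK : 0 < orderOf e := orderOf_pos e
  set K := orderOf e with hKd
  have heK : e ^ K = 1 := pow_orderOf_eq_one e
  have hpow : ∀ (k : ℕ) (x : T), (endo σ ^ k) (x : A) = ((e ^ k) x : T) := by
    intro k
    induction k with
    | zero => intro x; rfl
    | succ k ih =>
      intro x
      rw [pow_succ', pow_succ', UniA_mul, ih, Equiv.Perm.mul_apply]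
      rfl
  have hfix : ∀ x ∈ T, (endo σ ^ (N * K)) x = x := by
    intro x hx
    have h1 := hpow (N * K) ⟨x, hx⟩
    have h2 : e ^ (N * K) = 1 := by rw [mul_comm, pow_mul, heK, one_pow]
    rw [h2] at h1
    exact h1
  -- compatibility with the quotient
  have hR1 : ∀ (f f' : AddMonoid.End A) (g g' : Module.End ℤ (A ⧸ T)),
      (∀ x, T.mkQ (f x) = g (T.mkQ x)) → (∀ x, T.mkQ (f' x) = g' (T.mkQ x)) →
      ∀ x, T.mkQ ((f * f') x) = (g * g') (T.mkQ x) := by
    intro f f' g g' h1 h2 x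
    rw [UniA_mul, h1, h2]
    rfl
  have hR2 : ∀ (f : AddMonoid.End A) (g : Module.End ℤ (A ⧸ T)),
      (∀ x, T.mkQ (f x) = g (T.mkQ x)) → ∀ k : ℕ, ∀ x, T.mkQ ((f ^ k) x) = (g ^ k) (T.mkQ x) := by
    intro f g h1 k
    induction k with
    | zero => intro x; rfl
    | succ k ih =>
      rw [pow_succ, pow_succ]
      exact hR1 _ _ _ _ ih h1
  have hR3 : ∀ (f : AddMonoid.End A) (g : Module.End ℤ (A ⧸ T)),
      (∀ x, T.mkQ (f x) = g (T.mkQ x)) → ∀ x, T.mkQ ((f - 1) x) = (g - 1) (T.mkQ x) := by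
    intro f g h1 x
    have h2 : (f - 1 : AddMonoid.End A) x = f x - x := rfl
    rw [h2, map_sub, h1]
    rfl
  have hbase : ∀ x, T.mkQ ((endo σ) x) = (τ : Module.End ℤ (A ⧸ T)) (T.mkQ x) := fun x => hτ x
  have hmain : ∀ x, ((endo σ ^ N - 1) ^ c) x ∈ T := by
    intro x
    rw [← Submodule.ker_mkQ T, LinearMap.mem_ker]
    rw [hR2 _ _ (hR3 _ _ (hR2 _ _ hbase N)) c x, hz]
    rfl
  refine ⟨N * K, c + 1, Nat.mul_pos hN hK, ?_⟩
  intro x
  obtain ⟨S, hS⟩ : ∃ S : AddMonoid.End A, endo σ ^ (N * K) - 1 = (endo σ ^ N - 1) * S ∧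
      Commute (endo σ ^ N - 1) S := by
    refine ⟨∑ i ∈ Finset.range K, (endo σ ^ N) ^ i, ?_, ?_⟩
    · rw [pow_mul]
      exact (mul_geom_sum _ _).symm
    · refine Commute.sum_right _ _ _ fun i _ => ?_
      exact (((Commute.refl (endo σ ^ N)).pow_right i).sub_left (Commute.one_left _))
  have h1 : ((endo σ ^ (N * K) - 1) ^ c) x ∈ T := by
    rw [hS.1, hS.2.mul_pow, UniA_mul]
    exact hmain _
  rw [pow_succ', UniA_mul]
  have h2 : ∀ y : A, (endo σ ^ (N * K) - 1 : AddMonoid.End A) y = (endo σ ^ (N * K)) y - y :=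
    fun y => rfl
  rw [h2, hfix _ h1, sub_self]

end PDG
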