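import Pool.Agent.W_3f3beb_h76.PnA

/-! # The series `U_i` -/

set_option autoImplicit false

open scoped Classical

namespace PDG

variable {L : Type} [Group L] (p : ℕ) [Fact p.Prime]

/-- the standing hypotheses on `T` -/
structure TT (r : ℕ) (T : Subgroup L) : Prop where
  fg : Group.FG L
  rk : ∀ H : Subgroup L, H.FiniteIndex → dp p H ≤ r
  pn : PN p T
  com : ∀ N N' : Subgroup L, PN p N → PN p N' → N' ≤ N → ⁅N, T⁆ ≤ pw (p ^ 2) N ⊔ N'

/-- `U_0 = T`, `U_{i+1}` is the intersection of all normal subgroups of `p`-power index which contain the `p`-th powers of the elements of `U_i` -/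
def Uu (T : Subgroup L) : ℕ → Subgroup L
  | 0 => T
  | i + 1 => ⨅ N : {N : Subgroup L // PN p N ∧ ∀ x ∈ Uu T i, x ^ p ∈ N}, N.1

open scoped commutatorElement in
/-- the index of a subgroup with elementary abelian quotient -/
theorem UuA_index (hL : Group.FG L) (U N : Subgroup L) (hN : N.Normal) (hNU : N ≤ U)
    (hcomm : ⁅U, U⁆ ≤ N) (hp : ∀ x ∈ U, x ^ p ∈ N) (hfin : U.FiniteIndex) :
    N.relIndex U ≤ p ^ dp p U := by
  haveI := hN
  haveI := hfin
  haveI := hL
  have hUfg : Group.FG U := inferInstance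
  let V := U ⧸ (N.subgroupOf U)
  let cg : CommGroup V :=
    { (inferInstance : Group V) with
      mul_comm := by
        intro a b
        induction a using QuotientGroup.induction_on with
        | H a =>
          induction b using QuotientGroup.induction_on with
          | H b =>
            rw [← QuotientGroup.mk_mul, ← QuotientGroup.mk_mul, QuotientGroup.eq,
              Subgroup.mem_subgroupOf]
            have : ((a * b)⁻¹ * (b * a) : U).1 = ⁅(b.1)⁻¹, (a.1)⁻¹⁆ := by
              simp [commutatorElement_def, mul_assoc]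
            rw [this]
            exact hcomm (Subgroup.commutator_mem_commutator (U.inv_mem b.2) (U.inv_mem a.2)) }
  have h1 := @card_elementary_le U _ p _ hUfg V cg (QuotientGroup.mk' (N.subgroupOf U))
    (QuotientGroup.mk'_surjective _) (by
      intro x
      induction x using QuotientGroup.induction_on with
      | H x =>
        have : ((x ^ p : U) : V) = 1 := by
          rw [QuotientGroup.eq_one_iff, Subgroup.mem_subgroupOf]
          exact hp x.1 x.2
        exact this)
  exact h1.1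

/-- finite intersections of `PN` subgroups -/
theorem UuA_sInf (S : Set (Subgroup L)) (hS : S.Finite) (h : ∀ N ∈ S, PN p N) :
    PN p (sInf S) := by
  induction S, hS using Set.Finite.induction_on with
  | empty =>
    rw [sInf_empty]
    exact ⟨inferInstance, 0, by simp⟩
  | insert _ _ ih =>
    rw [sInf_insert]
    exact PN.inf p (h _ (Set.mem_insert _ _)) (ih (fun N hN => h N (Set.mem_insert_of_mem _ hN)))

variable {p} {r : ℕ} {T : Subgroup L}

theorem UuA_anti (i : ℕ) (h : PN p (Uu p T i)) : Uu p T (i + 1) ≤ Uu p T i :=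
  iInf_le (fun N : {N : Subgroup L // PN p N ∧ ∀ x ∈ Uu p T i, x ^ p ∈ N} => N.1)
    ⟨Uu p T i, h, fun _ hx => (Uu p T i).pow_mem hx p⟩

theorem UuA_aux (h : TT p r T) (i : ℕ) : PN p (Uu p T i) ∧ Uu p T i ≤ T := by
  induction i with
  | zero => exact ⟨h.pn, le_refl _⟩
  | succ i ih =>
    obtain ⟨hPN, hle⟩ := ih
    set U := Uu p T i with hU
    have hanti : Uu p T (i + 1) ≤ U := UuA_anti i hPN
    refine ⟨?_, hanti.trans hle⟩
    set S : Set (Subgroup L) := {M | ∃ N : Subgroup L, (PN p N ∧ ∀ x ∈ U, x ^ p ∈ N) ∧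
      M = N ⊓ U} with hS
    have hSPN : ∀ M ∈ S, PN p M := by
      rintro M ⟨N, ⟨hN, -⟩, rfl⟩
      exact PN.inf p hN hPN
    have hUfin := PN.finiteIndex p hPN
    have hSfin : S.Finite := by
      apply (finite_index_le h.fg (U.index * p ^ r)).subset
      rintro M ⟨N, ⟨hN, hx⟩, rfl⟩
      have hM : PN p (N ⊓ U) := PN.inf p hN hPN
      have hMfin := PN.finiteIndex p hM
      refine ⟨hMfin.index_ne_zero, ?_⟩
      have hcomm : ⁅U, U⁆ ≤ N ⊓ U := by
        calc ⁅U, U⁆ ≤ ⁅U, T⁆ := Subgroup.commutator_mono le_rfl hle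
          _ ≤ pw (p ^ 2) U ⊔ (N ⊓ U) := h.com U (N ⊓ U) hPN hM inf_le_right
          _ ≤ N ⊓ U := by
            apply sup_le _ le_rfl
            rw [pw, Subgroup.closure_le]
            rintro y ⟨x, hxU, rfl⟩
            rw [pow_two, pow_mul]
            exact ⟨N.pow_mem (hx x hxU) p, U.pow_mem (U.pow_mem hxU p) p⟩
      have h1 := UuA_index p h.fg U (N ⊓ U) hM.1 inf_le_right hcomm
        (fun x hxU => ⟨hx x hxU, U.pow_mem hxU p⟩) hUfin
      have h2 : (N ⊓ U).relIndex U * U.index = (N ⊓ U).index :=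
        Subgroup.relIndex_mul_index inf_le_right
      show (N ⊓ U).index ≤ U.index * p ^ r
      rw [← h2, mul_comm]
      apply Nat.mul_le_mul_left
      exact h1.trans (Nat.pow_le_pow_right (Fact.out : p.Prime).pos (h.rk U hUfin))
    have heq : Uu p T (i + 1) = sInf S := by
      apply le_antisymm
      · apply le_sInf
        rintro M ⟨N, hN, rfl⟩
        exact le_inf (iInf_le (fun N : {N : Subgroup L // PN p N ∧ ∀ x ∈ U, x ^ p ∈ N} => N.1)
          ⟨N, hN⟩) hanti
      · apply le_iInf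
        intro N
        have : sInf S ≤ N.1 ⊓ U := sInf_le ⟨N.1, N.2, rfl⟩
        exact this.trans inf_le_left
    rw [heq]
    exact UuA_sInf p S hSfin hSPN

/-- PROOF. Induction on `i`, together with `U_i ≤ T`. For `N` with `PN p N`, `x^p ∈ N` for `x ∈ U_i`: `N ⊓ U_i` has the same property (`U_i` is normal of `p`-power index and `x^p ∈ U_i`). By `com` for `U_i` and `N ⊓ U_i`: `⁅U_i, U_i⁆ ≤ ⁅U_i, T⁆ ≤ pw (p^2) U_i ⊔ (N ⊓ U_i) ≤ N ⊓ U_i` (`x^(p^2) = (x^p)^p`). So `U_i/(N ⊓ U_i)` is elementary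
abelian, of order `≤ p^r` (`card_elementary_le`), and `[L : N ⊓ U_i] ≤ [L : U_i] p^r`: finitely many subgroups (`finite_index_le`), `U_{i+1}` is the intersection of finitely many `PN` subgroups (`PN.inf`) (the intersection of the `N ⊓ U_i` equals `U_{i+1}` as `U_i` itself is one of the `N`). -/
theorem Uu_pn (h : TT p r T) (i : ℕ) : PN p (Uu p T i) := (UuA_aux h i).1

theorem Uu_anti (h : TT p r T) (i : ℕ) : Uu p T (i + 1) ≤ Uu p T i := UuA_anti i (Uu_pn h i)

theorem Uu_pow (i : ℕ) (x : L) (hx : x ∈ Uu p T i) : x ^ p ∈ Uu p T (i + 1) := by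
  have : x ^ p ∈ (⨅ N : {N : Subgroup L // PN p N ∧ ∀ x ∈ Uu p T i, x ^ p ∈ N}, N.1) := by
    rw [Subgroup.mem_iInf]
    exact fun N => N.2.2 x hx
  exact this

/-- PROOF. the right side is normal, of `p`-power index, and contains all `x ^ p`. -/
theorem Uu_le (h : TT p r T) (i : ℕ) (N : Subgroup L) (hN : PN p N) :
    Uu p T (i + 1) ≤ pw p (Uu p T i) ⊔ N := by
  haveI := hN.1
  haveI := pw_normal p (Uu p T i) (Uu_pn h i).1
  have key : PN p (pw p (Uu p T i) ⊔ N) ∧ ∀ x ∈ Uu p T i, x ^ p ∈ pw p (Uu p T i) ⊔ N :=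
    ⟨PN.of_le p hN inferInstance le_sup_right,
      fun x hx => Subgroup.mem_sup_left (Subgroup.subset_closure ⟨x, hx, rfl⟩)⟩
  exact iInf_le (fun N : {N : Subgroup L // PN p N ∧ ∀ x ∈ Uu p T i, x ^ p ∈ N} => N.1)
    ⟨pw p (Uu p T i) ⊔ N, key⟩

end PDG
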