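import Pool.Agent.W_3f3beb_h76.UuC
import Pool.Agent.W_3f3beb_h76.UuD

/-! # Stabilization of the sections -/

set_option autoImplicit false

open scoped Classical commutatorElement

namespace PDG

variable {L : Type} [Group L] {p : ℕ} [Fact p.Prime] {r : ℕ} {T : Subgroup L}

theorem Uu_anti' (h : TT p r T) {i j : ℕ} (hij : i ≤ j) : Uu p T j ≤ Uu p T i :=
  UuC_anti h hij

theorem UuB_relIndex (h : TT p r T) (i : ℕ) :
    ∃ m : ℕ, (Uu p T (i + 1)).relIndex (Uu p T i) = p ^ m := by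
  obtain ⟨k, hk⟩ := (Uu_pn h (i + 1)).2
  have h1 := Subgroup.relIndex_mul_index (Uu_anti h i)
  have h2 : (Uu p T (i + 1)).relIndex (Uu p T i) ∣ p ^ k := by
    rw [← hk, ← h1]; exact Dvd.intro _ rfl
  obtain ⟨m, -, hm⟩ := (Nat.dvd_prime_pow (Fact.out : p.Prime)).1 h2
  exact ⟨m, hm⟩

/-- the `p`-th power map modulo `U_{i+2}` -/
theorem UuB_hom (h : TT p r T) (i : ℕ) (hn : (Uu p T (i + 2)).Normal) :
    ∃ f : Uu p T i →* L ⧸ Uu p T (i + 2),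
      ∀ x : Uu p T i, f x = QuotientGroup.mk' (Uu p T (i + 2)) (x.1 ^ p) := by
  refine ⟨{ toFun := fun x => QuotientGroup.mk' (Uu p T (i + 2)) (x.1 ^ p)
            map_one' := by simp
            map_mul' := ?_ }, fun x => rfl⟩
  intro x y
  have hc : Commute (QuotientGroup.mk' (Uu p T (i + 2)) x.1)
      (QuotientGroup.mk' (Uu p T (i + 2)) y.1) := by
    apply UuC_comm
    have := Uu_com h i i (Subgroup.commutator_mem_commutator x.2 y.2)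
    exact Uu_anti' h (by omega) this
  simp only [Subgroup.coe_mul, map_pow, map_mul]
  exact hc.mul_pow p

theorem UuB_step (h : TT p r T) (i : ℕ) :
    (Uu p T (i + 2)).relIndex (Uu p T (i + 1)) ≤ (Uu p T (i + 1)).relIndex (Uu p T i) ∧
    ((Uu p T (i + 2)).relIndex (Uu p T (i + 1)) = (Uu p T (i + 1)).relIndex (Uu p T i) →
      ∀ x ∈ Uu p T i, x ∉ Uu p T (i + 1) → x ^ p ∉ Uu p T (i + 2)) := by
  have hn := (Uu_pn h (i + 2)).1
  obtain ⟨f, hf⟩ := UuB_hom h i hn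
  have hker : (Uu p T (i + 1)).subgroupOf (Uu p T i) ≤ f.ker := by
    intro x hx
    rw [MonoidHom.mem_ker, hf, ← MonoidHom.mem_ker, QuotientGroup.ker_mk']
    exact Uu_pow (i + 1) _ hx
  have hrange : f.range = (Uu p T (i + 1)).map (QuotientGroup.mk' (Uu p T (i + 2))) := by
    apply le_antisymm
    · rintro _ ⟨x, rfl⟩
      rw [hf]
      exact ⟨x.1 ^ p, Uu_pow i _ x.2, rfl⟩
    · refine (Subgroup.map_mono (Uu_le h i (Uu p T (i + 2)) (Uu_pn h (i + 2)))).trans ?_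
      rw [Subgroup.map_sup]
      apply sup_le
      · rw [pw, MonoidHom.map_closure, Subgroup.closure_le]
        rintro _ ⟨_, ⟨x, hx, rfl⟩, rfl⟩
        exact ⟨⟨x, hx⟩, hf _⟩
      · rw [QuotientGroup.map_mk'_self]
        exact bot_le
  have hcard : f.ker.index = (Uu p T (i + 2)).relIndex (Uu p T (i + 1)) := by
    rw [Subgroup.index_ker, hrange, ← Subgroup.relIndex_ker, QuotientGroup.ker_mk']
  have hne : (Uu p T (i + 1)).relIndex (Uu p T i) ≠ 0 := by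
    obtain ⟨m, hm⟩ := UuB_relIndex h i
    rw [hm]
    exact pow_ne_zero _ (Fact.out : p.Prime).ne_zero
  haveI : ((Uu p T (i + 1)).subgroupOf (Uu p T i)).FiniteIndex := ⟨hne⟩
  constructor
  · rw [← hcard]
    exact Subgroup.index_antitone hker
  · intro heq x hx hx1 hxp
    have h1 : f.ker = (Uu p T (i + 1)).subgroupOf (Uu p T i) := by
      have h2 := Subgroup.relIndex_mul_index hker
      rw [hcard, heq] at h2
      have h3 : ((Uu p T (i + 1)).subgroupOf (Uu p T i)).relIndex f.ker = 1 := by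
        have h4 : ((Uu p T (i + 1)).subgroupOf (Uu p T i)).index =
          (Uu p T (i + 1)).relIndex (Uu p T i) := rfl
        rw [h4] at h2
        exact Nat.eq_of_mul_eq_mul_right (Nat.pos_of_ne_zero hne) (by rw [h2, one_mul])
      exact le_antisymm (Subgroup.relIndex_eq_one.1 h3) hker
    have h5 : (⟨x, hx⟩ : Uu p T i) ∈ f.ker := by
      rw [MonoidHom.mem_ker, hf, ← MonoidHom.mem_ker, QuotientGroup.ker_mk']
      exact hxp
    rw [h1] at h5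
    exact hx1 h5

/-- PROOF. `V_i = U_i/U_{i+1}` is elementary abelian (`Uu_com` with `j = i`: `⁅U_i, U_i⁆ ≤ U_{2i+2} ≤ U_{i+2}`), of order `p^{m_i}`, `m_i ≤ r` (`card_elementary_le`), `m_i ≥ 1` (`Uu_ne`). Since `U_i/U_{i+2}` is abelian, `x ↦ x^p` induces a homomorphism `V_i → V_{i+1}`, surjective by `Uu_le` with `N = U_{i+2}`. So `m_{i+1} ≤ m_i`, eventually constant,
`m_i = m` for `i ≥ i₀`, and then the homomorphism is bijective: `x ∈ U_i`, `x ∉ U_{i+1}` implies `x^p ∉ U_{i+2}`. -/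
theorem Uu_stable (h : TT p r T) (hinf : {N : Subgroup L | PN p N}.Infinite) :
    ∃ m i₀ : ℕ, 1 ≤ m ∧ ∀ i, i₀ ≤ i → (Uu p T (i + 1)).relIndex (Uu p T i) = p ^ m ∧
      ∀ x ∈ Uu p T i, x ∉ Uu p T (i + 1) → x ^ p ∉ Uu p T (i + 2) := by
  have hp : p.Prime := Fact.out
  choose m hm using UuB_relIndex h
  have hanti : ∀ i, m (i + 1) ≤ m i := by
    intro i
    have h1 := (UuB_step h i).1
    rw [hm, hm] at h1
    exact (Nat.pow_le_pow_iff_right hp.one_lt).1 h1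
  have hA : Antitone m := antitone_nat_of_succ_le hanti
  obtain ⟨i₀, hi₀⟩ : ∃ i₀, ∀ i, i₀ ≤ i → m i = m i₀ := by
    obtain ⟨n, ⟨i₀, rfl⟩, hmin⟩ := WellFounded.has_min (Nat.lt_wfRel.wf) (Set.range m) ⟨m 0, 0, rfl⟩
    refine ⟨i₀, fun i hi => le_antisymm (hA hi) ?_⟩
    exact not_lt.1 (hmin (m i) ⟨i, rfl⟩)
  refine ⟨m i₀, i₀, ?_, fun i hi => ⟨?_, ?_⟩⟩
  · by_contra hcon
    have h0 : m i₀ = 0 := by omega
    have h1 := hm i₀
    rw [h0, pow_zero, Subgroup.relIndex_eq_one] at h1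
    exact Uu_ne h hinf i₀ (le_antisymm (Uu_anti h i₀) h1)
  · rw [hm, hi₀ i hi]
  · apply (UuB_step h i).2
    rw [hm i, hm (i + 1), hi₀ i hi, hi₀ (i + 1) (by omega)]

/-- PROOF. `c = ⁅x, y⁆ = x y x⁻¹ y⁻¹`, `y x y⁻¹ = c⁻¹ x`, `y x^p y⁻¹ = (c⁻¹ x)^p ≡ c^{-p} x^p` modulo `⁅U_l, U_i⁆ ≤ U_{l+i+2} ≤ U_{l+2}` (`Uu_com`; modulo the normal subgroup `U_{l+2}` the elements `c` and `x` commute). So `⁅x^p, y⁆ ≡ x^p (c^{-p} x^p)⁻¹ = c^p` modulo `U_{l+2}`, and `c^p ∈ U_{l+1}`,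
`c^p ∉ U_{l+2}` (`hst`). -/
theorem com_pow_step (h : TT p r T) (i₀ : ℕ)
    (hst : ∀ i, i₀ ≤ i → ∀ x ∈ Uu p T i, x ∉ Uu p T (i + 1) → x ^ p ∉ Uu p T (i + 2))
    (i l : ℕ) (hl : i₀ ≤ l) (x y : L) (hx : x ∈ Uu p T i)
    (h1 : ⁅x, y⁆ ∈ Uu p T l) (h2 : ⁅x, y⁆ ∉ Uu p T (l + 1)) :
    ⁅x ^ p, y⁆ ∈ Uu p T (l + 1) ∧ ⁅x ^ p, y⁆ ∉ Uu p T (l + 2) := by
  haveI := (Uu_pn h (l + 2)).1
  set W := Uu p T (l + 2) with hW
  set c := ⁅x, y⁆ with hc
  set X := QuotientGroup.mk' W x with hX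
  set Y := QuotientGroup.mk' W y with hY
  set C := QuotientGroup.mk' W c with hC
  have hcx : Commute C X := by
    apply UuC_comm
    have := Uu_com h l i (Subgroup.commutator_mem_commutator h1 hx)
    exact Uu_anti' h (by omega) this
  have hCX : C = X * Y * X⁻¹ * Y⁻¹ := by
    rw [hC, hc, map_commutatorElement, commutatorElement_def]
  have h3 : Y * X * Y⁻¹ = C⁻¹ * X := by
    rw [hCX]; group
  have h4 : Y * X ^ p * Y⁻¹ = (C ^ p)⁻¹ * X ^ p := by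
    rw [← conj_pow, h3, (hcx.inv_left).mul_pow, inv_pow]
  have h5 : QuotientGroup.mk' W ⁅x ^ p, y⁆ = QuotientGroup.mk' W (c ^ p) := by
    rw [map_commutatorElement, commutatorElement_def, map_pow, map_pow]
    have : X ^ p * Y * (X ^ p)⁻¹ * Y⁻¹ = X ^ p * (Y * X ^ p * Y⁻¹)⁻¹ := by group
    rw [this, h4, mul_inv_rev, inv_inv, mul_inv_cancel_left]
  have h6 : ∃ w ∈ W, ⁅x ^ p, y⁆ = c ^ p * w := by
    refine ⟨(c ^ p)⁻¹ * ⁅x ^ p, y⁆, ?_, by group⟩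
    exact QuotientGroup.eq.1 h5.symm
  obtain ⟨w, hw, hwe⟩ := h6
  have hcp := Uu_pow l c h1
  have hcp' := hst l hl c h1 h2
  rw [hwe]
  refine ⟨Subgroup.mul_mem _ hcp (Uu_anti' h (by omega) hw), fun hcon => hcp' ?_⟩
  exact (Subgroup.mul_mem_cancel_right _ hw).1 hcon

/-- PROOF. iterate `com_pow_step` -/
theorem com_pow_iter (h : TT p r T) (i₀ : ℕ)
    (hst : ∀ i, i₀ ≤ i → ∀ x ∈ Uu p T i, x ∉ Uu p T (i + 1) → x ^ p ∉ Uu p T (i + 2))
    (i l : ℕ) (hl : i₀ ≤ l) (x y : L) (hx : x ∈ Uu p T i)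
    (h1 : ⁅x, y⁆ ∈ Uu p T l) (h2 : ⁅x, y⁆ ∉ Uu p T (l + 1)) (k : ℕ) :
    x ^ p ^ k ∈ Uu p T (i + k) ∧ ⁅x ^ p ^ k, y⁆ ∈ Uu p T (l + k) ∧
      ⁅x ^ p ^ k, y⁆ ∉ Uu p T (l + k + 1) := by
  induction k with
  | zero =>
    simp only [pow_zero, pow_one, add_zero]
    exact ⟨hx, h1, h2⟩
  | succ k ih =>
    obtain ⟨ha, hb, hc⟩ := ih
    have h3 := com_pow_step h i₀ hst (i + k) (l + k) (by omega) _ y ha hb hc
    rw [pow_succ, pow_mul]
    exact ⟨Uu_pow (i + k) _ ha, h3.1, h3.2⟩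

end PDG
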