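import Pool.Agent.W_3f3beb_h76.UuA

/-! # Commutators of the U_i -/

set_option autoImplicit false

open scoped Classical

namespace PDG

variable {L : Type} [Group L] {p : ℕ} [Fact p.Prime] {r : ℕ} {T : Subgroup L}

theorem UuC_anti (h : TT p r T) {i j : ℕ} (hij : i ≤ j) : Uu p T j ≤ Uu p T i := by
  induction j, hij using Nat.le_induction with
  | base => exact le_rfl
  | succ j _ ih => exact (Uu_anti h j).trans ih

open scoped commutatorElement in
/-- modulo a normal subgroup, commuting elements -/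
theorem UuC_comm {W : Subgroup L} [W.Normal] {x y : L} (h : ⁅x, y⁆ ∈ W) :
    (QuotientGroup.mk' W x) * (QuotientGroup.mk' W y) =
      (QuotientGroup.mk' W y) * (QuotientGroup.mk' W x) := by
  have h1 : QuotientGroup.mk' W ⁅x, y⁆ = 1 := by
    rw [← MonoidHom.mem_ker, QuotientGroup.ker_mk']; exact h
  rw [map_commutatorElement] at h1
  exact commutatorElement_eq_one_iff_mul_comm.1 h1

open scoped commutatorElement in
theorem UuC_of_comm {W : Subgroup L} [W.Normal] {x y : L}
    (h : (QuotientGroup.mk' W x) * (QuotientGroup.mk' W y) =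
      (QuotientGroup.mk' W y) * (QuotientGroup.mk' W x)) : ⁅x, y⁆ ∈ W := by
  rw [← QuotientGroup.ker_mk' W, MonoidHom.mem_ker, map_commutatorElement]
  exact commutatorElement_eq_one_iff_mul_comm.2 h

open scoped commutatorElement in
/-- PROOF. Induction on `j`, for all `i`. `j = 0`: `⁅U_i, T⁆ ≤ pw (p^2) U_i ⊔ U_{i+2} ≤ U_{i+2}` (`com`, `Uu_pow` twice). `j → j+1`: by `Uu_le` (with `N = U_{i+j+3}`) it is enough that `⁅x, y^p⁆ ∈ U_{i+j+3}` for `x ∈ U_i`, `y ∈ U_j` (modulo the normal subgroup `U_{i+j+3}` the element `x` commutes with the generators, so with everything). `x y x⁻¹ = y c`, with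
`c ∈ ⁅U_j, U_i⁆ ≤ U_{i+j+2}`; `x y^p x⁻¹ = (y c)^p ≡ y^p c^p` modulo `⁅U_{i+j+2}, U_j⁆ ≤ U_{(i+j+2)+j+2} ≤ U_{i+j+3}` (induction hypothesis), and `c^p ∈ U_{i+j+3}`. -/
theorem UuC_main (h : TT p r T) (j : ℕ) : ∀ i : ℕ,
    ⁅Uu p T i, Uu p T j⁆ ≤ Uu p T (i + j + 2) := by
  induction j with
  | zero =>
    intro i
    have h1 := h.com (Uu p T i) (Uu p T (i + 2)) (Uu_pn h i) (Uu_pn h (i + 2))
      (UuC_anti h (by omega))
    refine h1.trans (sup_le ?_ le_rfl)
    rw [pw, Subgroup.closure_le]
    rintro y ⟨x, hx, rfl⟩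
    rw [pow_two, pow_mul]
    exact Uu_pow (i + 1) _ (Uu_pow i x hx)
  | succ j ih =>
    intro i
    set W := Uu p T (i + (j + 1) + 2) with hW
    haveI : W.Normal := (Uu_pn h _).1
    rw [Subgroup.commutator_le]
    intro x hx z hz
    have hz' : z ∈ pw p (Uu p T j) ⊔ W := Uu_le h j W (Uu_pn h _) hz
    have hle : pw p (Uu p T j) ⊔ W ≤
        (Subgroup.centralizer {QuotientGroup.mk' W x}).comap (QuotientGroup.mk' W) := by
      apply sup_le
      · rw [pw, Subgroup.closure_le]
        rintro _ ⟨y, hy, rfl⟩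
        rw [SetLike.mem_coe, Subgroup.mem_comap, Subgroup.mem_centralizer_singleton_iff]
        set X := QuotientGroup.mk' W x
        set Y := QuotientGroup.mk' W y
        set c : L := ⁅y⁻¹, x⁆ with hc
        set C := QuotientGroup.mk' W c with hC
        have hcm : c ∈ Uu p T (i + j + 2) := by
          apply ih i
          rw [Subgroup.commutator_comm]
          exact Subgroup.commutator_mem_commutator ((Uu p T j).inv_mem hy) hx
        have hcy : C * Y = Y * C := by
          apply UuC_comm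
          have h1 := ih (i + j + 2) (Subgroup.commutator_mem_commutator hcm hy)
          exact UuC_anti h (by omega) h1
        have hCp : C ^ p = 1 := by
          rw [hC, ← map_pow, ← MonoidHom.mem_ker, QuotientGroup.ker_mk']
          have := Uu_pow (i + j + 2) c hcm
          have e : i + j + 2 + 1 = i + (j + 1) + 2 := by ring
          rw [e] at this
          exact this
        have hXY : X * Y * X⁻¹ = Y * C := by
          have : x * y * x⁻¹ = y * c := by
            rw [hc, commutatorElement_def]; group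
          rw [hC, ← map_mul (QuotientGroup.mk' W) y c, ← this, map_mul, map_mul, map_inv]
        have h3 : X * Y ^ p * X⁻¹ = Y ^ p := by
          rw [← conj_pow, hXY, (show Commute Y C from hcy.symm).mul_pow, hCp, mul_one]
        rw [map_pow]
        rw [mul_inv_eq_iff_eq_mul] at h3
        exact h3.symm
      · intro w hw
        rw [Subgroup.mem_comap, Subgroup.mem_centralizer_singleton_iff]
        have : QuotientGroup.mk' W w = 1 := by
          rw [← MonoidHom.mem_ker, QuotientGroup.ker_mk']; exact hw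
        rw [this]; simp
    have h4 := hle hz'
    rw [Subgroup.mem_comap, Subgroup.mem_centralizer_singleton_iff] at h4
    exact UuC_of_comm h4.symm

/-- PROOF. Induction on `j`, for all `i`. `j = 0`: `⁅U_i, T⁆ ≤ pw (p^2) U_i ⊔ U_{i+2} ≤ U_{i+2}` (`com`, `Uu_pow` twice). `j → j+1`: by `Uu_le` (with `N = U_{i+j+3}`) it is enough that `⁅x, y^p⁆ ∈ U_{i+j+3}` for `x ∈ U_i`, `y ∈ U_j` (modulo the normal subgroup `U_{i+j+3}` the element `x` commutes with the generators, so with everything). `x y x⁻¹ = y c`, with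
`c ∈ ⁅U_j, U_i⁆ ≤ U_{i+j+2}`; `x y^p x⁻¹ = (y c)^p ≡ y^p c^p` modulo `⁅U_{i+j+2}, U_j⁆ ≤ U_{(i+j+2)+j+2} ≤ U_{i+j+3}` (induction hypothesis), and `c^p ∈ U_{i+j+3}`. -/
theorem Uu_com (h : TT p r T) (i j : ℕ) : ⁅Uu p T i, Uu p T j⁆ ≤ Uu p T (i + j + 2) :=
  UuC_main h j i

end PDG
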